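import Pool.Agent.AIM3.PM

/-!
# Loops of class three with abelian inner mapping group: lower bounds for the orders (MP_f8f515_al)
-/

set_option autoImplicit false
set_option linter.unusedVariables false
set_option linter.unusedSectionVars false

namespace Pool.Agent.AIM3

open scoped commutatorElement

section Cnt
variable {G : Type} [Group G] [Finite G] {W : Type} [AddCommGroup W]

theorem cnt_lt {S' S : Subgroup G} (h : S' ≤ S) {g : G} (hg : g ∈ S) (hg' : g ∉ S') :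
    2 * Nat.card S' ≤ Nat.card S := by
  obtain ⟨k, hk⟩ := Subgroup.card_dvd_of_le h
  have hpos : 0 < Nat.card S := Nat.card_pos
  have hpos' : 0 < Nat.card S' := Nat.card_pos
  have hne : Nat.card S' ≠ Nat.card S := by
    intro he
    have : S' = S := Subgroup.eq_of_le_of_card_ge h he.ge
    exact hg' (this ▸ hg)
  have hk2 : 2 ≤ k := by
    rcases k with _ | _ | k
    · simp at hk; omega
    · simp at hk; omega
    · omega
  rw [hk, mul_comm]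
  exact Nat.mul_le_mul_left _ hk2

/-- kernel of an additive function on a subgroup -/
def kerOn (S : Subgroup G) (f : G → W) (hf : ∀ a ∈ S, ∀ b ∈ S, f (a * b) = f a + f b) : Subgroup G where
  carrier := {x | x ∈ S ∧ f x = 0}
  mul_mem' := by
    rintro a b ⟨ha, ha'⟩ ⟨hb, hb'⟩
    exact ⟨S.mul_mem ha hb, by rw [hf a ha b hb, ha', hb', add_zero]⟩
  one_mem' := by
    refine ⟨S.one_mem, ?_⟩
    have h := hf 1 S.one_mem 1 S.one_mem
    rw [mul_one] at h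
    exact (left_eq_add.1 h)
  inv_mem' := by
    rintro a ⟨ha, ha'⟩
    refine ⟨S.inv_mem ha, ?_⟩
    have h := hf 1 S.one_mem 1 S.one_mem
    rw [mul_one] at h
    have h1 : f 1 = 0 := left_eq_add.1 h
    have h2 := hf a ha a⁻¹ (S.inv_mem ha)
    rw [mul_inv_cancel, h1, ha', zero_add] at h2
    exact h2.symm

theorem kerOn_le (S : Subgroup G) (f : G → W) (hf) : kerOn S f hf ≤ S := fun _ hx => hx.1

theorem cnt_step (S : Subgroup G) (f : G → W) (hf : ∀ a ∈ S, ∀ b ∈ S, f (a * b) = f a + f b) {g : G} (hg : g ∈ S)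
    (hfg : f g ≠ 0) : 2 * Nat.card (kerOn S f hf) ≤ Nat.card S :=
  cnt_lt (kerOn_le S f hf) hg (fun h => hfg h.2)

theorem cnt3 (S S' : Subgroup G) (f₁ f₂ f₃ : G → W) (h₁ : ∀ a ∈ S, ∀ b ∈ S, f₁ (a * b) = f₁ a + f₁ b)
    (h₂ : ∀ a ∈ S, ∀ b ∈ S, f₂ (a * b) = f₂ a + f₂ b) (h₃ : ∀ a ∈ S, ∀ b ∈ S, f₃ (a * b) = f₃ a + f₃ b)
    {g₁ g₂ g₃ : G} (hg₁ : g₁ ∈ S) (hg₂ : g₂ ∈ S) (hg₃ : g₃ ∈ S) (n₁ : f₁ g₁ ≠ 0) (n₂ : f₂ g₂ ≠ 0) (n₃ : f₃ g₃ ≠ 0)
    (z12 : f₁ g₂ = 0) (z13 : f₁ g₃ = 0) (z23 : f₂ g₃ = 0) (hS : S' ≤ S)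
    (v : ∀ x ∈ S', f₁ x = 0 ∧ f₂ x = 0 ∧ f₃ x = 0) : 8 * Nat.card S' ≤ Nat.card S := by
  have e1 := cnt_step S f₁ h₁ hg₁ n₁
  set S1 := kerOn S f₁ h₁
  have l1 : S1 ≤ S := kerOn_le S f₁ h₁
  have e2 := cnt_step S1 f₂ (fun a ha b hb => h₂ a (l1 ha) b (l1 hb)) (g := g₂) ⟨hg₂, z12⟩ n₂
  set S2 := kerOn S1 f₂ (fun a ha b hb => h₂ a (l1 ha) b (l1 hb))
  have l2 : S2 ≤ S1 := kerOn_le _ _ _
  have e3 := cnt_step S2 f₃ (fun a ha b hb => h₃ a (l1 (l2 ha)) b (l1 (l2 hb))) (g := g₃) ⟨⟨hg₃, z13⟩, z23⟩ n₃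
  set S3 := kerOn S2 f₃ (fun a ha b hb => h₃ a (l1 (l2 ha)) b (l1 (l2 hb)))
  have l3 : S' ≤ S3 := fun x hx => ⟨⟨⟨hS hx, (v x hx).1⟩, (v x hx).2.1⟩, (v x hx).2.2⟩
  have e4 : Nat.card S' ≤ Nat.card S3 := Nat.card_le_card_of_injective _ (Subgroup.inclusion_injective l3)
  omega
end Cnt

section Add
variable {Q : Type} [Lp Q] {W : Type} [AddCommGroup W]

theorem add_smul_eq (Y : Q → W) (hY : ∀ a b, Y (a * b) = Y a + Y b) (g : MG Q) (y : Q) :
    Y (g • y) = Y (g • (1 : Q)) + Y y := by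
  have h1 : Y 1 = 0 := by
    have h := hY 1 1
    rw [mul_one'] at h
    exact left_eq_add.1 h
  let S : Subgroup (MG Q) :=
    { carrier := {g | ∀ y : Q, Y (g • y) = Y (g • (1 : Q)) + Y y}
      mul_mem' := by
        intro a b ha hb y
        rw [mul_smul, mul_smul, ha (b • y), hb y, ha (b • (1 : Q))]
        abel
      one_mem' := by intro y; rw [one_smul, one_smul, h1, zero_add]
      inv_mem' := by
        intro a ha y
        have e1 := ha (a⁻¹ • y)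
        have e2 := ha (a⁻¹ • (1 : Q))
        rw [smul_inv_smul] at e1 e2
        rw [h1] at e2
        have e3 : Y (a⁻¹ • (1 : Q)) = - Y (a • (1 : Q)) := by
          rw [eq_neg_iff_add_eq_zero, add_comm]; exact e2.symm
        rw [e3, e1]; abel }
  have : g ∈ S := by
    apply MG_ind S
    · intro x y
      show Y (L x • y) = Y (L x • (1 : Q)) + Y y
      rw [L_smul, L_smul, mul_one', hY]
    · intro x y
      show Y (R x • y) = Y (R x • (1 : Q)) + Y y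
      rw [R_smul, R_smul, one_mul', hY, add_comm]
  exact this y

theorem add_N (Y : Q → W) (hY : ∀ a b, Y (a * b) = Y a + Y b) {n : MG Q} (hn : n ∈ N Q) : Y (n • (1 : Q)) = 0 := by
  have h1 : Y 1 = 0 := by
    have h := hY 1 1
    rw [mul_one'] at h
    exact left_eq_add.1 h
  let S : Subgroup (MG Q) :=
    { carrier := {g | Y (g • (1 : Q)) = 0}
      mul_mem' := by
        intro a b ha hb
        show Y ((a * b) • (1 : Q)) = 0
        rw [mul_smul, add_smul_eq Y hY, ha, hb, add_zero]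
      one_mem' := by show Y ((1 : MG Q) • (1 : Q)) = 0; rw [one_smul, h1]
      inv_mem' := by
        intro a ha
        show Y (a⁻¹ • (1 : Q)) = 0
        have e2 := add_smul_eq Y hY a (a⁻¹ • (1 : Q))
        rw [smul_inv_smul, h1, ha, zero_add] at e2
        exact e2.symm }
  have hS : S.Normal := by
    constructor
    intro n hn g
    show Y ((g * n * g⁻¹) • (1 : Q)) = 0
    have e1 : Y (g⁻¹ • (1 : Q)) + Y (g • (1 : Q)) = 0 := by
      have e2 := add_smul_eq Y hY g⁻¹ (g • (1 : Q))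
      rw [inv_smul_smul, h1] at e2
      exact e2.symm
    have hn' : Y (n • (1 : Q)) = 0 := hn
    rw [mul_smul, mul_smul, add_smul_eq Y hY g, add_smul_eq Y hY n, hn', zero_add, add_comm]
    exact e1
  have hle : N Q ≤ S := by
    apply Subgroup.normalClosure_le_normal
    intro h hh
    show Y (h • (1 : Q)) = 0
    have : h • (1 : Q) = 1 := hh
    rw [this, h1]
  exact hle hn
end Add

theorem cnt_main {Q : Type} [Lp Q] [AbInn Q] (hK2 : H Q ≤ K Q 2) [Finite (MG Q)] {W : Type} [AddCommGroup W]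
    {chi : MG Q → W} (hc : IsChi chi) (τ : Q → MG Q) (hτ : ∀ x, τ x ∈ H Q) (c : Q → Q → Q)
    (hcN : ∀ y z, L (c y z) ∈ N Q) (lam : Q → MG Q) (hl : ∀ k, L k ∈ N Q → lam k ∈ H Q ∧ lam k ∈ K Q 1)
    (hrel : ∀ k y, L k ∈ N Q → chi (cj (L y) (lam k)) = - chi ⁅τ y, L k⁆)
    (hA : Alt3 (fun x y z => chi ⁅τ x, L (c y z)⁆)) {x₁ x₂ x₃ : Q} (h : chi ⁅τ x₁, L (c x₂ x₃)⁆ ≠ 0) :
    128 * Nat.card (H Q) ≤ Nat.card (MG Q) ∧ 64 ≤ Nat.card (H Q) := by
  set X : Q → Q → Q → W := fun x y z => chi ⁅τ x, L (c y z)⁆ with hX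
  have hX0 : X x₁ x₂ x₃ ≠ 0 := h
  have s12 : ∀ a b c, X b a c = - X a b c := hA.s12
  have s23 : ∀ a b c, X a c b = - X a b c := hA.s23
  have z12 : ∀ a c, X a a c = 0 := hA.z12
  have z23 : ∀ a c, X c a a = 0 := by
    intro a c
    have e1 : X c a a = - X a c a := s12 a c a
    have e2 : X a c a = - X a a c := s23 a a c
    rw [e1, e2, z12, neg_zero, neg_zero]
  have z13 : ∀ a c, X a c a = 0 := by
    intro a c
    have e2 : X a c a = - X a a c := s23 a a c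
    rw [e2, z12, neg_zero]
  have add1 : ∀ a b c d, X (a * b) c d = X a c d + X b c d := hA.add1
  have add2 : ∀ a b c d, X c (a * b) d = X c a d + X c b d := by
    intro a b c d
    have e0 : X c (a * b) d = - X (a * b) c d := s12 (a * b) c d
    have e1 : X c a d = - X a c d := s12 a c d
    have e2 : X c b d = - X b c d := s12 b c d
    rw [e0, e1, e2, add1]; abel
  have add3 : ∀ a b c d, X c d (a * b) = X c d a + X c d b := by
    intro a b c d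
    have e0 : X c d (a * b) = - X c (a * b) d := s23 c (a * b) d
    have e1 : X c d a = - X c a d := s23 c a d
    have e2 : X c d b = - X c b d := s23 c b d
    rw [e0, e1, e2, add2]; abel
  have X213 : X x₂ x₁ x₃ ≠ 0 := by
    have e : X x₂ x₁ x₃ = - X x₁ x₂ x₃ := s12 x₁ x₂ x₃
    rw [e]; exact neg_ne_zero.2 hX0
  have X312 : X x₃ x₁ x₂ ≠ 0 := by
    have e : X x₃ x₁ x₂ = - X x₁ x₃ x₂ := s12 x₁ x₃ x₂
    have e' : X x₁ x₃ x₂ = - X x₁ x₂ x₃ := s23 x₁ x₂ x₃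
    rw [e, e', neg_neg]; exact hX0
  -- stage a
  have A : 8 * Nat.card (N Q) ≤ Nat.card (⊤ : Subgroup (MG Q)) := by
    apply cnt3 (⊤ : Subgroup (MG Q)) (N Q) (fun g => X (g • (1 : Q)) x₂ x₃) (fun g => X x₁ (g • (1 : Q)) x₃)
      (fun g => X x₁ x₂ (g • (1 : Q)))
      (g₁ := L x₁) (g₂ := L x₂) (g₃ := L x₃)
    · intro a _ b _
      show X ((a * b) • (1 : Q)) x₂ x₃ = _
      rw [mul_smul]
      exact add_smul_eq (fun y => X y x₂ x₃) (fun p q => add1 p q x₂ x₃) a _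
    · intro a _ b _
      show X x₁ ((a * b) • (1 : Q)) x₃ = _
      rw [mul_smul]
      exact add_smul_eq (fun y => X x₁ y x₃) (fun p q => add2 p q x₁ x₃) a _
    · intro a _ b _
      show X x₁ x₂ ((a * b) • (1 : Q)) = _
      rw [mul_smul]
      exact add_smul_eq (fun y => X x₁ x₂ y) (fun p q => add3 p q x₁ x₂) a _
    · exact Subgroup.mem_top _
    · exact Subgroup.mem_top _
    · exact Subgroup.mem_top _
    · show X (L x₁ • (1 : Q)) x₂ x₃ ≠ 0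
      rw [L_smul, mul_one']; exact hX0
    · show X x₁ (L x₂ • (1 : Q)) x₃ ≠ 0
      rw [L_smul, mul_one']; exact hX0
    · show X x₁ x₂ (L x₃ • (1 : Q)) ≠ 0
      rw [L_smul, mul_one']; exact hX0
    · show X (L x₂ • (1 : Q)) x₂ x₃ = 0
      rw [L_smul, mul_one']; exact z12 _ _
    · show X (L x₃ • (1 : Q)) x₂ x₃ = 0
      rw [L_smul, mul_one']; exact z13 _ _
    · show X x₁ (L x₃ • (1 : Q)) x₃ = 0
      rw [L_smul, mul_one']; exact z23 _ _
    · exact le_top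
    · intro n hn
      refine ⟨?_, ?_, ?_⟩
      · exact add_N (fun y => X y x₂ x₃) (fun p q => add1 p q x₂ x₃) hn
      · exact add_N (fun y => X x₁ y x₃) (fun p q => add2 p q x₁ x₃) hn
      · exact add_N (fun y => X x₁ x₂ y) (fun p q => add3 p q x₁ x₂) hn
  -- characters
  have hF : ∀ x, IsChar (fun n => chi ⁅τ x, n⁆) := fun x => F_char hc (hτ x) (hK2 (hτ x))
  let S6 : Subgroup (MG Q) := kerOn (kerOn (kerOn (N Q) (fun n => chi ⁅τ x₁, n⁆) (hF x₁).map_mul)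
    (fun n => chi ⁅τ x₂, n⁆) (fun a ha b hb => (hF x₂).map_mul a ha.1 b hb.1))
    (fun n => chi ⁅τ x₃, n⁆) (fun a ha b hb => (hF x₃).map_mul a ha.1.1 b hb.1.1)
  have B : 8 * Nat.card S6 ≤ Nat.card (N Q) := by
    apply cnt3 (N Q) S6 (fun n => chi ⁅τ x₁, n⁆) (fun n => chi ⁅τ x₂, n⁆) (fun n => chi ⁅τ x₃, n⁆)
      (hF x₁).map_mul (hF x₂).map_mul (hF x₃).map_mul (hcN x₂ x₃) (hcN x₁ x₃) (hcN x₁ x₂) hX0 X213 X312
      (z12 _ _) (z12 _ _) (z13 _ _)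
    · intro x hx; exact hx.1.1.1
    · intro x hx; exact ⟨hx.1.1.2, hx.1.2, hx.2⟩
  -- H < S6
  have hτN : ∀ x, τ x ∈ N Q := fun x => H_le_N (hτ x)
  have hκ1 : ⁅τ x₁, L (c x₂ x₃)⁆ ∈ K Q 1 := comm_K_N (hK2 (hτ x₁)) (hcN _ _)
  have hκN : ⁅τ x₁, L (c x₂ x₃)⁆ ∈ N Q := by
    rw [commutatorElement_def]
    exact mul_mem (mul_mem (mul_mem (hτN _) (hcN _ _)) (inv_mem (hτN _))) (inv_mem (hcN _ _))
  have hzero : ∀ x, ∀ κ ∈ K Q 1, chi ⁅τ x, κ⁆ = 0 := by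
    intro x κ hκ
    have e := K1_comm_N hκ (hτN x)
    have : ⁅τ x, κ⁆ = 1 := by rw [commutatorElement_def, ← e]; group
    rw [this, chi_one hc]
  have C : 2 * Nat.card (H Q) ≤ Nat.card S6 := by
    apply cnt_lt (g := ⁅τ x₁, L (c x₂ x₃)⁆)
    · intro t ht
      exact ⟨⟨⟨H_le_N ht, (hF x₁).map_H t ht⟩, (hF x₂).map_H t ht⟩, (hF x₃).map_H t ht⟩
    · exact ⟨⟨⟨hκN, hzero _ _ hκ1⟩, hzero _ _ hκ1⟩, hzero _ _ hκ1⟩
    · intro hH
      exact hX0 (hc.map_H _ hH hκ1)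
  -- stage c
  have hadd : ∀ k, L k ∈ N Q → ∀ a ∈ H Q, ∀ b ∈ H Q, chi ⁅a * b, L k⁆ = chi ⁅a, L k⁆ + chi ⁅b, L k⁆ :=
    fun k hk a ha b hb => chi_comm_mul_left hc (hK2 ha) (hK2 hb) (H_le_N ha) hk
  have D : 8 * Nat.card (H Q ⊓ K Q 1 : Subgroup (MG Q)) ≤ Nat.card (H Q) := by
    apply cnt3 (H Q) (H Q ⊓ K Q 1) (fun t => chi ⁅t, L (c x₂ x₃)⁆) (fun t => chi ⁅t, L (c x₁ x₃)⁆)
      (fun t => chi ⁅t, L (c x₁ x₂)⁆) (hadd _ (hcN _ _)) (hadd _ (hcN _ _)) (hadd _ (hcN _ _)) (hτ x₁) (hτ x₂) (hτ x₃)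
      hX0 X213 X312 (z12 _ _) (z13 _ _) (z13 _ _) inf_le_left
    intro t ht
    have e : ∀ k, L k ∈ N Q → chi ⁅t, L k⁆ = 0 := by
      intro k hk
      have e := K1_comm_N ht.2 hk
      have : ⁅t, L k⁆ = 1 := by rw [commutatorElement_def, e]; group
      rw [this, chi_one hc]
    exact ⟨e _ (hcN _ _), e _ (hcN _ _), e _ (hcN _ _)⟩
  -- stage d
  have hcj : ∀ x, ∀ a ∈ K Q 1, cj (L x) a ∈ K Q 1 := by
    intro x a ha
    have := (K_normal (Q := Q) 1).conj_mem a ha (L x)⁻¹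
    rw [inv_inv] at this
    exact this
  have hadd2 : ∀ x, ∀ a ∈ (H Q ⊓ K Q 1 : Subgroup (MG Q)), ∀ b ∈ (H Q ⊓ K Q 1 : Subgroup (MG Q)),
      chi (cj (L x) (a * b)) = chi (cj (L x) a) + chi (cj (L x) b) := by
    intro x a ha b hb
    rw [cj_mul]
    exact hc.map_mul _ (hcj x a ha.2) _ (hcj x b hb.2)
  have E : 8 * Nat.card (⊥ : Subgroup (MG Q)) ≤ Nat.card (H Q ⊓ K Q 1 : Subgroup (MG Q)) := by
    apply cnt3 (H Q ⊓ K Q 1) ⊥ (fun t => chi (cj (L x₁) t)) (fun t => chi (cj (L x₂) t)) (fun t => chi (cj (L x₃) t))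
      (hadd2 x₁) (hadd2 x₂) (hadd2 x₃) (g₁ := lam (c x₂ x₃)) (g₂ := lam (c x₁ x₃)) (g₃ := lam (c x₁ x₂))
    · exact hl _ (hcN _ _)
    · exact hl _ (hcN _ _)
    · exact hl _ (hcN _ _)
    · show chi (cj (L x₁) (lam (c x₂ x₃))) ≠ 0
      rw [hrel _ _ (hcN _ _)]; exact neg_ne_zero.2 hX0
    · show chi (cj (L x₂) (lam (c x₁ x₃))) ≠ 0
      rw [hrel _ _ (hcN _ _)]; exact neg_ne_zero.2 X213
    · show chi (cj (L x₃) (lam (c x₁ x₂))) ≠ 0
      rw [hrel _ _ (hcN _ _)]; exact neg_ne_zero.2 X312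
    · show chi (cj (L x₁) (lam (c x₁ x₃))) = 0
      rw [hrel _ _ (hcN _ _)]; exact neg_eq_zero.2 (z12 _ _)
    · show chi (cj (L x₁) (lam (c x₁ x₂))) = 0
      rw [hrel _ _ (hcN _ _)]; exact neg_eq_zero.2 (z12 _ _)
    · show chi (cj (L x₂) (lam (c x₁ x₂))) = 0
      rw [hrel _ _ (hcN _ _)]; exact neg_eq_zero.2 (z13 _ _)
    · exact bot_le
    · intro t ht
      have : t = 1 := Subgroup.mem_bot.1 ht
      rw [this]
      have e1 : ∀ x : Q, cj (L x) (1 : MG Q) = 1 := by intro x; unfold cj; group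
      refine ⟨?_, ?_, ?_⟩ <;> (show chi (cj _ 1) = 0; rw [e1, chi_one hc])
  have T1 : Nat.card (⊤ : Subgroup (MG Q)) = Nat.card (MG Q) := Subgroup.card_top
  have T2 : Nat.card (⊥ : Subgroup (MG Q)) = 1 := Subgroup.card_bot
  omega

end Pool.Agent.AIM3
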