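import Pool.Agent.AIM3.Count

set_option autoImplicit false
set_option linter.unusedVariables false
set_option linter.unusedSectionVars false

namespace Pool.Agent.AIM3

open scoped commutatorElement

section C3
variable {Q : Type} [Lp Q] [AbInn Q] [Cl4 Q] {W : Type} [AddCommGroup W] {chi : MG Q → W} {d : Q → Q → W}

theorem dk_val (hc : IsChi chi) (hD : IsD2 chi d) {t : MG Q} (ht : t ∈ H Q) (ht2 : t ∈ K Q 2) {k : Q} (hk : L k ∈ N Q) :
    d k (t • k) = chi ⁅t, L k⁆ := by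
  have h1 : ⁅t, L k⁆ ∈ K Q 1 := comm_K_N ht2 hk
  have h2 : ⁅t, L k⁆ ∈ N Q := by
    rw [commutatorElement_def]
    exact mul_mem (mul_mem (mul_mem (H_le_N ht) hk) (inv_mem (H_le_N ht))) (inv_mem hk)
  have h3 : ⁅t, L k⁆ • k = t • k := by
    rw [commutatorElement_def, mul_smul, mul_smul, mul_smul, L_inv_smul, ld_self]
    have : t⁻¹ • (1 : Q) = 1 := (inv_mem ht : t⁻¹ ∈ H Q)
    rw [this, L_smul, mul_one']
  rw [← h3, hD.one _ h1 h2, chi_cjN hc h1 hk]

theorem rel_AB {chi : MG Q → W} (hc : IsChi chi) (hD : IsD2 chi d) (w y k : Q) (hk : L k ∈ N Q) (h2 : RR w k ∈ K Q 1) :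
    chi (cj (L y) (RR w k)) = - chi ⁅LL y w, L k⁆ := by
  rw [← hD.one _ h2 (H_le_N (RR_mem w k)), ← dk_val hc hD (LL_mem y w) (LL_K2 y w) hk, ← A2_L hc hD, A2_R hc hD, neg_neg]

theorem rel_C {chi : MG Q → W} (hc : IsChi chi) (hD : IsD2 chi d) (hH : H Q ≤ K Q 2) (y k : Q) (hk : L k ∈ N Q)
    (h2 : T k ∈ K Q 1) : chi (cj (L y) (T k)) = - chi ⁅T y, L k⁆ := by
  have hs : sameN k (T y • k) := sameN_of_mem (H_le_N (T_mem y)) k
  have hr : rel 2 k (T y • k) := (hH (T_mem y)) k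
  have h := hD.smul (L y) k (T y • k) hs hr
  rw [j34_LL_eq, j34_chiK1 hc (LLN2 hk y) (sameN_iff.1 hs), add_zero, L_smul, L_smul, mul_T,
    dk_val hc hD (T_mem y) (hH (T_mem y)) hk] at h
  have h' := j34_shift hc hD hk y
  have hs' : sameN (k * y) (y * k) := sameN_comm k y
  have hr' : rel 2 (k * y) (y * k) := by
    have e := rel_smul (L k) (TN hk y)
    rw [L_smul, L_smul, mul_T] at e
    exact e
  rw [← hD.one _ h2 (H_le_N (T_mem k)), ← h', ← h, ← j34_dsymm hD (sameN_symm hs') (rel_symm hr')]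

end C3

section C4
variable {Q : Type} [Lp Q] [AbInn Q] [Cl4 Q]

theorem N_Zs2 (hH : H Q ≤ K Q 2) {k : Q} (hk : L k ∈ N Q) : k ∈ Zs Q 2 := by
  have h : N Q ≤ K Q 2 := by
    apply Subgroup.normalClosure_le_normal
    exact hH
  have h1 := smul_one_mem (h hk)
  rw [L_smul, mul_one'] at h1
  exact h1

/-- cases `A` and `B`: some value of `PP` or `BB` is not zero -/
theorem case_AB (hH : H Q ≤ K Q 2) [Finite (MG Q)] {chi : MG Q → AddCircle (1 : ℚ)} (hc : IsChi chi) (w : Q)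
    (c : Q → Q → Q) (hcN : ∀ y z, L (c y z) ∈ N Q)
    (hA : Alt3 (fun x y z => chi ⁅LL x w, L (c y z)⁆)) {x₁ x₂ x₃ : Q} (h : chi ⁅LL x₁ w, L (c x₂ x₃)⁆ ≠ 0) :
    128 * Nat.card (H Q) ≤ Nat.card (MG Q) ∧ 64 ≤ Nat.card (H Q) := by
  obtain ⟨d, hD⟩ := exists_D2 hc
  refine cnt_main hH hc (fun x => LL x w) (fun x => LL_mem x w) c hcN (fun k => RR w k) ?_ ?_ hA h
  · intro k hk
    exact ⟨RR_mem w k, RR_mem_K_right (N_Zs2 hH hk) w⟩
  · intro k y hk
    exact rel_AB hc hD w y k hk (RR_mem_K_right (N_Zs2 hH hk) w)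

theorem case_A (hH : H Q ≤ K Q 2) [Finite (MG Q)] {chi : MG Q → AddCircle (1 : ℚ)} (hc : IsChi chi)
    {u v x y z : Q} (h : PP chi u v x y z ≠ 0) :
    128 * Nat.card (H Q) ≤ Nat.card (MG Q) ∧ 64 ≤ Nat.card (H Q) := by
  have hP : Alt5 (PP chi) := (BB_PP_forms hc).1
  have key : ∀ a b c : Q, chi ⁅LL a v, L (dis (LL b c) z)⁆ = PP chi a v b c z := by
    intro a b c
    exact (char_dis (F_char hc (LL_mem a v) (LL_K2 a v)) (LL_mem b c) z).symm
  refine case_AB hH hc v (fun b c => dis (LL b c) z) (fun b c => L_dis_mem (H_le_N (LL_mem b c)) z) ?_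
    (x₁ := u) (x₂ := x) (x₃ := y) (by rw [key]; exact h)
  have e : (fun a b c : Q => chi ⁅LL a v, L (dis (LL b c) z)⁆) = fun a b c => PP chi a v b c z := by
    funext a b c; exact key a b c
  rw [e]
  have s13 : ∀ a b c : Q, PP chi b v a c z = - PP chi a v b c z := by
    intro a b c
    rw [← neg_neg (PP chi b v a c z), ← hP.s12 b v a c z, ← neg_neg (PP chi v b a c z), ← hP.s23 v b a c z,
      ← hP.s12 a v b c z]
    rw [neg_neg]
  constructor
  · intro a b c; exact s13 a b c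
  · intro a b c; exact hP.s34 a v b c z
  · intro a c
    exact j28_p13 hP a v c z
  · intro a b c d; exact hP.add1 a b v c d z

theorem case_B (hH : H Q ≤ K Q 2) [Finite (MG Q)] {chi : MG Q → AddCircle (1 : ℚ)} (hc : IsChi chi)
    {x w y z : Q} (h : BB chi x w y z ≠ 0) :
    128 * Nat.card (H Q) ≤ Nat.card (MG Q) ∧ 64 ≤ Nat.card (H Q) := by
  have hB : Alt4 (BB chi) := (BB_PP_forms hc).2
  have key : ∀ a b c : Q, chi ⁅LL a w, L (dis (T c) b)⁆ = BB chi a w b c := by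
    intro a b c
    exact (char_dis (F_char hc (LL_mem a w) (LL_K2 a w)) (T_mem c) b).symm
  refine case_AB hH hc w (fun b c => dis (T c) b) (fun b c => L_dis_mem (H_le_N (T_mem c)) b) ?_
    (x₁ := x) (x₂ := y) (x₃ := z) (by rw [key]; exact h)
  have e : (fun a b c : Q => chi ⁅LL a w, L (dis (T c) b)⁆) = fun a b c => BB chi a w b c := by
    funext a b c; exact key a b c
  rw [e]
  have s13 : ∀ a b c : Q, BB chi b w a c = - BB chi a w b c := by
    intro a b c
    rw [← neg_neg (BB chi b w a c), ← hB.s12 b w a c, ← neg_neg (BB chi w b a c), ← hB.s23 w b a c,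
      ← hB.s12 a w b c]
    rw [neg_neg]
  constructor
  · intro a b c; exact s13 a b c
  · intro a b c; exact hB.s34 a w b c
  · intro a c
    exact j28_b13 hB a w c
  · intro a b c d; exact hB.add1 a b w c d

/-- case `C`: `BB = 0` and some value of `chi ⁅T u, cj (L x) (T z)⁆` is not zero -/
theorem case_C (hH : H Q ≤ K Q 2) [Finite (MG Q)] {chi : MG Q → AddCircle (1 : ℚ)} (hc : IsChi chi)
    (hB0 : ∀ x y z v : Q, BB chi x y z v = 0)
    {u x z : Q} (h : chi ⁅T u, cj (L x) (T z)⁆ ≠ 0) :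
    128 * Nat.card (H Q) ≤ Nat.card (MG Q) ∧ 64 ≤ Nat.card (H Q) := by
  obtain ⟨d, hD⟩ := exists_D2 hc
  have hTK : ∀ x : Q, T x ∈ K Q 2 := fun x => hH (T_mem x)
  have key : ∀ a b c : Q, chi ⁅T a, L (dis (T c) b)⁆ = chi ⁅T a, cj (L b) (T c)⁆ := by
    intro a b c
    exact (char_dis (F_char hc (T_mem a) (hTK a)) (T_mem c) b).symm
  have s13 : ∀ a b c : Q, chi ⁅T a, cj (L b) (T c)⁆ = chi ⁅T c, cj (L b) (T a)⁆ := fun a b c =>
    F_symm hc (T_mem a) (hTK a) (T_mem c) (hTK c) b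
  have s23 : ∀ a b c : Q, chi ⁅T a, cj (L c) (T b)⁆ = - chi ⁅T a, cj (L b) (T c)⁆ := by
    intro a b c
    have hF := F_char hc (T_mem a) (hTK a)
    have e1 := kF_T hF c b
    have e2 := kF_T hF b c
    rw [e1, e2]
    exact kF_anti hF c b
  have s12 : ∀ a b c : Q, chi ⁅T b, cj (L a) (T c)⁆ = - chi ⁅T a, cj (L b) (T c)⁆ := by
    intro a b c
    rw [s13 b a c, s23 c b a, s13 c b a]
  have haF : ∀ a x y z : Q, aF (fun n => chi ⁅T a, n⁆) x y z = 0 := by
    intro a x y z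
    have hF := F_char hc (T_mem a) (hTK a)
    rw [← aF_L hF]
    show chi ⁅T a, cj (L z) (LL x y)⁆ = 0
    rw [F_symm hc (T_mem a) (hTK a) (LL_mem x y) (LL_K2 x y)]
    exact hB0 x y z a
  refine cnt_main hH hc (fun x => T x) (fun x => T_mem x) (fun b c => dis (T c) b)
    (fun b c => L_dis_mem (H_le_N (T_mem c)) b) (fun k => T k) ?_ ?_ ?_ (x₁ := u) (x₂ := x) (x₃ := z)
    (by rw [key]; exact h)
  · intro k hk
    exact ⟨T_mem k, T_mem_K (N_Zs2 hH hk)⟩
  · intro k y hk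
    exact rel_C hc hD hH y k hk (T_mem_K (N_Zs2 hH hk))
  · have e : (fun a b c : Q => chi ⁅T a, L (dis (T c) b)⁆) = fun a b c => chi ⁅T a, cj (L b) (T c)⁆ := by
      funext a b c; exact key a b c
    rw [e]
    constructor
    · intro a b c; exact s12 a b c
    · intro a b c; exact s23 a b c
    · intro a c
      show chi ⁅T a, cj (L a) (T c)⁆ = 0
      rw [s13]
      have hF := F_char hc (T_mem c) (hTK c)
      have e1 := kF_T hF a a
      rw [kF_self hF] at e1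
      exact e1
    · intro a b c d
      show chi ⁅T (a * b), cj (L c) (T d)⁆ = chi ⁅T a, cj (L c) (T d)⁆ + chi ⁅T b, cj (L c) (T d)⁆
      have hF := F_char hc (T_mem d) (hTK d)
      rw [s13 (a * b), s13 a, s13 b, s23 d (a * b) c, s23 d a c, s23 d b c]
      have e0 := kF_T hF (a * b) c
      have e1 := kF_T hF a c
      have e2 := kF_T hF b c
      rw [e0, e1, e2, kF_hex hF, haF, haF, haF]
      abel

/-- if all values vanish on generators then `chi ⁅t, cj (L x) p⁆ = 0` for all `t, p` -/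
theorem all_zero (hH : H Q ≤ K Q 2) {chi : MG Q → AddCircle (1 : ℚ)} (hc : IsChi chi)
    (hP : ∀ u v x y z : Q, PP chi u v x y z = 0) (hB : ∀ x y z v : Q, BB chi x y z v = 0)
    (hC : ∀ u x z : Q, chi ⁅T u, cj (L x) (T z)⁆ = 0) {t p : MG Q} (ht : t ∈ H Q) (hp : p ∈ H Q) (x : Q) :
    chi ⁅t, cj (L x) p⁆ = 0 := by
  -- for fixed `t`, generators suffice in `p`
  have step : ∀ t ∈ H Q, (∀ u x : Q, chi ⁅t, cj (L x) (T u)⁆ = 0) →
      (∀ x y z : Q, chi ⁅t, cj (L z) (LL x y)⁆ = 0) → ∀ p ∈ H Q, ∀ x : Q, chi ⁅t, cj (L x) p⁆ = 0 := by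
    intro t ht h1 h2 p hp
    have hF : IsChar (fun n => chi ⁅t, n⁆) := F_char hc ht (hH ht)
    let S : Subgroup (MG Q) :=
      { carrier := {p | p ∈ H Q ∧ ∀ x : Q, chi ⁅t, cj (L x) p⁆ = 0}
        mul_mem' := by
          rintro a b ⟨ha, ha'⟩ ⟨hb, hb'⟩
          refine ⟨mul_mem ha hb, fun x => ?_⟩
          rw [cj_mul]
          have e := hF.map_mul _ (cj_mem_N (L x) (H_le_N ha)) _ (cj_mem_N (L x) (H_le_N hb))
          have e' : chi ⁅t, cj (L x) a * cj (L x) b⁆ = chi ⁅t, cj (L x) a⁆ + chi ⁅t, cj (L x) b⁆ := e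
          rw [e', ha', hb', add_zero]
        one_mem' := by
          refine ⟨one_mem _, fun x => ?_⟩
          have e1 : cj (L x) (1 : MG Q) = 1 := by unfold cj; group
          rw [e1]
          exact char_one hF
        inv_mem' := by
          rintro a ⟨ha, ha'⟩
          refine ⟨inv_mem ha, fun x => ?_⟩
          rw [cj_inv]
          have e := char_inv hF (cj_mem_N (L x) (H_le_N ha))
          have e' : chi ⁅t, (cj (L x) a)⁻¹⁆ = - chi ⁅t, cj (L x) a⁆ := e
          rw [e', ha', neg_zero] }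
    have : p ∈ S := by
      apply H_ind S
      · intro u; exact ⟨T_mem u, fun x => h1 u x⟩
      · intro x y; exact ⟨LL_mem x y, fun z => h2 x y z⟩
      · intro y z
        refine ⟨RR_mem y z, fun x => ?_⟩
        have e := aF_R hF x y z
        have e2 := aF_L hF x y z
        have e3 : chi ⁅t, cj (L x) (RR y z)⁆ = - aF (fun n => chi ⁅t, n⁆) x y z := e
        have e4 : chi ⁅t, cj (L z) (LL x y)⁆ = aF (fun n => chi ⁅t, n⁆) x y z := e2
        rw [e3, ← e4, h2, neg_zero]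
      · exact hp
    exact this.2
  have hT : ∀ u : Q, ∀ p ∈ H Q, ∀ x : Q, chi ⁅T u, cj (L x) p⁆ = 0 := by
    intro u
    refine step (T u) (T_mem u) (fun v x => hC u x v) (fun x y z => ?_)
    rw [F_symm hc (T_mem u) (hH (T_mem u)) (LL_mem x y) (LL_K2 x y)]
    exact hB x y z u
  have hL : ∀ u v : Q, ∀ p ∈ H Q, ∀ x : Q, chi ⁅LL u v, cj (L x) p⁆ = 0 := by
    intro u v
    exact step (LL u v) (LL_mem u v) (fun w x => hB u v x w) (fun x y z => hP u v x y z)
  refine step t ht ?_ ?_ p hp x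
  · intro u x
    rw [F_symm hc ht (hH ht) (T_mem u) (hH (T_mem u))]
    exact hT u t ht x
  · intro x y z
    rw [F_symm hc ht (hH ht) (LL_mem x y) (LL_K2 x y)]
    exact hL x y t ht z

end C4

theorem Zs_mono_succ {Q : Type} [Lp Q] (k : ℕ) : Zs Q k ⊆ Zs Q (k + 1) := by
  intro a ha
  exact rel_one_iff.1 (rel_succ (rel_one_iff.2 ha))

/-- the bounds -/
theorem orders {Q : Type} [Lp Q] [AbInn Q] [Finite (MG Q)] {n : ℕ} (hn : Zs Q n = Set.univ)
    (h2 : Zs Q 2 ≠ Set.univ) :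
    128 * Nat.card (H Q) ≤ Nat.card (MG Q) ∧ 64 ≤ Nat.card (H Q) := by
  have h3 : Zs Q 3 = Set.univ := class_le_three n hn
  haveI : Cl4 Q := ⟨by
    apply Set.eq_univ_of_univ_subset
    rw [← h3]
    exact Zs_mono_succ 3⟩
  have hH : H Q ≤ K Q 2 := by
    intro h hh x
    have hx : x ∈ Zs Q 3 := by rw [h3]; trivial
    exact hx h hh
  by_contra hcon
  apply h2
  apply Set.eq_univ_of_forall
  intro x t ht
  -- all characters vanish
  have hz : ∀ chi : MG Q → AddCircle (1 : ℚ), IsChi chi → ∀ t ∈ H Q, ∀ p ∈ H Q, ∀ x : Q, chi ⁅t, cj (L x) p⁆ = 0 := by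
    intro chi hc t ht p hp x
    have hP : ∀ u v x y z : Q, PP chi u v x y z = 0 := by
      intro u v x y z
      by_contra h
      exact hcon (case_A hH hc h)
    have hB : ∀ x y z v : Q, BB chi x y z v = 0 := by
      intro x y z v
      by_contra h
      exact hcon (case_B hH hc h)
    have hC : ∀ u x z : Q, chi ⁅T u, cj (L x) (T z)⁆ = 0 := by
      intro u x z
      by_contra h
      exact hcon (case_C hH hc hB h)
    exact all_zero hH hc hP hB hC ht hp x
  intro p hp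
  have hcN : L (dis t x) ∈ N Q := L_dis_mem (H_le_N ht) x
  have hm1 : ⁅p, cj (L x) t⁆ ∈ K Q 1 := comm_K_N (hH hp) (cj_mem_N _ (H_le_N ht))
  have hmH : ⁅p, cj (L x) t⁆ ∈ H Q := j12_char hm1 (fun chi hc => hz chi hc p hp t ht x)
  have e : ⁅p, cj (L x) t⁆ = ⁅p, L (dis t x)⁆ := j11_commdis hp ht x
  rw [e] at hm1 hmH
  have hfix := fixH hmH (k := 0) hm1 hcN
  rw [rel_zero_iff] at hfix
  have h3' : ⁅p, L (dis t x)⁆ • dis t x = p • dis t x := by
    rw [commutatorElement_def, mul_smul, mul_smul, mul_smul, L_inv_smul, ld_self]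
    have : p⁻¹ • (1 : Q) = 1 := (inv_mem hp : p⁻¹ ∈ H Q)
    rw [this, L_smul, mul_one']
  rw [h3'] at hfix
  show ld (ld x (t • x)) (p • ld x (t • x)) ∈ Zs Q 0
  have : p • ld x (t • x) = ld x (t • x) := hfix.symm
  rw [this, ld_self]
  rfl

end Pool.Agent.AIM3
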