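import Mathlib

/-!
# Loops with abelian inner mapping group: definitions (project AIM3, MP_969c87_al, helper50)

`Lp Q` = loop structure.  `MG Q` = multiplication group (acting on `Q` by `•`).  `H Q` = stabiliser of `1`,
`N Q` its normal closure.  `L x`, `R x` translations, `T x`, `LL x y`, `RR x y`, `MM x y` the inner maps.
-/

set_option autoImplicit false
set_option linter.unusedVariables false

namespace Pool.Agent.AIM3

/-- A loop. `ld a b = a \ b`, `rd b a = b / a`. -/
class Lp (Q : Type) extends Mul Q, One Q where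
  ld : Q → Q → Q
  rd : Q → Q → Q
  one_mul' : ∀ x : Q, (1 : Q) * x = x
  mul_one' : ∀ x : Q, x * (1 : Q) = x
  mul_ld : ∀ a b : Q, a * ld a b = b
  ld_mul : ∀ a b : Q, ld a (a * b) = b
  rd_mul : ∀ a b : Q, rd b a * a = b
  mul_rd : ∀ a b : Q, rd (b * a) a = b

export Lp (ld rd one_mul' mul_one' mul_ld ld_mul rd_mul mul_rd)

section
variable {Q : Type} [Lp Q]

/-- left translation as a permutation -/
def Lperm (x : Q) : Equiv.Perm Q := ⟨fun y => x * y, fun y => ld x y, fun y => ld_mul x y, fun y => mul_ld x y⟩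
/-- right translation as a permutation -/
def Rperm (x : Q) : Equiv.Perm Q := ⟨fun y => y * x, fun y => rd y x, fun y => mul_rd x y, fun y => rd_mul x y⟩

/-- the multiplication group, as a subgroup of the permutations -/
def MltS (Q : Type) [Lp Q] : Subgroup (Equiv.Perm Q) := Subgroup.closure (Set.range Lperm ∪ Set.range Rperm)

/-- the multiplication group, as a type -/
def MG (Q : Type) [Lp Q] : Type := ↥(MltS Q)

instance instGroupMG : Group (MG Q) := inferInstanceAs (Group ↥(MltS Q))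
instance instMulActionMG : MulAction (MG Q) Q := inferInstanceAs (MulAction ↥(MltS Q) Q)

/-- left translation -/
def L (x : Q) : MG Q := ⟨Lperm x, Subgroup.subset_closure (Or.inl ⟨x, rfl⟩)⟩
/-- right translation -/
def R (x : Q) : MG Q := ⟨Rperm x, Subgroup.subset_closure (Or.inr ⟨x, rfl⟩)⟩

theorem L_smul (x y : Q) : L x • y = x * y := rfl
theorem R_smul (x y : Q) : R x • y = y * x := rfl
theorem L_inv_smul (x y : Q) : (L x)⁻¹ • y = ld x y := rfl
theorem R_inv_smul (x y : Q) : (R x)⁻¹ • y = rd y x := rfl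

theorem MG_ext {g h : MG Q} (w : ∀ x : Q, g • x = h • x) : g = h := by
  apply Subtype.ext
  apply Equiv.ext
  intro x
  exact w x

/-- the multiplication group is generated by the translations -/
theorem MG_ind (S : Subgroup (MG Q)) (hL : ∀ x, L x ∈ S) (hR : ∀ x, R x ∈ S) (g : MG Q) : g ∈ S := by
  have key : ∀ (p : Equiv.Perm Q) (hp : p ∈ MltS Q), (⟨p, hp⟩ : MG Q) ∈ S := by
    intro p hp
    unfold MltS at hp
    induction hp using Subgroup.closure_induction with
    | mem x hx =>
      rcases hx with ⟨y, rfl⟩ | ⟨y, rfl⟩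
      · exact hL y
      · exact hR y
    | one => exact S.one_mem
    | mul x y hx hy h1 h2 => exact S.mul_mem h1 h2
    | inv x hx h1 => exact S.inv_mem h1
  exact key g.1 g.2

/-- stabiliser of `1` = inner mapping group -/
def H (Q : Type) [Lp Q] : Subgroup (MG Q) := MulAction.stabilizer (MG Q) (1 : Q)

theorem mem_H {h : MG Q} : h ∈ H Q ↔ h • (1 : Q) = 1 := Iff.rfl

/-- normal closure of the inner mapping group -/
def N (Q : Type) [Lp Q] : Subgroup (MG Q) := Subgroup.normalClosure (H Q : Set (MG Q))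

instance N_normal : (N Q).Normal := Subgroup.normalClosure_normal

theorem H_le_N : H Q ≤ N Q := Subgroup.subset_normalClosure

/-- `T x : z ↦ x \ (z x)` -/
def T (x : Q) : MG Q := (L x)⁻¹ * R x
/-- `LL x y = L_{xy}⁻¹ L_x L_y` -/
def LL (x y : Q) : MG Q := (L (x * y))⁻¹ * (L x * L y)
/-- `RR x y = R_{xy}⁻¹ R_y R_x` -/
def RR (x y : Q) : MG Q := (R (x * y))⁻¹ * (R y * R x)
/-- `MM x y = (R_y L_x)⁻¹ L_x R_y` -/
def MM (x y : Q) : MG Q := (R y * L x)⁻¹ * (L x * R y)

/-- conjugate `n^g = g⁻¹ n g` -/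
def cj (g n : MG Q) : MG Q := g⁻¹ * n * g

/-- displacement `x \ h(x)` -/
def dis (h : MG Q) (x : Q) : Q := ld x (h • x)

/-- `h_x`, defined by `h^{L_x} = L_{dis h x} h_x` -/
def sh (h : MG Q) (x : Q) : MG Q := (L (dis h x))⁻¹ * cj (L x) h

/-- the upper central series -/
def Zs (Q : Type) [Lp Q] : ℕ → Set Q
  | 0 => {1}
  | (k + 1) => {a | ∀ h ∈ H Q, ld a (h • a) ∈ Zs Q k}

/-- congruence modulo `Zs k` -/
def rel (k : ℕ) (x y : Q) : Prop := ld x y ∈ Zs Q k

/-- same orbit of `N` -/
def sameN (p q : Q) : Prop := ∃ n ∈ N Q, n • p = q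

/-- a function which is a homomorphism on `N` and kills `H` -/
structure IsChar {W : Type} [AddCommGroup W] (F : MG Q → W) : Prop where
  map_mul : ∀ n ∈ N Q, ∀ m ∈ N Q, F (n * m) = F n + F m
  map_H : ∀ h ∈ H Q, F h = 0

/-- `d_F(p,q) = F(L_{p\q})` -/
def dF {W : Type} (F : MG Q → W) (p q : Q) : W := F (L (ld p q))
/-- `a_F(x,y,z) = d_F((xy)z, x(yz))` -/
def aF {W : Type} (F : MG Q → W) (x y z : Q) : W := dF F ((x * y) * z) (x * (y * z))
/-- `k_F(x,z) = d_F(zx, xz)` -/
def kF {W : Type} (F : MG Q → W) (x z : Q) : W := dF F (z * x) (x * z)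

end

/-- the inner mapping group is abelian -/
class AbInn (Q : Type) [Lp Q] : Prop where
  comm : ∀ a ∈ H Q, ∀ b ∈ H Q, a * b = b * a

/-- class at most four -/
class Cl4 (Q : Type) [Lp Q] : Prop where
  h4 : Zs Q 4 = Set.univ

end Pool.Agent.AIM3
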