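import Pool.Agent.AIM3.Defs

set_option autoImplicit false
set_option linter.unusedVariables false
set_option linter.unusedSectionVars false

namespace Pool.Agent.AIM3

open scoped commutatorElement

/-! ## A. Basic facts -/
section A
variable {Q : Type} [Lp Q]

-- J01
theorem cj_mul (g a b : MG Q) : cj g (a * b) = cj g a * cj g b := by
  unfold cj; group
theorem cj_inv (g a : MG Q) : cj g a⁻¹ = (cj g a)⁻¹ := by
  unfold cj; group
theorem cj_cj (g k a : MG Q) : cj k (cj g a) = cj (g * k) a := by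
  unfold cj; group
theorem cj_comm (g a b : MG Q) : cj g ⁅a, b⁆ = ⁅cj g a, cj g b⁆ := by
  simp only [commutatorElement_def, cj_mul, cj_inv]
theorem cj_one (a : MG Q) : cj 1 a = a := by
  unfold cj; group
theorem cj_smul_inv (g a : MG Q) (x : Q) : cj g a • (g⁻¹ • x) = g⁻¹ • (a • x) := by
  unfold cj
  simp only [← mul_smul]
  congr 1
  group
theorem sh_eq (h : MG Q) (x : Q) : cj (L x) h = L (dis h x) * sh h x := by
  unfold sh; group
theorem mul_dis (h : MG Q) (x : Q) : x * dis h x = h • x := mul_ld _ _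
theorem j01_ld_self (a : Q) : ld a a = 1 := by
  have h := ld_mul a (1 : Q)
  rwa [mul_one'] at h
theorem j01_rd_self (a : Q) : rd a a = 1 := by
  have h := mul_rd a (1 : Q)
  rwa [one_mul'] at h
theorem sh_mem {h : MG Q} (hh : h ∈ H Q) (x : Q) : sh h x ∈ H Q := by
  rw [mem_H]
  unfold sh cj dis
  simp only [mul_smul, L_smul, L_inv_smul, mul_one']
  exact j01_ld_self _
theorem ld_one (a : Q) : ld (1 : Q) a = a := by
  have h := ld_mul (1 : Q) a
  rwa [one_mul'] at h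
theorem ld_self (a : Q) : ld a a = 1 := j01_ld_self a
theorem L_one : L (1 : Q) = 1 := by
  apply MG_ext
  intro x
  rw [L_smul, one_mul', one_smul]
theorem R_one : R (1 : Q) = 1 := by
  apply MG_ext
  intro x
  rw [R_smul, mul_one', one_smul]
theorem T_mem (x : Q) : T x ∈ H Q := by
  rw [mem_H]
  unfold T
  simp only [mul_smul, R_smul, L_inv_smul, one_mul']
  exact j01_ld_self _
theorem LL_mem (x y : Q) : LL x y ∈ H Q := by
  rw [mem_H]
  unfold LL
  simp only [mul_smul, L_smul, L_inv_smul, mul_one']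
  exact j01_ld_self _
theorem RR_mem (x y : Q) : RR x y ∈ H Q := by
  rw [mem_H]
  unfold RR
  simp only [mul_smul, R_smul, R_inv_smul, one_mul']
  exact j01_rd_self _
theorem MM_mem (x y : Q) : MM x y ∈ H Q := by
  rw [mem_H]
  unfold MM
  simp only [mul_inv_rev, mul_smul, R_smul, L_smul, R_inv_smul, L_inv_smul, one_mul']
  rw [mul_rd]
  exact j01_ld_self _
theorem trans_mem (g : MG Q) (p : Q) : (L (g • p))⁻¹ * g * L p ∈ H Q := by
  rw [mem_H]
  simp only [mul_smul, L_smul, L_inv_smul, mul_one']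
  exact j01_ld_self _
theorem mul_T (x y : Q) : x * (T x • y) = y * x := by
  unfold T
  simp only [mul_smul, R_smul, L_inv_smul]
  exact mul_ld _ _
theorem mul_LL (x y z : Q) : (x * y) * (LL x y • z) = x * (y * z) := by
  unfold LL
  simp only [mul_smul, L_smul, L_inv_smul]
  exact mul_ld _ _
theorem RR_mul (x y z : Q) : (RR x y • z) * (x * y) = (z * x) * y := by
  unfold RR
  simp only [mul_smul, R_smul, R_inv_smul]
  exact rd_mul _ _
theorem MM_mul (x y z : Q) : (x * (MM x y • z)) * y = x * (z * y) := by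
  unfold MM
  simp only [mul_inv_rev, mul_smul, R_smul, L_smul, R_inv_smul, L_inv_smul]
  rw [mul_ld, rd_mul]
theorem R_eq (x : Q) : R x = L x * T x := by
  unfold T; group
theorem LL_eq (x y : Q) : L x * L y = L (x * y) * LL x y := by
  unfold LL; group
theorem RR_eq (x y : Q) : R y * R x = R (x * y) * RR x y := by
  unfold RR; group
theorem MM_eq (x y : Q) : L x * R y = R y * L x * MM x y := by
  unfold MM; group
theorem RL_eq (z p : Q) : R z * L p = L (p * z) * T (p * z) * RR p z * (T p)⁻¹ := by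
  rw [← R_eq, ← RR_eq, R_eq p]
  group
theorem TT_eq [AbInn Q] (x y : Q) : T x * T y = T (x * y) * RR x y * MM x y * (LL x y)⁻¹ := by
  have h1 : L x * R y = L (x * y) * LL x y * T y := by
    rw [R_eq y, ← mul_assoc, LL_eq]
  have h2 : L x * R y = L (x * y) * T (x * y) * RR x y * (T x)⁻¹ * MM x y := by
    rw [MM_eq, RL_eq]
  have h3 : LL x y * T y = T (x * y) * RR x y * (T x)⁻¹ * MM x y := by
    have h4 := h1.symm.trans h2
    simp only [mul_assoc] at h4 ⊢
    exact mul_left_cancel h4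
  have cT : LL x y * T x = T x * LL x y := AbInn.comm _ (LL_mem x y) _ (T_mem x)
  have cM : (T x)⁻¹ * MM x y = MM x y * (T x)⁻¹ :=
    AbInn.comm _ ((H Q).inv_mem (T_mem x)) _ (MM_mem x y)
  have hX : T (x * y) * RR x y * MM x y ∈ H Q :=
    (H Q).mul_mem ((H Q).mul_mem (T_mem _) (RR_mem _ _)) (MM_mem _ _)
  have c1 : (T x)⁻¹ * (LL x y)⁻¹ = (LL x y)⁻¹ * (T x)⁻¹ :=
    AbInn.comm _ ((H Q).inv_mem (T_mem x)) _ ((H Q).inv_mem (LL_mem x y))
  have h5 : T y = (LL x y)⁻¹ * (T (x * y) * RR x y * MM x y * (T x)⁻¹) := by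
    have h6 : LL x y * T y = T (x * y) * RR x y * MM x y * (T x)⁻¹ := by
      rw [h3, mul_assoc _ (T x)⁻¹, cM, ← mul_assoc]
    rw [← h6]; group
  have hY : T (x * y) * RR x y * MM x y * (T x)⁻¹ ∈ H Q :=
    (H Q).mul_mem hX ((H Q).inv_mem (T_mem x))
  have c2 : T x * ((LL x y)⁻¹ * (T (x * y) * RR x y * MM x y * (T x)⁻¹))
      = ((LL x y)⁻¹ * (T (x * y) * RR x y * MM x y * (T x)⁻¹)) * T x :=
    AbInn.comm _ (T_mem x) _ ((H Q).mul_mem ((H Q).inv_mem (LL_mem x y)) hY)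
  have c3 : (LL x y)⁻¹ * (T (x * y) * RR x y * MM x y) = (T (x * y) * RR x y * MM x y) * (LL x y)⁻¹ :=
    AbInn.comm _ ((H Q).inv_mem (LL_mem x y)) _ hX
  rw [← c3]
  calc T x * T y = T x * ((LL x y)⁻¹ * (T (x * y) * RR x y * MM x y * (T x)⁻¹)) := by rw [← h5]
    _ = ((LL x y)⁻¹ * (T (x * y) * RR x y * MM x y * (T x)⁻¹)) * T x := c2
    _ = (LL x y)⁻¹ * (T (x * y) * RR x y * MM x y) := by group

/-- the set of `g` which together with their inverses preserve the set `L x * S` -/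
theorem j01_form (S : Subgroup (MG Q)) (hT : ∀ x, T x ∈ S) (hL : ∀ x y, LL x y ∈ S) (hR : ∀ x y, RR x y ∈ S)
    (g : MG Q) : ∀ x : Q, ∃ w : Q, ∃ s ∈ S, g * L x = L w * s := by
  let S' : Subgroup (MG Q) :=
    { carrier := {g | (∀ x : Q, ∃ w : Q, ∃ s ∈ S, g * L x = L w * s) ∧
        (∀ x : Q, ∃ w : Q, ∃ s ∈ S, g⁻¹ * L x = L w * s)}
      one_mem' := by
        refine ⟨fun x => ⟨x, 1, S.one_mem, ?_⟩, fun x => ⟨x, 1, S.one_mem, ?_⟩⟩
        · group
        · group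
      mul_mem' := by
        rintro a b ⟨ha, ha'⟩ ⟨hb, hb'⟩
        refine ⟨fun x => ?_, fun x => ?_⟩
        · obtain ⟨w, s, hs, e⟩ := hb x
          obtain ⟨v, t, ht, e'⟩ := ha w
          refine ⟨v, t * s, S.mul_mem ht hs, ?_⟩
          rw [mul_assoc, e, ← mul_assoc, e', mul_assoc]
        · obtain ⟨w, s, hs, e⟩ := ha' x
          obtain ⟨v, t, ht, e'⟩ := hb' w
          refine ⟨v, t * s, S.mul_mem ht hs, ?_⟩
          rw [mul_inv_rev, mul_assoc, e, ← mul_assoc, e', mul_assoc]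
      inv_mem' := by
        rintro a ⟨ha, ha'⟩
        refine ⟨ha', ?_⟩
        rw [inv_inv]
        exact ha }
  have key : g ∈ S' := by
    apply MG_ind
    · intro y
      refine ⟨fun x => ⟨y * x, LL y x, hL y x, LL_eq y x⟩, fun x => ⟨ld y x, (LL y (ld y x))⁻¹, S.inv_mem (hL _ _), ?_⟩⟩
      have h := LL_eq y (ld y x)
      rw [mul_ld] at h
      rw [eq_mul_inv_iff_mul_eq, mul_assoc, ← h]
      group
    · intro y
      refine ⟨fun x => ⟨x * y, T (x * y) * RR x y * (T x)⁻¹, ?_, ?_⟩, fun x => ⟨rd x y, (T x * RR (rd x y) y * (T (rd x y))⁻¹)⁻¹, ?_, ?_⟩⟩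
      · exact S.mul_mem (S.mul_mem (hT _) (hR _ _)) (S.inv_mem (hT _))
      · rw [RL_eq]; group
      · exact S.inv_mem (S.mul_mem (S.mul_mem (hT _) (hR _ _)) (S.inv_mem (hT _)))
      · have h := RL_eq y (rd x y)
        rw [rd_mul] at h
        rw [eq_mul_inv_iff_mul_eq]
        calc (R y)⁻¹ * L x * (T x * RR (rd x y) y * (T (rd x y))⁻¹)
            = (R y)⁻¹ * (L x * T x * RR (rd x y) y * (T (rd x y))⁻¹) := by group
          _ = (R y)⁻¹ * (R y * L (rd x y)) := by rw [← h]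
          _ = L (rd x y) := by group
  exact key.1

/-- the inner mapping group is generated by the `T`, `LL`, `RR` -/
theorem H_ind (S : Subgroup (MG Q)) (hT : ∀ x, T x ∈ S) (hL : ∀ x y, LL x y ∈ S) (hR : ∀ x y, RR x y ∈ S)
    {h : MG Q} (hh : h ∈ H Q) : h ∈ S := by
  have hSH : ∀ g : MG Q, ∃ w : Q, ∃ s ∈ S ⊓ H Q, g = L w * s := by
    intro g
    obtain ⟨w, s, hs, e⟩ := j01_form (S ⊓ H Q) (fun x => ⟨hT x, T_mem x⟩) (fun x y => ⟨hL x y, LL_mem x y⟩)
      (fun x y => ⟨hR x y, RR_mem x y⟩) g 1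
    refine ⟨w, s, hs, ?_⟩
    rw [L_one, mul_one] at e
    exact e
  obtain ⟨w, s, hs, e⟩ := hSH h
  have h1 : h • (1 : Q) = 1 := mem_H.1 hh
  have h2 : s • (1 : Q) = 1 := mem_H.1 hs.2
  rw [e, mul_smul, h2, L_smul, mul_one'] at h1
  rw [e, h1, L_one, one_mul]
  exact hs.1

/-- `N` is generated by the `(h)^{L x}` -/
theorem N_ind (S : Subgroup (MG Q)) (hS : ∀ h ∈ H Q, ∀ x : Q, cj (L x) h ∈ S) {n : MG Q} (hn : n ∈ N Q) : n ∈ S := by
  have hHS : ∀ k ∈ H Q, k ∈ S := by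
    intro k hk
    have := hS k hk 1
    rwa [L_one, cj_one] at this
  have hle : N Q ≤ S := by
    unfold N Subgroup.normalClosure
    rw [Subgroup.closure_le]
    intro a ha
    rw [Group.mem_conjugatesOfSet_iff] at ha
    obtain ⟨h, hh, hconj⟩ := ha
    obtain ⟨c, hc⟩ := isConj_iff.1 hconj
    -- c * h * c⁻¹ = a
    have hk : (L (c⁻¹ • (1 : Q)))⁻¹ * c⁻¹ * L 1 ∈ H Q := trans_mem c⁻¹ 1
    rw [L_one, mul_one] at hk
    set k := (L (c⁻¹ • (1 : Q)))⁻¹ * c⁻¹ with hkdef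
    have hc' : c⁻¹ = L (c⁻¹ • (1 : Q)) * k := by rw [hkdef]; group
    have e : a = k⁻¹ * cj (L (c⁻¹ • (1 : Q))) h * k := by
      rw [← hc]
      have : c = (c⁻¹)⁻¹ := (inv_inv c).symm
      calc c * h * c⁻¹ = (c⁻¹)⁻¹ * h * c⁻¹ := by rw [inv_inv]
        _ = (L (c⁻¹ • (1 : Q)) * k)⁻¹ * h * (L (c⁻¹ • (1 : Q)) * k) := by rw [← hc']
        _ = k⁻¹ * cj (L (c⁻¹ • (1 : Q))) h * k := by unfold cj; group
    rw [SetLike.mem_coe, e]
    exact S.mul_mem (S.mul_mem (S.inv_mem (hHS k hk)) (hS h hh _)) (hHS k hk)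
  exact hle hn
theorem cj_mem_N (g : MG Q) {n : MG Q} (hn : n ∈ N Q) : cj g n ∈ N Q := by
  have h := (N_normal (Q := Q)).conj_mem n hn g⁻¹
  rwa [inv_inv] at h
end A

end Pool.Agent.AIM3
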