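import Pool.Agent.AIM3.PA

set_option autoImplicit false
set_option linter.unusedVariables false
set_option linter.unusedSectionVars false

namespace Pool.Agent.AIM3

open scoped commutatorElement

/-! ## B. The upper central series -/
section B
variable {Q : Type} [Lp Q]

-- J02
theorem j02_zero {x y : Q} : rel 0 x y ↔ x = y := by
  unfold rel
  show ld x y ∈ ({1} : Set Q) ↔ x = y
  rw [Set.mem_singleton_iff]
  constructor
  · intro h
    have h1 := mul_ld x y
    rw [h, mul_one'] at h1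
    exact h1
  · intro h
    rw [h]
    exact ld_self y

theorem j02_one {k : ℕ} {a : Q} : rel k 1 a ↔ a ∈ Zs Q k := by
  unfold rel
  rw [ld_one]

theorem j02_mem {k : ℕ} {a : Q} : a ∈ Zs Q (k + 1) ↔ ∀ h ∈ H Q, rel k a (h • a) := Iff.rfl

/-- the inductive statement -/
structure j02_P (Q : Type) [Lp Q] (k : ℕ) : Prop where
  refl : ∀ x : Q, rel k x x
  symm : ∀ x y : Q, rel k x y → rel k y x
  trans : ∀ x y z : Q, rel k x y → rel k y z → rel k x z
  smul : ∀ (g : MG Q) (x y : Q), rel k x y → rel k (g • x) (g • y)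

theorem j02_central {k : ℕ} (P : j02_P Q k) {e : Q} (he : e ∈ Zs Q (k + 1)) (g : MG Q) (y : Q) :
    rel k (g • (e * y)) (e * (g • y)) := by
  have hu : (R (g • y))⁻¹ * g * R y ∈ H Q := by
    rw [mem_H, mul_smul, mul_smul, R_smul, one_mul', R_inv_smul]
    have h1 := mul_rd (g • y) (1 : Q)
    rwa [one_mul'] at h1
  have h1 := j02_mem.1 he _ hu
  have h2 := P.smul (R (g • y)) _ _ h1
  rw [← mul_smul, mul_assoc, mul_inv_cancel_left, mul_smul, R_smul, R_smul] at h2
  exact P.symm _ _ h2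

theorem j02_closed {k : ℕ} (P : j02_P Q k) {a b : Q} (ha : a ∈ Zs Q (k + 1)) (h : rel k a b) :
    b ∈ Zs Q (k + 1) := by
  rw [j02_mem] at ha ⊢
  intro u hu
  exact P.trans _ _ _ (P.symm _ _ h) (P.trans _ _ _ (ha u hu) (P.smul u _ _ h))

theorem j02_char {k : ℕ} (P : j02_P Q k) {x y : Q} :
    rel (k + 1) x y ↔ ∃ e ∈ Zs Q (k + 1), rel k (e * x) y := by
  constructor
  · intro h
    refine ⟨ld x y, h, ?_⟩
    have h1 := j02_central P h (L x) 1
    rw [mul_one', L_smul, L_smul, mul_one', mul_ld] at h1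
    exact P.symm _ _ h1
  · rintro ⟨e, he, h⟩
    have h1 := j02_central P he (L x) 1
    rw [mul_one', L_smul, L_smul, mul_one'] at h1
    have h2 := P.smul (L x)⁻¹ _ _ (P.trans _ _ _ h1 h)
    rw [L_inv_smul, L_inv_smul, ld_mul] at h2
    exact j02_closed P he h2

theorem j02_next {k : ℕ} (P : j02_P Q k) {a : Q} (ha : a ∈ Zs Q k) : a ∈ Zs Q (k + 1) := by
  rw [j02_mem]
  intro h hh
  rw [← j02_one] at ha
  have h1 := P.smul h _ _ ha
  rw [mem_H.1 hh] at h1
  exact P.trans _ _ _ (P.symm _ _ ha) h1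

theorem j02_step {k : ℕ} (P : j02_P Q k) : j02_P Q (k + 1) where
  refl x := by
    rw [j02_char P]
    refine ⟨1, ?_, ?_⟩
    · rw [j02_mem]
      intro h hh
      rw [mem_H.1 hh]
      exact P.refl _
    · rw [one_mul']
      exact P.refl _
  symm x y := by
    rw [j02_char P, j02_char P]
    rintro ⟨e, he, h⟩
    have hb : ld e 1 ∈ Zs Q (k + 1) := by
      rw [j02_mem]
      intro u hu
      have h1 := j02_central P he u (ld e 1)
      rw [mul_ld, mem_H.1 hu] at h1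
      have h2 := P.smul (L e)⁻¹ _ _ h1
      rw [L_inv_smul, L_inv_smul, ld_mul] at h2
      exact h2
    refine ⟨ld e 1, hb, ?_⟩
    have h1 := j02_central P he (L (ld e 1)) x
    rw [L_smul, L_smul] at h1
    have h2 := j02_central P he (R x) (ld e 1)
    rw [R_smul, R_smul, mul_ld, one_mul'] at h2
    have h3 := P.smul (L (ld e 1)) _ _ h
    rw [L_smul, L_smul] at h3
    exact P.trans _ _ _ (P.symm _ _ h3) (P.trans _ _ _ h1 (P.symm _ _ h2))
  trans x y z := by
    rw [j02_char P, j02_char P, j02_char P]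
    rintro ⟨e, he, h⟩ ⟨f, hf, h'⟩
    refine ⟨f * e, ?_, ?_⟩
    · rw [j02_mem]
      intro u hu
      have h1 := j02_central P hf u e
      have h2 := P.smul (L f) _ _ (j02_mem.1 he u hu)
      rw [L_smul, L_smul] at h2
      exact P.trans _ _ _ h2 (P.symm _ _ h1)
    · have h1 := j02_central P hf (R x) e
      rw [R_smul, R_smul] at h1
      have h2 := P.smul (L f) _ _ h
      rw [L_smul, L_smul] at h2
      exact P.trans _ _ _ h1 (P.trans _ _ _ h2 h')
  smul g x y := by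
    rw [j02_char P, j02_char P]
    rintro ⟨e, he, h⟩
    exact ⟨e, he, P.trans _ _ _ (P.symm _ _ (j02_central P he g x)) (P.smul g _ _ h)⟩

theorem j02_all (k : ℕ) : j02_P Q k := by
  induction k with
  | zero =>
    refine ⟨fun x => j02_zero.2 rfl, fun x y h => j02_zero.2 (j02_zero.1 h).symm,
      fun x y z h1 h2 => j02_zero.2 ((j02_zero.1 h1).trans (j02_zero.1 h2)),
      fun g x y h => j02_zero.2 (by rw [j02_zero.1 h])⟩
  | succ k ih => exact j02_step ih

theorem rel_refl (k : ℕ) (x : Q) : rel k x x := (j02_all k).refl x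
theorem rel_symm {k : ℕ} {x y : Q} (h : rel k x y) : rel k y x := (j02_all k).symm _ _ h
theorem rel_trans {k : ℕ} {x y z : Q} (h1 : rel k x y) (h2 : rel k y z) : rel k x z :=
  (j02_all k).trans _ _ _ h1 h2
theorem rel_smul {k : ℕ} (g : MG Q) {x y : Q} (h : rel k x y) : rel k (g • x) (g • y) :=
  (j02_all k).smul g _ _ h
theorem rel_succ {k : ℕ} {x y : Q} (h : rel k x y) : rel (k + 1) x y := j02_next (j02_all k) h
theorem rel_one_iff {k : ℕ} {a : Q} : rel k 1 a ↔ a ∈ Zs Q k := j02_one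
theorem rel_zero_iff {x y : Q} : rel 0 x y ↔ x = y := j02_zero
theorem mem_Zs_succ {k : ℕ} {a : Q} : a ∈ Zs Q (k + 1) ↔ ∀ h ∈ H Q, rel k a (h • a) := Iff.rfl
theorem Zs_rel {k : ℕ} {a b : Q} (ha : a ∈ Zs Q k) (h : rel k a b) : b ∈ Zs Q k :=
  rel_one_iff.1 (rel_trans (rel_one_iff.2 ha) h)
/-- an element of `Zs (k+1)` is central modulo `Zs k` -/
theorem central {k : ℕ} {e : Q} (he : e ∈ Zs Q (k + 1)) (g : MG Q) (y : Q) : rel k (g • (e * y)) (e * (g • y)) :=
  j02_central (j02_all k) he g y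

/-- the kernel of the action on `Q / Zs k` -/
def K (Q : Type) [Lp Q] (k : ℕ) : Subgroup (MG Q) where
  carrier := {g | ∀ x : Q, rel k x (g • x)}
  mul_mem' := by
    intro a b ha hb x
    rw [mul_smul]
    exact rel_trans (hb x) (ha (b • x))
  one_mem' := by intro x; rw [one_smul]; exact rel_refl k x
  inv_mem' := by
    intro a ha x
    have h := ha (a⁻¹ • x)
    rw [smul_inv_smul] at h
    exact rel_symm h

theorem mem_K {k : ℕ} {g : MG Q} : g ∈ K Q k ↔ ∀ x : Q, rel k x (g • x) := Iff.rfl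
-- J03
theorem j03_comm {k : ℕ} {e : Q} (he : e ∈ Zs Q (k + 1)) (x : Q) : rel k (x * e) (e * x) := by
  have h := central he (L x) 1
  rw [L_smul, L_smul, mul_one', mul_one'] at h
  exact h
theorem j03_L {k : ℕ} {e : Q} (he : e ∈ Zs Q (k + 1)) (x y : Q) : rel k (x * (e * y)) (e * (x * y)) :=
  central he (L x) y
theorem j03_R {k : ℕ} {e : Q} (he : e ∈ Zs Q (k + 1)) (x y : Q) : rel k ((e * x) * y) (e * (x * y)) :=
  central he (R y) x
theorem j03_smulL {k : ℕ} (x : Q) {y z : Q} (h : rel k y z) : rel k (x * y) (x * z) := rel_smul (L x) h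
theorem j03_smulR {k : ℕ} (x : Q) {y z : Q} (h : rel k y z) : rel k (y * x) (z * x) := rel_smul (R x) h
theorem j03_mem {k : ℕ} (g h : MG Q) (w : ∀ z : Q, rel k (g • z) (h • z)) : g⁻¹ * h ∈ K Q k := by
  intro z
  have h1 := rel_smul g⁻¹ (w z)
  rw [inv_smul_smul] at h1
  rw [mul_smul]
  exact h1
instance K_normal (k : ℕ) : (K Q k).Normal := by
  constructor
  intro n hn g x
  have h := rel_smul g (hn (g⁻¹ • x))
  rw [smul_inv_smul] at h
  rw [mul_smul, mul_smul]
  exact h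
theorem K_zero : K Q 0 = ⊥ := by
  rw [Subgroup.eq_bot_iff_forall]
  intro g hg
  apply MG_ext
  intro x
  rw [one_smul]
  exact (rel_zero_iff.1 (hg x)).symm
theorem K_le_succ (k : ℕ) : K Q k ≤ K Q (k + 1) := fun g hg x => rel_succ (hg x)
theorem L_mem_K_iff {k : ℕ} {e : Q} : L e ∈ K Q k ↔ e ∈ Zs Q k := by
  constructor
  · intro h
    have h1 := h 1
    rw [L_smul, mul_one'] at h1
    exact rel_one_iff.1 h1
  · intro h x
    have h1 := j03_smulR x (rel_one_iff.2 h)
    rw [one_mul'] at h1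
    exact h1
theorem smul_one_mem {k : ℕ} {g : MG Q} (hg : g ∈ K Q k) : g • (1 : Q) ∈ Zs Q k := rel_one_iff.1 (hg 1)
theorem mem_K_iff_dis {k : ℕ} {h : MG Q} : h ∈ K Q k ↔ ∀ x : Q, dis h x ∈ Zs Q k := Iff.rfl
theorem comm_L_mem {k : ℕ} {e : Q} (he : e ∈ Zs Q (k + 1)) (g : MG Q) : ⁅g, L e⁆ ∈ K Q k := by
  intro x
  have h := rel_symm (central he g (g⁻¹ • ((L e)⁻¹ • x)))
  rw [smul_inv_smul] at h
  have e1 : e * ((L e)⁻¹ • x) = x := by
    rw [← L_smul, smul_inv_smul]
  have e2 : ⁅g, L e⁆ • x = g • (e * (g⁻¹ • ((L e)⁻¹ • x))) := by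
    rw [commutatorElement_def, mul_smul, mul_smul, mul_smul, L_smul]
  rw [e1] at h
  rw [e2]
  exact h
theorem cj_L_mem {k : ℕ} {e : Q} (he : e ∈ Zs Q (k + 1)) (g : MG Q) : (L e)⁻¹ * cj g (L e) ∈ K Q k := by
  apply j03_mem
  intro z
  have h := rel_smul g⁻¹ (central he g z)
  rw [inv_smul_smul] at h
  rw [L_smul]
  unfold cj
  rw [mul_smul, mul_smul, L_smul]
  exact h
theorem T_mem_K {k : ℕ} {e : Q} (he : e ∈ Zs Q (k + 1)) : T e ∈ K Q k := by
  apply j03_mem
  intro z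
  exact rel_symm (j03_comm he z)
theorem LL_mem_K_left {k : ℕ} {e : Q} (he : e ∈ Zs Q (k + 1)) (x : Q) : LL e x ∈ K Q k := by
  apply j03_mem
  intro z
  rw [mul_smul]
  exact j03_R he x z
theorem LL_mem_K_right {k : ℕ} {e : Q} (he : e ∈ Zs Q (k + 1)) (x : Q) : LL x e ∈ K Q k := by
  apply j03_mem
  intro z
  rw [mul_smul]
  exact rel_trans (j03_smulR z (j03_comm he x)) (rel_trans (j03_R he x z) (rel_symm (j03_L he x z)))
theorem RR_mem_K_left {k : ℕ} {e : Q} (he : e ∈ Zs Q (k + 1)) (x : Q) : RR e x ∈ K Q k := by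
  apply j03_mem
  intro z
  rw [mul_smul]
  exact rel_trans (j03_L he z x) (rel_symm (rel_trans (j03_smulR x (j03_comm he z)) (j03_R he z x)))
theorem RR_mem_K_right {k : ℕ} {e : Q} (he : e ∈ Zs Q (k + 1)) (x : Q) : RR x e ∈ K Q k := by
  apply j03_mem
  intro z
  rw [mul_smul]
  exact rel_trans (j03_smulL z (j03_comm he x)) (rel_trans (j03_L he z x) (rel_symm (j03_comm he (z * x))))
theorem MM_mem_K_left {k : ℕ} {e : Q} (he : e ∈ Zs Q (k + 1)) (x : Q) : MM e x ∈ K Q k := by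
  apply j03_mem
  intro z
  rw [mul_smul, mul_smul]
  exact j03_R he z x
theorem MM_mem_K_right {k : ℕ} {e : Q} (he : e ∈ Zs Q (k + 1)) (x : Q) : MM x e ∈ K Q k := by
  apply j03_mem
  intro z
  rw [mul_smul, mul_smul]
  exact rel_trans (j03_comm he (x * z)) (rel_symm (rel_trans (j03_smulL x (j03_comm he z)) (j03_L he x z)))
theorem sh_mem_K {k : ℕ} {t : MG Q} (ht : t ∈ K Q k) (x : Q) : sh t x ∈ K Q k := by
  have h1 : L (dis t x) ∈ K Q k := L_mem_K_iff.2 (mem_K_iff_dis.1 ht x)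
  have h2 : cj (L x) t ∈ K Q k := by
    have h3 := (K_normal (Q := Q) k).conj_mem t ht (L x)⁻¹
    rw [inv_inv] at h3
    exact h3
  exact (K Q k).mul_mem ((K Q k).inv_mem h1) h2
end B

end Pool.Agent.AIM3
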