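import Pool.Agent.AIM3.PB

set_option autoImplicit false
set_option linter.unusedVariables false
set_option linter.unusedSectionVars false

namespace Pool.Agent.AIM3

open scoped commutatorElement

/-! ## C. The normal closure `N` -/
section C
variable {Q : Type} [Lp Q]

-- J04
theorem j04_decomp {k : ℕ} {κ : MG Q} (hκ : κ ∈ K Q k) :
    ∃ z ∈ Zs Q k, ∃ θ ∈ H Q, κ = L z * θ := by
  refine ⟨κ • (1 : Q), smul_one_mem hκ, (L (κ • (1 : Q)))⁻¹ * κ, ?_, by group⟩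
  rw [mem_H, mul_smul, L_inv_smul, ld_self]
theorem j04_comm_K_H [AbInn Q] {k : ℕ} {κ h : MG Q} (hκ : κ ∈ K Q (k + 1)) (hh : h ∈ H Q) :
    ⁅κ, h⁆ ∈ K Q k := by
  obtain ⟨z, hz, θ, hθ, rfl⟩ := j04_decomp hκ
  have h1 : ⁅L z * θ, h⁆ = ⁅h, L z⁆⁻¹ := by
    have h2 : θ * h = h * θ := AbInn.comm θ hθ h hh
    rw [commutatorElement_def, commutatorElement_def]
    have h3 : L z * θ * h = L z * h * θ := by rw [mul_assoc, h2, ← mul_assoc]
    rw [h3]
    group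
  rw [h1]
  exact (K Q k).inv_mem (comm_L_mem hz h)
theorem comm_K_N [AbInn Q] {k : ℕ} {κ n : MG Q} (hκ : κ ∈ K Q (k + 1)) (hn : n ∈ N Q) : ⁅κ, n⁆ ∈ K Q k := by
  let S : Subgroup (MG Q) :=
    { carrier := {n | ∀ κ ∈ K Q (k + 1), ⁅κ, n⁆ ∈ K Q k}
      mul_mem' := by
        intro a b ha hb κ hκ
        have h1 : ⁅κ, a * b⁆ = ⁅κ, a⁆ * (a * ⁅κ, b⁆ * a⁻¹) := by
          simp only [commutatorElement_def]
          group
        rw [h1]
        exact (K Q k).mul_mem (ha κ hκ) ((K_normal k).conj_mem _ (hb κ hκ) a)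
      one_mem' := by
        intro κ hκ
        rw [commutatorElement_one_right]
        exact (K Q k).one_mem
      inv_mem' := by
        intro a ha κ hκ
        have h1 : ⁅κ, a⁻¹⁆ = a⁻¹ * ⁅κ, a⁆⁻¹ * a⁻¹⁻¹ := by
          simp only [commutatorElement_def]
          group
        rw [h1]
        exact (K_normal k).conj_mem _ ((K Q k).inv_mem (ha κ hκ)) a⁻¹ }
  have hS : n ∈ S := by
    refine N_ind S ?_ hn
    intro h hh x κ hκ
    have h1 : ⁅κ, cj (L x) h⁆ = (L x)⁻¹ * ⁅L x * κ * (L x)⁻¹, h⁆ * (L x)⁻¹⁻¹ := by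
      unfold cj
      simp only [commutatorElement_def]
      group
    rw [h1]
    exact (K_normal k).conj_mem _ (j04_comm_K_H ((K_normal (k + 1)).conj_mem _ hκ (L x)) hh) _
  exact hS κ hκ
theorem comm_N_K [AbInn Q] {k : ℕ} {κ n : MG Q} (hκ : κ ∈ K Q (k + 1)) (hn : n ∈ N Q) : ⁅n, κ⁆ ∈ K Q k := by
  rw [← commutatorElement_inv]
  exact (K Q k).inv_mem (comm_K_N hκ hn)
theorem j04_comm_eq {a b : MG Q} (h : ⁅a, b⁆ ∈ K Q 0) : a * b = b * a := by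
  rw [K_zero, Subgroup.mem_bot] at h
  exact commutatorElement_eq_one_iff_mul_comm.mp h
theorem K1_comm_N [AbInn Q] {κ n : MG Q} (hκ : κ ∈ K Q 1) (hn : n ∈ N Q) : κ * n = n * κ :=
  j04_comm_eq (comm_K_N hκ hn)
theorem K1_comm [AbInn Q] {a b : MG Q} (ha : a ∈ K Q 1) (hb : b ∈ K Q 1) : a * b = b * a := by
  obtain ⟨z, hz, θ, hθ, rfl⟩ := j04_decomp ha
  have h1 : b * θ = θ * b := K1_comm_N hb (H_le_N hθ)
  have h2 : b * L z = L z * b := j04_comm_eq (comm_L_mem hz b)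
  rw [mul_assoc, ← h1, ← mul_assoc, ← h2, mul_assoc]
theorem N_le_K3 [Cl4 Q] : N Q ≤ K Q 3 := by
  unfold N
  refine Subgroup.normalClosure_le_normal ?_
  intro h hh
  show h ∈ K Q 3
  rw [mem_K_iff_dis]
  intro x
  have hx : x ∈ Zs Q 4 := by
    rw [Cl4.h4]
    exact Set.mem_univ x
  exact hx h hh
theorem comm_NN [AbInn Q] [Cl4 Q] {a b : MG Q} (ha : a ∈ N Q) (hb : b ∈ N Q) : ⁅a, b⁆ ∈ K Q 2 :=
  comm_K_N (N_le_K3 ha) hb
theorem comm_NNN [AbInn Q] [Cl4 Q] {a b c : MG Q} (ha : a ∈ N Q) (hb : b ∈ N Q) (hc : c ∈ N Q) :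
    ⁅a, ⁅b, c⁆⁆ ∈ K Q 1 := comm_N_K (comm_NN hb hc) ha
/-- `K 2` centralises the commutators of `N` -/
theorem K2_comm [AbInn Q] {k a b : MG Q} (hk : k ∈ K Q 2) (hkN : k ∈ N Q) (ha : a ∈ N Q) (hb : b ∈ N Q) :
    k * ⁅a, b⁆ = ⁅a, b⁆ * k := by
  have hc : ⁅k, a⁆ ∈ K Q 1 := comm_K_N hk ha
  have hd : ⁅k, b⁆ ∈ K Q 1 := comm_K_N hk hb
  have h1 : k * a * k⁻¹ = ⁅k, a⁆ * a := by
    rw [commutatorElement_def]
    group
  have h2 : k * b * k⁻¹ = ⁅k, b⁆ * b := by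
    rw [commutatorElement_def]
    group
  have h3 : k * ⁅a, b⁆ * k⁻¹ = ⁅k * a * k⁻¹, k * b * k⁻¹⁆ := by
    simp only [commutatorElement_def]
    group
  have key : ∀ c d : MG Q, c ∈ K Q 1 → d ∈ K Q 1 → ⁅c * a, d * b⁆ = ⁅a, b⁆ := by
    intro c d hc hd
    have e1 : Commute c a := K1_comm_N hc ha
    have e2 : Commute c b := K1_comm_N hc hb
    have e3 : Commute d a := K1_comm_N hd ha
    have e4 : Commute d b := K1_comm_N hd hb
    have e5 : Commute c d := K1_comm hc hd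
    simp only [commutatorElement_def, mul_inv_rev]
    calc c * a * (d * b) * (a⁻¹ * c⁻¹) * (b⁻¹ * d⁻¹)
        = c * (a * d) * b * a⁻¹ * c⁻¹ * b⁻¹ * d⁻¹ := by group
      _ = c * (d * a) * b * a⁻¹ * c⁻¹ * b⁻¹ * d⁻¹ := by rw [e3.eq]
      _ = (c * (d * (a * b * a⁻¹))) * (c⁻¹ * b⁻¹) * d⁻¹ := by group
      _ = (c * (d * (a * b * a⁻¹))) * (b⁻¹ * c⁻¹) * d⁻¹ := by rw [(e2.inv_inv).eq]
      _ = c * (d * (a * b * a⁻¹ * b⁻¹)) * (c⁻¹ * d⁻¹) := by group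
      _ = c * (d * (a * b * a⁻¹ * b⁻¹)) * (d⁻¹ * c⁻¹) := by rw [(e5.inv_inv).eq]
      _ = c * (d * (a * b * a⁻¹ * b⁻¹) * d⁻¹) * c⁻¹ := by group
      _ = c * (a * b * a⁻¹ * b⁻¹ * d * d⁻¹) * c⁻¹ := by
          have e6 : Commute d (a * b * a⁻¹ * b⁻¹) :=
            ((e3.mul_right e4).mul_right e3.inv_right).mul_right e4.inv_right
          rw [e6.eq]
      _ = c * (a * b * a⁻¹ * b⁻¹) * c⁻¹ := by group
      _ = (a * b * a⁻¹ * b⁻¹) * c * c⁻¹ := by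
          have e6 : Commute c (a * b * a⁻¹ * b⁻¹) :=
            ((e1.mul_right e2).mul_right e1.inv_right).mul_right e2.inv_right
          rw [e6.eq]
      _ = a * b * a⁻¹ * b⁻¹ := by group
  rw [h1, h2, key _ _ hc hd] at h3
  exact mul_inv_eq_iff_eq_mul.mp h3
theorem fixH [AbInn Q] {k : ℕ} {θ : MG Q} {c : Q} (hθ : θ ∈ H Q) (hK : θ ∈ K Q (k + 1)) (hc : L c ∈ N Q) :
    rel k c (θ • c) := by
  have h1 : θ • c = ⁅θ, L c⁆ • c := by
    have h2 : L c • (1 : Q) = c := by rw [L_smul, mul_one']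
    have h3 : θ • (1 : Q) = 1 := mem_H.mp hθ
    have h4 : θ * L c = ⁅θ, L c⁆ * (L c * θ) := by
      rw [commutatorElement_def]
      group
    calc θ • c = (θ * L c) • (1 : Q) := by rw [mul_smul, h2]
      _ = ⁅θ, L c⁆ • (L c • (θ • (1 : Q))) := by rw [h4, mul_smul, mul_smul]
      _ = ⁅θ, L c⁆ • c := by rw [h3, h2]
  rw [h1]
  exact mem_K.mp (comm_K_N hK hc) c
/-- an element of `Zs (k+1)` commutes with everything modulo `Zs k` -/
theorem j04_central_comm {k : ℕ} {e : Q} (he : e ∈ Zs Q (k + 1)) (y : Q) : rel k (y * e) (e * y) := by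
  have h := central he (L y) (1 : Q)
  rw [mul_one', L_smul, L_smul, mul_one'] at h
  exact h
/-- functions of elements of `K (k+1)` are constant modulo `Zs k` along orbits of `N` -/
theorem K_orbit [AbInn Q] {k : ℕ} {κ n : MG Q} (hκ : κ ∈ K Q (k + 1)) (hn : n ∈ N Q) (y : Q) :
    rel k (dis κ y) (dis κ (n • y)) := by
  have he : dis κ y ∈ Zs Q (k + 1) := mem_K_iff_dis.mp hκ y
  have h1 : rel k ((n • y) * dis κ y) (dis κ y * (n • y)) := j04_central_comm he _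
  have h2 : rel k (dis κ y * (n • y)) (n • (dis κ y * y)) := rel_symm (central he n y)
  have h3 : rel k (n • (dis κ y * y)) (n • (y * dis κ y)) :=
    rel_smul n (rel_symm (j04_central_comm he y))
  have h4 : rel k (n • (κ • y)) (κ • (n • y)) := by
    have h5 := mem_K.mp (comm_K_N hκ hn) (n • (κ • y))
    have h6 : ⁅κ, n⁆ • (n • (κ • y)) = κ • (n • y) := by
      rw [← mul_smul, ← mul_smul, ← mul_smul, commutatorElement_def]
      congr 1
      group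
    rw [h6] at h5
    exact h5
  rw [mul_dis] at h3
  have h5 := rel_trans h1 (rel_trans h2 (rel_trans h3 h4))
  rw [← mul_dis κ (n • y)] at h5
  have h6 := rel_smul (L (n • y))⁻¹ h5
  rw [L_inv_smul, L_inv_smul, ld_mul, ld_mul] at h6
  exact h6
theorem j04_mul_comm [AbInn Q] {k : ℕ} {e c : Q} (he : e ∈ Zs Q (k + 2)) (hc : L c ∈ N Q) :
    rel k (e * c) (c * e) := by
  have h1 := rel_smul (L e) (fixH (T_mem e) (T_mem_K (k := k + 1) he) hc)
  rw [L_smul, L_smul, mul_T] at h1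
  exact h1
theorem j04_LL1 [AbInn Q] {k : ℕ} {e c : Q} (he : e ∈ Zs Q (k + 2)) (hc : L c ∈ N Q) : LL e c ∈ K Q k := by
  rw [mem_K]
  intro y
  have h1 := rel_smul (R y) (rel_smul (L e) (fixH (MM_mem e y) (MM_mem_K_left (k := k + 1) he y) hc))
  rw [R_smul, R_smul, L_smul, L_smul, MM_mul] at h1
  have h2 := rel_smul (L (e * c))⁻¹ h1
  rw [L_inv_smul, L_inv_smul, ld_mul] at h2
  have h3 : LL e c • y = ld (e * c) (e * (c * y)) := by
    unfold LL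
    rw [mul_smul, mul_smul, L_inv_smul, L_smul, L_smul]
  rw [h3]
  exact h2
theorem j04_LL2 [AbInn Q] {k : ℕ} {e c : Q} (he : e ∈ Zs Q (k + 2)) (hc : L c ∈ N Q) : LL c e ∈ K Q k := by
  rw [mem_K]
  intro y
  have h1 := rel_smul (R (e * y)) (fixH (RR_mem e y) (RR_mem_K_left (k := k + 1) he y) hc)
  rw [R_smul, R_smul, RR_mul] at h1
  have h2 := rel_smul (L (c * e))⁻¹ (rel_symm h1)
  rw [L_inv_smul, L_inv_smul, ld_mul] at h2
  have h3 : LL c e • y = ld (c * e) (c * (e * y)) := by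
    unfold LL
    rw [mul_smul, mul_smul, L_inv_smul, L_smul, L_smul]
  rw [h3]
  exact h2
theorem j04_L_div {k : ℕ} {x y : Q} (h : rel k x y) : L x * (L y)⁻¹ ∈ K Q k := by
  rw [mem_K]
  intro z
  have h1 := rel_smul (R (ld y z)) (rel_symm h)
  rw [R_smul, R_smul, mul_ld] at h1
  rw [mul_smul, L_inv_smul, L_smul]
  exact h1
theorem V_comm [AbInn Q] {k : ℕ} {e c : Q} (he : e ∈ Zs Q (k + 2)) (hc : L c ∈ N Q) : ⁅L e, L c⁆ ∈ K Q k := by
  have h1 : ⁅L e, L c⁆ = (L (e * c) * (LL e c * (LL c e)⁻¹) * (L (e * c))⁻¹) *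
      (L (e * c) * (L (c * e))⁻¹) := by
    have h2 : ⁅L e, L c⁆ = (L e * L c) * (L c * L e)⁻¹ := by
      rw [commutatorElement_def]
      group
    rw [h2, LL_eq e c, LL_eq c e]
    group
  rw [h1]
  exact (K Q k).mul_mem ((K_normal k).conj_mem _ ((K Q k).mul_mem (j04_LL1 he hc)
    ((K Q k).inv_mem (j04_LL2 he hc))) _) (j04_L_div (j04_mul_comm he hc))
theorem V_LL1 [AbInn Q] {k : ℕ} {e c : Q} (he : e ∈ Zs Q (k + 2)) (hc : L c ∈ N Q) : LL e c ∈ K Q k :=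
  j04_LL1 he hc
theorem V_LL2 [AbInn Q] {k : ℕ} {e c : Q} (he : e ∈ Zs Q (k + 2)) (hc : L c ∈ N Q) : LL c e ∈ K Q k :=
  j04_LL2 he hc
theorem V_mul_comm [AbInn Q] {k : ℕ} {e c : Q} (he : e ∈ Zs Q (k + 2)) (hc : L c ∈ N Q) : rel k (e * c) (c * e) :=
  j04_mul_comm he hc
theorem V_assoc1 [AbInn Q] {k : ℕ} {e c : Q} (he : e ∈ Zs Q (k + 2)) (hc : L c ∈ N Q) (p : Q) :
    rel k (p * (e * c)) ((p * e) * c) := by
  have h1 := rel_smul (L (p * e)) (fixH (LL_mem p e) (LL_mem_K_right (k := k + 1) he p) hc)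
  rw [L_smul, L_smul, mul_LL] at h1
  exact rel_symm h1
theorem V_assoc2 [AbInn Q] {k : ℕ} {e c : Q} (he : e ∈ Zs Q (k + 2)) (hc : L c ∈ N Q) (p : Q) :
    rel k (p * (c * e)) ((p * c) * e) := by
  have h1 := rel_smul (R e) (rel_smul (L p) (fixH (MM_mem p e) (MM_mem_K_right (k := k + 1) he p) hc))
  rw [R_smul, R_smul, L_smul, L_smul, MM_mul] at h1
  exact rel_symm h1
end C

end Pool.Agent.AIM3
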