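import Pool.Agent.AIM3.PC

set_option autoImplicit false
set_option linter.unusedVariables false
set_option linter.unusedSectionVars false

namespace Pool.Agent.AIM3

open scoped commutatorElement

/-! ## D. Orbits of `N` and characters -/
section D
variable {Q : Type} [Lp Q]

-- J05
theorem sameN_refl (p : Q) : sameN p p := ⟨1, (N Q).one_mem, one_smul _ _⟩
theorem sameN_symm {p q : Q} (h : sameN p q) : sameN q p := by
  obtain ⟨n, hn, rfl⟩ := h
  exact ⟨n⁻¹, (N Q).inv_mem hn, inv_smul_smul _ _⟩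
theorem sameN_trans {p q r : Q} (h1 : sameN p q) (h2 : sameN q r) : sameN p r := by
  obtain ⟨n, hn, rfl⟩ := h1
  obtain ⟨m, hm, rfl⟩ := h2
  exact ⟨m * n, (N Q).mul_mem hm hn, mul_smul _ _ _⟩
theorem sameN_smul (g : MG Q) {p q : Q} (h : sameN p q) : sameN (g • p) (g • q) := by
  obtain ⟨n, hn, rfl⟩ := h
  refine ⟨g * n * g⁻¹, N_normal.conj_mem n hn g, ?_⟩
  rw [mul_smul, mul_smul, inv_smul_smul]
theorem sameN_iff {p q : Q} : sameN p q ↔ L (ld p q) ∈ N Q := by
  constructor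
  · rintro ⟨n, hn, h⟩
    have hm : (L p)⁻¹ * n * L p ∈ N Q := by
      have := N_normal.conj_mem n hn (L p)⁻¹
      rwa [inv_inv] at this
    have h1 : ((L p)⁻¹ * n * L p) • (1 : Q) = ld p q := by
      rw [mul_smul, mul_smul, L_smul, mul_one', h, L_inv_smul]
    have h2 : (L (ld p q))⁻¹ * ((L p)⁻¹ * n * L p) ∈ H Q := by
      rw [mem_H, mul_smul, h1, L_inv_smul, ld_self]
    have h3 := (N Q).mul_mem hm ((N Q).inv_mem (H_le_N h2))
    have h4 : ((L p)⁻¹ * n * L p) * ((L (ld p q))⁻¹ * ((L p)⁻¹ * n * L p))⁻¹ = L (ld p q) := by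
      group
    rwa [h4] at h3
  · intro h
    refine ⟨L p * L (ld p q) * (L p)⁻¹, N_normal.conj_mem _ h _, ?_⟩
    rw [mul_smul, mul_smul, L_inv_smul, ld_self, L_smul (ld p q), mul_one', L_smul, mul_ld]
theorem sameN_of_mem {n : MG Q} (hn : n ∈ N Q) (p : Q) : sameN p (n • p) := ⟨n, hn, rfl⟩
theorem L_mem_N_iff {c : Q} : L c ∈ N Q ↔ sameN 1 c := by
  rw [sameN_iff, ld_one]
theorem L_dis_mem {n : MG Q} (hn : n ∈ N Q) (x : Q) : L (dis n x) ∈ N Q :=
  sameN_iff.1 (sameN_of_mem hn x)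
theorem sameN_comm (x y : Q) : sameN (x * y) (y * x) := by
  apply sameN_symm
  refine ⟨L y * T y * (L y)⁻¹, N_normal.conj_mem _ (H_le_N (T_mem y)) _, ?_⟩
  rw [mul_smul, mul_smul, L_inv_smul, ld_mul, L_smul, mul_T]
theorem sameN_assoc (x y z : Q) : sameN ((x * y) * z) (x * (y * z)) := by
  refine ⟨L (x * y) * LL x y * (L (x * y))⁻¹, N_normal.conj_mem _ (H_le_N (LL_mem x y)) _, ?_⟩
  rw [mul_smul, mul_smul, L_inv_smul, ld_mul, L_smul, mul_LL]
theorem sameN_mul {x x' y y' : Q} (h1 : sameN x x') (h2 : sameN y y') : sameN (x * y) (x' * y') := by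
  have e1 := sameN_smul (R y) h1
  have e2 := sameN_smul (L x') h2
  rw [R_smul, R_smul] at e1
  rw [L_smul, L_smul] at e2
  exact sameN_trans e1 e2
theorem Zs3_of_N [Cl4 Q] {c : Q} (hc : L c ∈ N Q) : c ∈ Zs Q 3 := by
  have h := smul_one_mem (N_le_K3 hc)
  rwa [L_smul, mul_one'] at h

variable {W : Type} [AddCommGroup W] {F : MG Q → W}

-- J06
theorem j06_key (hF : IsChar F) {n : MG Q} (hn : n ∈ N Q) : F n = F (L (n • (1 : Q))) := by
  have h1 : (L (n • (1 : Q)))⁻¹ * n ∈ H Q := by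
    rw [mem_H, mul_smul, L_inv_smul]
    exact ld_self _
  have h2 : L (n • (1 : Q)) ∈ N Q := by
    have h3 : L (n • (1 : Q)) = n * ((L (n • (1 : Q)))⁻¹ * n)⁻¹ := by group
    rw [h3]
    exact (N Q).mul_mem hn ((N Q).inv_mem (H_le_N h1))
  have h4 : n = L (n • (1 : Q)) * ((L (n • (1 : Q)))⁻¹ * n) := by group
  have h5 := hF.map_mul _ h2 _ (H_le_N h1)
  rw [← h4, hF.map_H _ h1, add_zero] at h5
  exact h5

theorem j06_cj_one (n : MG Q) (x : Q) : cj (L x) n • (1 : Q) = ld x (n • x) := by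
  unfold cj
  rw [mul_smul, mul_smul, L_smul, mul_one', L_inv_smul]

theorem j06_one (hF : IsChar F) : F 1 = 0 := hF.map_H 1 (H Q).one_mem

theorem j06_inv (hF : IsChar F) {n : MG Q} (hn : n ∈ N Q) : F n⁻¹ = - F n := by
  have h := hF.map_mul _ hn _ ((N Q).inv_mem hn)
  rw [mul_inv_cancel, j06_one hF] at h
  exact (neg_eq_of_add_eq_zero_right h.symm).symm

theorem j06_cjN (hF : IsChar F) {n m : MG Q} (hn : n ∈ N Q) (hm : m ∈ N Q) : F (cj m n) = F n := by
  unfold cj
  rw [hF.map_mul _ ((N Q).mul_mem ((N Q).inv_mem hm) hn) _ hm, hF.map_mul _ ((N Q).inv_mem hm) _ hn,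
    j06_inv hF hm]
  abel

theorem j06_orbit (hF : IsChar F) {n : MG Q} (hn : n ∈ N Q) {x y : Q} (h : sameN x y) :
    F (cj (L x) n) = F (cj (L y) n) := by
  obtain ⟨k, hk, rfl⟩ := h
  set h := (k * L x)⁻¹ * L (k • x) with hh
  have hH : h ∈ H Q := by
    rw [mem_H, hh, mul_smul, L_smul, mul_one', mul_inv_rev, mul_smul, inv_smul_smul, L_inv_smul]
    exact ld_self _
  have h1 : L (k • x) = k * L x * h := by rw [hh]; group
  have h2 : cj (L (k • x)) n = cj h (cj (cj (L x) k) (cj (L x) n)) := by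
    rw [h1]
    unfold cj
    group
  rw [h2, j06_cjN hF (cj_mem_N _ (cj_mem_N _ hn)) (H_le_N hH), j06_cjN hF (cj_mem_N _ hn) (cj_mem_N _ hk)]

theorem j06_conj (hF : IsChar F) {n : MG Q} (hn : n ∈ N Q) (x : Q) : F (cj (L x) n) = dF F x (n • x) := by
  rw [j06_key hF (cj_mem_N _ hn), j06_cj_one]
  rfl

theorem j06_H_smul (hF : IsChar F) {h : MG Q} (hh : h ∈ H Q) {c : Q} (hc : L c ∈ N Q) :
    F (L (h • c)) = F (L c) := by
  have h1 := j06_key hF ((N Q).mul_mem (H_le_N hh) hc)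
  rw [mul_smul, L_smul, mul_one', hF.map_mul _ (H_le_N hh) _ hc, hF.map_H _ hh, zero_add] at h1
  exact h1.symm

theorem dF_add (hF : IsChar F) {p q r : Q} (h1 : sameN p q) (h2 : sameN q r) : dF F p q + dF F q r = dF F p r := by
  obtain ⟨n, hn, rfl⟩ := h1
  obtain ⟨m, hm, rfl⟩ := h2
  have e := j06_conj hF ((N Q).mul_mem hm hn) p
  rw [mul_smul] at e
  rw [← e, cj_mul, hF.map_mul _ (cj_mem_N _ hm) _ (cj_mem_N _ hn), ← j06_conj hF hn p,
    ← j06_conj hF hm (n • p), j06_orbit hF hm (⟨n, hn, rfl⟩ : sameN p (n • p)), add_comm]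
theorem dF_smul (hF : IsChar F) (g : MG Q) {p q : Q} (h : sameN p q) : dF F (g • p) (g • q) = dF F p q := by
  have h1 := trans_mem g p
  have h2 := j06_H_smul hF h1 (sameN_iff.1 h)
  rw [mul_smul, mul_smul, L_smul, mul_ld, L_inv_smul] at h2
  exact h2
theorem dF_self (hF : IsChar F) (p : Q) : dF F p p = 0 := by
  unfold dF
  rw [ld_self, L_one]
  exact j06_one hF
theorem dF_symm (hF : IsChar F) {p q : Q} (h : sameN p q) : dF F q p = - dF F p q := by
  have h1 := dF_add hF h (sameN_symm h)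
  rw [dF_self hF] at h1
  exact (neg_eq_of_add_eq_zero_right h1).symm
theorem dF_conj (hF : IsChar F) {n : MG Q} (hn : n ∈ N Q) (x : Q) : F (cj (L x) n) = dF F x (n • x) :=
  j06_conj hF hn x
theorem char_one (hF : IsChar F) : F 1 = 0 := j06_one hF
theorem char_inv (hF : IsChar F) {n : MG Q} (hn : n ∈ N Q) : F n⁻¹ = - F n := j06_inv hF hn
theorem char_cjN (hF : IsChar F) {n m : MG Q} (hn : n ∈ N Q) (hm : m ∈ N Q) : F (cj m n) = F n := j06_cjN hF hn hm
theorem char_orbit (hF : IsChar F) {n : MG Q} (hn : n ∈ N Q) {x y : Q} (h : sameN x y) :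
    F (cj (L x) n) = F (cj (L y) n) := j06_orbit hF hn h
theorem char_dis (hF : IsChar F) {h : MG Q} (hh : h ∈ H Q) (x : Q) : F (cj (L x) h) = F (L (dis h x)) := by
  rw [j06_key hF (cj_mem_N _ (H_le_N hh)), j06_cj_one]
  rfl
theorem char_H_smul (hF : IsChar F) {h : MG Q} (hh : h ∈ H Q) {c : Q} (hc : L c ∈ N Q) : F (L (h • c)) = F (L c) :=
  j06_H_smul hF hh hc
-- J07
theorem aF_L (hF : IsChar F) (x y z : Q) : F (cj (L z) (LL x y)) = aF F x y z := by
  rw [dF_conj hF (H_le_N (LL_mem x y)) z]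
  have h := dF_smul hF (L (x * y)) (sameN_of_mem (H_le_N (LL_mem x y)) z)
  rw [L_smul, L_smul, mul_LL] at h
  exact h.symm
theorem aF_M (hF : IsChar F) (x y z : Q) : F (cj (L y) (MM x z)) = aF F x y z := by
  rw [dF_conj hF (H_le_N (MM_mem x z)) y]
  have h := dF_smul hF (R z * L x) (sameN_of_mem (H_le_N (MM_mem x z)) y)
  rw [mul_smul, mul_smul, L_smul, L_smul, R_smul, R_smul, MM_mul] at h
  exact h.symm
theorem aF_R (hF : IsChar F) (x y z : Q) : F (cj (L x) (RR y z)) = - aF F x y z := by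
  rw [dF_conj hF (H_le_N (RR_mem y z)) x]
  have h := dF_smul hF (R (y * z)) (sameN_of_mem (H_le_N (RR_mem y z)) x)
  rw [R_smul, R_smul, RR_mul] at h
  rw [← h]
  exact dF_symm hF (sameN_assoc x y z)
theorem kF_T (hF : IsChar F) (x u : Q) : F (cj (L x) (T u)) = kF F x u := by
  rw [dF_conj hF (H_le_N (T_mem u)) x]
  have h := dF_smul hF (L u) (sameN_of_mem (H_le_N (T_mem u)) x)
  rw [L_smul, L_smul, mul_T] at h
  exact h.symm
theorem kF_anti (hF : IsChar F) (x u : Q) : kF F x u = - kF F u x :=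
  dF_symm hF (sameN_comm x u)
theorem kF_self (hF : IsChar F) (x : Q) : kF F x x = 0 := dF_self hF (x * x)
theorem aF_pent (hF : IsChar F) (w x y z : Q) :
    aF F (w * x) y z + aF F w x (y * z) = aF F w x y + aF F w (x * y) z + aF F x y z := by
  have e1 : aF F (w * x) y z + aF F w x (y * z) = dF F (((w * x) * y) * z) (w * (x * (y * z))) :=
    dF_add hF (sameN_assoc (w * x) y z) (sameN_assoc w x (y * z))
  have e2 : dF F (((w * x) * y) * z) ((w * (x * y)) * z) = aF F w x y := by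
    have h := dF_smul hF (R z) (sameN_assoc w x y)
    rw [R_smul, R_smul] at h
    exact h
  have e3 : dF F (w * ((x * y) * z)) (w * (x * (y * z))) = aF F x y z := by
    have h := dF_smul hF (L w) (sameN_assoc x y z)
    rw [L_smul, L_smul] at h
    exact h
  have s1 : sameN (((w * x) * y) * z) ((w * (x * y)) * z) := by
    have h := sameN_smul (R z) (sameN_assoc w x y)
    rw [R_smul, R_smul] at h
    exact h
  have s3 : sameN (w * ((x * y) * z)) (w * (x * (y * z))) := by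
    have h := sameN_smul (L w) (sameN_assoc x y z)
    rw [L_smul, L_smul] at h
    exact h
  have s2 : sameN ((w * (x * y)) * z) (w * ((x * y) * z)) := sameN_assoc w (x * y) z
  have e4 : dF F (((w * x) * y) * z) ((w * (x * y)) * z) + aF F w (x * y) z =
      dF F (((w * x) * y) * z) (w * ((x * y) * z)) := dF_add hF s1 s2
  have e5 : dF F (((w * x) * y) * z) (w * ((x * y) * z)) +
      dF F (w * ((x * y) * z)) (w * (x * (y * z))) = dF F (((w * x) * y) * z) (w * (x * (y * z))) :=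
    dF_add hF (sameN_trans s1 s2) s3
  rw [e1, ← e2, ← e3, e4, e5]
theorem kF_hex (hF : IsChar F) (x y z : Q) :
    kF F (x * y) z = kF F x z + kF F y z - aF F z x y + aF F x z y - aF F x y z := by
  have s1 : sameN (z * (x * y)) ((z * x) * y) := sameN_symm (sameN_assoc z x y)
  have s2 : sameN ((z * x) * y) ((x * z) * y) := by
    have h := sameN_smul (R y) (sameN_comm z x)
    rw [R_smul, R_smul] at h
    exact h
  have s3 : sameN ((x * z) * y) (x * (z * y)) := sameN_assoc x z y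
  have s4 : sameN (x * (z * y)) (x * (y * z)) := by
    have h := sameN_smul (L x) (sameN_comm z y)
    rw [L_smul, L_smul] at h
    exact h
  have s5 : sameN (x * (y * z)) ((x * y) * z) := sameN_symm (sameN_assoc x y z)
  have e1 : dF F (z * (x * y)) ((z * x) * y) = - aF F z x y := dF_symm hF (sameN_assoc z x y)
  have e2 : dF F ((z * x) * y) ((x * z) * y) = kF F x z := by
    have h := dF_smul hF (R y) (sameN_comm z x)
    rw [R_smul, R_smul] at h
    exact h
  have e3 : dF F ((x * z) * y) (x * (z * y)) = aF F x z y := rfl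
  have e4 : dF F (x * (z * y)) (x * (y * z)) = kF F y z := by
    have h := dF_smul hF (L x) (sameN_comm z y)
    rw [L_smul, L_smul] at h
    exact h
  have e5 : dF F (x * (y * z)) ((x * y) * z) = - aF F x y z := dF_symm hF (sameN_assoc x y z)
  have t2 := sameN_trans s1 s2
  have t3 := sameN_trans t2 s3
  have t4 := sameN_trans t3 s4
  have f2 := dF_add hF s1 s2
  have f3 := dF_add hF t2 s3
  have f4 := dF_add hF t3 s4
  have f5 : dF F (z * (x * y)) (x * (y * z)) + dF F (x * (y * z)) ((x * y) * z) =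
      kF F (x * y) z := dF_add hF t4 s5
  rw [← f5, ← f4, ← f3, ← f2, e1, e2, e3, e4, e5]
  abel
theorem aF_congr (hF : IsChar F) {x x' y y' z z' : Q} (h1 : sameN x x') (h2 : sameN y y') (h3 : sameN z z') :
    aF F x y z = aF F x' y' z' := by
  rw [← aF_L hF x y z, char_orbit hF (H_le_N (LL_mem x y)) h3, aF_L hF x y z',
    ← aF_M hF x y z', char_orbit hF (H_le_N (MM_mem x z')) h2, aF_M hF x y' z']
  have e1 := aF_R hF x y' z'
  have e2 := aF_R hF x' y' z'
  rw [char_orbit hF (H_le_N (RR_mem y' z')) h1, e2] at e1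
  exact (neg_injective e1).symm
theorem kF_congr (hF : IsChar F) {x x' y y' : Q} (h1 : sameN x x') (h2 : sameN y y') : kF F x y = kF F x' y' := by
  rw [← kF_T hF x y, char_orbit hF (H_le_N (T_mem y)) h1, kF_T hF x' y, kF_anti hF x' y,
    ← kF_T hF y x', char_orbit hF (H_le_N (T_mem x')) h2, kF_T hF y' x', ← kF_anti hF x' y']
/-- two characters which agree on the `p^{L_x}`, `p ∈ H`, agree on `N` -/
theorem char_ext (hF : IsChar F) {G : MG Q → W} (hG : IsChar G) (h : ∀ p ∈ H Q, ∀ x : Q, F (cj (L x) p) = G (cj (L x) p))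
    {n : MG Q} (hn : n ∈ N Q) : F n = G n := by
  let S : Subgroup (MG Q) :=
    { carrier := {m | m ∈ N Q ∧ F m = G m}
      mul_mem' := by
        rintro a b ⟨ha, ha'⟩ ⟨hb, hb'⟩
        exact ⟨(N Q).mul_mem ha hb, by rw [hF.map_mul a ha b hb, hG.map_mul a ha b hb, ha', hb']⟩
      one_mem' := ⟨(N Q).one_mem, by rw [char_one hF, char_one hG]⟩
      inv_mem' := by
        rintro a ⟨ha, ha'⟩
        exact ⟨(N Q).inv_mem ha, by rw [char_inv hF ha, char_inv hG ha, ha']⟩ }
  have h1 : n ∈ S := N_ind S (fun p hp x => ⟨cj_mem_N (L x) (H_le_N hp), h p hp x⟩) hn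
  exact h1.2
end D

end Pool.Agent.AIM3
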