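import Pool.Agent.AIM3.PD

set_option autoImplicit false
set_option linter.unusedVariables false
set_option linter.unusedSectionVars false

namespace Pool.Agent.AIM3

open scoped commutatorElement

/-! ## E. Pure form lemmas -/
section E
variable {Q : Type} [Mul Q] {W : Type} [AddCommGroup W]

/-- alternating, additive function of three variables -/
structure Alt3 (X : Q → Q → Q → W) : Prop where
  s12 : ∀ a b c, X b a c = - X a b c
  s23 : ∀ a b c, X a c b = - X a b c
  z12 : ∀ a c, X a a c = 0
  add1 : ∀ a b c d, X (a * b) c d = X a c d + X b c d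

/-- alternating, additive function of four variables -/
structure Alt4 (X : Q → Q → Q → Q → W) : Prop where
  s12 : ∀ a b c d, X b a c d = - X a b c d
  s23 : ∀ a b c d, X a c b d = - X a b c d
  s34 : ∀ a b c d, X a b d c = - X a b c d
  z12 : ∀ a c d, X a a c d = 0
  add1 : ∀ a b c d e, X (a * b) c d e = X a c d e + X b c d e

/-- alternating, additive function of five variables -/
structure Alt5 (X : Q → Q → Q → Q → Q → W) : Prop where
  s12 : ∀ a b c d e, X b a c d e = - X a b c d e
  s23 : ∀ a b c d e, X a c b d e = - X a b c d e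
  s34 : ∀ a b c d e, X a b d c e = - X a b c d e
  s45 : ∀ a b c d e, X a b c e d = - X a b c d e
  z12 : ∀ a c d e, X a a c d e = 0
  add1 : ∀ a b c d e f, X (a * b) c d e f = X a c d e f + X b c d e f

-- J08
theorem CY (f : Q → Q → Q → W) (Y : Q → Q → Q → Q → W)
    (hcyc : ∀ x y z, f x y z = f y z x)
    (hY1 : ∀ a b c d, Y b a c d = Y a b c d) (hY2 : ∀ a b c d, Y a c b d = Y a b c d)
    (hY3 : ∀ a b c d, Y a b d c = Y a b c d) (hY : ∀ a b c d, Y a b c d + Y a b c d = 0)
    (hpent : ∀ w x y z, f x y z - f (w * x) y z + f w (x * y) z - f w x (y * z) + f w x y = Y w x y z)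
    (hcomm : ∀ w x y z, f (w * x) y z - f (x * w) y z = Y w x y z) :
    (∀ a b c d, Y a b c d = 0) ∧ ∀ w x y z, f (w * x) y z = f w y z + f x y z := by
  set D : Q → Q → Q → Q → W := fun w x y z => f (w * x) y z - f w y z - f x y z with hD
  -- the pentagon
  have E : ∀ w x y z, D w x y z - D x y z w + D y z w x = - Y w x y z := by
    intro w x y z
    have h := hpent w x y z
    rw [hcyc w (x * y) z, ← hcyc (y * z) w x] at h
    simp only [hD]
    rw [← h, hcyc w y z, hcyc x z w, hcyc y w x]
    abel
  have r1 : ∀ a b c d, Y b c d a = Y a b c d := by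
    intro a b c d
    rw [hY3 b c a d, hY2 b a c d, hY1 a b c d]
  have neg2 : ∀ a b c d, - Y a b c d + - Y a b c d = 0 := by
    intro a b c d
    have := hY a b c d
    rw [← neg_add, this, neg_zero]
  have d1 : ∀ w x y z, D x y z w = - D w x y z := by
    intro w x y z
    have e1 := E x y z w
    have e2 := E y z w x
    rw [r1 w x y z] at e1
    rw [r1 x y z w, r1 w x y z] at e2
    have : D x y z w + D w x y z = 0 := by
      calc D x y z w + D w x y z = (D x y z w - D y z w x + D z w x y) + (D y z w x - D z w x y + D w x y z) := by abel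
        _ = - Y w x y z + - Y w x y z := by rw [e1, e2]
        _ = 0 := neg2 w x y z
    exact eq_neg_of_add_eq_zero_left this
  have d2 : ∀ w x y z, D y z w x = D w x y z := by
    intro w x y z
    rw [d1 x y z w, d1 w x y z, neg_neg]
  have t3 : ∀ w x y z, D w x y z + D w x y z + D w x y z = - Y w x y z := by
    intro w x y z
    have h := E w x y z
    rw [d2 w x y z, d1 w x y z] at h
    rw [← h]
    abel
  have c1 : ∀ w x y z, D x w y z = D w x y z - Y w x y z := by
    intro w x y z
    have h := hcomm w x y z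
    simp only [hD]
    rw [← h]
    abel
  have c3 : ∀ w x y z, D w x z y = D w x y z - Y w x y z := by
    intro w x y z
    rw [← d2 w x z y, c1 y z w x, d2 w x y z, r1 x y z w, r1 w x y z]
  have c2 : ∀ w x y z, D w y x z = D w x y z + Y w x y z := by
    intro w x y z
    have h := d1 w y x z
    have h2 : D w y x z = - D y x z w := by rw [h, neg_neg]
    rw [h2, c1 x y z w, d1 w x y z, r1 w x y z]
    abel
  have t2 : ∀ w x y z, D w x y z + D w x y z = Y w x y z := by
    intro w x y z
    have h := c3 x y w z
    rw [c2 x w y z, c1 w x y z, hY2 x w y z, hY1 w x y z, d1 w x y z] at h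
    have h2 : - D w x y z = D w x y z - Y w x y z := by
      rw [h]
      abel
    calc D w x y z + D w x y z = D w x y z - (- D w x y z) := by abel
      _ = D w x y z - (D w x y z - Y w x y z) := by rw [← h2]
      _ = Y w x y z := by abel
  have D0 : ∀ w x y z, D w x y z = 0 := by
    intro w x y z
    calc D w x y z = (D w x y z + D w x y z + D w x y z) - (D w x y z + D w x y z) := by abel
      _ = - Y w x y z - Y w x y z := by rw [t3, t2]
      _ = - Y w x y z + - Y w x y z := by abel
      _ = 0 := neg2 w x y z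
  constructor
  · intro a b c d
    rw [← t2 a b c d, D0, add_zero]
  · intro w x y z
    have h := D0 w x y z
    simp only [hD] at h
    rw [sub_sub, sub_eq_zero] at h
    exact h

-- J09
theorem FORM (P : Q → Q → Q → Q → Q → W) (X : Q → Q → Q → Q → W)
    (ha1 : ∀ u v x y z, P u v x y z = P x y u v z)
    (ha2 : ∀ u v x y z, P u v x y z = P x v u z y)
    (ha3 : ∀ u v x y z, P u v x y z = P u y z v x)
    (hPc : ∀ u v w x y z, P u v (w * x) y z = P u v (x * w) y z)
    (hPp : ∀ u v w x y z, P u v (w * x) y z + P u v w x (y * z) = P u v w x y + P u v w (x * y) z + P u v x y z)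
    (hXc : ∀ t w x y z, X t (w * x) y z = X t (x * w) y z)
    (hX1 : ∀ t x y z, X t x y z = - X x t y z)
    (hX2 : ∀ t x y z, X t x y z = - X y x t z)
    (hX3 : ∀ t x y z, X t x y z = - X z x y t)
    (hX0 : ∀ t x y, X t x y t = 0)
    (hXp : ∀ t w x y z, X t (w * x) y z + X t w x (y * z) = X t w x y + X t w (x * y) z + X t x y z)
    (hd : ∀ u v x y z, X z u v (x * y) = X z u v x + X z u v y - P u v z x y + P u v x z y - P u v x y z) :
    Alt5 P ∧ Alt4 X := by
  have cyc : ∀ u v x y z, P u v x y z = P u v y z x := fun u v x y z =>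
    (ha2 _ _ _ _ _).trans ((ha1 _ _ _ _ _).trans (ha3 _ _ _ _ _))
  have hPadd : ∀ u v w x y z, P u v (w * x) y z = P u v w y z + P u v x y z := by
    intro u v w x y z
    refine (CY (P u v) (fun _ _ _ _ => 0) (cyc u v) (fun _ _ _ _ => rfl) (fun _ _ _ _ => rfl)
      (fun _ _ _ _ => rfl) (fun _ _ _ _ => add_zero 0) ?_ ?_).2 w x y z
    · intro w x y z
      have h := sub_eq_zero.2 (hPp u v w x y z)
      have h2 : P u v x y z - P u v (w * x) y z + P u v w (x * y) z - P u v w x (y * z) +
          P u v w x y = - (P u v (w * x) y z + P u v w x (y * z) -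
            (P u v w x y + P u v w (x * y) z + P u v x y z)) := by abel
      rw [h2, h, neg_zero]
    · intro w x y z
      rw [hPc u v w x y z, sub_self]
  -- the transpositions of the positions 1, 2 and 3, 4 and 2, 4 for `X`
  have x24 : ∀ t a b c, X t a b c = - X t c b a := by
    intro t a b c
    rw [hX1 t a b c, hX3 a t b c, hX1 c t b a, neg_neg]
  have x23 : ∀ t a b c, X t a b c = - X t b a c := by
    intro t a b c
    rw [hX1 t a b c, hX2 a t b c, hX1 b t a c, neg_neg]
  have x34 : ∀ t a b c, X t a b c = - X t a c b := by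
    intro t a b c
    rw [hX2 t a b c, hX3 b a t c, hX2 c a t b, neg_neg]
  have hXadd : ∀ t w x y z, X t (w * x) y z = X t w y z + X t x y z := by
    intro t w x y z
    refine (CY (X t) (fun _ _ _ _ => 0) (fun a b c => ?_) (fun _ _ _ _ => rfl) (fun _ _ _ _ => rfl)
      (fun _ _ _ _ => rfl) (fun _ _ _ _ => add_zero 0) ?_ ?_).2 w x y z
    · rw [x23 t a b c, x34 t b a c, neg_neg]
    · intro w x y z
      have h := sub_eq_zero.2 (hXp t w x y z)
      have h2 : X t x y z - X t (w * x) y z + X t w (x * y) z - X t w x (y * z) +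
          X t w x y = - (X t (w * x) y z + X t w x (y * z) -
            (X t w x y + X t w (x * y) z + X t x y z)) := by abel
      rw [h2, h, neg_zero]
    · intro w x y z
      rw [hXc t w x y z, sub_self]
  have hXadd4 : ∀ z u v x y, X z u v (x * y) = X z u v x + X z u v y := by
    intro z u v x y
    rw [x24 z u v (x * y), hXadd, x24 z u v x, x24 z u v y, neg_add]
  have key : ∀ u v x y z, P u v x z y = P u v x y z + P u v x y z := by
    intro u v x y z
    have h1 := hd u v x y z
    rw [hXadd4, ← cyc u v z x y] at h1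
    have h3 : P u v z x y = P u v x y z := cyc u v z x y
    have h2 := sub_eq_zero.2 h1
    have h4 : P u v x z y - (P u v x y z + P u v x y z) = 0 := by
      rw [h3] at h2
      rw [← neg_eq_zero, ← h2]
      abel
    exact sub_eq_zero.1 h4
  have three : ∀ u v x y z, P u v x y z + P u v x y z + P u v x y z = 0 := by
    intro u v x y z
    have h1 := key u v x z y
    rw [key u v x y z] at h1
    have h2 := sub_eq_zero.2 h1
    have h3 : P u v x y z - (P u v x y z + P u v x y z + (P u v x y z + P u v x y z)) =
      - (P u v x y z + P u v x y z + P u v x y z) := by abel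
    rw [← neg_eq_zero, ← h3, h2]
  have s45 : ∀ u v x y z, P u v x z y = - P u v x y z := by
    intro u v x y z
    rw [key, ← sub_eq_zero, sub_neg_eq_add]
    exact three u v x y z
  have s12 : ∀ a b c d e, P b a c d e = - P a b c d e := by
    intro a b c d e
    rw [← s45]
    exact (ha1 _ _ _ _ _).trans ((ha3 _ _ _ _ _).trans ((ha1 _ _ _ _ _).trans ((ha2 _ _ _ _ _).trans
      ((ha3 _ _ _ _ _).trans (ha2 _ _ _ _ _)))))
  refine ⟨⟨s12, ?_, ?_, fun a b c d e => s45 a b c d e, ?_, ?_⟩, ⟨?_, ?_, ?_, ?_, ?_⟩⟩
  · intro a b c d e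
    rw [← s45]
    exact (ha1 _ _ _ _ _).trans ((ha2 _ _ _ _ _).trans ((ha3 _ _ _ _ _).trans
      ((ha2 _ _ _ _ _).trans (ha1 _ _ _ _ _))))
  · intro a b c d e
    rw [← s45]
    exact (ha2 _ _ _ _ _).trans ((ha1 _ _ _ _ _).trans (ha3 _ _ _ _ _))
  · intro a c d e
    have h1 := s12 a a c d e
    have h2 : P a a c d e + P a a c d e = 0 := by
      nth_rewrite 1 [h1]
      exact neg_add_cancel _
    have h3 := three a a c d e
    rwa [h2, zero_add] at h3
  · intro a b c d e f
    rw [ha1 (a * b) c d e f, hPadd, ha1 a c d e f, ha1 b c d e f]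
  · intro a b c d
    exact hX1 b a c d
  · intro a b c d
    exact x23 a c b d
  · intro a b c d
    exact x34 a b d c
  · intro a c d
    rw [x24 a a c d, hX0, neg_zero]
  · intro a b c d e
    rw [hX1 (a * b) c d e, hXadd, hX1 a c d e, hX1 b c d e, neg_add]
end E

end Pool.Agent.AIM3
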