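import Pool.Agent.AIM3.PE

set_option autoImplicit false
set_option linter.unusedVariables false
set_option linter.unusedSectionVars false

namespace Pool.Agent.AIM3

open scoped commutatorElement

/-! ## F. The objects `T3` -/
section F
variable {Q : Type} [Lp Q] {W : Type} [AddCommGroup W]

/-- a homomorphism on `K 1` killing `H ∩ K 1` -/
structure IsChi (chi : MG Q → W) : Prop where
  map_mul : ∀ a ∈ K Q 1, ∀ b ∈ K Q 1, chi (a * b) = chi a + chi b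
  map_H : ∀ h ∈ H Q, h ∈ K Q 1 → chi h = 0

def T3 (chi : MG Q → W) (w t p : MG Q) (x : Q) : W := chi ⁅w, ⁅t, cj (L x) p⁆⁆

variable {chi : MG Q → W}

-- J10
theorem chi_one (hc : IsChi chi) : chi 1 = 0 := by
  have h := hc.map_mul 1 (K Q 1).one_mem 1 (K Q 1).one_mem
  rw [one_mul] at h
  exact left_eq_add.1 h
theorem chi_inv [AbInn Q] (hc : IsChi chi) {a : MG Q} (ha : a ∈ K Q 1) : chi a⁻¹ = - chi a := by
  have h := hc.map_mul a ha a⁻¹ ((K Q 1).inv_mem ha)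
  rw [mul_inv_cancel, chi_one hc] at h
  exact (neg_eq_of_add_eq_zero_right h.symm).symm
/-- `chi` is invariant under conjugation of `K 1` by `N` -/
theorem chi_cjN [AbInn Q] (hc : IsChi chi) {a n : MG Q} (ha : a ∈ K Q 1) (hn : n ∈ N Q) : chi (cj n a) = chi a := by
  have h : cj n a = a := by
    unfold cj
    rw [mul_assoc, K1_comm_N ha hn, inv_mul_cancel_left]
  rw [h]
/-- bilinearity of `chi ⁅k, n⁆`, `k ∈ K 2 ∩ N`, `n ∈ N` -/
theorem chi_comm_mul_right [AbInn Q] (hc : IsChi chi) {k a b : MG Q} (hk : k ∈ K Q 2) (ha : a ∈ N Q) (hb : b ∈ N Q) :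
    chi ⁅k, a * b⁆ = chi ⁅k, a⁆ + chi ⁅k, b⁆ := by
  have h1 : ⁅k, a⁆ ∈ K Q 1 := comm_K_N (k := 1) hk ha
  have h2 : ⁅k, b⁆ ∈ K Q 1 := comm_K_N (k := 1) hk hb
  have h3 := K1_comm_N h2 ha
  have h4 : ⁅k, a * b⁆ = ⁅k, a⁆ * ⁅k, b⁆ := by
    have h5 : ⁅k, a * b⁆ = ⁅k, a⁆ * (a * ⁅k, b⁆ * a⁻¹) := by
      simp only [commutatorElement_def]; group
    rw [h5, ← h3, mul_inv_cancel_right]
  rw [h4, hc.map_mul _ h1 _ h2]
theorem chi_comm_mul_left [AbInn Q] (hc : IsChi chi) {k k' a : MG Q} (hk : k ∈ K Q 2) (hk' : k' ∈ K Q 2)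
    (hkN : k ∈ N Q) (ha : a ∈ N Q) :
    chi ⁅k * k', a⁆ = chi ⁅k, a⁆ + chi ⁅k', a⁆ := by
  have h1 : ⁅k, a⁆ ∈ K Q 1 := comm_K_N (k := 1) hk ha
  have h2 : ⁅k', a⁆ ∈ K Q 1 := comm_K_N (k := 1) hk' ha
  have h3 := K1_comm_N h2 hkN
  have h4 : ⁅k * k', a⁆ = ⁅k', a⁆ * ⁅k, a⁆ := by
    have h5 : ⁅k * k', a⁆ = (k * ⁅k', a⁆ * k⁻¹) * ⁅k, a⁆ := by
      simp only [commutatorElement_def]; group
    rw [h5, ← h3, mul_inv_cancel_right]
  rw [h4, hc.map_mul _ h2 _ h1, add_comm]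
theorem chi_comm_swap [AbInn Q] (hc : IsChi chi) {k a : MG Q} (hk : k ∈ K Q 2) (ha : a ∈ N Q) :
    chi ⁅a, k⁆ = - chi ⁅k, a⁆ := by
  have h1 : ⁅k, a⁆ ∈ K Q 1 := comm_K_N (k := 1) hk ha
  rw [← commutatorElement_inv, chi_inv hc h1]

variable [AbInn Q] [Cl4 Q]

-- J11
theorem j11_alg1 {G : Type} [Group G] {A B s q : G} (h : (A * s) * (B * q) = (B * q) * (A * s)) (hAB : A * B = B * A)
    (hsq : s * q = q * s) (h1 : A * ⁅s, B⁆ = ⁅s, B⁆ * A) (h2 : B * ⁅q, A⁆ = ⁅q, A⁆ * B) : ⁅q, A⁆ = ⁅s, B⁆ := by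
  have e1 : s * B = ⁅s, B⁆ * (B * s) := by rw [commutatorElement_def]; group
  have e2 : q * A = ⁅q, A⁆ * (A * q) := by rw [commutatorElement_def]; group
  have l : (A * s) * (B * q) = ⁅s, B⁆ * (A * B * (s * q)) := by
    calc (A * s) * (B * q) = A * (s * B) * q := by group
      _ = A * (⁅s, B⁆ * (B * s)) * q := by rw [← e1]
      _ = (A * ⁅s, B⁆) * (B * s) * q := by group
      _ = ⁅s, B⁆ * A * (B * s) * q := by rw [h1]
      _ = _ := by group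
  have r : (B * q) * (A * s) = ⁅q, A⁆ * (B * A * (q * s)) := by
    calc (B * q) * (A * s) = B * (q * A) * s := by group
      _ = B * (⁅q, A⁆ * (A * q)) * s := by rw [← e2]
      _ = (B * ⁅q, A⁆) * (A * q) * s := by group
      _ = ⁅q, A⁆ * B * (A * q) * s := by rw [h2]
      _ = _ := by group
  rw [l, r, hAB, hsq] at h
  exact (mul_right_cancel h).symm

theorem j11_alg2 {G : Type} [Group G] {A B p a b : G} (hAB : A * B = B * A) (ha1 : a * B = B * a) (ha2 : a * p = p * a)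
    (hab : a * b = b * a)
    (hb1 : b * A = A * b) (hb2 : b * p = p * b) (hb3 : b * B = B * b) (h : B * ⁅p, A⁆ = ⁅p, A⁆ * B) :
    ⁅(B * b)⁻¹ * p, A * a⁆ = ⁅p, A⁆ := by
  have c1 : Commute a ((B * b)⁻¹ * p) :=
    Commute.mul_right (Commute.inv_right (Commute.mul_right ha1 hab)) ha2
  have c2 : Commute b A := hb1
  have c3 : Commute b (B⁻¹ * p) := Commute.mul_right (Commute.inv_right hb3) hb2
  have s1 : ⁅(B * b)⁻¹ * p, A * a⁆ = ⁅(B * b)⁻¹ * p, A⁆ := by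
    rw [commutatorElement_def, commutatorElement_def]
    have : a * ((B * b)⁻¹ * p)⁻¹ = ((B * b)⁻¹ * p)⁻¹ * a := (c1.inv_right).eq
    calc (B * b)⁻¹ * p * (A * a) * ((B * b)⁻¹ * p)⁻¹ * (A * a)⁻¹
        = (B * b)⁻¹ * p * A * (a * ((B * b)⁻¹ * p)⁻¹) * (A * a)⁻¹ := by group
      _ = (B * b)⁻¹ * p * A * (((B * b)⁻¹ * p)⁻¹ * a) * (A * a)⁻¹ := by rw [this]
      _ = _ := by group
  have s2 : (B * b)⁻¹ * p = b⁻¹ * (B⁻¹ * p) := by group
  have s3 : ⁅b⁻¹ * (B⁻¹ * p), A⁆ = ⁅B⁻¹ * p, A⁆ := by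
    rw [commutatorElement_def, commutatorElement_def]
    have e : (b⁻¹ * (B⁻¹ * p))⁻¹ * A⁻¹ = (B⁻¹ * p)⁻¹ * A⁻¹ * b := by
      have : b * A⁻¹ = A⁻¹ * b := (c2.inv_right).eq
      calc (b⁻¹ * (B⁻¹ * p))⁻¹ * A⁻¹ = (B⁻¹ * p)⁻¹ * (b * A⁻¹) := by group
        _ = _ := by rw [this]; group
    have c4 : Commute b (B⁻¹ * p * A * (B⁻¹ * p)⁻¹ * A⁻¹) :=
      Commute.mul_right (Commute.mul_right (Commute.mul_right c3 c2) (Commute.inv_right c3)) (Commute.inv_right c2)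
    calc b⁻¹ * (B⁻¹ * p) * A * (b⁻¹ * (B⁻¹ * p))⁻¹ * A⁻¹
        = b⁻¹ * (B⁻¹ * p) * A * ((b⁻¹ * (B⁻¹ * p))⁻¹ * A⁻¹) := by group
      _ = b⁻¹ * (B⁻¹ * p) * A * ((B⁻¹ * p)⁻¹ * A⁻¹ * b) := by rw [e]
      _ = b⁻¹ * ((B⁻¹ * p * A * (B⁻¹ * p)⁻¹ * A⁻¹) * b) := by group
      _ = b⁻¹ * (b * (B⁻¹ * p * A * (B⁻¹ * p)⁻¹ * A⁻¹)) := by rw [c4.eq]
      _ = _ := by group
  have s4 : ⁅B⁻¹ * p, A⁆ = ⁅p, A⁆ := by
    rw [commutatorElement_def] at h
    rw [commutatorElement_def, commutatorElement_def]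
    have cA : A⁻¹ * B = B * A⁻¹ := by
      have : Commute A B := hAB
      exact (this.inv_left).eq
    calc B⁻¹ * p * A * (B⁻¹ * p)⁻¹ * A⁻¹ = B⁻¹ * (p * A * p⁻¹) * (B * A⁻¹) := by group
      _ = B⁻¹ * (p * A * p⁻¹) * (A⁻¹ * B) := by rw [cA]
      _ = B⁻¹ * (p * A * p⁻¹ * A⁻¹ * B) := by group
      _ = B⁻¹ * (B * (p * A * p⁻¹ * A⁻¹)) := by rw [h]
      _ = _ := by group
  rw [s1, s2, s3, s4]

theorem j11_add (hc : IsChi chi) {w k k' : MG Q} (hw : w ∈ N Q) (hk : k ∈ K Q 2) (hkN : k ∈ N Q) (hk' : k' ∈ K Q 2) :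
    chi ⁅w, k * k'⁆ = chi ⁅w, k⁆ + chi ⁅w, k'⁆ := by
  have h1 : ⁅w, k'⁆ ∈ K Q 1 := comm_N_K hk' hw
  have h2 : ⁅w, k⁆ ∈ K Q 1 := comm_N_K hk hw
  have h3 := K1_comm_N h1 hkN
  have : ⁅w, k * k'⁆ = ⁅w, k⁆ * ⁅w, k'⁆ := by
    calc ⁅w, k * k'⁆ = ⁅w, k⁆ * (k * ⁅w, k'⁆ * k⁻¹) := by
          simp only [commutatorElement_def]; group
      _ = ⁅w, k⁆ * (⁅w, k'⁆ * k * k⁻¹) := by rw [h3]
      _ = _ := by group
  rw [this, hc.map_mul _ h2 _ h1]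

theorem j11_kill (hc : IsChi chi) {w k : MG Q} (hw : w ∈ N Q) (hk : k ∈ K Q 1) : chi ⁅w, k⁆ = 0 := by
  have h := K1_comm_N hk hw
  have : ⁅w, k⁆ = 1 := by
    rw [commutatorElement_def, ← h]; group
  rw [this, chi_one hc]

theorem j11_comm_eq {t n m : MG Q} : ⁅t, n * m⁆ = ⁅t, n⁆ * (⁅n, ⁅t, m⁆⁆ * ⁅t, m⁆) := by
  simp only [commutatorElement_def]; group

theorem T3_char (hc : IsChi chi) {w t : MG Q} (hw : w ∈ H Q) (ht : t ∈ H Q) :
    IsChar (fun n => chi ⁅w, ⁅t, n⁆⁆) := by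
  have hwN : w ∈ N Q := H_le_N hw
  have htN : t ∈ N Q := H_le_N ht
  constructor
  · intro n hn m hm
    show chi ⁅w, ⁅t, n * m⁆⁆ = chi ⁅w, ⁅t, n⁆⁆ + chi ⁅w, ⁅t, m⁆⁆
    have k1 : ⁅t, n⁆ ∈ K Q 2 := comm_NN htN hn
    have k2 : ⁅t, m⁆ ∈ K Q 2 := comm_NN htN hm
    have kN1 : ⁅t, n⁆ ∈ N Q := by
      rw [commutatorElement_def]
      exact mul_mem (mul_mem (mul_mem htN hn) (inv_mem htN)) (inv_mem hn)
    have kN2 : ⁅t, m⁆ ∈ N Q := by
      rw [commutatorElement_def]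
      exact mul_mem (mul_mem (mul_mem htN hm) (inv_mem htN)) (inv_mem hm)
    have k3 : ⁅n, ⁅t, m⁆⁆ ∈ K Q 1 := comm_NNN hn htN hm
    have kN3 : ⁅n, ⁅t, m⁆⁆ ∈ N Q := by
      rw [commutatorElement_def]
      exact mul_mem (mul_mem (mul_mem hn kN2) (inv_mem hn)) (inv_mem kN2)
    rw [j11_comm_eq, j11_add hc hwN k1 kN1 (mul_mem (K_le_succ 1 k3) k2), j11_add hc hwN (K_le_succ 1 k3) kN3 k2,
      j11_kill hc hwN k3, zero_add]
  · intro h hh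
    show chi ⁅w, ⁅t, h⁆⁆ = 0
    have : ⁅t, h⁆ = 1 := by
      rw [commutatorElement_def, AbInn.comm t ht h hh]; group
    rw [this]
    have : ⁅w, (1 : MG Q)⁆ = 1 := by rw [commutatorElement_def]; group
    rw [this, chi_one hc]

theorem T3_mul1 (hc : IsChi chi) {w w' t p : MG Q} (hw : w ∈ H Q) (hw' : w' ∈ H Q) (ht : t ∈ H Q) (hp : p ∈ H Q)
    (x : Q) : T3 chi (w * w') t p x = T3 chi w t p x + T3 chi w' t p x := by
  unfold T3
  set k := ⁅t, cj (L x) p⁆ with hk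
  have hpN : cj (L x) p ∈ N Q := cj_mem_N _ (H_le_N hp)
  have k2 : k ∈ K Q 2 := comm_NN (H_le_N ht) hpN
  have a1 : ⁅w, k⁆ ∈ K Q 1 := comm_N_K k2 (H_le_N hw)
  have a2 : ⁅w', k⁆ ∈ K Q 1 := comm_N_K k2 (H_le_N hw')
  have e : ⁅w * w', k⁆ = ⁅w', k⁆ * ⁅w, k⁆ := by
    have h3 := K1_comm_N a2 (H_le_N hw)
    calc ⁅w * w', k⁆ = (w * ⁅w', k⁆) * w⁻¹ * ⁅w, k⁆ := by simp only [commutatorElement_def]; group
      _ = (⁅w', k⁆ * w) * w⁻¹ * ⁅w, k⁆ := by rw [h3]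
      _ = _ := by group
  rw [e, hc.map_mul _ a2 _ a1, add_comm]

theorem j11_commN {a b : MG Q} (ha : a ∈ N Q) (hb : b ∈ N Q) : ⁅a, b⁆ ∈ N Q := by
  rw [commutatorElement_def]
  exact mul_mem (mul_mem (mul_mem ha hb) (inv_mem ha)) (inv_mem hb)

theorem T3_symm12 (hc : IsChi chi) {w t p : MG Q} (hw : w ∈ H Q) (ht : t ∈ H Q) (hp : p ∈ H Q) (x : Q) :
    T3 chi w t p x = T3 chi t w p x := by
  unfold T3
  set n := cj (L x) p with hn
  have hnN : n ∈ N Q := cj_mem_N _ (H_le_N hp)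
  have e1 : ⁅w * t, n⁆ = ⁅w, ⁅t, n⁆⁆ * (⁅t, n⁆ * ⁅w, n⁆) := by
    simp only [commutatorElement_def]; group
  have e2 : ⁅t * w, n⁆ = ⁅t, ⁅w, n⁆⁆ * (⁅w, n⁆ * ⁅t, n⁆) := by
    simp only [commutatorElement_def]; group
  have e3 : w * t = t * w := AbInn.comm w hw t ht
  have e4 : ⁅t, n⁆ * ⁅w, n⁆ = ⁅w, n⁆ * ⁅t, n⁆ :=
    K2_comm (comm_NN (H_le_N ht) hnN) (j11_commN (H_le_N ht) hnN) (H_le_N hw) hnN
  have e5 : ⁅w, ⁅t, n⁆⁆ = ⁅t, ⁅w, n⁆⁆ := by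
    rw [e3, e2, ← e4] at e1
    exact (mul_right_cancel e1).symm
  rw [e5]

/-- the key congruence modulo `K 1` -/
theorem j11_key {t p : MG Q} (ht : t ∈ H Q) (hp : p ∈ H Q) (x : Q) :
    (QuotientGroup.mk' (K Q 1)) ⁅p, L (dis t x)⁆ = (QuotientGroup.mk' (K Q 1)) ⁅t, L (dis p x)⁆ := by
  set π := QuotientGroup.mk' (K Q 1) with hπ
  have htN : t ∈ N Q := H_le_N ht
  have hpN : p ∈ N Q := H_le_N hp
  have hk1 : ∀ {a : MG Q}, a ∈ K Q 1 → π a = 1 := fun {a} ha => (QuotientGroup.eq_one_iff a).2 ha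
  -- images of `K 2` and `N` commute
  have hcen : ∀ {a b : MG Q}, a ∈ K Q 2 → b ∈ N Q → π a * π b = π b * π a := by
    intro a b ha hb
    have h := hk1 (comm_K_N ha hb)
    rw [map_commutatorElement, commutatorElement_def] at h
    have : π a * π b = 1 * (π b * π a) := by rw [← h]; group
    rw [this, one_mul]
  set c := dis t x with hcdef
  set c' := dis p x with hc'def
  have hcN : L c ∈ N Q := L_dis_mem htN x
  have hc'N : L c' ∈ N Q := L_dis_mem hpN x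
  have hc3 : c ∈ Zs Q 3 := Zs3_of_N hcN
  have hc'3 : c' ∈ Zs Q 3 := Zs3_of_N hc'N
  have hs : sh t x ∈ H Q := sh_mem ht x
  have hq : sh p x ∈ H Q := sh_mem hp x
  have hsN := H_le_N hs
  have hqN := H_le_N hq
  -- first relation
  have r1 : ⁅π (sh p x), π (L c)⁆ = ⁅π (sh t x), π (L c')⁆ := by
    apply j11_alg1 (A := π (L c)) (B := π (L c')) (s := π (sh t x)) (q := π (sh p x))
    · rw [← map_mul, ← map_mul, ← map_mul, ← map_mul, ← sh_eq, ← sh_eq, ← cj_mul, ← cj_mul, AbInn.comm t ht p hp]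
    · have h := hk1 (V_comm (k := 1) hc3 hc'N)
      rw [map_commutatorElement, commutatorElement_def] at h
      have : π (L c) * π (L c') = 1 * (π (L c') * π (L c)) := by rw [← h]; group
      rw [this, one_mul]
    · rw [← map_mul, ← map_mul, AbInn.comm _ hs _ hq]
    · rw [← map_commutatorElement]
      exact (hcen (comm_NN hsN hc'N) hcN).symm
    · rw [← map_commutatorElement]
      exact (hcen (comm_NN hqN hcN) hc'N).symm
  -- conjugate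
  set r := ld x 1 with hr
  have hLL : L x * L r ∈ H Q := by
    rw [mem_H, mul_smul, L_smul, L_smul, mul_one', hr, mul_ld]
  have hfix : ∀ {h : MG Q}, h ∈ H Q → cj (L r) (cj (L x) h) = h := by
    intro h hh
    rw [cj_cj]
    show (L x * L r)⁻¹ * h * (L x * L r) = h
    rw [mul_assoc, AbInn.comm h hh _ hLL]; group
  have hshp : cj (L r) (sh p x) = (cj (L r) (L c'))⁻¹ * p := by
    have : sh p x = (L c')⁻¹ * cj (L x) p := rfl
    rw [this, cj_mul, cj_inv, hfix hp]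
  have hsht : cj (L r) (sh t x) = (cj (L r) (L c))⁻¹ * t := by
    have : sh t x = (L c)⁻¹ * cj (L x) t := rfl
    rw [this, cj_mul, cj_inv, hfix ht]
  set a := (L c)⁻¹ * cj (L r) (L c) with ha
  set b := (L c')⁻¹ * cj (L r) (L c') with hb
  have haK : a ∈ K Q 2 := cj_L_mem hc3 _
  have hbK : b ∈ K Q 2 := cj_L_mem hc'3 _
  have hcj1 : cj (L r) (L c) = L c * a := by rw [ha]; group
  have hcj2 : cj (L r) (L c') = L c' * b := by rw [hb]; group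
  have haN : a ∈ N Q := mul_mem (inv_mem hcN) (cj_mem_N _ hcN)
  have hbN : b ∈ N Q := mul_mem (inv_mem hc'N) (cj_mem_N _ hc'N)
  have hLcc : π (L c) * π (L c') = π (L c') * π (L c) := by
    have h := hk1 (V_comm (k := 1) hc3 hc'N)
    rw [map_commutatorElement, commutatorElement_def] at h
    have : π (L c) * π (L c') = 1 * (π (L c') * π (L c)) := by rw [← h]; group
    rw [this, one_mul]
  have L1 : π (cj (L r) ⁅sh p x, L c⁆) = ⁅π p, π (L c)⁆ := by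
    rw [cj_comm, hshp, hcj1, hcj2, map_commutatorElement, map_mul, map_inv, map_mul, map_mul]
    apply j11_alg2 hLcc (hcen haK hc'N) (hcen haK hpN) (hcen haK hbN) (hcen hbK hcN) (hcen hbK hpN) (hcen hbK hc'N)
    rw [← map_commutatorElement]
    exact (hcen (comm_NN hpN hcN) hc'N).symm
  have L2 : π (cj (L r) ⁅sh t x, L c'⁆) = ⁅π t, π (L c')⁆ := by
    rw [cj_comm, hsht, hcj1, hcj2, map_commutatorElement, map_mul, map_inv, map_mul, map_mul]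
    apply j11_alg2 hLcc.symm (hcen hbK hcN) (hcen hbK htN) (hcen hbK haN) (hcen haK hc'N) (hcen haK htN) (hcen haK hcN)
    rw [← map_commutatorElement]
    exact (hcen (comm_NN htN hc'N) hcN).symm
  have hπcj : ∀ g m : MG Q, π (cj g m) = (π g)⁻¹ * π m * π g := by
    intro g m; unfold cj; rw [map_mul, map_mul, map_inv]
  rw [map_commutatorElement, map_commutatorElement, ← L1, ← L2, hπcj, hπcj, map_commutatorElement,
    map_commutatorElement, r1]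

/-- `chi ⁅w, k⁆` only depends on `k` modulo `K 1` -/
theorem j11_congr (hc : IsChi chi) {w k k' : MG Q} (hw : w ∈ N Q) (hk : k ∈ K Q 2) (hkN : k ∈ N Q)
    (h : (QuotientGroup.mk' (K Q 1)) k = (QuotientGroup.mk' (K Q 1)) k') : chi ⁅w, k'⁆ = chi ⁅w, k⁆ := by
  have h1 : k⁻¹ * k' ∈ K Q 1 := (QuotientGroup.eq).1 h
  have h2 : k' = k * (k⁻¹ * k') := by group
  rw [h2, j11_add hc hw hk hkN (K_le_succ 1 h1), j11_kill hc hw h1, add_zero]

theorem j11_commdis {t p : MG Q} (ht : t ∈ H Q) (hp : p ∈ H Q) (x : Q) : ⁅t, cj (L x) p⁆ = ⁅t, L (dis p x)⁆ := by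
  rw [sh_eq]
  have h := AbInn.comm t ht _ (sh_mem hp x)
  calc ⁅t, L (dis p x) * sh p x⁆ = t * L (dis p x) * (sh p x * t⁻¹) * (sh p x)⁻¹ * (L (dis p x))⁻¹ := by
        rw [commutatorElement_def]; group
    _ = t * L (dis p x) * (t⁻¹ * sh p x) * (sh p x)⁻¹ * (L (dis p x))⁻¹ := by
        have : sh p x * t⁻¹ = t⁻¹ * sh p x := AbInn.comm _ (sh_mem hp x) _ (inv_mem ht)
        rw [this]
    _ = _ := by rw [commutatorElement_def]; group

theorem T3_symm23 (hc : IsChi chi) {w t p : MG Q} (hw : w ∈ H Q) (ht : t ∈ H Q) (hp : p ∈ H Q) (x : Q) :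
    T3 chi w t p x = T3 chi w p t x := by
  unfold T3
  rw [j11_commdis ht hp, j11_commdis hp ht]
  exact j11_congr hc (H_le_N hw) (comm_NN (H_le_N hp) (L_dis_mem (H_le_N ht) x))
    (j11_commN (H_le_N hp) (L_dis_mem (H_le_N ht) x)) (j11_key ht hp x)

theorem T3_mul2 (hc : IsChi chi) {w t t' p : MG Q} (hw : w ∈ H Q) (ht : t ∈ H Q) (ht' : t' ∈ H Q) (hp : p ∈ H Q)
    (x : Q) : T3 chi w (t * t') p x = T3 chi w t p x + T3 chi w t' p x := by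
  rw [T3_symm12 hc hw (mul_mem ht ht') hp, T3_mul1 hc ht ht' hw hp, T3_symm12 hc ht hw hp, T3_symm12 hc ht' hw hp]

theorem T3_mul3 (hc : IsChi chi) {w t p p' : MG Q} (hw : w ∈ H Q) (ht : t ∈ H Q) (hp : p ∈ H Q) (hp' : p' ∈ H Q)
    (x : Q) : T3 chi w t (p * p') x = T3 chi w t p x + T3 chi w t p' x := by
  rw [T3_symm23 hc hw ht (mul_mem hp hp'), T3_mul2 hc hw hp hp' ht, T3_symm23 hc hw hp ht, T3_symm23 hc hw hp' ht]

theorem T3_orbit (hc : IsChi chi) {w t p : MG Q} (hw : w ∈ H Q) (ht : t ∈ H Q) (hp : p ∈ H Q) {x y : Q}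
    (h : sameN x y) : T3 chi w t p x = T3 chi w t p y :=
  char_orbit (T3_char hc hw ht) (H_le_N hp) h

theorem T3_sh (hc : IsChi chi) {w t p : MG Q} (hw : w ∈ H Q) (ht : t ∈ H Q) (hp : p ∈ H Q) (x y : Q) :
    T3 chi w t (sh p x) y = T3 chi w t p (x * y) - T3 chi w t p x := by
  have hF := T3_char hc hw ht
  set F : MG Q → W := fun n => chi ⁅w, ⁅t, n⁆⁆ with hFdef
  show F (cj (L y) (sh p x)) = F (cj (L (x * y)) p) - F (cj (L x) p)
  set c := dis p x with hcdef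
  have hcN : L c ∈ N Q := L_dis_mem (H_le_N hp) x
  have hc3 : c ∈ Zs Q 3 := Zs3_of_N hcN
  have e0 : sh p x = (L c)⁻¹ * cj (L x) p := rfl
  have e1 : cj (L y) (sh p x) = (cj (L y) (L c))⁻¹ * cj (LL x y) (cj (L (x * y)) p) := by
    rw [e0, cj_mul, cj_inv, cj_cj, cj_cj, LL_eq]
  have hpN : cj (L (x * y)) p ∈ N Q := cj_mem_N _ (H_le_N hp)
  have hLLN : LL x y ∈ N Q := H_le_N (LL_mem x y)
  have e2 : F (cj (LL x y) (cj (L (x * y)) p)) = F (cj (L (x * y)) p) := char_cjN hF hpN hLLN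
  have hb : (L c)⁻¹ * cj (L y) (L c) ∈ K Q 2 := cj_L_mem hc3 _
  have hbN : (L c)⁻¹ * cj (L y) (L c) ∈ N Q := mul_mem (inv_mem hcN) (cj_mem_N _ hcN)
  have e3 : F ((L c)⁻¹ * cj (L y) (L c)) = 0 := by
    show chi ⁅w, ⁅t, (L c)⁻¹ * cj (L y) (L c)⁆⁆ = 0
    exact j11_kill hc (H_le_N hw) (comm_N_K hb (H_le_N ht))
  have e4 : F (cj (L y) (L c)) = F (L c) := by
    have : cj (L y) (L c) = L c * ((L c)⁻¹ * cj (L y) (L c)) := by group
    rw [this, hF.map_mul _ hcN _ hbN, e3, add_zero]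
  have e5 : F (cj (L x) p) = F (L c) := char_dis hF hp x
  rw [e1, hF.map_mul _ (inv_mem (cj_mem_N _ hcN)) _ (cj_mem_N _ hpN), char_inv hF (cj_mem_N _ hcN), e4, e2, e5]
  abel

theorem T3_K2 (hc : IsChi chi) {w p t : MG Q} (hw : w ∈ H Q) (hp : p ∈ H Q) (ht : t ∈ H Q) (ht2 : t ∈ K Q 2) (x : Q) :
    T3 chi w p t x = 0 := by
  unfold T3
  have h1 : cj (L x) t ∈ K Q 2 := by
    have := (K_normal (Q := Q) 2).conj_mem t ht2 (L x)⁻¹
    rw [inv_inv] at this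
    exact this
  exact j11_kill hc (H_le_N hw) (comm_N_K h1 (H_le_N hp))

end F

end Pool.Agent.AIM3
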