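import Pool.Agent.AIM3.PF1

set_option autoImplicit false
set_option linter.unusedVariables false
set_option linter.unusedSectionVars false

namespace Pool.Agent.AIM3

open scoped commutatorElement

-- J12
theorem j12_char {Q : Type} [Lp Q] [AbInn Q] {m : MG Q} (hm : m ∈ K Q 1)
    (h : ∀ chi : MG Q → AddCircle (1 : ℚ), IsChi chi → chi m = 0) : m ∈ H Q := by
  classical
  by_contra hmH
  letI instC : CommGroup ↥(K Q 1) :=
    { (inferInstance : Group ↥(K Q 1)) with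
      mul_comm := fun a b => Subtype.ext (K1_comm a.2 b.2) }
  let S : Subgroup ↥(K Q 1) := (H Q).subgroupOf (K Q 1)
  have hx : (Additive.ofMul (QuotientGroup.mk (⟨m, hm⟩ : ↥(K Q 1))) : Additive (↥(K Q 1) ⧸ S)) ≠ 0 := by
    intro h0
    have h1 : (QuotientGroup.mk (⟨m, hm⟩ : ↥(K Q 1)) : ↥(K Q 1) ⧸ S) = 1 := h0
    rw [QuotientGroup.eq_one_iff] at h1
    exact hmH h1
  obtain ⟨c, hcx⟩ := CharacterModule.exists_character_apply_ne_zero_of_ne_zero hx
  apply hcx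
  let chi : MG Q → AddCircle (1 : ℚ) := fun a =>
    if ha : a ∈ K Q 1 then c (Additive.ofMul (QuotientGroup.mk (⟨a, ha⟩ : ↥(K Q 1)))) else 0
  have hchi : IsChi chi := by
    refine ⟨?_, ?_⟩
    · intro a ha b hb
      have hab : a * b ∈ K Q 1 := (K Q 1).mul_mem ha hb
      have e1 : chi (a * b) = c (Additive.ofMul (QuotientGroup.mk (⟨a * b, hab⟩ : ↥(K Q 1)))) := dif_pos hab
      have e2 : chi a = c (Additive.ofMul (QuotientGroup.mk (⟨a, ha⟩ : ↥(K Q 1)))) := dif_pos ha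
      have e3 : chi b = c (Additive.ofMul (QuotientGroup.mk (⟨b, hb⟩ : ↥(K Q 1)))) := dif_pos hb
      rw [e1, e2, e3, ← map_add]
      rfl
    · intro a haH ha
      have e2 : chi a = c (Additive.ofMul (QuotientGroup.mk (⟨a, ha⟩ : ↥(K Q 1)))) := dif_pos ha
      have e4 : (QuotientGroup.mk (⟨a, ha⟩ : ↥(K Q 1)) : ↥(K Q 1) ⧸ S) = 1 := by
        rw [QuotientGroup.eq_one_iff]
        exact haH
      rw [e2, e4]
      exact map_zero c
  have h2 := h chi hchi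
  have e5 : chi m = c (Additive.ofMul (QuotientGroup.mk (⟨m, hm⟩ : ↥(K Q 1)))) := dif_pos hm
  rw [← e5]
  exact h2

/-- membership criterion (4.6) -/
theorem T3_mem {Q : Type} [Lp Q] [AbInn Q] [Cl4 Q] {t : MG Q} (ht : t ∈ H Q)
    (h : ∀ chi : MG Q → AddCircle (1 : ℚ), IsChi chi → ∀ w ∈ H Q, ∀ p ∈ H Q, ∀ x : Q, T3 chi w p t x = 0) :
    t ∈ K Q 2 := by
  rw [mem_K_iff_dis]
  intro x
  rw [mem_Zs_succ]
  intro p hp
  have hcN : L (dis t x) ∈ N Q := L_dis_mem (H_le_N ht) x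
  have hk2 : ⁅p, cj (L x) t⁆ ∈ K Q 2 := comm_NN (H_le_N hp) (cj_mem_N _ (H_le_N ht))
  have hkN : ⁅p, cj (L x) t⁆ ∈ N Q := by
    rw [commutatorElement_def]
    exact (N Q).mul_mem ((N Q).mul_mem ((N Q).mul_mem (H_le_N hp) (cj_mem_N _ (H_le_N ht)))
      ((N Q).inv_mem (H_le_N hp))) ((N Q).inv_mem (cj_mem_N _ (H_le_N ht)))
  have hkeq : ⁅p, cj (L x) t⁆ = ⁅p, L (dis t x)⁆ := by
    have hc := AbInn.comm p hp (sh t x) (sh_mem ht x)
    rw [commutatorElement_def, commutatorElement_def, sh_eq]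
    have h1 : sh t x * p⁻¹ * (sh t x)⁻¹ = p⁻¹ := by
      rw [mul_inv_eq_iff_eq_mul]
      rw [mul_inv_eq_iff_eq_mul, mul_assoc, ← hc]
      group
    calc p * (L (dis t x) * sh t x) * p⁻¹ * (L (dis t x) * sh t x)⁻¹
        = p * L (dis t x) * (sh t x * p⁻¹ * (sh t x)⁻¹) * (L (dis t x))⁻¹ := by group
      _ = p * L (dis t x) * p⁻¹ * (L (dis t x))⁻¹ := by rw [h1]
  set k := ⁅p, cj (L x) t⁆ with hkdef
  have hk1 : k • (1 : Q) ∈ Zs Q 1 := by
    rw [mem_Zs_succ]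
    intro w hw
    have hm1 : ⁅w, k⁆ ∈ K Q 1 := comm_N_K hk2 (H_le_N hw)
    have hmH : ⁅w, k⁆ ∈ H Q := j12_char hm1 (fun chi hchi => h chi hchi w hw p hp x)
    have hkL : L (k • (1 : Q)) ∈ N Q := L_mem_N_iff.mpr (sameN_of_mem hkN 1)
    have hfix := fixH (k := 0) hmH hm1 hkL
    rw [rel_zero_iff] at hfix
    rw [rel_zero_iff]
    have e1 : ⁅w, k⁆ • (k • (1 : Q)) = w • (k • (1 : Q)) := by
      have hw1 : w⁻¹ • (1 : Q) = 1 := mem_H.mp ((H Q).inv_mem hw)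
      rw [commutatorElement_def, mul_smul, inv_smul_smul, mul_smul, hw1, mul_smul]
    rw [e1] at hfix
    exact hfix
  have hkc : k • (dis t x) = p • (dis t x) := by
    have hp1 : p⁻¹ • (1 : Q) = 1 := mem_H.mp ((H Q).inv_mem hp)
    rw [hkeq, commutatorElement_def, mul_smul, L_inv_smul, ld_self, mul_smul, hp1, mul_smul, L_smul, mul_one']
  have horb := K_orbit (k := 1) hk2 hcN (1 : Q)
  have e2 : dis k (1 : Q) = k • (1 : Q) := by
    show ld (1 : Q) (k • (1 : Q)) = _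
    rw [ld_one]
  have e3 : L (dis t x) • (1 : Q) = dis t x := by rw [L_smul, mul_one']
  rw [e2, e3] at horb
  have h4 := Zs_rel hk1 horb
  have e4 : dis k (dis t x) = ld (dis t x) (p • (dis t x)) := by
    show ld (dis t x) (k • (dis t x)) = _
    rw [hkc]
  rw [e4] at h4
  exact h4

end Pool.Agent.AIM3
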