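import Pool.Agent.AIM3.PF2

set_option autoImplicit false
set_option linter.unusedVariables false
set_option linter.unusedSectionVars false

namespace Pool.Agent.AIM3

open scoped commutatorElement

/-! ## G. Forms -/
section G
variable {Q : Type} [Lp Q] [AbInn Q] [Cl4 Q] {W : Type} [AddCommGroup W] {chi : MG Q → W}

-- J13
theorem j13_MM (hc : IsChi chi) {w p : MG Q} (hw : w ∈ H Q) (hp : p ∈ H Q) (x y z : Q) :
    T3 chi w p (MM x z) y = T3 chi w p (LL x y) z := by
  have hF := T3_char hc hw hp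
  have h1 := aF_M hF x y z
  have h2 := aF_L hF x y z
  exact h1.trans h2.symm

theorem j13_RR (hc : IsChi chi) {w p : MG Q} (hw : w ∈ H Q) (hp : p ∈ H Q) (x y z : Q) :
    T3 chi w p (RR y z) x = - T3 chi w p (LL x y) z := by
  have hF := T3_char hc hw hp
  have h1 := aF_R hF x y z
  have h2 := aF_L hF x y z
  exact h1.trans (congrArg Neg.neg h2.symm)

theorem j13_T (hc : IsChi chi) {w p : MG Q} (hw : w ∈ H Q) (hp : p ∈ H Q) (u x : Q) :
    T3 chi w p (T u) x = - T3 chi w p (T x) u := by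
  have hF := T3_char hc hw hp
  have h1 := kF_T hF x u
  have h2 := kF_T hF u x
  have h3 := kF_anti hF x u
  exact h1.trans (h3.trans (congrArg Neg.neg h2.symm))

theorem j13_T0 (hc : IsChi chi) {w p : MG Q} (hw : w ∈ H Q) (hp : p ∈ H Q) (x : Q) :
    T3 chi w p (T x) x = 0 := by
  have hF := T3_char hc hw hp
  exact (kF_T hF x x).trans (kF_self hF x)

theorem j13_comm (hc : IsChi chi) {w p : MG Q} (hw : w ∈ H Q) (hp : p ∈ H Q) (u x y z : Q) :
    T3 chi w p (LL (u * x) y) z = T3 chi w p (LL (x * u) y) z := by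
  have hF := T3_char hc hw hp
  have h1 := aF_L hF (u * x) y z
  have h2 := aF_L hF (x * u) y z
  exact h1.trans ((aF_congr hF (sameN_comm u x) (sameN_refl y) (sameN_refl z)).trans h2.symm)

theorem j13_pent (hc : IsChi chi) {w p : MG Q} (hw : w ∈ H Q) (hp : p ∈ H Q) (u x y z : Q) :
    T3 chi w p (LL (u * x) y) z + T3 chi w p (LL u x) (y * z) =
      T3 chi w p (LL u x) y + T3 chi w p (LL u (x * y)) z + T3 chi w p (LL x y) z := by
  have hF := T3_char hc hw hp
  have h := aF_pent hF u x y z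
  rw [← aF_L hF (u * x) y z, ← aF_L hF u x (y * z), ← aF_L hF u x y, ← aF_L hF u (x * y) z,
    ← aF_L hF x y z] at h
  exact h

theorem j13_hex (hc : IsChi chi) {w p : MG Q} (hw : w ∈ H Q) (hp : p ∈ H Q) (x y z : Q) :
    T3 chi w p (T z) (x * y) = T3 chi w p (T z) x + T3 chi w p (T z) y - T3 chi w p (LL z x) y +
      T3 chi w p (LL x z) y - T3 chi w p (LL x y) z := by
  have hF := T3_char hc hw hp
  have h := kF_hex hF x y z
  rw [← kF_T hF (x * y) z, ← kF_T hF x z, ← kF_T hF y z, ← aF_L hF z x y, ← aF_L hF x z y,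
    ← aF_L hF x y z] at h
  exact h

theorem T3_forms (hc : IsChi chi) {w : MG Q} (hw : w ∈ H Q) :
    Alt5 (fun u v x y z => T3 chi w (LL u v) (LL x y) z) ∧ Alt4 (fun t x y z => T3 chi w (T t) (LL x y) z) := by
  have hL := fun u v : Q => LL_mem u v
  have hR := fun u v : Q => RR_mem u v
  have hM := fun u v : Q => MM_mem u v
  have hT := fun u : Q => T_mem u
  have sy : ∀ {t p : MG Q}, t ∈ H Q → p ∈ H Q → ∀ x : Q, T3 chi w t p x = T3 chi w p t x :=
    fun ht hp x => T3_symm23 hc hw ht hp x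
  refine FORM (fun u v x y z => T3 chi w (LL u v) (LL x y) z) (fun t x y z => T3 chi w (T t) (LL x y) z)
    ?_ ?_ ?_ ?_ ?_ ?_ ?_ ?_ ?_ ?_ ?_ ?_
  · intro u v x y z
    exact sy (hL u v) (hL x y) z
  · intro u v x y z
    show T3 chi w (LL u v) (LL x y) z = T3 chi w (LL x v) (LL u z) y
    rw [← j13_MM hc hw (hL u v) x y z, sy (hL u v) (hM x z) y, ← j13_MM hc hw (hM x z) u v y,
      sy (hM x z) (hM u y) v, j13_MM hc hw (hM u y) x v z, sy (hM u y) (hL x v) z,
      j13_MM hc hw (hL x v) u z y]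
  · intro u v x y z
    show T3 chi w (LL u v) (LL x y) z = T3 chi w (LL u y) (LL z v) x
    have h1 := j13_RR hc hw (hL u v) x y z
    have h2 := sy (hL u v) (hR y z) x
    have h3 := j13_RR hc hw (hR y z) u v x
    have h4 := sy (hR y z) (hR v x) u
    have h5 := j13_RR hc hw (hR v x) u y z
    have h6 := sy (hR v x) (hL u y) z
    have h7 := j13_RR hc hw (hL u y) z v x
    have e1 : T3 chi w (LL u v) (LL x y) z = - T3 chi w (LL u v) (RR y z) x := by rw [h1, neg_neg]
    rw [e1, h2]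
    have e2 : T3 chi w (RR y z) (LL u v) x = - T3 chi w (RR y z) (RR v x) u := by rw [h3, neg_neg]
    rw [e2, neg_neg, h4, h5, h6, h7, neg_neg]
  · intro u v a x y z
    exact j13_comm hc hw (hL u v) a x y z
  · intro u v a x y z
    exact j13_pent hc hw (hL u v) a x y z
  · intro t a x y z
    exact j13_comm hc hw (hT t) a x y z
  · intro t x y z
    show T3 chi w (T t) (LL x y) z = - T3 chi w (T x) (LL t y) z
    have h1 := j13_RR hc hw (hT t) x y z
    have h2 := sy (hT t) (hR y z) x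
    have h3 := j13_T hc hw (hR y z) t x
    have h4 := sy (hR y z) (hT x) t
    have h5 := j13_RR hc hw (hT x) t y z
    have e1 : T3 chi w (T t) (LL x y) z = - T3 chi w (T t) (RR y z) x := by rw [h1, neg_neg]
    rw [e1, h2, h3, neg_neg, h4, h5]
  · intro t x y z
    show T3 chi w (T t) (LL x y) z = - T3 chi w (T y) (LL x t) z
    rw [← j13_MM hc hw (hT t) x y z, sy (hT t) (hM x z) y, j13_T hc hw (hM x z) t y,
      sy (hM x z) (hT y) t, j13_MM hc hw (hT y) x t z]
  · intro t x y z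
    show T3 chi w (T t) (LL x y) z = - T3 chi w (T z) (LL x y) t
    rw [sy (hT t) (hL x y) z, j13_T hc hw (hL x y) t z, sy (hL x y) (hT z) t]
  · intro t x y
    show T3 chi w (T t) (LL x y) t = 0
    rw [sy (hT t) (hL x y) t, j13_T0 hc hw (hL x y) t]
  · intro t a x y z
    exact j13_pent hc hw (hT t) a x y z
  · intro u v x y z
    show T3 chi w (T z) (LL u v) (x * y) = T3 chi w (T z) (LL u v) x + T3 chi w (T z) (LL u v) y -
      T3 chi w (LL u v) (LL z x) y + T3 chi w (LL u v) (LL x z) y - T3 chi w (LL u v) (LL x y) z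
    rw [sy (hT z) (hL u v) (x * y), sy (hT z) (hL u v) x, sy (hT z) (hL u v) y]
    exact j13_hex hc hw (hL u v) x y z

theorem j13_one (hc : IsChi chi) (w p : MG Q) (x : Q) : T3 chi w 1 p x = 0 := by
  unfold T3
  rw [commutatorElement_one_left, commutatorElement_one_right]
  exact chi_one hc

theorem j13_inv2 (hc : IsChi chi) {w t p : MG Q} (hw : w ∈ H Q) (ht : t ∈ H Q) (hp : p ∈ H Q) (x : Q) :
    T3 chi w t⁻¹ p x = - T3 chi w t p x := by
  have h := T3_mul2 hc hw ht ((H Q).inv_mem ht) hp x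
  rw [mul_inv_cancel, j13_one hc] at h
  exact (neg_eq_of_add_eq_zero_right h.symm).symm

theorem j13_inv3 (hc : IsChi chi) {w t p : MG Q} (hw : w ∈ H Q) (ht : t ∈ H Q) (hp : p ∈ H Q) (x : Q) :
    T3 chi w t p⁻¹ x = - T3 chi w t p x := by
  rw [T3_symm23 hc hw ht ((H Q).inv_mem hp) x, j13_inv2 hc hw hp ht x, T3_symm23 hc hw hp ht x]

theorem j13_alt4 {X : Q → Q → Q → Q → W} (h : Alt4 X) (u : Q) : Alt3 (fun x y z => X u x y z) := by
  refine ⟨fun a b c => h.s23 u a b c, fun a b c => h.s34 u a b c, fun a c => ?_, fun a b c d => ?_⟩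
  · show X u a a c = 0
    rw [h.s12 a u a c, h.s23 a a u c, h.z12, neg_zero, neg_zero]
  · show X u (a * b) c d = X u a c d + X u b c d
    rw [h.s12 (a * b) u c d, h.add1, h.s12 a u c d, h.s12 b u c d, neg_add]

theorem j13_alt5 {X : Q → Q → Q → Q → Q → W} (h : Alt5 X) (u : Q) : Alt4 (fun v x y z => X u v x y z) := by
  refine ⟨fun a b c d => h.s23 u a b c d, fun a b c d => h.s34 u a b c d, fun a b c d => h.s45 u a b c d,
    fun a c d => ?_, fun a b c d e => ?_⟩
  · show X u a a c d = 0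
    rw [h.s12 a u a c d, h.s23 a a u c d, h.z12, neg_zero, neg_zero]
  · show X u (a * b) c d e = X u a c d e + X u b c d e
    rw [h.s12 (a * b) u c d e, h.add1, h.s12 a u c d e, h.s12 b u c d e, neg_add]

theorem T3_alt (hc : IsChi chi) {w p : MG Q} (hw : w ∈ H Q) (hp : p ∈ H Q) :
    Alt3 (fun x y z => T3 chi w p (LL x y) z) := by
  obtain ⟨f5, f4⟩ := T3_forms hc hw
  have hL := fun u v : Q => LL_mem u v
  let S : Subgroup (MG Q) :=
    { carrier := {p | p ∈ H Q ∧ Alt3 (fun x y z => T3 chi w p (LL x y) z)}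
      mul_mem' := by
        rintro a b ⟨ha, h1⟩ ⟨hb, h2⟩
        refine ⟨(H Q).mul_mem ha hb, ?_⟩
        have e : ∀ x y z : Q, T3 chi w (a * b) (LL x y) z = T3 chi w a (LL x y) z + T3 chi w b (LL x y) z :=
          fun x y z => T3_mul2 hc hw ha hb (hL x y) z
        refine ⟨fun x y z => ?_, fun x y z => ?_, fun x z => ?_, fun x y z v => ?_⟩
        · show T3 chi w (a * b) (LL y x) z = - T3 chi w (a * b) (LL x y) z
          have g1 : T3 chi w a (LL y x) z = - T3 chi w a (LL x y) z := h1.s12 x y z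
          have g2 : T3 chi w b (LL y x) z = - T3 chi w b (LL x y) z := h2.s12 x y z
          rw [e, e, g1, g2, neg_add]
        · show T3 chi w (a * b) (LL x z) y = - T3 chi w (a * b) (LL x y) z
          have g1 : T3 chi w a (LL x z) y = - T3 chi w a (LL x y) z := h1.s23 x y z
          have g2 : T3 chi w b (LL x z) y = - T3 chi w b (LL x y) z := h2.s23 x y z
          rw [e, e, g1, g2, neg_add]
        · show T3 chi w (a * b) (LL x x) z = 0
          have g1 : T3 chi w a (LL x x) z = 0 := h1.z12 x z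
          have g2 : T3 chi w b (LL x x) z = 0 := h2.z12 x z
          rw [e, g1, g2, add_zero]
        · show T3 chi w (a * b) (LL (x * y) z) v = T3 chi w (a * b) (LL x z) v + T3 chi w (a * b) (LL y z) v
          have g1 : T3 chi w a (LL (x * y) z) v = T3 chi w a (LL x z) v + T3 chi w a (LL y z) v := h1.add1 x y z v
          have g2 : T3 chi w b (LL (x * y) z) v = T3 chi w b (LL x z) v + T3 chi w b (LL y z) v := h2.add1 x y z v
          rw [e, e, e, g1, g2]
          abel
      one_mem' := by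
        refine ⟨(H Q).one_mem, ?_⟩
        have e : ∀ x y z : Q, T3 chi w 1 (LL x y) z = 0 := fun x y z => j13_one hc w (LL x y) z
        refine ⟨fun x y z => ?_, fun x y z => ?_, fun x z => ?_, fun x y z v => ?_⟩
        · show T3 chi w 1 (LL y x) z = - T3 chi w 1 (LL x y) z
          rw [e, e, neg_zero]
        · show T3 chi w 1 (LL x z) y = - T3 chi w 1 (LL x y) z
          rw [e, e, neg_zero]
        · exact e x x z
        · show T3 chi w 1 (LL (x * y) z) v = T3 chi w 1 (LL x z) v + T3 chi w 1 (LL y z) v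
          rw [e, e, e, add_zero]
      inv_mem' := by
        rintro a ⟨ha, h1⟩
        refine ⟨(H Q).inv_mem ha, ?_⟩
        have e : ∀ x y z : Q, T3 chi w a⁻¹ (LL x y) z = - T3 chi w a (LL x y) z :=
          fun x y z => j13_inv2 hc hw ha (hL x y) z
        refine ⟨fun x y z => ?_, fun x y z => ?_, fun x z => ?_, fun x y z v => ?_⟩
        · show T3 chi w a⁻¹ (LL y x) z = - T3 chi w a⁻¹ (LL x y) z
          have g1 : T3 chi w a (LL y x) z = - T3 chi w a (LL x y) z := h1.s12 x y z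
          rw [e, e, g1]
        · show T3 chi w a⁻¹ (LL x z) y = - T3 chi w a⁻¹ (LL x y) z
          have g1 : T3 chi w a (LL x z) y = - T3 chi w a (LL x y) z := h1.s23 x y z
          rw [e, e, g1]
        · show T3 chi w a⁻¹ (LL x x) z = 0
          have g1 : T3 chi w a (LL x x) z = 0 := h1.z12 x z
          rw [e, g1, neg_zero]
        · show T3 chi w a⁻¹ (LL (x * y) z) v = T3 chi w a⁻¹ (LL x z) v + T3 chi w a⁻¹ (LL y z) v
          have g1 : T3 chi w a (LL (x * y) z) v = T3 chi w a (LL x z) v + T3 chi w a (LL y z) v := h1.add1 x y z v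
          rw [e, e, e, g1, neg_add] }
  have hmem : p ∈ S := by
    refine H_ind S (fun u => ?_) (fun u v => ?_) (fun u v => ?_) hp
    · exact ⟨T_mem u, j13_alt4 f4 u⟩
    · exact ⟨LL_mem u v, j13_alt4 (j13_alt5 f5 u) v⟩
    · refine ⟨RR_mem u v, ?_⟩
      have e : ∀ x y z : Q, T3 chi w (RR u v) (LL x y) z = - T3 chi w (LL x y) (LL z u) v := by
        intro x y z
        rw [T3_symm23 hc hw (RR_mem u v) (hL x y) z, j13_RR hc hw (hL x y) z u v]
      refine ⟨fun x y z => ?_, fun x y z => ?_, fun x z => ?_, fun x y z t => ?_⟩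
      · show T3 chi w (RR u v) (LL y x) z = - T3 chi w (RR u v) (LL x y) z
        rw [e, e]
        exact congrArg Neg.neg (f5.s12 x y z u v)
      · show T3 chi w (RR u v) (LL x z) y = - T3 chi w (RR u v) (LL x y) z
        rw [e, e]
        exact congrArg Neg.neg (f5.s23 x y z u v)
      · show T3 chi w (RR u v) (LL x x) z = 0
        rw [e]
        exact (congrArg Neg.neg (f5.z12 x z u v)).trans neg_zero
      · show T3 chi w (RR u v) (LL (x * y) z) t = T3 chi w (RR u v) (LL x z) t + T3 chi w (RR u v) (LL y z) t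
        rw [e, e, e]
        exact (congrArg Neg.neg (f5.add1 x y z t u v)).trans (neg_add _ _)
  exact hmem.2

/-- moving the last entry: `M`, `R`, `T` -/
theorem T3_MM (hc : IsChi chi) {w p : MG Q} (hw : w ∈ H Q) (hp : p ∈ H Q) (x y z : Q) :
    T3 chi w p (MM x z) y = T3 chi w p (LL x y) z := j13_MM hc hw hp x y z
theorem T3_RR (hc : IsChi chi) {w p : MG Q} (hw : w ∈ H Q) (hp : p ∈ H Q) (x y z : Q) :
    T3 chi w p (RR y z) x = - T3 chi w p (LL x y) z := j13_RR hc hw hp x y z
theorem T3_T (hc : IsChi chi) {w p : MG Q} (hw : w ∈ H Q) (hp : p ∈ H Q) (u x : Q) :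
    T3 chi w p (T u) x = - T3 chi w p (T x) u := j13_T hc hw hp u x

theorem mem_LL (x y : Q) : LL x y * LL y x ∈ K Q 2 := by
  refine T3_mem ((H Q).mul_mem (LL_mem x y) (LL_mem y x)) fun chi hc w hw p hp z => ?_
  rw [T3_mul3 hc hw hp (LL_mem x y) (LL_mem y x) z]
  have h : T3 chi w p (LL y x) z = - T3 chi w p (LL x y) z := (T3_alt hc hw hp).s12 x y z
  rw [h, add_neg_cancel]
theorem mem_MR (x z : Q) : MM x z * (RR x z)⁻¹ ∈ K Q 2 := by
  refine T3_mem ((H Q).mul_mem (MM_mem x z) ((H Q).inv_mem (RR_mem x z))) fun chi hc w hw p hp y => ?_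
  rw [T3_mul3 hc hw hp (MM_mem x z) ((H Q).inv_mem (RR_mem x z)) y, j13_inv3 hc hw hp (RR_mem x z) y,
    j13_MM hc hw hp x y z, j13_RR hc hw hp y x z, neg_neg]
  have h : T3 chi w p (LL y x) z = - T3 chi w p (LL x y) z := (T3_alt hc hw hp).s12 x y z
  rw [h, add_neg_cancel]
theorem mem_ML (x z : Q) : MM x z * LL x z ∈ K Q 2 := by
  refine T3_mem ((H Q).mul_mem (MM_mem x z) (LL_mem x z)) fun chi hc w hw p hp y => ?_
  rw [T3_mul3 hc hw hp (MM_mem x z) (LL_mem x z) y, j13_MM hc hw hp x y z]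
  have h : T3 chi w p (LL x z) y = - T3 chi w p (LL x y) z := (T3_alt hc hw hp).s23 x y z
  rw [h, add_neg_cancel]
theorem mem_RR (y z : Q) : RR y z * RR z y ∈ K Q 2 := by
  refine T3_mem ((H Q).mul_mem (RR_mem y z) (RR_mem z y)) fun chi hc w hw p hp x => ?_
  rw [T3_mul3 hc hw hp (RR_mem y z) (RR_mem z y) x, j13_RR hc hw hp x y z, j13_RR hc hw hp x z y]
  have h : T3 chi w p (LL x z) y = - T3 chi w p (LL x y) z := (T3_alt hc hw hp).s23 x y z
  rw [h, neg_neg, neg_add_cancel]
end G

end Pool.Agent.AIM3
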