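import Pool.Agent.AIM3.PG

set_option autoImplicit false
set_option linter.unusedVariables false
set_option linter.unusedSectionVars false

namespace Pool.Agent.AIM3

open scoped commutatorElement

/-! ## H. Characters attached to elements of `H ∩ K 2` -/
section HH
variable {Q : Type} [Lp Q] [AbInn Q] {W : Type} [AddCommGroup W] {chi : MG Q → W}

-- J14
theorem F_char (hc : IsChi chi) {t : MG Q} (ht : t ∈ H Q) (ht2 : t ∈ K Q 2) : IsChar (fun n => chi ⁅t, n⁆) where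
  map_mul := fun n hn m hm => chi_comm_mul_right hc ht2 hn hm
  map_H := fun h hh => by
    have : ⁅t, h⁆ = 1 := by
      rw [commutatorElement_eq_one_iff_mul_comm]
      exact AbInn.comm t ht h hh
    show chi ⁅t, h⁆ = 0
    rw [this]
    exact chi_one hc

theorem j14_core {a b a' b' : MG Q} (haa : a * a' = a' * a) (hbb : b * b' = b' * b)
    (hcom : (a * b) * (a' * b') = (a' * b') * (a * b))
    (h1 : a * ⁅b, a'⁆ = ⁅b, a'⁆ * a) (h2 : a' * ⁅b', a⁆ = ⁅b', a⁆ * a') : ⁅b', a⁆ = ⁅b, a'⁆ := by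
  have e1 : b * a' = ⁅b, a'⁆ * a' * b := by rw [commutatorElement_def]; group
  have e2 : b' * a = ⁅b', a⁆ * a * b' := by rw [commutatorElement_def]; group
  have e3 : (a * b) * (a' * b') = ⁅b, a'⁆ * (a * a' * b * b') := by
    calc (a * b) * (a' * b') = a * (b * a') * b' := by group
      _ = a * (⁅b, a'⁆ * a' * b) * b' := by rw [← e1]
      _ = (a * ⁅b, a'⁆) * a' * b * b' := by group
      _ = (⁅b, a'⁆ * a) * a' * b * b' := by rw [h1]
      _ = ⁅b, a'⁆ * (a * a' * b * b') := by group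
  have e4 : (a' * b') * (a * b) = ⁅b', a⁆ * (a * a' * b * b') := by
    calc (a' * b') * (a * b) = a' * (b' * a) * b := by group
      _ = a' * (⁅b', a⁆ * a * b') * b := by rw [← e2]
      _ = (a' * ⁅b', a⁆) * a * b' * b := by group
      _ = (⁅b', a⁆ * a') * a * b' * b := by rw [h2]
      _ = ⁅b', a⁆ * ((a' * a) * (b' * b)) := by group
      _ = ⁅b', a⁆ * ((a * a') * (b * b')) := by rw [haa, hbb]
      _ = ⁅b', a⁆ * (a * a' * b * b') := by group
  rw [e3, e4] at hcom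
  exact (mul_right_cancel hcom).symm

theorem j14_one {F : MG Q → W} (hF : IsChar F) {n : MG Q} (hn : n ∈ N Q) :
    F n = F (L (n • (1 : Q))) := by
  have h := dF_conj hF hn (1 : Q)
  rw [L_one, cj_one] at h
  rw [h, dF, ld_one]

/-- (5.1) -/
theorem Q1 (hc : IsChi chi) {t p : MG Q} (ht : t ∈ H Q) (ht2 : t ∈ K Q 2) (hp : p ∈ H Q) (x : Q) :
    chi ⁅t, cj (L x) p⁆ = chi ⁅p, L (dis t x)⁆ := by
  have htN := H_le_N ht
  have hpN := H_le_N hp
  have heN : L (dis t x) ∈ N Q := L_dis_mem htN x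
  have he2 : dis t x ∈ Zs Q 2 := mem_K_iff_dis.1 ht2 x
  have heK : L (dis t x) ∈ K Q 2 := L_mem_K_iff.2 he2
  have hcN : L (dis p x) ∈ N Q := L_dis_mem hpN x
  have htx := sh_mem ht x
  have htxK := sh_mem_K ht2 x
  have hpx := sh_mem hp x
  have htxN := H_le_N htx
  have hpxN := H_le_N hpx
  have hLL : L (dis t x) * L (dis p x) = L (dis p x) * L (dis t x) := by
    have h := V_comm (k := 0) he2 hcN
    rw [K_zero, Subgroup.mem_bot] at h
    exact commutatorElement_eq_one_iff_mul_comm.1 h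
  have hcom : (L (dis t x) * sh t x) * (L (dis p x) * sh p x) =
      (L (dis p x) * sh p x) * (L (dis t x) * sh t x) := by
    rw [← sh_eq, ← sh_eq, ← cj_mul, ← cj_mul, AbInn.comm t ht p hp]
  have hk1 : ⁅sh t x, L (dis p x)⁆ ∈ K Q 1 := comm_K_N htxK hcN
  have hk2 : ⁅sh p x, L (dis t x)⁆ ∈ K Q 1 := comm_N_K heK hpxN
  have hcore : ⁅sh p x, L (dis t x)⁆ = ⁅sh t x, L (dis p x)⁆ :=
    j14_core hLL (AbInn.comm _ htx _ hpx) hcom (K1_comm_N hk1 heN).symm (K1_comm_N hk2 hcN).symm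
  -- conjugate back
  obtain ⟨r, hr⟩ : ∃ r : Q, x * r = 1 := ⟨ld x 1, mul_ld x 1⟩
  have hxr : L x * L r ∈ H Q := by
    rw [mem_H, mul_smul, L_smul, L_smul, mul_one', hr]
  have hback : ∀ s ∈ H Q, cj (L r) (cj (L x) s) = s := by
    intro s hs
    rw [cj_cj]
    have h1 := AbInn.comm _ hxr s hs
    show (L x * L r)⁻¹ * s * (L x * L r) = s
    rw [mul_assoc, ← h1, inv_mul_cancel_left]
  obtain ⟨A, hA⟩ : ∃ A, A = cj (L r) (L (dis t x)) := ⟨_, rfl⟩
  obtain ⟨A', hA'⟩ : ∃ A', A' = cj (L r) (L (dis p x)) := ⟨_, rfl⟩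
  have hAN : A ∈ N Q := hA ▸ cj_mem_N _ heN
  have hA'N : A' ∈ N Q := hA' ▸ cj_mem_N _ hcN
  have hAt : cj (L r) (sh t x) = A⁻¹ * t := by
    have h1 := hback t ht
    rw [sh_eq t x, cj_mul, ← hA] at h1
    exact eq_inv_mul_of_mul_eq h1
  have hAp : cj (L r) (sh p x) = A'⁻¹ * p := by
    have h1 := hback p hp
    rw [sh_eq p x, cj_mul, ← hA'] at h1
    exact eq_inv_mul_of_mul_eq h1
  have hAK : A ∈ K Q 2 := by
    have h1 : (L r)⁻¹ * L (dis t x) * ((L r)⁻¹)⁻¹ ∈ K Q 2 := (K_normal 2).conj_mem _ heK _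
    rw [inv_inv] at h1
    rw [hA]; exact h1
  have hAA : A * A' = A' * A := by
    rw [hA, hA', ← cj_mul, ← cj_mul, hLL]
  have hκ : (L (dis t x))⁻¹ * A ∈ K Q 1 := by
    rw [hA]; exact cj_L_mem he2 _
  have hcore2 : ⁅A'⁻¹ * p, A⁆ = ⁅A⁻¹ * t, A'⁆ := by
    have h1 := congrArg (cj (L r)) hcore
    rw [cj_comm, cj_comm, hAt, hAp, ← hA, ← hA'] at h1
    exact h1
  have e1 : chi ⁅A⁻¹ * t, A'⁆ = chi ⁅t, A'⁆ := by
    rw [chi_comm_mul_left hc ((K Q 2).inv_mem hAK) ht2 ((N Q).inv_mem hAN) hA'N]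
    have : ⁅A⁻¹, A'⁆ = 1 := by
      rw [commutatorElement_eq_one_iff_mul_comm]
      have h1 : Commute A A' := hAA
      exact h1.inv_left
    rw [this, chi_one hc, zero_add]
  have e2 : chi ⁅A'⁻¹ * p, A⁆ = chi ⁅p, A⁆ := by
    rw [chi_comm_swap hc hAK ((N Q).mul_mem ((N Q).inv_mem hA'N) hpN),
      chi_comm_mul_right hc hAK ((N Q).inv_mem hA'N) hpN, chi_comm_swap hc hAK hpN]
    have : ⁅A, A'⁻¹⁆ = 1 := by
      rw [commutatorElement_eq_one_iff_mul_comm]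
      have h1 : Commute A A' := hAA
      exact h1.inv_right
    rw [this, chi_one hc, zero_add]
  have e3 : chi ⁅p, A⁆ = chi ⁅p, L (dis t x)⁆ := by
    have hA2 : A = L (dis t x) * ((L (dis t x))⁻¹ * A) := by group
    have hκ2 : (L (dis t x))⁻¹ * A ∈ K Q 2 := K_le_succ 1 hκ
    rw [chi_comm_swap hc hAK hpN, hA2, chi_comm_mul_left hc heK hκ2 heN hpN,
      chi_comm_swap hc heK hpN]
    have : ⁅(L (dis t x))⁻¹ * A, p⁆ = 1 := by
      rw [commutatorElement_eq_one_iff_mul_comm]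
      exact K1_comm_N hκ hpN
    rw [this, chi_one hc, add_zero]
  have hF := F_char hc ht ht2
  have e4 : chi ⁅t, A'⁆ = chi ⁅t, L (dis p x)⁆ := by
    have h1 := j14_one hF hA'N
    have h2 : A' • (1 : Q) = T r • dis p x := by
      rw [hA']
      show ((L r)⁻¹ * L (dis p x) * L r) • (1 : Q) = ((L r)⁻¹ * R r) • dis p x
      rw [mul_smul, mul_smul, mul_smul, L_smul r 1, mul_one', L_smul, R_smul]
    rw [h2] at h1
    have h3 := char_H_smul hF (T_mem r) hcN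
    exact h1.trans h3
  have e5 : chi ⁅t, cj (L x) p⁆ = chi ⁅t, L (dis p x)⁆ := char_dis hF hp x
  rw [e5, ← e4, ← e1, ← hcore2, e2, e3]

/-- symmetry for two elements of `H ∩ K 2` -/
theorem F_symm (hc : IsChi chi) {t p : MG Q} (ht : t ∈ H Q) (ht2 : t ∈ K Q 2) (hp : p ∈ H Q) (hp2 : p ∈ K Q 2)
    (x : Q) : chi ⁅t, cj (L x) p⁆ = chi ⁅p, cj (L x) t⁆ := by
  rw [Q1 hc ht ht2 hp x]
  exact (char_dis (F_char hc hp hp2) ht x).symm
end HH

end Pool.Agent.AIM3
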