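import Pool.Agent.AIM3.PH

set_option autoImplicit false
set_option linter.unusedVariables false
set_option linter.unusedSectionVars false

namespace Pool.Agent.AIM3

open scoped commutatorElement

/-! ## I. The functions `d_v` -/

-- J15
theorem j15_comm {P : Type} [Group P] (S : Subgroup P) (s : P → AddCircle (1 : ℚ))
    (hs : ∀ a ∈ S, ∀ b ∈ S, s (a * b) = s a + s b)
    (hcomm : ∀ a b : P, ⁅a, b⁆ ∈ S ∧ s ⁅a, b⁆ = 0) {x : P} (hx : x ∈ commutator P) :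
    x ∈ S ∧ s x = 0 := by
  have h1 : s 1 = 0 := by
    have h := hs 1 S.one_mem 1 S.one_mem
    rw [mul_one] at h
    exact left_eq_add.1 h
  rw [commutator_eq_closure] at hx
  induction hx using Subgroup.closure_induction with
  | mem y hy =>
    obtain ⟨a, b, rfl⟩ := hy
    exact hcomm a b
  | one => exact ⟨S.one_mem, h1⟩
  | mul y z _ _ hy hz =>
    refine ⟨S.mul_mem hy.1 hz.1, ?_⟩
    rw [hs y hy.1 z hz.1, hy.2, hz.2, add_zero]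
  | inv y _ hy =>
    refine ⟨S.inv_mem hy.1, ?_⟩
    have h := hs y hy.1 y⁻¹ (S.inv_mem hy.1)
    rw [mul_inv_cancel, h1, hy.2, zero_add] at h
    exact h.symm

/-- extension of homomorphisms into `ℚ/ℤ` -/
theorem EXT {P : Type} [Group P] (S : Subgroup P) (s : P → AddCircle (1 : ℚ))
    (hs : ∀ a ∈ S, ∀ b ∈ S, s (a * b) = s a + s b)
    (hcomm : ∀ a b : P, ⁅a, b⁆ ∈ S ∧ s ⁅a, b⁆ = 0) :
    ∃ t : P → AddCircle (1 : ℚ), (∀ a b, t (a * b) = t a + t b) ∧ ∀ a ∈ S, t a = s a := by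
  classical
  let f : S →* Multiplicative (AddCircle (1 : ℚ)) :=
    MonoidHom.mk' (fun a => Multiplicative.ofAdd (s a.1)) (fun a b => by
      show Multiplicative.ofAdd (s (a.1 * b.1)) = _
      rw [hs a.1 a.2 b.1 b.2, ofAdd_add])
  let g : S →* Abelianization P := Abelianization.of.comp S.subtype
  have hsurj : Function.Surjective g.rangeRestrict := g.rangeRestrict_surjective
  have hker : g.rangeRestrict.ker ≤ f.ker := by
    intro a ha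
    rw [MonoidHom.ker_rangeRestrict, MonoidHom.mem_ker] at ha
    have h2 : (a : P) ∈ commutator P := by
      have h3 : Abelianization.of (a : P) = 1 := ha
      rwa [← MonoidHom.mem_ker, Abelianization.ker_of] at h3
    rw [MonoidHom.mem_ker]
    show Multiplicative.ofAdd (s a.1) = 1
    rw [(j15_comm S s hs hcomm h2).2]
    rfl
  let φ : g.range →* Multiplicative (AddCircle (1 : ℚ)) := g.rangeRestrict.liftOfSurjective hsurj ⟨f, hker⟩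
  have hφ : ∀ a : S, φ (g.rangeRestrict a) = f a := fun a =>
    MonoidHom.liftOfRightInverse_comp_apply _ _ (Function.rightInverse_surjInv hsurj) ⟨f, hker⟩ a
  let ψ : Additive g.range →+ AddCircle (1 : ℚ) := MonoidHom.toAdditiveLeft φ
  let j : Additive g.range →+ Additive (Abelianization P) := MonoidHom.toAdditive g.range.subtype
  have hj : Function.Injective j.toIntLinearMap := by
    intro a b hab
    have h3 : g.range.subtype a.toMul = g.range.subtype b.toMul := hab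
    exact congrArg Additive.ofMul (g.range.subtype_injective h3)
  obtain ⟨χ, hχ⟩ := CharacterModule.dual_surjective_of_injective j.toIntLinearMap hj ψ
  refine ⟨fun p => χ (Additive.ofMul (Abelianization.of p)), ?_, ?_⟩
  · intro a b
    show χ (Additive.ofMul (Abelianization.of (a * b))) = _
    rw [map_mul, ofMul_mul, map_add]
  · intro a ha
    have h4 : ψ (Additive.ofMul (g.rangeRestrict ⟨a, ha⟩)) = s a := by
      show Multiplicative.toAdd (φ (g.rangeRestrict ⟨a, ha⟩)) = s a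
      rw [hφ]
      rfl
    rw [← h4, ← hχ]
    rfl

section I
variable {Q : Type} [Lp Q] {W : Type} [AddCommGroup W]

structure IsD (chi : MG Q → W) (v : MG Q) (d : Q → Q → W) : Prop where
  add : ∀ p q r, sameN p q → sameN q r → d p q + d q r = d p r
  smul : ∀ (g : MG Q) (p q : Q), sameN p q →
    d (g • p) (g • q) = d p q + dF (fun n => chi ⁅v, ⁅(L (g • p))⁻¹ * g * L p, n⁆⁆) p q
  two : ∀ p q, sameN p q → rel 2 p q → d p q = chi ⁅v, L (ld p q)⁆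

end I

-- J16
theorem j16_mulN {Q : Type} [Lp Q] [AbInn Q] {c c' : Q} (hc : L c ∈ N Q) (hc' : L c' ∈ N Q) :
    L (c * c') ∈ N Q := by
  have h : L (c * c') = L c * L c' * (LL c c')⁻¹ := by rw [LL_eq]; group
  rw [h]
  exact (N Q).mul_mem ((N Q).mul_mem hc hc') ((N Q).inv_mem (H_le_N (LL_mem c c')))

theorem j16_rel {Q : Type} [Lp Q] {a b : Q} (h : rel 1 a b) : ∃ z, L z ∈ K Q 1 ∧ L b = L a * L z := by
  refine ⟨ld a b, L_mem_K_iff.2 h, ?_⟩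
  have h1 : LL a (ld a b) ∈ K Q 0 := LL_mem_K_right (k := 0) h a
  rw [K_zero, Subgroup.mem_bot] at h1
  rw [LL_eq, h1, mul_one, mul_ld]

/-- the subgroup `P` -/
def j16_P (Q : Type) [Lp Q] [AbInn Q] [Cl4 Q] : Subgroup (MG Q) where
  carrier := {g | ∃ c κ, L c ∈ N Q ∧ κ ∈ K Q 1 ∧ g = L c * κ}
  mul_mem' := by
    rintro a b ⟨c, κ, hc, hκ, rfl⟩ ⟨c', κ', hc', hκ', rfl⟩
    refine ⟨c * c', LL c c' * ((L c')⁻¹ * κ * L c') * κ', j16_mulN hc hc', ?_, ?_⟩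
    · have h1 : LL c c' ∈ K Q 1 := V_LL1 (k := 1) (Zs3_of_N hc) hc'
      have h2 : (L c')⁻¹ * κ * L c' ∈ K Q 1 := by
        have := (K_normal (Q := Q) 1).conj_mem κ hκ (L c')⁻¹
        rwa [inv_inv] at this
      exact (K Q 1).mul_mem ((K Q 1).mul_mem h1 h2) hκ'
    · have h3 : L c * κ * (L c' * κ') = (L c * L c') * ((L c')⁻¹ * κ * L c') * κ' := by group
      rw [h3, LL_eq]
      group
  one_mem' := ⟨1, 1, by rw [L_one]; exact (N Q).one_mem, (K Q 1).one_mem, by rw [L_one, one_mul]⟩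
  inv_mem' := by
    rintro a ⟨c, κ, hc, hκ, rfl⟩
    have hc' : L (ld c 1) ∈ N Q := by
      rw [L_mem_N_iff]
      have h := sameN_smul (L c)⁻¹ (sameN_symm (L_mem_N_iff.1 hc))
      rw [L_inv_smul, L_inv_smul, ld_self] at h
      exact h
    have h1 : LL c (ld c 1) ∈ K Q 1 := V_LL1 (k := 1) (Zs3_of_N hc) hc'
    have h2 : L c * L (ld c 1) = LL c (ld c 1) := by rw [LL_eq, mul_ld, L_one, one_mul]
    have h3 : (L c)⁻¹ = L (ld c 1) * (LL c (ld c 1))⁻¹ := by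
      rw [← h2]; group
    refine ⟨ld c 1, (LL c (ld c 1))⁻¹ * (L c * κ⁻¹ * (L c)⁻¹), hc', ?_, ?_⟩
    · exact (K Q 1).mul_mem ((K Q 1).inv_mem h1) ((K_normal (Q := Q) 1).conj_mem κ⁻¹ ((K Q 1).inv_mem hκ) (L c))
    · rw [← mul_assoc, ← h3]
      group

theorem j16_L_mem_P {Q : Type} [Lp Q] [AbInn Q] [Cl4 Q] {c : Q} (hc : L c ∈ N Q) : L c ∈ j16_P Q :=
  ⟨c, 1, hc, (K Q 1).one_mem, by rw [mul_one]⟩

theorem j16_K_le_P {Q : Type} [Lp Q] [AbInn Q] [Cl4 Q] {κ : MG Q} (hκ : κ ∈ K Q 1) : κ ∈ j16_P Q :=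
  ⟨1, κ, by rw [L_one]; exact (N Q).one_mem, hκ, by rw [L_one, one_mul]⟩

/-- elements of `P` commute with `K 1` -/
theorem j16_P_comm {Q : Type} [Lp Q] [AbInn Q] [Cl4 Q] {a κ : MG Q} (ha : a ∈ j16_P Q) (hκ : κ ∈ K Q 1) :
    κ * a = a * κ := by
  obtain ⟨c, μ, hc, hμ, rfl⟩ := ha
  rw [← mul_assoc, K1_comm_N hκ hc, mul_assoc, K1_comm hκ hμ, mul_assoc]

theorem j16_PP {Q : Type} [Lp Q] [AbInn Q] [Cl4 Q] {a b : MG Q} (ha : a ∈ j16_P Q) (hb : b ∈ j16_P Q) :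
    ⁅a, b⁆ ∈ K Q 1 := by
  obtain ⟨c, μ, hc, hμ, rfl⟩ := ha
  obtain ⟨c', μ', hc', hμ', rfl⟩ := hb
  have h1 : ⁅L c, L c'⁆ ∈ K Q 1 := V_comm (k := 1) (Zs3_of_N hc) hc'
  have e1 : μ * (L c' * μ') = (L c' * μ') * μ := j16_P_comm (⟨c', μ', hc', hμ', rfl⟩ : L c' * μ' ∈ j16_P Q) hμ
  have e2 : μ' * (L c)⁻¹ = (L c)⁻¹ * μ' := K1_comm_N hμ' ((N Q).inv_mem hc)
  have h2 : ⁅L c * μ, L c' * μ'⁆ = ⁅L c, L c'⁆ := by
    rw [commutatorElement_def, commutatorElement_def]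
    calc L c * μ * (L c' * μ') * (L c * μ)⁻¹ * (L c' * μ')⁻¹
        = L c * (μ * (L c' * μ')) * (L c * μ)⁻¹ * (L c' * μ')⁻¹ := by group
      _ = L c * ((L c' * μ') * μ) * (L c * μ)⁻¹ * (L c' * μ')⁻¹ := by rw [e1]
      _ = L c * L c' * (μ' * (L c)⁻¹) * μ'⁻¹ * (L c')⁻¹ := by group
      _ = L c * L c' * ((L c)⁻¹ * μ') * μ'⁻¹ * (L c')⁻¹ := by rw [e2]
      _ = L c * L c' * (L c)⁻¹ * (L c')⁻¹ := by group
  rw [h2]
  exact h1

/-- `⁅v, a κ⁆ = ⁅v, a⁆` for `κ` commuting with `v` -/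
theorem j16_comm_eq {G : Type} [Group G] {v a κ : G} (h : v * κ = κ * v) : ⁅v, a * κ⁆ = ⁅v, a⁆ := by
  rw [commutatorElement_def, commutatorElement_def]
  have h' : κ * v⁻¹ = v⁻¹ * κ := by
    have : v⁻¹ * (v * κ) * v⁻¹ = v⁻¹ * (κ * v) * v⁻¹ := by rw [h]
    calc κ * v⁻¹ = v⁻¹ * (v * κ) * v⁻¹ := by group
      _ = v⁻¹ * (κ * v) * v⁻¹ := this
      _ = v⁻¹ * κ := by group
  calc v * (a * κ) * v⁻¹ * (a * κ)⁻¹ = v * a * (κ * v⁻¹) * κ⁻¹ * a⁻¹ := by group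
    _ = v * a * (v⁻¹ * κ) * κ⁻¹ * a⁻¹ := by rw [h']
    _ = v * a * v⁻¹ * a⁻¹ := by group

theorem j16_vK {Q : Type} [Lp Q] [AbInn Q] {v κ : MG Q} (hv : v ∈ H Q) (hκ : κ ∈ K Q 1) : v * κ = κ * v :=
  (K1_comm_N hκ (H_le_N hv)).symm

theorem j16_commK1 {Q : Type} [Lp Q] [AbInn Q] {v κ : MG Q} (hv : v ∈ H Q) (hκ : κ ∈ K Q 1) : ⁅v, κ⁆ = 1 := by
  rw [commutatorElement_def, j16_vK hv hκ]
  group

/-- the key identity `⁅v, L (dis u c)⁆ = ⁅v, ⁅u, L c⁆⁆` -/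
theorem j16_key {Q : Type} [Lp Q] [AbInn Q] [Cl4 Q] {v u : MG Q} (hv : v ∈ H Q) (hu : u ∈ H Q) {c : Q}
    (hc : L c ∈ N Q) : ⁅v, L (dis u c)⁆ = ⁅v, ⁅u, L c⁆⁆ := by
  have hkN : ⁅u, L c⁆ ∈ K Q 2 := comm_NN (H_le_N hu) hc
  have hkc : ⁅u, L c⁆ • c = u • c := by
    rw [commutatorElement_def, mul_smul, mul_smul, mul_smul, L_inv_smul, ld_self,
      (mem_H.1 ((H Q).inv_mem hu)), L_smul, mul_one']
  have h1 : rel 1 (dis ⁅u, L c⁆ 1) (dis ⁅u, L c⁆ (L c • 1)) := K_orbit (k := 1) hkN hc 1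
  have h2 : dis ⁅u, L c⁆ 1 = ⁅u, L c⁆ • (1 : Q) := by unfold dis; rw [ld_one]
  have h3 : dis ⁅u, L c⁆ (L c • 1) = dis u c := by
    rw [L_smul, mul_one']; unfold dis; rw [hkc]
  rw [h2, h3] at h1
  obtain ⟨z, hz, hLz⟩ := j16_rel h1
  rw [hLz, j16_comm_eq (j16_vK hv hz)]
  have hθ : (L (⁅u, L c⁆ • (1 : Q)))⁻¹ * ⁅u, L c⁆ ∈ H Q := by
    have := trans_mem ⁅u, L c⁆ (1 : Q)
    rwa [L_one, mul_one] at this
  have h4 : ⁅v, L (⁅u, L c⁆ • (1 : Q)) * ((L (⁅u, L c⁆ • (1 : Q)))⁻¹ * ⁅u, L c⁆)⁆ = ⁅v, L (⁅u, L c⁆ • (1 : Q))⁆ :=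
    j16_comm_eq (AbInn.comm v hv _ hθ)
  rw [mul_inv_cancel_left] at h4
  exact h4.symm

/-- the homomorphism on `P` -/
theorem j16_f {Q : Type} [Lp Q] [AbInn Q] [Cl4 Q] {chi : MG Q → AddCircle (1 : ℚ)} (hc : IsChi chi) {v : MG Q}
    (hv : v ∈ H Q) : ∃ f : MG Q → AddCircle (1 : ℚ), (∀ a ∈ j16_P Q, ∀ b ∈ j16_P Q, f (a * b) = f a + f b) ∧
      (∀ a ∈ j16_P Q, a ∈ K Q 2 → f a = chi ⁅v, a⁆) := by
  classical
  have hvK : ∀ a ∈ K Q 2, ⁅v, a⁆ ∈ K Q 1 := fun a ha => comm_N_K (k := 1) ha (H_le_N hv)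
  obtain ⟨t, ht1, ht2⟩ := EXT ((K Q 2).subgroupOf (j16_P Q)) (fun a => chi ⁅v, (a : MG Q)⁆)
    (by
      intro a ha b hb
      rw [Subgroup.mem_subgroupOf] at ha hb
      show chi ⁅v, ((a * b : ↥(j16_P Q)) : MG Q)⁆ = chi ⁅v, (a : MG Q)⁆ + chi ⁅v, (b : MG Q)⁆
      have e : ⁅v, ((a * b : ↥(j16_P Q)) : MG Q)⁆ = ⁅v, (a : MG Q)⁆ * ⁅v, (b : MG Q)⁆ := by
        have e1 : ⁅v, (b : MG Q)⁆ * (a : MG Q) = (a : MG Q) * ⁅v, (b : MG Q)⁆ := j16_P_comm a.2 (hvK _ hb)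
        have e2 : (a : MG Q) * ⁅v, (b : MG Q)⁆ * (a : MG Q)⁻¹ = ⁅v, (b : MG Q)⁆ := by
          rw [← e1]; group
        calc ⁅v, ((a * b : ↥(j16_P Q)) : MG Q)⁆ = ⁅v, (a : MG Q)⁆ * ((a : MG Q) * ⁅v, (b : MG Q)⁆ * (a : MG Q)⁻¹) := by
              rw [Subgroup.coe_mul]
              simp only [commutatorElement_def]
              group
          _ = _ := by rw [e2]
      rw [e]
      exact hc.map_mul _ (hvK _ ha) _ (hvK _ hb))
    (by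
      intro a b
      have h1 : ((⁅a, b⁆ : ↥(j16_P Q)) : MG Q) ∈ K Q 1 := by
        have : ((⁅a, b⁆ : ↥(j16_P Q)) : MG Q) = ⁅(a : MG Q), (b : MG Q)⁆ := by
          simp only [commutatorElement_def, Subgroup.coe_mul, Subgroup.coe_inv]
        rw [this]
        exact j16_PP a.2 b.2
      refine ⟨?_, ?_⟩
      · rw [Subgroup.mem_subgroupOf]
        exact K_le_succ 1 h1
      · show chi ⁅v, ((⁅a, b⁆ : ↥(j16_P Q)) : MG Q)⁆ = 0
        rw [j16_commK1 hv h1, chi_one hc])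
  refine ⟨fun g => if h : g ∈ j16_P Q then t ⟨g, h⟩ else 0, ?_, ?_⟩
  · intro a ha b hb
    simp only [dif_pos ha, dif_pos hb, dif_pos ((j16_P Q).mul_mem ha hb)]
    exact ht1 ⟨a, ha⟩ ⟨b, hb⟩
  · intro a ha ha2
    simp only [dif_pos ha]
    exact ht2 ⟨a, ha⟩ (Subgroup.mem_subgroupOf.2 ha2)

theorem exists_D {Q : Type} [Lp Q] [AbInn Q] [Cl4 Q] {chi : MG Q → AddCircle (1 : ℚ)} (hc : IsChi chi) {v : MG Q}
    (hv : v ∈ H Q) : ∃ d, IsD chi v d := by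
  obtain ⟨f, f1, f2⟩ := j16_f hc hv
  have f3 : ∀ κ ∈ K Q 1, f κ = 0 := by
    intro κ hκ
    rw [f2 κ (j16_K_le_P hκ) (K_le_succ 1 hκ), j16_commK1 hv hκ, chi_one hc]
  have f4 : ∀ a b : Q, L a ∈ N Q → rel 1 a b → f (L b) = f (L a) := by
    intro a b ha hab
    obtain ⟨z, hz, e⟩ := j16_rel hab
    rw [e, f1 _ (j16_L_mem_P ha) _ (j16_K_le_P hz), f3 _ hz, add_zero]
  refine ⟨fun p q => f (L (ld p q)), ⟨?_, ?_, ?_⟩⟩
  · intro p q r hpq hqr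
    show f (L (ld p q)) + f (L (ld q r)) = f (L (ld p r))
    have hc1 : L (ld p q) ∈ N Q := sameN_iff.1 hpq
    have hc2 : L (ld q r) ∈ N Q := sameN_iff.1 hqr
    have h1 := V_assoc1 (k := 1) (Zs3_of_N hc1) hc2 p
    rw [mul_ld, mul_ld] at h1
    have h2 := rel_smul (L p)⁻¹ h1
    rw [L_inv_smul, L_inv_smul, ld_mul] at h2
    rw [f4 _ _ (j16_mulN hc1 hc2) h2, ← f1 _ (j16_L_mem_P hc1) _ (j16_L_mem_P hc2), LL_eq,
      f1 _ (j16_L_mem_P (j16_mulN hc1 hc2)) _ (j16_K_le_P (V_LL1 (k := 1) (Zs3_of_N hc1) hc2)),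
      f3 _ (V_LL1 (k := 1) (Zs3_of_N hc1) hc2), add_zero]
  · intro g p q hpq
    show f (L (ld (g • p) (g • q))) = f (L (ld p q)) + chi ⁅v, ⁅(L (g • p))⁻¹ * g * L p, L (ld p q)⁆⁆
    have hcN : L (ld p q) ∈ N Q := sameN_iff.1 hpq
    have hu : (L (g • p))⁻¹ * g * L p ∈ H Q := trans_mem g p
    have huc : ((L (g • p))⁻¹ * g * L p) • (ld p q) = ld (g • p) (g • q) := by
      rw [mul_smul, mul_smul, L_smul, mul_ld, L_inv_smul]
    rw [← huc]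
    generalize (L (g • p))⁻¹ * g * L p = u at hu
    generalize ld p q = c at hcN
    have he2 : dis u c ∈ Zs Q 2 := fixH (k := 2) hu (N_le_K3 (H_le_N hu)) hcN
    have heN : L (dis u c) ∈ N Q := L_dis_mem (H_le_N hu) c
    rw [← mul_dis u c]
    have h5 : f (L (c * dis u c)) = f (L c) + f (L (dis u c)) := by
      rw [← f1 _ (j16_L_mem_P hcN) _ (j16_L_mem_P heN), LL_eq,
        f1 _ (j16_L_mem_P (j16_mulN hcN heN)) _ (j16_K_le_P (LL_mem_K_right (k := 1) he2 c)),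
        f3 _ (LL_mem_K_right (k := 1) he2 c), add_zero]
    rw [h5, f2 _ (j16_L_mem_P heN) (L_mem_K_iff.2 he2), j16_key hv hu hcN]
  · intro p q hpq h2
    exact f2 _ (j16_L_mem_P (sameN_iff.1 hpq)) (L_mem_K_iff.2 h2)

/-- `A(x,y,z) = d((xy)z, x(yz))` -/
def Ad {Q W : Type} [Mul Q] (d : Q → Q → W) (x y z : Q) : W := d ((x * y) * z) (x * (y * z))

end Pool.Agent.AIM3
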