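import Pool.Agent.AIM3.PI

set_option autoImplicit false
set_option linter.unusedVariables false
set_option linter.unusedSectionVars false

namespace Pool.Agent.AIM3

open scoped commutatorElement

/-! ## J. Second order identities -/
section J
variable {Q : Type} [Lp Q] [AbInn Q] [Cl4 Q] {W : Type} [AddCommGroup W] {chi : MG Q → W} {v : MG Q} {d : Q → Q → W}

-- J17
section j17pure
variable {Q : Type} [Mul Q] {W : Type} [AddCommGroup W]

theorem j17_a4_z14 {X : Q → Q → Q → Q → W} (h : Alt4 X) (a b c : Q) : X a b c a = 0 := by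
  have h1 : X a b c a = - X a b a c := h.s34 a b a c
  have h2 : X a b a c = - X a a b c := h.s23 a a b c
  rw [h1, h2, h.z12]; simp

theorem j17_a4_z13 {X : Q → Q → Q → Q → W} (h : Alt4 X) (a b c : Q) : X a b a c = 0 := by
  have h2 : X a b a c = - X a a b c := h.s23 a a b c
  rw [h2, h.z12]; simp

theorem j17_a4_full {X : Q → Q → Q → Q → W} (h : Alt4 X) (x y z : Q) : X ((x * y) * z) x y z = 0 := by
  rw [h.add1, h.add1, h.z12, j17_a4_z13 h, j17_a4_z14 h]; simp

theorem j17_a4_full' {X : Q → Q → Q → Q → W} (h : Alt4 X) (x y z : Q) : X (x * (y * z)) x y z = 0 := by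
  rw [h.add1, h.add1, h.z12, j17_a4_z13 h, j17_a4_z14 h]; simp

theorem j17_a4_xy {X : Q → Q → Q → Q → W} (h : Alt4 X) (x y z : Q) : X (x * y) x y z = 0 := by
  rw [h.add1, h.z12, j17_a4_z13 h]; simp

theorem j17_a5_z13 {X : Q → Q → Q → Q → Q → W} (h : Alt5 X) (a b c d : Q) : X a b a c d = 0 := by
  have h2 : X a b a c d = - X a a b c d := h.s23 a a b c d
  rw [h2, h.z12]; simp

theorem j17_a5_z14 {X : Q → Q → Q → Q → Q → W} (h : Alt5 X) (a b c d : Q) : X a b c a d = 0 := by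
  have h2 : X a b c a d = - X a b a c d := h.s34 a b a c d
  rw [h2, j17_a5_z13 h]; simp

theorem j17_a5_z15 {X : Q → Q → Q → Q → Q → W} (h : Alt5 X) (a b c d : Q) : X a b c d a = 0 := by
  have h2 : X a b c d a = - X a b c a d := h.s45 a b c a d
  rw [h2, j17_a5_z14 h]; simp

theorem j17_a5_z25 {X : Q → Q → Q → Q → Q → W} (h : Alt5 X) (a b c d : Q) : X a b c d b = 0 := by
  have h2 : X a b c d b = - X b a c d b := h.s12 b a c d b
  rw [h2, j17_a5_z15 h]; simp

theorem j17_a5_z35 {X : Q → Q → Q → Q → Q → W} (h : Alt5 X) (a b c d : Q) : X a b c d c = 0 := by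
  have h2 : X a b c d c = - X a c b d c := h.s23 a c b d c
  rw [h2, j17_a5_z25 h]; simp

end j17pure

theorem j17_T3_one2 (hc : IsChi chi) (hv : v ∈ H Q) {p : MG Q} (hp : p ∈ H Q) (x : Q) : T3 chi v 1 p x = 0 := by
  have h := T3_mul2 hc hv (H Q).one_mem (H Q).one_mem hp x
  rw [mul_one] at h
  simpa using h

theorem j17_T3_inv2 (hc : IsChi chi) (hv : v ∈ H Q) {t p : MG Q} (ht : t ∈ H Q) (hp : p ∈ H Q) (x : Q) :
    T3 chi v t⁻¹ p x = - T3 chi v t p x := by
  have h := T3_mul2 hc hv ht ((H Q).inv_mem ht) hp x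
  rw [mul_inv_cancel, j17_T3_one2 hc hv hp] at h
  exact eq_neg_of_add_eq_zero_right h.symm

theorem j17_smul (hc : IsChi chi) (hv : v ∈ H Q) (hD : IsD chi v d) (g : MG Q) {n : MG Q} (hn : n ∈ H Q) (x : Q) :
    d (g • x) (g • (n • x)) = d x (n • x) + T3 chi v ((L (g • x))⁻¹ * g * L x) n x := by
  have h := hD.smul g x (n • x) (sameN_of_mem (H_le_N hn) x)
  rw [h]
  congr 1
  have h2 := dF_conj (T3_char (chi := chi) hc hv (trans_mem g x)) (H_le_N hn) x
  rw [← h2]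
  rfl

theorem j17_d_self (hD : IsD chi v d) (p : Q) : d p p = 0 := by
  have h := hD.add p p p (sameN_refl p) (sameN_refl p)
  simpa using h

theorem j17_d_symm (hD : IsD chi v d) {p q : Q} (h : sameN p q) : d q p = - d p q := by
  have h1 := hD.add p q p h (sameN_symm h)
  rw [j17_d_self hD] at h1
  exact eq_neg_of_add_eq_zero_right h1

theorem Ad_L (hc : IsChi chi) (hv : v ∈ H Q) (hD : IsD chi v d) (x y z : Q) : Ad d x y z = d z (LL x y • z) := by
  have h := j17_smul hc hv hD (L (x * y)) (LL_mem x y) z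
  have e1 : L (x * y) • (LL x y • z) = x * (y * z) := mul_LL x y z
  have e2 : L (x * y) • z = (x * y) * z := rfl
  rw [e1, e2] at h
  have e3 : (L ((x * y) * z))⁻¹ * L (x * y) * L z = LL (x * y) z := by
    unfold LL; rw [mul_assoc]
  rw [e3] at h
  have e4 : T3 chi v (LL (x * y) z) (LL x y) z = 0 := j17_a5_z25 (T3_forms hc hv).1 (x * y) z x y
  rw [e4, add_zero] at h
  exact h

theorem Ad_M (hc : IsChi chi) (hv : v ∈ H Q) (hD : IsD chi v d) (x y z : Q) : Ad d x y z = d y (MM x z • y) := by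
  have h := j17_smul hc hv hD (R z * L x) (MM_mem x z) y
  have e1 : (R z * L x) • (MM x z • y) = x * (y * z) := by
    rw [mul_smul]; exact MM_mul x z y
  have e2 : (R z * L x) • y = (x * y) * z := by
    rw [mul_smul]; rfl
  rw [e1, e2] at h
  have e3 : (L ((x * y) * z))⁻¹ * (R z * L x) * L y
      = T ((x * y) * z) * RR (x * y) z * (T (x * y))⁻¹ * LL x y := by
    have r1 := RL_eq z (x * y)
    have r2 := LL_eq x y
    calc (L ((x * y) * z))⁻¹ * (R z * L x) * L y = (L ((x * y) * z))⁻¹ * (R z * (L x * L y)) := by group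
      _ = (L ((x * y) * z))⁻¹ * ((R z * L (x * y)) * LL x y) := by rw [r2]; group
      _ = T ((x * y) * z) * RR (x * y) z * (T (x * y))⁻¹ * LL x y := by rw [r1]; group
  have hh : T ((x * y) * z) * RR (x * y) z * (T (x * y))⁻¹ ∈ H Q :=
    (H Q).mul_mem ((H Q).mul_mem (T_mem _) (RR_mem _ _)) ((H Q).inv_mem (T_mem _))
  rw [e3, T3_MM hc hv ((H Q).mul_mem hh (LL_mem x y)), T3_mul2 hc hv hh (LL_mem x y) (LL_mem x y),
    T3_mul2 hc hv ((H Q).mul_mem (T_mem _) (RR_mem _ _)) ((H Q).inv_mem (T_mem _)) (LL_mem x y),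
    T3_mul2 hc hv (T_mem _) (RR_mem _ _) (LL_mem x y), j17_T3_inv2 hc hv (T_mem _) (LL_mem x y)] at h
  have c1 : T3 chi v (T ((x * y) * z)) (LL x y) z = 0 := j17_a4_full (T3_forms hc hv).2 x y z
  have c2 : T3 chi v (T (x * y)) (LL x y) z = 0 := j17_a4_xy (T3_forms hc hv).2 x y z
  have c3 : T3 chi v (RR (x * y) z) (LL x y) z = 0 := by
    rw [T3_symm23 hc hv (RR_mem _ _) (LL_mem _ _), T3_RR hc hv (LL_mem _ _)]
    have := j17_a5_z35 (T3_forms hc hv).1 x y z (x * y)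
    rw [this, neg_zero]
  have c4 : T3 chi v (LL x y) (LL x y) z = 0 := j17_a5_z13 (T3_forms hc hv).1 x y y z
  rw [c1, c2, c3, c4] at h
  simpa [Ad] using h

theorem Ad_R (hc : IsChi chi) (hv : v ∈ H Q) (hD : IsD chi v d) (x y z : Q) : Ad d x y z = - d x (RR y z • x) := by
  have h := j17_smul hc hv hD (R (y * z)) (RR_mem y z) x
  have e1 : R (y * z) • (RR y z • x) = (x * y) * z := RR_mul y z x
  have e2 : R (y * z) • x = x * (y * z) := rfl
  rw [e1, e2] at h
  have e3 : (L (x * (y * z)))⁻¹ * R (y * z) * L x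
      = T (x * (y * z)) * RR x (y * z) * (T x)⁻¹ := by
    have r1 := RL_eq (y * z) x
    calc (L (x * (y * z)))⁻¹ * R (y * z) * L x = (L (x * (y * z)))⁻¹ * (R (y * z) * L x) := by group
      _ = T (x * (y * z)) * RR x (y * z) * (T x)⁻¹ := by rw [r1]; group
  have hh : T (x * (y * z)) * RR x (y * z) * (T x)⁻¹ ∈ H Q :=
    (H Q).mul_mem ((H Q).mul_mem (T_mem _) (RR_mem _ _)) ((H Q).inv_mem (T_mem _))
  rw [e3, T3_RR hc hv hh,
    T3_mul2 hc hv ((H Q).mul_mem (T_mem _) (RR_mem _ _)) ((H Q).inv_mem (T_mem _)) (LL_mem x y),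
    T3_mul2 hc hv (T_mem _) (RR_mem _ _) (LL_mem x y), j17_T3_inv2 hc hv (T_mem _) (LL_mem x y)] at h
  have c1 : T3 chi v (T (x * (y * z))) (LL x y) z = 0 := j17_a4_full' (T3_forms hc hv).2 x y z
  have c2 : T3 chi v (T x) (LL x y) z = 0 := (T3_forms hc hv).2.z12 x y z
  have c3 : T3 chi v (RR x (y * z)) (LL x y) z = 0 := by
    rw [T3_symm23 hc hv (RR_mem _ _) (LL_mem _ _), T3_RR hc hv (LL_mem _ _)]
    have := j17_a5_z14 (T3_forms hc hv).1 x y z (y * z)
    rw [this, neg_zero]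
  rw [c1, c2, c3] at h
  have h' : d (x * (y * z)) ((x * y) * z) = d x (RR y z • x) := by simpa using h
  unfold Ad
  rw [j17_d_symm hD (sameN_symm (sameN_assoc x y z)), h']
-- J18
theorem j18_add3_2 {X : Q → Q → Q → W} (hX : Alt3 X) (a b c d : Q) : X a (b * c) d = X a b d + X a c d := by
  rw [hX.s12 (b * c) a d, hX.add1, hX.s12 a b d, hX.s12 a c d]
  abel

theorem j18_add3_3 {X : Q → Q → Q → W} (hX : Alt3 X) (a b c d : Q) : X a b (c * d) = X a b c + X a b d := by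
  rw [hX.s23 a (c * d) b, j18_add3_2 hX, hX.s23 a b c, hX.s23 a b d]
  abel

theorem j18_z23 {X : Q → Q → Q → Q → Q → W} (hX : Alt5 X) (a b d e : Q) : X a b b d e = 0 := by
  rw [hX.s12 b a b d e, hX.s23 b b a d e, hX.z12]
  simp

theorem j18_z24 {X : Q → Q → Q → Q → Q → W} (hX : Alt5 X) (a b c e : Q) : X a b c b e = 0 := by
  rw [hX.s34 a b b c e, j18_z23 hX]
  simp

theorem j18_z34 {X : Q → Q → Q → Q → Q → W} (hX : Alt5 X) (a b c e : Q) : X a b c c e = 0 := by
  rw [hX.s23 a c b c e, j18_z24 hX]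
  simp

theorem j18_z14 {X : Q → Q → Q → Q → Q → W} (hX : Alt5 X) (a b c e : Q) : X a b c a e = 0 := by
  rw [hX.s12 b a c a e, j18_z24 hX]
  simp

theorem j18_z25 {X : Q → Q → Q → Q → Q → W} (hX : Alt5 X) (a b c e : Q) : X a b c e b = 0 := by
  rw [hX.s45 a b c b e, j18_z24 hX]
  simp

theorem j18_add5_2 {X : Q → Q → Q → Q → Q → W} (hX : Alt5 X) (a b b' c d e : Q) :
    X a (b * b') c d e = X a b c d e + X a b' c d e := by
  rw [hX.s12 (b * b') a c d e, hX.add1, hX.s12 a b c d e, hX.s12 a b' c d e]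
  abel

theorem j18_add5_3 {X : Q → Q → Q → Q → Q → W} (hX : Alt5 X) (a b c c' d e : Q) :
    X a b (c * c') d e = X a b c d e + X a b c' d e := by
  rw [hX.s23 a (c * c') b d e, j18_add5_2 hX, hX.s23 a b c d e, hX.s23 a b c' d e]
  abel

theorem j18_add5_4 {X : Q → Q → Q → Q → Q → W} (hX : Alt5 X) (a b c d d' e : Q) :
    X a b c (d * d') e = X a b c d e + X a b c d' e := by
  rw [hX.s34 a b (d * d') c e, j18_add5_3 hX, hX.s34 a b c d e, hX.s34 a b c d' e]
  abel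

/-- the character of an element of `H` -/
def j18_F (chi : MG Q → W) (v h : MG Q) : MG Q → W := fun n => chi ⁅v, ⁅h, n⁆⁆

theorem j18_char (hc : IsChi chi) (hv : v ∈ H Q) {h : MG Q} (hh : h ∈ H Q) : IsChar (j18_F chi v h) :=
  T3_char hc hv hh

theorem j18_T3 (h p : MG Q) (x : Q) : j18_F chi v h (cj (L x) p) = T3 chi v h p x := rfl

theorem j18_cadd {F G : MG Q → W} (hF : IsChar F) (hG : IsChar G) : IsChar (fun n => F n + G n) := by
  refine ⟨fun n hn m hm => ?_, fun h hh => ?_⟩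
  · change F (n * m) + G (n * m) = (F n + G n) + (F m + G m)
    rw [hF.map_mul n hn m hm, hG.map_mul n hn m hm]
    abel
  · change F h + G h = 0
    rw [hF.map_H h hh, hG.map_H h hh, add_zero]

theorem j18_cneg {F : MG Q → W} (hF : IsChar F) : IsChar (fun n => - F n) := by
  refine ⟨fun n hn m hm => ?_, fun h hh => ?_⟩
  · change - F (n * m) = - F n + - F m
    rw [hF.map_mul n hn m hm]
    abel
  · change - F h = 0
    rw [hF.map_H h hh, neg_zero]

theorem j18_inv (hc : IsChi chi) (hv : v ∈ H Q) {h : MG Q} (hh : h ∈ H Q) {p : MG Q} (hp : p ∈ H Q) (x : Q) :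
    T3 chi v h⁻¹ p x = - T3 chi v h p x := by
  have h1 := T3_mul2 hc hv hh (inv_mem hh) hp x
  have h2 : T3 chi v (1 : MG Q) p x = 0 := by
    unfold T3
    rw [commutatorElement_one_left, commutatorElement_one_right]
    exact chi_one hc
  rw [mul_inv_cancel, h2] at h1
  exact (neg_eq_of_add_eq_zero_right h1.symm).symm

theorem j18_aF (hc : IsChi chi) (hv : v ∈ H Q) {h : MG Q} (hh : h ∈ H Q) (x y z : Q) :
    dF (j18_F chi v h) ((x * y) * z) (x * (y * z)) = T3 chi v h (LL x y) z :=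
  (aF_L (j18_char hc hv hh) x y z).symm

theorem j18_kF (hc : IsChi chi) (hv : v ∈ H Q) {h : MG Q} (hh : h ∈ H Q) (x u : Q) :
    dF (j18_F chi v h) (u * x) (x * u) = T3 chi v h (T u) x :=
  (kF_T (j18_char hc hv hh) x u).symm

/-- translation on the right by `z` -/
theorem j18_R (p z : Q) : (L (R z • p))⁻¹ * R z * L p = T (p * z) * RR p z * (T p)⁻¹ := by
  rw [R_smul, mul_assoc, RL_eq]
  group

theorem j18_RR (p y z : Q) : (L ((R z * R y) • p))⁻¹ * (R z * R y) * L p =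
    T ((p * y) * z) * RR (p * y) z * RR p y * (T p)⁻¹ := by
  rw [mul_smul, R_smul, R_smul]
  have h1 : R z * R y * L p = R z * L (p * y) * T (p * y) * RR p y * (T p)⁻¹ := by
    rw [mul_assoc, RL_eq]
    group
  rw [mul_assoc, h1, RL_eq]
  group

theorem Ad_pent (hc : IsChi chi) (hv : v ∈ H Q) (hD : IsD chi v d) (w x y z : Q) :
    Ad d (w * x) y z + Ad d w x (y * z)
      = Ad d w x y + T3 chi v (T z) (LL w x) y + Ad d w (x * y) z + Ad d x y z := by
  obtain ⟨hP, hX⟩ := T3_forms hc hv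
  have e1 : Ad d (w * x) y z + Ad d w x (y * z) =
      d (((w * x) * y) * z) (w * (x * (y * z))) :=
    hD.add _ _ _ (sameN_assoc (w * x) y z) (sameN_assoc w x (y * z))
  have sR : sameN (((w * x) * y) * z) ((w * (x * y)) * z) :=
    sameN_mul (sameN_assoc w x y) (sameN_refl z)
  have sM : sameN ((w * (x * y)) * z) (w * ((x * y) * z)) := sameN_assoc w (x * y) z
  have sL : sameN (w * ((x * y) * z)) (w * (x * (y * z))) :=
    sameN_mul (sameN_refl w) (sameN_assoc x y z)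
  have e2 : d (((w * x) * y) * z) ((w * (x * y)) * z) + (d ((w * (x * y)) * z) (w * ((x * y) * z)) +
      d (w * ((x * y) * z)) (w * (x * (y * z)))) = d (((w * x) * y) * z) (w * (x * (y * z))) := by
    rw [hD.add _ _ _ sM sL]
    exact hD.add _ _ _ sR (sameN_trans sM sL)
  have e3 : d (((w * x) * y) * z) ((w * (x * y)) * z) = Ad d w x y + T3 chi v (T z) (LL w x) y := by
    have h1 := hD.smul (R z) _ _ (sameN_assoc w x y)
    rw [j18_R] at h1
    have hm : T (((w * x) * y) * z) * RR ((w * x) * y) z * (T ((w * x) * y))⁻¹ ∈ H Q :=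
      mul_mem (mul_mem (T_mem _) (RR_mem _ _)) (inv_mem (T_mem _))
    have h2 := j18_aF hc hv hm w x y
    unfold j18_F at h2
    rw [h2] at h1
    have h3 : T3 chi v (T (((w * x) * y) * z) * RR ((w * x) * y) z * (T ((w * x) * y))⁻¹) (LL w x) y =
        T3 chi v (T z) (LL w x) y := by
      rw [T3_mul2 hc hv (mul_mem (T_mem _) (RR_mem _ _)) (inv_mem (T_mem _)) (LL_mem _ _),
        T3_mul2 hc hv (T_mem _) (RR_mem _ _) (LL_mem _ _), j18_inv hc hv (T_mem _) (LL_mem _ _)]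
      have h4 := hX.add1 ((w * x) * y) z w x y
      rw [h4, T3_symm23 hc hv (RR_mem _ _) (LL_mem _ _), T3_RR hc hv (LL_mem _ _)]
      have h5 : T3 chi v (LL w x) (LL y ((w * x) * y)) z = 0 := by
        have a1 := j18_add5_4 hP w x y (w * x) y z
        have a2 := j18_add5_4 hP w x y w x z
        have a3 := j18_z14 hP w x y z
        have a4 := j18_z24 hP w x y z
        have a5 := j18_z34 hP w x y z
        rw [a1, a2, a3, a4, a5]
        simp
      rw [h5]
      abel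
    rw [h3] at h1
    exact h1
  have e4 : d (w * ((x * y) * z)) (w * (x * (y * z))) = Ad d x y z := by
    have h1 := hD.smul (L w) _ _ (sameN_assoc x y z)
    have h2 : (L (L w • ((x * y) * z)))⁻¹ * L w * L ((x * y) * z) = LL w ((x * y) * z) := by
      rw [L_smul, LL, mul_assoc]
    rw [h2] at h1
    have h3 := j18_aF hc hv (LL_mem w ((x * y) * z)) x y z
    unfold j18_F at h3
    rw [h3] at h1
    have h5 : T3 chi v (LL w ((x * y) * z)) (LL x y) z = 0 := by
      have a1 := j18_add5_2 hP w (x * y) z x y z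
      have a2 := j18_add5_2 hP w x y x y z
      have a3 := j18_z23 hP w x y z
      have a4 := j18_z24 hP w y x z
      have a5 := j18_z25 hP w z x y
      rw [a1, a2, a3, a4, a5]
      simp
    rw [h5, add_zero] at h1
    exact h1
  rw [e1, ← e2, e3, e4]
  unfold Ad
  abel

theorem Ad_shift (hc : IsChi chi) (hv : v ∈ H Q) (hD : IsD chi v d) {p q : Q} (h : sameN p q) (y z : Q) :
    Ad d q y z - Ad d p y z = - dF (fun n => chi ⁅v, ⁅RR y z, n⁆⁆) p q := by
  have e1 := hD.smul (R z * R y) p q h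
  rw [j18_RR] at e1
  have e2 := hD.smul (R (y * z)) p q h
  rw [j18_R] at e2
  have e3 : d ((p * y) * z) (p * (y * z)) + d (p * (y * z)) (q * (y * z)) =
      d ((p * y) * z) (q * (y * z)) := hD.add _ _ _ (sameN_assoc p y z) (sameN_mul h (sameN_refl _))
  have e4 : d ((p * y) * z) ((q * y) * z) + d ((q * y) * z) (q * (y * z)) =
      d ((p * y) * z) (q * (y * z)) :=
    hD.add _ _ _ (sameN_mul (sameN_mul h (sameN_refl _)) (sameN_refl _)) (sameN_assoc q y z)
  have m1 : T ((p * y) * z) * RR (p * y) z * RR p y * (T p)⁻¹ ∈ H Q :=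
    mul_mem (mul_mem (mul_mem (T_mem _) (RR_mem _ _)) (RR_mem _ _)) (inv_mem (T_mem _))
  have m2 : T (p * (y * z)) * RR p (y * z) * (T p)⁻¹ ∈ H Q :=
    mul_mem (mul_mem (T_mem _) (RR_mem _ _)) (inv_mem (T_mem _))
  have key : j18_F chi v (T (p * (y * z)) * RR p (y * z) * (T p)⁻¹) (L (ld p q)) +
      - j18_F chi v (T ((p * y) * z) * RR (p * y) z * RR p y * (T p)⁻¹) (L (ld p q)) =
      - j18_F chi v (RR y z) (L (ld p q)) := by
    refine char_ext (F := fun n => j18_F chi v (T (p * (y * z)) * RR p (y * z) * (T p)⁻¹) n +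
      - j18_F chi v (T ((p * y) * z) * RR (p * y) z * RR p y * (T p)⁻¹) n)
      (G := fun n => - j18_F chi v (RR y z) n)
      (j18_cadd (j18_char hc hv m2) (j18_cneg (j18_char hc hv m1)))
      (j18_cneg (j18_char hc hv (RR_mem _ _))) ?_ (sameN_iff.1 h)
    intro φ hφ t
    simp only [j18_T3]
    have hA := T3_alt hc hv hφ
    rw [T3_mul2 hc hv (mul_mem (T_mem _) (RR_mem _ _)) (inv_mem (T_mem _)) hφ,
      T3_mul2 hc hv (T_mem _) (RR_mem _ _) hφ,
      T3_mul2 hc hv (mul_mem (mul_mem (T_mem _) (RR_mem _ _)) (RR_mem _ _)) (inv_mem (T_mem _)) hφ,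
      T3_mul2 hc hv (mul_mem (T_mem _) (RR_mem _ _)) (RR_mem _ _) hφ,
      T3_mul2 hc hv (T_mem _) (RR_mem _ _) hφ, j18_inv hc hv (T_mem _) hφ]
    have tt : T3 chi v (T ((p * y) * z)) φ t = T3 chi v (T (p * (y * z))) φ t := by
      rw [T3_symm23 hc hv (T_mem _) hφ, T3_symm23 hc hv (T_mem _) hφ,
        T3_T hc hv hφ ((p * y) * z) t, T3_T hc hv hφ (p * (y * z)) t,
        T3_orbit hc hv hφ (T_mem _) (sameN_assoc p y z)]
    have rr : ∀ a b : Q, T3 chi v (RR a b) φ t = - T3 chi v φ (LL t a) b := by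
      intro a b
      rw [T3_symm23 hc hv (RR_mem _ _) hφ, T3_RR hc hv hφ]
    have a1 := j18_add3_3 hA t p y z
    have a2 := j18_add3_2 hA t p y z
    rw [tt, rr, rr, rr, rr, a1, a2]
    abel
  have k2 : dF (fun n => chi ⁅v, ⁅T (p * (y * z)) * RR p (y * z) * (T p)⁻¹, n⁆⁆) p q +
      - dF (fun n => chi ⁅v, ⁅T ((p * y) * z) * RR (p * y) z * RR p y * (T p)⁻¹, n⁆⁆) p q =
      - dF (fun n => chi ⁅v, ⁅RR y z, n⁆⁆) p q := key
  rw [← k2]
  have f1 : d ((p * y) * z) ((q * y) * z) = d p q +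
      dF (fun n => chi ⁅v, ⁅T ((p * y) * z) * RR (p * y) z * RR p y * (T p)⁻¹, n⁆⁆) p q := e1
  have f2 : d (p * (y * z)) (q * (y * z)) = d p q +
      dF (fun n => chi ⁅v, ⁅T (p * (y * z)) * RR p (y * z) * (T p)⁻¹, n⁆⁆) p q := e2
  have f3 := e3.trans e4.symm
  rw [f1, f2] at f3
  unfold Ad
  have f4 : d ((q * y) * z) (q * (y * z)) = d ((p * y) * z) (p * (y * z)) + (d p q +
      dF (fun n => chi ⁅v, ⁅T (p * (y * z)) * RR p (y * z) * (T p)⁻¹, n⁆⁆) p q) - (d p q +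
      dF (fun n => chi ⁅v, ⁅T ((p * y) * z) * RR (p * y) z * RR p y * (T p)⁻¹, n⁆⁆) p q) := by
    rw [f3]
    abel
  rw [f4]
  abel

theorem Ad_comm (hc : IsChi chi) (hv : v ∈ H Q) (hD : IsD chi v d) (w x y z : Q) :
    Ad d (w * x) y z - Ad d (x * w) y z = T3 chi v (T x) (LL w y) z := by
  rw [Ad_shift hc hv hD (sameN_comm x w) y z]
  have h1 := j18_kF hc hv (RR_mem y z) w x
  unfold j18_F at h1
  rw [h1, T3_symm23 hc hv (RR_mem _ _) (T_mem _), T3_RR hc hv (T_mem _)]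
  abel

theorem Ad_assoc (hc : IsChi chi) (hv : v ∈ H Q) (hD : IsD chi v d) (x x' x'' y z : Q) :
    Ad d (x * (x' * x'')) y z - Ad d ((x * x') * x'') y z = T3 chi v (LL x x') (LL x'' y) z := by
  rw [Ad_shift hc hv hD (sameN_assoc x x' x'') y z]
  have h1 := j18_aF hc hv (RR_mem y z) x x' x''
  unfold j18_F at h1
  rw [h1, T3_symm23 hc hv (RR_mem _ _) (LL_mem _ _), T3_RR hc hv (LL_mem _ _)]
  abel

-- J19
theorem j19_theta (hc : IsChi chi) (hv : v ∈ H Q) (hD : IsD chi v d) {θ : MG Q} (hθ : θ ∈ H Q) (h2 : θ ∈ K Q 2) (x : Q) :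
    d x (θ • x) = chi ⁅θ, cj (L x) v⁆ := by
  rw [Q1 hc hθ h2 hv x]
  exact hD.two x (θ • x) (sameN_of_mem (H_le_N hθ) x) (mem_K.1 h2 x)

theorem j19_fac (t : MG Q) (x : Q) : (L (t • x))⁻¹ * t * L x = LL x (dis t x) * sh t x := by
  have h : x * dis t x = t • x := mul_dis t x
  unfold LL sh cj
  rw [h]
  group

theorem D_mul (hc : IsChi chi) (hv : v ∈ H Q) (hD : IsD chi v d) {t p : MG Q} (ht : t ∈ H Q) (hp : p ∈ H Q) (x : Q) :
    d x ((t * p) • x) = d x (t • x) + d x (p • x) + (T3 chi v p t (x * x) - T3 chi v p t x) := by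
  have hs1 : sameN x (t • x) := sameN_of_mem (H_le_N ht) x
  have hs2 : sameN x (p • x) := sameN_of_mem (H_le_N hp) x
  have hs3 : sameN (t • x) (t • (p • x)) := sameN_smul t hs2
  have h1 : d x (t • (p • x)) = d x (t • x) + d (t • x) (t • (p • x)) := (hD.add _ _ _ hs1 hs3).symm
  have h2 := hD.smul t x (p • x) hs2
  have hh : (L (t • x))⁻¹ * t * L x ∈ H Q := trans_mem t x
  have h3 := dF_conj (T3_char hc hv hh) (H_le_N hp) x
  have hcN : L (dis t x) ∈ N Q := L_dis_mem (H_le_N ht) x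
  have hc3 : dis t x ∈ Zs Q 3 := Zs3_of_N hcN
  have hK : LL x (dis t x) ∈ K Q 2 := LL_mem_K_right hc3 x
  have h4 : T3 chi v ((L (t • x))⁻¹ * t * L x) p x = T3 chi v p t (x * x) - T3 chi v p t x := by
    rw [j19_fac t x, T3_mul2 hc hv (LL_mem x (dis t x)) (sh_mem ht x) hp x,
      T3_symm23 hc hv (LL_mem x (dis t x)) hp x, T3_K2 hc hv hp (LL_mem x (dis t x)) hK x,
      T3_symm23 hc hv (sh_mem ht x) hp x, T3_sh hc hv hp ht x x, zero_add]
  rw [mul_smul, h1, h2, ← h3]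
  have h5 : chi ⁅v, ⁅(L (t • x))⁻¹ * t * L x, cj (L x) p⁆⁆
      = T3 chi v p t (x * x) - T3 chi v p t x := h4
  rw [h5]
  abel

theorem j19_self (hD : IsD chi v d) (x : Q) : d x x = 0 := by
  have h := hD.add x x x (sameN_refl x) (sameN_refl x)
  have h2 : d x x + d x x = d x x + 0 := by rw [h, add_zero]
  exact add_left_cancel h2

theorem j19_T3_one (hc : IsChi chi) (hv : v ∈ H Q) {p : MG Q} (hp : p ∈ H Q) (x : Q) : T3 chi v p 1 x = 0 :=
  T3_K2 hc hv hp (one_mem _) (one_mem _) x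

theorem j19_T3_inv (hc : IsChi chi) (hv : v ∈ H Q) {p q : MG Q} (hp : p ∈ H Q) (hq : q ∈ H Q) (x : Q) :
    T3 chi v p q⁻¹ x = - T3 chi v p q x := by
  have h := T3_mul3 hc hv hp (inv_mem hq) hq x
  rw [inv_mul_cancel, j19_T3_one hc hv hp x] at h
  exact eq_neg_of_add_eq_zero_left h.symm

theorem j19_inv (hc : IsChi chi) (hv : v ∈ H Q) (hD : IsD chi v d) {p : MG Q} (hp : p ∈ H Q) (x : Q)
    (h0 : ∀ w : Q, T3 chi v p p w = 0) : d x (p⁻¹ • x) = - d x (p • x) := by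
  have h := D_mul hc hv hD (inv_mem hp) hp x
  rw [inv_mul_cancel, one_smul, j19_self hD x, j19_T3_inv hc hv hp hp, j19_T3_inv hc hv hp hp, h0, h0, neg_zero,
    sub_zero, add_zero] at h
  exact eq_neg_of_add_eq_zero_left h.symm

theorem j19_add (hc : IsChi chi) (hv : v ∈ H Q) (hD : IsD chi v d) {t p : MG Q} (ht : t ∈ H Q) (hp : p ∈ H Q) (x : Q)
    (h0 : ∀ w : Q, T3 chi v p t w = 0) : d x ((t * p) • x) = d x (t • x) + d x (p • x) := by
  rw [D_mul hc hv hD ht hp x, h0, h0, sub_zero, add_zero]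

theorem j19_rep13 (hc : IsChi chi) (hv : v ∈ H Q) {p : MG Q} (hp : p ∈ H Q) (a b : Q) :
    T3 chi v p (LL a b) a = 0 := by
  have h := T3_alt hc hv hp
  have h1 : T3 chi v p (LL a b) a = - T3 chi v p (LL a a) b := h.s23 a a b
  have h2 : T3 chi v p (LL a a) b = 0 := h.z12 a b
  rw [h1, h2, neg_zero]

theorem S12_L (hc : IsChi chi) (hv : v ∈ H Q) (hD : IsD chi v d) (x y z : Q) :
    Ad d x y z + Ad d y x z = chi ⁅LL x y * LL y x, cj (L z) v⁆ := by
  rw [Ad_L hc hv hD x y z, Ad_L hc hv hD y x z,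
    ← j19_theta hc hv hD (mul_mem (LL_mem x y) (LL_mem y x)) (mem_LL x y) z]
  refine (j19_add hc hv hD (LL_mem x y) (LL_mem y x) z ?_).symm
  intro w
  have h := (T3_forms hc hv (w := v)).1
  have h1 : T3 chi v (LL y x) (LL x y) w = - T3 chi v (LL x y) (LL x y) w := h.s12 x y x y w
  have h2 : T3 chi v (LL x y) (LL x y) w = - T3 chi v (LL x x) (LL y y) w := h.s23 x x y y w
  have h3 : T3 chi v (LL x x) (LL y y) w = 0 := h.z12 x y y w
  rw [h1, h2, h3, neg_zero, neg_zero]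

theorem S12_M (hc : IsChi chi) (hv : v ∈ H Q) (hD : IsD chi v d) (x y z : Q) :
    Ad d x y z + Ad d y x z = chi ⁅MM x z * (RR x z)⁻¹, cj (L y) v⁆ := by
  have hRRz : ∀ (q : MG Q), q ∈ H Q → T3 chi v q (RR x z) z = 0 := by
    intro q hq
    rw [T3_RR hc hv hq z x z, j19_rep13 hc hv hq z x, neg_zero]
  have h0 : ∀ w : Q, T3 chi v (RR x z) (RR x z) w = 0 := by
    intro w
    rw [T3_RR hc hv (RR_mem x z) w x z, T3_symm23 hc hv (RR_mem x z) (LL_mem w x) z, hRRz _ (LL_mem w x), neg_zero]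
  have h1 := j19_inv hc hv hD (RR_mem x z) y h0
  have h2 : ∀ w : Q, T3 chi v (RR x z)⁻¹ (MM x z) w = 0 := by
    intro w
    rw [T3_symm23 hc hv (inv_mem (RR_mem x z)) (MM_mem x z) w, j19_T3_inv hc hv (MM_mem x z) (RR_mem x z) w,
      T3_symm23 hc hv (MM_mem x z) (RR_mem x z) w, T3_MM hc hv (RR_mem x z) x w z,
      T3_symm23 hc hv (RR_mem x z) (LL_mem x w) z, hRRz _ (LL_mem x w), neg_zero]
  have h3 := j19_add hc hv hD (MM_mem x z) (inv_mem (RR_mem x z)) y h2
  rw [Ad_M hc hv hD x y z, Ad_R hc hv hD y x z,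
    ← j19_theta hc hv hD (mul_mem (MM_mem x z) (inv_mem (RR_mem x z))) (mem_MR x z) y, h3, h1]

theorem S23_M (hc : IsChi chi) (hv : v ∈ H Q) (hD : IsD chi v d) (x y z : Q) :
    Ad d x y z + Ad d x z y = chi ⁅MM x z * LL x z, cj (L y) v⁆ := by
  have h0 : ∀ w : Q, T3 chi v (LL x z) (MM x z) w = 0 := by
    intro w
    rw [T3_MM hc hv (LL_mem x z) x w z]
    have h := (T3_forms hc hv (w := v)).1
    have h1 : T3 chi v (LL x z) (LL x w) z = - T3 chi v (LL x x) (LL z w) z := h.s23 x x z w z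
    have h2 : T3 chi v (LL x x) (LL z w) z = 0 := h.z12 x z w z
    rw [h1, h2, neg_zero]
  rw [Ad_M hc hv hD x y z, Ad_L hc hv hD x z y,
    ← j19_theta hc hv hD (mul_mem (MM_mem x z) (LL_mem x z)) (mem_ML x z) y,
    j19_add hc hv hD (MM_mem x z) (LL_mem x z) y h0]

theorem S23_R (hc : IsChi chi) (hv : v ∈ H Q) (hD : IsD chi v d) (x y z : Q) :
    Ad d x y z + Ad d x z y = - chi ⁅RR y z * RR z y, cj (L x) v⁆ := by
  have h0 : ∀ w : Q, T3 chi v (RR z y) (RR y z) w = 0 := by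
    intro w
    have h1 : T3 chi v (LL w y) (LL z z) y = 0 := (T3_alt hc hv (LL_mem w y)).z12 z y
    rw [T3_RR hc hv (RR_mem z y) w y z, T3_symm23 hc hv (RR_mem z y) (LL_mem w y) z,
      T3_RR hc hv (LL_mem w y) z z y, h1, neg_zero, neg_zero]
  rw [Ad_R hc hv hD x y z, Ad_R hc hv hD x z y,
    ← j19_theta hc hv hD (mul_mem (RR_mem y z) (RR_mem z y)) (mem_RR y z) x,
    j19_add hc hv hD (RR_mem y z) (RR_mem z y) x h0, neg_add]
end J

end Pool.Agent.AIM3
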