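import Pool.Agent.AIM3.PJ

set_option autoImplicit false
set_option linter.unusedVariables false
set_option linter.unusedSectionVars false

namespace Pool.Agent.AIM3

open scoped commutatorElement

/-! ## K. Section 7 and 8 of the paper -/
section K7
variable {Q : Type} [Mul Q] {W : Type} [AddCommGroup W]

-- J20
/-- a function of four variables which is symmetric in the second and third variable and changes its sign
when the first variable is interchanged with the third or the fourth one -/
theorem j20_sym (U : Q → Q → Q → Q → W) (s1 : ∀ v x y z, U v x y z = U v y x z)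
    (s2 : ∀ v x y z, U v x y z = - U z x y v) (s3 : ∀ v x y z, U v x y z = - U y x v z) :
    (∀ v x y z, U v x y z + U v x y z = 0) ∧ (∀ v x y z, U v x z y = U v x y z) := by
  have a1 : ∀ v x y z, U v x z y = - U v x y z := by
    intro v x y z
    rw [s2 v x z y, s3 y x z v, s2 z x y v, neg_neg]
  have a2 : ∀ v x y z, U v x y z = - U v x y z := by
    intro v x y z
    have e1 : U v z y x = - U v x y z := by rw [s1 v z y x, a1 v y x z, s1 v y x z]
    have e2 : U v z y x = U v x y z := by rw [a1 v z x y, s1 v z x y, a1 v x y z, neg_neg]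
    rw [← e2]; rw [e2]; rw [← e1, e2]
  refine ⟨fun v x y z => ?_, fun v x y z => ?_⟩
  · nth_rewrite 1 [a2 v x y z]
    exact neg_add_cancel _
  · rw [a1 v x y z, ← a2 v x y z]

/-- pure algebra of section 7 -/
theorem SEC7 (A : Q → Q → Q → Q → W) (Y : Q → Q → Q → Q → Q → W)
    (h12z : ∀ v x y z, A v x y z + A v y x z = - (A z x y v + A z y x v))
    (h12y : ∀ v x y z, A v x y z + A v y x z = - (A y x v z + A y v x z))
    (h23y : ∀ v x y z, A v x y z + A v x z y = - (A y x v z + A y x z v))
    (h23x : ∀ v x y z, A v x y z + A v x z y = - (A x v y z + A x v z y))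
    (hpent : ∀ v w x y z, A v (w * x) y z + A v w x (y * z) = A v w x y + Y v z w x y + A v w (x * y) z + A v x y z)
    (hcomm : ∀ v w x y z, A v (w * x) y z - A v (x * w) y z = Y v x w y z)
    (hYs : ∀ v t x y z, Y v t x y z = Y t v x y z)
    (hY : ∀ v, Alt4 (Y v)) :
    (∀ v t x y z, Y v t x y z = 0) ∧ (∀ v w x y z, A v (w * x) y z = A v w y z + A v x y z) ∧
    (∀ v x y z, A v x y z = A v y z x) := by
  -- the symmetrisation in the first two variables
  obtain ⟨u0, u1⟩ := j20_sym (fun v x y z => A v x y z + A v y x z)
    (fun v x y z => add_comm _ _) h12z h12y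
  have us : ∀ v x y z : Q, A v x y z + A v y x z = A v y x z + A v x y z := fun v x y z => add_comm _ _
  -- the symmetrisation in the last two variables
  obtain ⟨w0, w1⟩ := j20_sym (fun v a b c => A v c a b + A v c b a)
    (fun v x y z => add_comm _ _)
    (fun v a b c => h23x v c a b)
    (fun v a b c => by
      have h := h23y v c b a
      show A v c a b + A v c b a = - (A b c a v + A b c v a)
      rw [add_comm (A v c a b), h, add_comm (A b c v a)])
  -- `A v y z x = A v x y z + D`
  have hcyc : ∀ v x y z, A v x y z = A v y z x := by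
    intro v x y z
    -- D v x y z
    have d1 : ∀ v x y z, A v y z x = A v x y z + ((A v x y z + A v x z y) - (A v x y z + A v y x z)) := by
      intro v x y z
      have e := w1 v z x y
      -- w1 : A v (y') ...
      have e2 : A v x z y + A v x y z = A v y z x + A v y x z := e
      grind
    have dsym : ∀ v x y z, ((A v y z x + A v y x z) - (A v y z x + A v z y x))
        = ((A v x y z + A v x z y) - (A v x y z + A v y x z)) := by
      intro v x y z
      have e := w1 v z x y
      have e2 : A v x z y + A v x y z = A v y z x + A v y x z := e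
      have f1 := u1 v x y z
      have f2 : A v x z y + A v z x y = A v x y z + A v y x z := f1
      have f3 := u1 v z x y
      have f4 : A v z y x + A v y z x = A v z x y + A v x z y := f3
      grind
    have t1 := d1 v x y z
    have t2 := d1 v y z x
    have t3 := d1 v z x y
    have k1 := dsym v x y z
    have k2 := dsym v y z x
    have hD : ((A v x y z + A v x z y) - (A v x y z + A v y x z))
        + ((A v x y z + A v x z y) - (A v x y z + A v y x z)) = 0 := by
      have p0 := u0 v x y z
      have q0 : A v x y z + A v x z y + (A v x y z + A v x z y) = 0 := w0 v y z x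
      rw [sub_add_sub_comm, p0, q0, sub_zero]
    rw [k2, k1] at t3
    rw [k1] at t2
    generalize ((A v x y z + A v x z y) - (A v x y z + A v y x z)) = D at t1 t2 t3 hD
    clear u0 u1 us w0 w1 d1 dsym k1 k2
    rw [t2, t1, add_assoc, add_assoc, hD, add_zero] at t3
    rw [t1]
    exact t3
  -- `2 Y = 0`
  have y1 : ∀ v t x y z, Y v t x y z = - Y v t x y z := by
    intro v t x y z
    have e1 : Y x t v y z = - Y v t x y z := by rw [hYs x t v y z, (hY t).s12 v x y z, hYs t v x y z]
    have e2 : Y x t v y z = Y v t x y z := by
      rw [(hY x).s12 v t y z, hYs x v t y z, (hY v).s12 t x y z, neg_neg]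
    rw [← e2]; rw [e2]; rw [← e1, e2]
  have g12 : ∀ v a b c d, Y v b a c d = Y v a b c d := fun v a b c d => by
    rw [(hY v).s12 a b c d, ← y1]
  have g23 : ∀ v a b c d, Y v a c b d = Y v a b c d := fun v a b c d => by
    rw [(hY v).s23 a b c d, ← y1]
  have g34 : ∀ v a b c d, Y v a b d c = Y v a b c d := fun v a b c d => by
    rw [(hY v).s34 a b c d, ← y1]
  have y0 : ∀ v t x y z, Y v t x y z + Y v t x y z = 0 := by
    intro v t x y z
    nth_rewrite 1 [y1 v t x y z]
    exact neg_add_cancel _
  have main : ∀ v, (∀ a b c d, Y v d a b c = 0) ∧ ∀ w x y z, A v (w * x) y z = A v w y z + A v x y z := by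
    intro v
    refine CY (A v) (fun w x y z => Y v z w x y) (hcyc v) ?_ ?_ ?_ ?_ ?_ ?_
    · intro a b c d
      exact g23 v d a b c
    · intro a b c d
      exact g34 v d a b c
    · intro a b c d
      show Y v c a b d = Y v d a b c
      rw [g12 v a c b d, g23 v a b c d, g34 v a b d c, g23 v a d b c, g12 v d a b c]
    · intro a b c d
      exact y0 v d a b c
    · intro w x y z
      have h1 := hpent v w x y z
      have h2 := y0 v z w x y
      show A v x y z - A v (w * x) y z + A v w (x * y) z - A v w x (y * z) + A v w x y = Y v z w x y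
      grind
    · intro w x y z
      show A v (w * x) y z - A v (x * w) y z = Y v z w x y
      rw [hcomm v w x y z]
      rw [g12 v w x y z, g34 v w x z y, g23 v w z x y, g12 v z w x y]
  refine ⟨fun v t x y z => (main v).1 x y z t, fun v => (main v).2, hcyc⟩
end K7

end Pool.Agent.AIM3
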