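import Pool.Agent.AIM3.PK1

set_option autoImplicit false
set_option linter.unusedVariables false
set_option linter.unusedSectionVars false

namespace Pool.Agent.AIM3

open scoped commutatorElement

section K8
variable {Q : Type} [Lp Q] [AbInn Q] [Cl4 Q]

-- J21
theorem j21_T_mem (x y : Q) : LL x y * LL y x ∈ H Q := (H Q).mul_mem (LL_mem x y) (LL_mem y x)

theorem j21_swap {chi : MG Q → AddCircle (1 : ℚ)} (hc : IsChi chi) {θ : MG Q} (h1 : θ ∈ H Q) (h2 : θ ∈ K Q 2) (z v : Q) :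
    chi ⁅θ, cj (L z) (T v)⁆ = - chi ⁅θ, cj (L v) (T z)⁆ := by
  have hF : IsChar (fun n => chi ⁅θ, n⁆) := F_char hc h1 h2
  have e1 := kF_T hF z v
  have e2 := kF_T hF v z
  have e3 := kF_anti hF z v
  calc chi ⁅θ, cj (L z) (T v)⁆ = kF (fun n => chi ⁅θ, n⁆) z v := e1
    _ = - kF (fun n => chi ⁅θ, n⁆) v z := e3
    _ = - chi ⁅θ, cj (L v) (T z)⁆ := by rw [← e2]

theorem j21_main {chi : MG Q → AddCircle (1 : ℚ)} (hc : IsChi chi) (D : Q → Q → Q → AddCircle (1 : ℚ))
    (hD : ∀ v, IsD chi (T v) (D v)) :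
    (∀ v t x y z : Q, T3 chi (T v) (T t) (LL x y) z = 0) ∧
    (∀ v w x y z, Ad (D v) (w * x) y z = Ad (D v) w y z + Ad (D v) x y z) ∧
    (∀ v x y z, Ad (D v) x y z = Ad (D v) y z x) := by
  refine SEC7 (fun v x y z => Ad (D v) x y z) (fun v t x y z => T3 chi (T v) (T t) (LL x y) z)
    ?_ ?_ ?_ ?_ ?_ ?_ ?_ ?_
  · intro v x y z
    show Ad (D v) x y z + Ad (D v) y x z = - (Ad (D z) x y v + Ad (D z) y x v)
    rw [S12_L hc (T_mem v) (hD v) x y z, S12_L hc (T_mem z) (hD z) x y v]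
    exact j21_swap hc (j21_T_mem x y) (mem_LL x y) z v
  · intro v x y z
    show Ad (D v) x y z + Ad (D v) y x z = - (Ad (D y) x v z + Ad (D y) v x z)
    rw [S12_M hc (T_mem v) (hD v) x y z, S12_M hc (T_mem y) (hD y) x v z]
    exact j21_swap hc ((H Q).mul_mem (MM_mem x z) ((H Q).inv_mem (RR_mem x z))) (mem_MR x z) y v
  · intro v x y z
    show Ad (D v) x y z + Ad (D v) x z y = - (Ad (D y) x v z + Ad (D y) x z v)
    rw [S23_M hc (T_mem v) (hD v) x y z, S23_M hc (T_mem y) (hD y) x v z]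
    exact j21_swap hc ((H Q).mul_mem (MM_mem x z) (LL_mem x z)) (mem_ML x z) y v
  · intro v x y z
    show Ad (D v) x y z + Ad (D v) x z y = - (Ad (D x) v y z + Ad (D x) v z y)
    rw [S23_R hc (T_mem v) (hD v) x y z, S23_R hc (T_mem x) (hD x) v y z,
      j21_swap hc ((H Q).mul_mem (RR_mem y z) (RR_mem z y)) (mem_RR y z) x v]
  · intro v w x y z
    exact Ad_pent hc (T_mem v) (hD v) w x y z
  · intro v w x y z
    exact Ad_comm hc (T_mem v) (hD v) w x y z
  · intro v t x y z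
    exact T3_symm12 hc (T_mem v) (T_mem t) (LL_mem x y) z
  · intro v
    exact (T3_forms hc (T_mem v)).2

/-- section 7 -/
theorem partI_T {chi : MG Q → AddCircle (1 : ℚ)} (hc : IsChi chi) :
    (∀ v t x y z : Q, T3 chi (T v) (T t) (LL x y) z = 0) ∧
    (∀ v u w x y z : Q, T3 chi (T v) (LL u w) (LL x y) z = 0) ∧
    (∀ (v : Q) (d : Q → Q → AddCircle (1 : ℚ)), IsD chi (T v) d →
      (∀ w x y z, Ad d (w * x) y z = Ad d w y z + Ad d x y z) ∧ ∀ x y z, Ad d x y z = Ad d y z x) := by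
  classical
  have hex : ∀ v : Q, ∃ d, IsD chi (T v) d := fun v => exists_D hc (T_mem v)
  choose D hD using hex
  obtain ⟨m1, m2, m3⟩ := j21_main hc D hD
  refine ⟨m1, ?_, ?_⟩
  · intro v u w x y z
    have h := Ad_assoc hc (T_mem v) (hD v) u w x y z
    rw [← h, m2 v u (w * x) y z, m2 v w x y z, m2 v (u * w) x y z, m2 v u w y z]
    abel
  · intro v d hd
    have hD' : ∀ w, IsD chi (T w) (Function.update D v d w) := by
      intro w
      by_cases hw : w = v
      · subst hw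
        rw [Function.update_self]
        exact hd
      · rw [Function.update_of_ne hw]
        exact hD w
    obtain ⟨_, n2, n3⟩ := j21_main hc (Function.update D v d) hD'
    have e : Function.update D v d v = d := Function.update_self v d D
    refine ⟨fun w x y z => ?_, fun x y z => ?_⟩
    · have := n2 v w x y z
      rw [e] at this
      exact this
    · have := n3 v x y z
      rw [e] at this
      exact this

-- J22
section j22
variable {chi : MG Q → AddCircle (1 : ℚ)}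

theorem j22_A (hc : IsChi chi) {v : MG Q} (hv : v ∈ H Q) (x y z : Q) :
    chi ⁅LL x y * LL y x, cj (L z) v⁆ = chi ⁅MM x z * (RR x z)⁻¹, cj (L y) v⁆ := by
  obtain ⟨d, hd⟩ := exists_D hc hv
  rw [← S12_L hc hv hd x y z, S12_M hc hv hd x y z]

theorem j22_B (hc : IsChi chi) {v : MG Q} (hv : v ∈ H Q) (x y z : Q) :
    chi ⁅MM x z * LL x z, cj (L y) v⁆ = - chi ⁅RR y z * RR z y, cj (L x) v⁆ := by
  obtain ⟨d, hd⟩ := exists_D hc hv
  rw [← S23_M hc hv hd x y z, S23_R hc hv hd x y z]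

theorem j22_B' (hc : IsChi chi) {v : MG Q} (hv : v ∈ H Q) (x y z : Q) :
    chi ⁅MM x z * LL x z, cj (L y) v⁆ = chi ⁅MM x y * LL x y, cj (L z) v⁆ := by
  obtain ⟨d, hd⟩ := exists_D hc hv
  rw [← S23_M hc hv hd x y z, ← S23_M hc hv hd x z y, add_comm]

/-- pure permutation lemma -/
theorem j22_perm1 {P W : Type} (S : P → P → P → P → P → W)
    (h1 : ∀ a b c d e, S a b c d e = S a b d c e)
    (h2 : ∀ a b c d e, S a b c d e = S a d c e b)
    (h3 : ∀ a b c d e, S a b c d e = S d b c e a) (a b c d e : P) :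
    S a b c d e = S b a c d e := by
  rw [h1, h2, h1, h2, h3, h1, h2, h2]

/-- pure permutation lemma -/
theorem j22_perm2 {P W : Type} (S : P → P → P → P → P → W)
    (h1 : ∀ a b c d e, S a b c d e = S a b c e d)
    (h2 : ∀ a b c d e, S a b c d e = S a c d b e)
    (h3 : ∀ a b c d e, S a b c d e = S c b d a e) (a b c d e : P) :
    S a b c d e = S b a c d e := by
  rw [h1, h2, h1, h3, h3, h1, h2, h3]

theorem j22_H1 (x y : Q) : LL x y * LL y x ∈ H Q := (H Q).mul_mem (LL_mem x y) (LL_mem y x)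
theorem j22_H2 (x z : Q) : MM x z * (RR x z)⁻¹ ∈ H Q :=
  (H Q).mul_mem (MM_mem x z) ((H Q).inv_mem (RR_mem x z))
theorem j22_H3 (x z : Q) : MM x z * LL x z ∈ H Q := (H Q).mul_mem (MM_mem x z) (LL_mem x z)
theorem j22_H4 (y z : Q) : RR y z * RR z y ∈ H Q := (H Q).mul_mem (RR_mem y z) (RR_mem z y)

theorem j22_F1 (hc : IsChi chi) (x y : Q) : IsChar (fun n => chi ⁅LL x y * LL y x, n⁆) :=
  F_char hc (j22_H1 x y) (mem_LL x y)
theorem j22_F2 (hc : IsChi chi) (x z : Q) : IsChar (fun n => chi ⁅MM x z * (RR x z)⁻¹, n⁆) :=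
  F_char hc (j22_H2 x z) (mem_MR x z)
theorem j22_F3 (hc : IsChi chi) (x z : Q) : IsChar (fun n => chi ⁅MM x z * LL x z, n⁆) :=
  F_char hc (j22_H3 x z) (mem_ML x z)
theorem j22_F4 (hc : IsChi chi) (y z : Q) : IsChar (fun n => chi ⁅RR y z * RR z y, n⁆) :=
  F_char hc (j22_H4 y z) (mem_RR y z)

/-- `S f g x y z` -/
def j22_S (chi : MG Q → AddCircle (1 : ℚ)) (f g x y z : Q) : AddCircle (1 : ℚ) :=
  aF (fun n => chi ⁅LL x y * LL y x, n⁆) f g z
/-- `S' f g x y z` -/
def j22_S' (chi : MG Q → AddCircle (1 : ℚ)) (f g x y z : Q) : AddCircle (1 : ℚ) :=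
  aF (fun n => chi ⁅MM x z * LL x z, n⁆) f g y

theorem j22_A1 (hc : IsChi chi) (f g x y z : Q) :
    aF (fun n => chi ⁅LL x y * LL y x, n⁆) f g z = aF (fun n => chi ⁅MM x z * (RR x z)⁻¹, n⁆) f g y := by
  rw [← aF_L (j22_F1 hc x y) f g z, ← aF_L (j22_F2 hc x z) f g y]
  exact j22_A hc (LL_mem f g) x y z

theorem j22_A2 (hc : IsChi chi) (f g x y z : Q) :
    aF (fun n => chi ⁅LL x y * LL y x, n⁆) f z g = aF (fun n => chi ⁅MM x z * (RR x z)⁻¹, n⁆) f y g := by
  rw [← aF_M (j22_F1 hc x y) f z g, ← aF_M (j22_F2 hc x z) f y g]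
  exact j22_A hc (MM_mem f g) x y z

theorem j22_A3 (hc : IsChi chi) (f g x y z : Q) :
    aF (fun n => chi ⁅LL x y * LL y x, n⁆) z f g = aF (fun n => chi ⁅MM x z * (RR x z)⁻¹, n⁆) y f g := by
  have h1 := aF_R (j22_F1 hc x y) z f g
  have h2 := aF_R (j22_F2 hc x z) y f g
  have h := j22_A hc (RR_mem f g) x y z
  have h' : - aF (fun n => chi ⁅LL x y * LL y x, n⁆) z f g
      = - aF (fun n => chi ⁅MM x z * (RR x z)⁻¹, n⁆) y f g := by
    rw [← h1, ← h2]; exact h
  exact neg_injective h'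

theorem j22_B1 (hc : IsChi chi) (f g x y z : Q) :
    aF (fun n => chi ⁅MM x z * LL x z, n⁆) f g y = - aF (fun n => chi ⁅RR y z * RR z y, n⁆) f g x := by
  rw [← aF_L (j22_F3 hc x z) f g y, ← aF_L (j22_F4 hc y z) f g x]
  exact j22_B hc (LL_mem f g) x y z

theorem j22_B2 (hc : IsChi chi) (f g x y z : Q) :
    aF (fun n => chi ⁅MM x z * LL x z, n⁆) f y g = - aF (fun n => chi ⁅RR y z * RR z y, n⁆) f x g := by
  rw [← aF_M (j22_F3 hc x z) f y g, ← aF_M (j22_F4 hc y z) f x g]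
  exact j22_B hc (MM_mem f g) x y z

theorem j22_B3 (hc : IsChi chi) (f g x y z : Q) :
    aF (fun n => chi ⁅MM x z * LL x z, n⁆) y f g = - aF (fun n => chi ⁅RR y z * RR z y, n⁆) x f g := by
  have h1 := aF_R (j22_F3 hc x z) y f g
  have h2 := aF_R (j22_F4 hc y z) x f g
  have h := j22_B hc (RR_mem f g) x y z
  have h' : - aF (fun n => chi ⁅MM x z * LL x z, n⁆) y f g
      = - - aF (fun n => chi ⁅RR y z * RR z y, n⁆) x f g := by
    rw [← h1, ← h2]; exact h
  exact neg_injective h'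

theorem j22_B4 (hc : IsChi chi) (f g x y z : Q) :
    aF (fun n => chi ⁅MM x z * LL x z, n⁆) f g y = aF (fun n => chi ⁅MM x y * LL x y, n⁆) f g z := by
  rw [← aF_L (j22_F3 hc x z) f g y, ← aF_L (j22_F3 hc x y) f g z]
  exact j22_B' hc (LL_mem f g) x y z

theorem j22_S_swap (hc : IsChi chi) (a b c d e : Q) : j22_S chi a b c d e = j22_S chi b a c d e := by
  apply j22_perm1 (j22_S chi)
  · intro a b c d e
    unfold j22_S
    rw [AbInn.comm _ (LL_mem c d) _ (LL_mem d c)]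
  · intro f z x y g
    unfold j22_S
    rw [j22_A2 hc f g x y z, ← j22_A1 hc f y x g z]
  · intro z f x y g
    unfold j22_S
    rw [j22_A3 hc f g x y z, ← j22_A1 hc y f x g z]

theorem j22_S'_swap (hc : IsChi chi) (a b c d e : Q) : j22_S' chi a b c d e = j22_S' chi b a c d e := by
  apply j22_perm2 (j22_S' chi)
  · intro f g x y z
    unfold j22_S'
    exact j22_B4 hc f g x y z
  · intro f y x g z
    unfold j22_S'
    rw [j22_B2 hc f g x y z, ← j22_B1 hc f x g y z]
  · intro y f x g z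
    unfold j22_S'
    rw [j22_B3 hc f g x y z, ← j22_B1 hc x f g y z]

theorem j22_S_zero (hc : IsChi chi) (f g x y t : Q) : j22_S chi f g x y t = 0 := by
  obtain ⟨d, hd⟩ := exists_D hc (T_mem t)
  obtain ⟨hadd, hcyc⟩ := (partI_T hc).2.2 t d hd
  have hk : ∀ p : Q, kF (fun n => chi ⁅LL x y * LL y x, n⁆) p t = Ad d x y p + Ad d y x p := by
    intro p
    rw [← kF_T (j22_F1 hc x y) p t, S12_L hc (T_mem t) hd x y p]
  have hex := kF_hex (j22_F1 hc x y) f g t
  have hs := j22_S_swap hc t f x y g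
  unfold j22_S at hs ⊢
  rw [hk, hk, hk, hs] at hex
  have e1 : Ad d x y (f * g) = Ad d x y f + Ad d x y g := by
    rw [hcyc x y (f * g), hcyc y (f * g) x, hadd, hcyc x y f, hcyc y f x, hcyc x y g, hcyc y g x]
  have e2 : Ad d y x (f * g) = Ad d y x f + Ad d y x g := by
    rw [hcyc y x (f * g), hcyc x (f * g) y, hadd, hcyc y x f, hcyc x f y, hcyc y x g, hcyc x g y]
  rw [e1, e2] at hex
  generalize aF (fun n => chi ⁅LL x y * LL y x, n⁆) f t g = A1 at *
  generalize aF (fun n => chi ⁅LL x y * LL y x, n⁆) f g t = A2 at *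
  have : A2 = (Ad d x y f + Ad d y x f + (Ad d x y g + Ad d y x g) - A1 + A1)
      - (Ad d x y f + Ad d y x f + (Ad d x y g + Ad d y x g) - A1 + A1 - A2) := by abel
  rw [this, ← hex]
  abel

theorem j22_S'_zero (hc : IsChi chi) (f g x t z : Q) : j22_S' chi f g x t z = 0 := by
  obtain ⟨d, hd⟩ := exists_D hc (T_mem t)
  obtain ⟨hadd, hcyc⟩ := (partI_T hc).2.2 t d hd
  have hk : ∀ p : Q, kF (fun n => chi ⁅MM x z * LL x z, n⁆) p t = Ad d x p z + Ad d x z p := by
    intro p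
    rw [← kF_T (j22_F3 hc x z) p t, S23_M hc (T_mem t) hd x p z]
  have hex := kF_hex (j22_F3 hc x z) f g t
  have hs := j22_S'_swap hc t f x g z
  unfold j22_S' at hs ⊢
  rw [hk, hk, hk, hs] at hex
  have e1 : Ad d x (f * g) z = Ad d x f z + Ad d x g z := by
    rw [hcyc x (f * g) z, hadd, hcyc x f z, hcyc x g z]
  have e2 : Ad d x z (f * g) = Ad d x z f + Ad d x z g := by
    rw [hcyc x z (f * g), hcyc z (f * g) x, hadd, hcyc x z f, hcyc z f x, hcyc x z g, hcyc z g x]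
  rw [e1, e2] at hex
  generalize aF (fun n => chi ⁅MM x z * LL x z, n⁆) f t g = A1 at *
  generalize aF (fun n => chi ⁅MM x z * LL x z, n⁆) f g t = A2 at *
  have : A2 = (Ad d x f z + Ad d x z f + (Ad d x g z + Ad d x z g) - A1 + A1)
      - (Ad d x f z + Ad d x z f + (Ad d x g z + Ad d x z g) - A1 + A1 - A2) := by abel
  rw [this, ← hex]
  abel

end j22

/-- section 8 -/
theorem partI_L {chi : MG Q → AddCircle (1 : ℚ)} (hc : IsChi chi) (f g u w x y z : Q) :
    T3 chi (LL f g) (LL u w) (LL x y) z = 0 := by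
  have hv := LL_mem f g
  obtain ⟨d, hd⟩ := exists_D hc hv
  have s12 : ∀ x y z : Q, Ad d x y z + Ad d y x z = 0 := by
    intro x y z
    rw [S12_L hc hv hd x y z]
    have h := j22_S_zero hc f g x y z
    unfold j22_S at h
    rw [← aF_L (j22_F1 hc x y) f g z] at h
    exact h
  have s23 : ∀ x y z : Q, Ad d x y z + Ad d x z y = 0 := by
    intro x y z
    rw [S23_M hc hv hd x y z]
    have h := j22_S'_zero hc f g x y z
    unfold j22_S' at h
    rw [← aF_L (j22_F3 hc x z) f g y] at h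
    exact h
  have hTz : ∀ t w x y : Q, T3 chi (LL f g) (T t) (LL w x) y = 0 := by
    intro t w x y
    rw [T3_symm12 hc hv (T_mem t) (LL_mem w x) y]
    exact (partI_T hc).2.1 t f g w x y
  have hcyc : ∀ x y z : Q, Ad d x y z = Ad d y z x := by
    intro x y z
    rw [eq_neg_of_add_eq_zero_left (s12 x y z), eq_neg_of_add_eq_zero_left (s23 y x z), neg_neg]
  have hC := CY (Ad d) (fun _ _ _ _ => (0 : AddCircle (1 : ℚ))) hcyc (by intros; rfl) (by intros; rfl)
    (by intros; rfl) (by intros; simp) (by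
      intro w x y z
      have h := Ad_pent hc hv hd w x y z
      rw [hTz z w x y, add_zero] at h
      have h2 : Ad d w x (y * z) = Ad d w x y + Ad d w (x * y) z + Ad d x y z - Ad d (w * x) y z := by
        rw [← h]; abel
      rw [h2]; abel) (by
      intro w x y z
      rw [Ad_comm hc hv hd w x y z]
      exact hTz x w y z)
  have hadd := hC.2
  have h := Ad_assoc hc hv hd u w x y z
  rw [← h, hadd, hadd, hadd, hadd]
  abel

-- J23
/-- the elements `p` of `H` for which `T3 chi w p (LL x y) z` vanishes -/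
theorem j23_sub {chi : MG Q → AddCircle (1 : ℚ)} (hc : IsChi chi) {w : MG Q} (hw : w ∈ H Q)
    (hT : ∀ u x y z : Q, T3 chi w (T u) (LL x y) z = 0)
    (hL : ∀ u v x y z : Q, T3 chi w (LL u v) (LL x y) z = 0) {p : MG Q} (hp : p ∈ H Q)
    (x y z : Q) : T3 chi w p (LL x y) z = 0 := by
  have h1 : ∀ x y z : Q, T3 chi w 1 (LL x y) z = 0 := by
    intro x y z
    have h := T3_mul2 hc hw (H Q).one_mem (H Q).one_mem (LL_mem x y) z
    rw [mul_one] at h
    exact left_eq_add.mp h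
  let S : Subgroup (MG Q) :=
    { carrier := {p | p ∈ H Q ∧ ∀ x y z : Q, T3 chi w p (LL x y) z = 0}
      mul_mem' := by
        rintro a b ⟨ha, ha'⟩ ⟨hb, hb'⟩
        refine ⟨(H Q).mul_mem ha hb, fun x y z => ?_⟩
        rw [T3_mul2 hc hw ha hb (LL_mem x y) z, ha', hb', add_zero]
      one_mem' := ⟨(H Q).one_mem, h1⟩
      inv_mem' := by
        rintro a ⟨ha, ha'⟩
        refine ⟨(H Q).inv_mem ha, fun x y z => ?_⟩
        have h := T3_mul2 hc hw ha ((H Q).inv_mem ha) (LL_mem x y) z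
        rw [mul_inv_cancel, h1, ha', zero_add] at h
        exact h.symm }
  have hS : p ∈ S := by
    refine H_ind S (fun u => ⟨T_mem u, fun x y z => hT u x y z⟩)
      (fun u v => ⟨LL_mem u v, fun x y z => hL u v x y z⟩)
      (fun a b => ⟨RR_mem a b, fun x y z => ?_⟩) hp
    rw [T3_symm23 hc hw (RR_mem a b) (LL_mem x y) z, T3_RR hc hw (LL_mem x y) z a b, hL, neg_zero]
  exact hS.2 x y z

theorem j23_T {chi : MG Q → AddCircle (1 : ℚ)} (hc : IsChi chi) (v : Q) {p : MG Q} (hp : p ∈ H Q)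
    (x y z : Q) : T3 chi (T v) p (LL x y) z = 0 :=
  j23_sub hc (T_mem v) (fun u x y z => (partI_T hc).1 v u x y z)
    (fun u w x y z => (partI_T hc).2.1 v u w x y z) hp x y z

theorem j23_L {chi : MG Q → AddCircle (1 : ℚ)} (hc : IsChi chi) (f g : Q) {p : MG Q} (hp : p ∈ H Q)
    (x y z : Q) : T3 chi (LL f g) p (LL x y) z = 0 :=
  j23_sub hc (LL_mem f g) (fun u x y z => by
      rw [T3_symm12 hc (LL_mem f g) (T_mem u) (LL_mem x y) z]
      exact j23_T hc u (LL_mem f g) x y z)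
    (fun u w x y z => partI_L hc f g u w x y z) hp x y z

/-- conclusion of section 8 -/
theorem partI {chi : MG Q → AddCircle (1 : ℚ)} (hc : IsChi chi) {w p : MG Q} (hw : w ∈ H Q) (hp : p ∈ H Q)
    (x y z : Q) : T3 chi w p (LL x y) z = 0 :=
  j23_sub hc hw (fun u x y z => by
      rw [T3_symm12 hc hw (T_mem u) (LL_mem x y) z]
      exact j23_T hc u hw x y z)
    (fun u v x y z => by
      rw [T3_symm12 hc hw (LL_mem u v) (LL_mem x y) z]
      exact j23_L hc u v hw x y z) hp x y z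

theorem LL_K2 (x y : Q) : LL x y ∈ K Q 2 :=
  T3_mem (LL_mem x y) (fun chi hc w hw p hp z => partI hc hw hp x y z)
theorem MM_K2 (x y : Q) : MM x y ∈ K Q 2 :=
  T3_mem (MM_mem x y) (fun chi hc w hw p hp z => by
    rw [T3_MM hc hw hp x z y]
    exact partI hc hw hp x z y)
theorem RR_K2 (x y : Q) : RR x y ∈ K Q 2 :=
  T3_mem (RR_mem x y) (fun chi hc w hw p hp z => by
    rw [T3_RR hc hw hp z x y, partI hc hw hp z x y, neg_zero])
end K8

end Pool.Agent.AIM3
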