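import Pool.Agent.AIM3.PK2

set_option autoImplicit false
set_option linter.unusedVariables false
set_option linter.unusedSectionVars false

namespace Pool.Agent.AIM3

open scoped commutatorElement

/-! ## L. Section 9 of the paper -/
section L0
variable {Q : Type} [Lp Q] [AbInn Q] [Cl4 Q]

-- J24
theorem j24_cL {x y z : Q} (h : rel 1 (x * y) (x * z)) : rel 1 y z := by
  have h1 := rel_smul (L x)⁻¹ h
  rwa [L_inv_smul, L_inv_smul, ld_mul, ld_mul] at h1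
theorem j24_cR {x y z : Q} (h : rel 1 (y * x) (z * x)) : rel 1 y z := by
  have h1 := rel_smul (R x)⁻¹ h
  rwa [R_inv_smul, R_inv_smul, mul_rd, mul_rd] at h1
theorem j24_mL {y z : Q} (x : Q) (h : rel 1 y z) : rel 1 (x * y) (x * z) := by
  have h1 := rel_smul (L x) h
  rwa [L_smul, L_smul] at h1
theorem j24_mR {y z : Q} (x : Q) (h : rel 1 y z) : rel 1 (y * x) (z * x) := by
  have h1 := rel_smul (R x) h
  rwa [R_smul, R_smul] at h1
theorem j24_RR {k : Q} (hk : L k ∈ N Q) (x y : Q) : rel 1 (k * (x * y)) ((k * x) * y) := by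
  have h1 : rel 1 k (RR x y • k) := fixH (k := 1) (RR_mem x y) (RR_K2 x y) hk
  have h2 := j24_mR (x * y) h1
  rwa [RR_mul] at h2
theorem j24_MM {k : Q} (hk : L k ∈ N Q) (x y : Q) : rel 1 ((x * k) * y) (x * (k * y)) := by
  have h1 : rel 1 k (MM x y • k) := fixH (k := 1) (MM_mem x y) (MM_K2 x y) hk
  have h2 := j24_mR y (j24_mL x h1)
  rwa [MM_mul] at h2
theorem j24_LL {k : Q} (hk : L k ∈ N Q) (x y : Q) : rel 1 ((x * y) * k) (x * (y * k)) := by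
  have h1 : rel 1 k (LL x y • k) := fixH (k := 1) (LL_mem x y) (LL_K2 x y) hk
  have h2 := j24_mL (x * y) h1
  rwa [mul_LL] at h2
theorem LLN1 {k : Q} (hk : L k ∈ N Q) (t : Q) : LL k t ∈ K Q 1 := by
  rw [mem_K]
  intro s
  have h := j24_RR hk t s
  rw [← mul_LL k t s] at h
  exact rel_symm (j24_cL h)
theorem LLN2 {k : Q} (hk : L k ∈ N Q) (t : Q) : LL t k ∈ K Q 1 := by
  rw [mem_K]
  intro s
  have h := j24_MM hk t s
  rw [← mul_LL t k s] at h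
  exact j24_cL h
theorem RRN1 {k : Q} (hk : L k ∈ N Q) (t : Q) : RR k t ∈ K Q 1 := by
  rw [mem_K]
  intro s
  have h := j24_MM hk s t
  rw [← RR_mul k t s] at h
  exact rel_symm (j24_cR h)
theorem RRN2 {k : Q} (hk : L k ∈ N Q) (t : Q) : RR t k ∈ K Q 1 := by
  rw [mem_K]
  intro s
  have h := j24_LL hk s t
  rw [← RR_mul t k s] at h
  exact rel_symm (j24_cR h)
theorem MMN1 {k : Q} (hk : L k ∈ N Q) (t : Q) : MM k t ∈ K Q 1 := by
  rw [mem_K]
  intro s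
  have h := j24_RR hk s t
  rw [← MM_mul k t s] at h
  exact rel_symm (j24_cL (j24_cR h))
theorem MMN2 {k : Q} (hk : L k ∈ N Q) (t : Q) : MM t k ∈ K Q 1 := by
  rw [mem_K]
  intro s
  have h := j24_LL hk t s
  rw [← MM_mul t k s] at h
  exact j24_cL (j24_cR h)
theorem TN {k : Q} (hk : L k ∈ N Q) : T k ∈ K Q 2 := T_mem_K (Zs3_of_N hk)
end L0

section L1
variable {Q : Type} [Lp Q] [AbInn Q] [Cl4 Q] {W : Type} [AddCommGroup W] {chi : MG Q → W}

-- J25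
theorem j25_one {g : MG Q} (hg : g ∈ K Q 0) : g = 1 := by
  rw [K_zero] at hg
  exact Subgroup.mem_bot.1 hg

theorem DD_add (hc : IsChi chi) {h : MG Q} (hh : h ∈ H Q) {p q r : Q} (h1 : sameN p q) (h1' : rel 2 p q)
    (h2 : sameN q r) (h2' : rel 2 q r) :
    chi ⁅h, L (ld p q)⁆ + chi ⁅h, L (ld q r)⁆ = chi ⁅h, L (ld p r)⁆ := by
  have he : ld p q ∈ Zs Q 2 := h1'
  have he' : ld q r ∈ Zs Q 2 := h2'
  have hn : L (ld p q) ∈ N Q := sameN_iff.1 h1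
  have hn' : L (ld q r) ∈ N Q := sameN_iff.1 h2
  have e1 : p * (ld p q * ld q r) = (p * ld p q) * ld q r :=
    rel_zero_iff.1 (V_assoc1 (k := 0) he hn' p)
  rw [mul_ld, mul_ld] at e1
  have e2 : ld p r = ld p q * ld q r := by
    rw [← e1, ld_mul]
    rw [e1]
  have e3 : LL (ld p q) (ld q r) = 1 := j25_one (V_LL1 (k := 0) he hn')
  have e4 : L (ld p r) = L (ld p q) * L (ld q r) := by
    rw [e2, LL_eq, e3, mul_one]
  have k1 : ⁅h, L (ld p q)⁆ ∈ K Q 1 := comm_L_mem (k := 1) he h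
  have k2 : ⁅h, L (ld q r)⁆ ∈ K Q 1 := comm_L_mem (k := 1) he' h
  have e5 : ⁅h, L (ld p q) * L (ld q r)⁆ = ⁅h, L (ld p q)⁆ * ⁅h, L (ld q r)⁆ := by
    have c1 := K1_comm_N k2 hn
    have c2 : ⁅h, L (ld p q) * L (ld q r)⁆ =
        ⁅h, L (ld p q)⁆ * (L (ld p q) * ⁅h, L (ld q r)⁆ * (L (ld p q))⁻¹) := by
      simp only [commutatorElement_def]
      group
    rw [c2, ← c1]
    group
  rw [e4, e5, hc.map_mul _ k1 _ k2]

theorem DD_smul (hc : IsChi chi) {h : MG Q} (hh : h ∈ H Q) (g : MG Q) {p q : Q} (h1 : sameN p q) (h1' : rel 2 p q) :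
    chi ⁅h, L (ld (g • p) (g • q))⁆ = chi ⁅h, L (ld p q)⁆ := by
  have he : ld p q ∈ Zs Q 2 := h1'
  have hu : (L (g • p))⁻¹ * g * L p ∈ H Q := trans_mem g p
  have e1 : ld (g • p) (g • q) = ((L (g • p))⁻¹ * g * L p) • ld p q := by
    rw [mul_smul, mul_smul, L_smul, mul_ld, L_inv_smul]
  have hz : ld (ld p q) (((L (g • p))⁻¹ * g * L p) • ld p q) ∈ Zs Q 1 :=
    (mem_Zs_succ (k := 1)).1 he _ hu
  obtain ⟨z, hzd⟩ : ∃ z, z = ld (ld p q) (((L (g • p))⁻¹ * g * L p) • ld p q) := ⟨_, rfl⟩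
  rw [← hzd] at hz
  have e2 : ((L (g • p))⁻¹ * g * L p) • ld p q = ld p q * z := by
    rw [hzd, mul_ld]
  have e3 : LL (ld p q) z = 1 := j25_one (LL_mem_K_right (k := 0) hz (ld p q))
  have e4 : L (ld (g • p) (g • q)) = L (ld p q) * L z := by
    rw [e1, e2, LL_eq, e3, mul_one]
  have hcm : ∀ m : MG Q, m * L z = L z * m := by
    intro m
    have := j25_one (comm_L_mem (k := 0) hz m)
    exact commutatorElement_eq_one_iff_mul_comm.1 this
  have e5 : ⁅h, L (ld p q) * L z⁆ = ⁅h, L (ld p q)⁆ := by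
    simp only [commutatorElement_def, mul_inv_rev]
    have c1 := hcm h⁻¹
    calc h * (L (ld p q) * L z) * h⁻¹ * ((L z)⁻¹ * (L (ld p q))⁻¹)
        = h * L (ld p q) * (L z * h⁻¹) * (L z)⁻¹ * (L (ld p q))⁻¹ := by group
      _ = h * L (ld p q) * (h⁻¹ * L z) * (L z)⁻¹ * (L (ld p q))⁻¹ := by rw [c1]
      _ = h * L (ld p q) * h⁻¹ * (L (ld p q))⁻¹ := by group
  rw [e4, e5]

/-- `B(x,y,z,v)` -/
def BB (chi : MG Q → W) (x y z v : Q) : W := chi ⁅LL x y, cj (L z) (T v)⁆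
/-- `Psi'(u,v,x,y,z)` -/
def PP (chi : MG Q → W) (u v x y z : Q) : W := chi ⁅LL u v, cj (L z) (LL x y)⁆

-- J26
/-- for `F = chi ⁅t, ·⁆`, `t ∈ H ∩ K 2`, and `s ∈ H ∩ K 2` the value `F (s^{L_y})` when `s` is shifted -/
theorem F_sh (hc : IsChi chi) {t p : MG Q} (ht : t ∈ H Q) (ht2 : t ∈ K Q 2) (hp : p ∈ H Q) (hp2 : p ∈ K Q 2) (x y : Q) :
    chi ⁅t, cj (L y) (sh p x)⁆ = chi ⁅t, cj (L (x * y)) p⁆ - chi ⁅t, cj (L x) p⁆ := by
  have hF : IsChar (fun n => chi ⁅t, n⁆) := F_char hc ht ht2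
  have htN : t ∈ N Q := H_le_N ht
  have hpN : p ∈ N Q := H_le_N hp
  have hcZ : dis p x ∈ Zs Q (1 + 1) := (mem_K_iff_dis.1 hp2) x
  have hcN : L (dis p x) ∈ N Q := L_dis_mem hpN x
  have e1 : cj (L y) (sh p x) = (cj (L y) (L (dis p x)))⁻¹ * cj (LL x y) (cj (L (x * y)) p) := by
    rw [cj_cj, ← LL_eq, ← cj_cj, ← cj_inv, ← cj_mul]
    rfl
  have hA : cj (L y) (L (dis p x)) ∈ N Q := cj_mem_N _ hcN
  have hB : cj (L (x * y)) p ∈ N Q := cj_mem_N _ hpN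
  have hLL : LL x y ∈ N Q := H_le_N (LL_mem x y)
  have hB' : cj (LL x y) (cj (L (x * y)) p) ∈ N Q := cj_mem_N _ hB
  have e2 := hF.map_mul _ ((N Q).inv_mem hA) _ hB'
  have e3 := char_inv hF hA
  have e4 := char_cjN hF hB hLL
  have hκ : (L (dis p x))⁻¹ * cj (L y) (L (dis p x)) ∈ K Q 1 := cj_L_mem hcZ (L y)
  have hκN : (L (dis p x))⁻¹ * cj (L y) (L (dis p x)) ∈ N Q := (N Q).mul_mem ((N Q).inv_mem hcN) hA
  have e5 := hF.map_mul _ hcN _ hκN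
  rw [mul_inv_cancel_left] at e5
  have e6 : chi ⁅t, (L (dis p x))⁻¹ * cj (L y) (L (dis p x))⁆ = 0 := by
    have hcom := K1_comm_N hκ htN
    have : ⁅t, (L (dis p x))⁻¹ * cj (L y) (L (dis p x))⁆ = 1 := by
      rw [commutatorElement_eq_one_iff_mul_comm]
      exact hcom.symm
    rw [this]
    exact chi_one hc
  have e7 := char_dis hF hp x
  rw [e1, e2, e3, e4, e5, e6, e7]
  abel
end L1

end Pool.Agent.AIM3
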