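import Pool.Agent.AIM3.PL1

set_option autoImplicit false
set_option linter.unusedVariables false
set_option linter.unusedSectionVars false

namespace Pool.Agent.AIM3

open scoped commutatorElement

section L2
/- in this section `K8` (`LL_K2`, `MM_K2`, `RR_K2`) is available -/
variable {Q : Type} [Lp Q] [AbInn Q] [Cl4 Q] {W : Type} [AddCommGroup W] {chi : MG Q → W}

-- J27
theorem j27_rel (x y z : Q) : rel 2 ((x * y) * z) (x * (y * z)) := by
  have h := rel_smul (L (x * y)) ((mem_K.1 (LL_K2 x y)) z)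
  rw [L_smul, L_smul, mul_LL] at h
  exact h

theorem j27_L (hc : IsChi chi) {t : MG Q} (ht : t ∈ H Q) (x y z : Q) :
    chi ⁅LL x y, cj (L z) t⁆ = chi ⁅t, L (ld ((x * y) * z) (x * (y * z)))⁆ := by
  rw [Q1 hc (LL_mem x y) (LL_K2 x y) ht z]
  have h := DD_smul hc ht (L (x * y)) (sameN_of_mem (H_le_N (LL_mem x y)) z) ((mem_K.1 (LL_K2 x y)) z)
  rw [L_smul, L_smul, mul_LL] at h
  rw [h]
  rfl

theorem j27_M (hc : IsChi chi) {t : MG Q} (ht : t ∈ H Q) (x y z : Q) :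
    chi ⁅MM x z, cj (L y) t⁆ = chi ⁅t, L (ld ((x * y) * z) (x * (y * z)))⁆ := by
  rw [Q1 hc (MM_mem x z) (MM_K2 x z) ht y]
  have h := DD_smul hc ht (R z * L x) (sameN_of_mem (H_le_N (MM_mem x z)) y) ((mem_K.1 (MM_K2 x z)) y)
  rw [mul_smul, mul_smul, L_smul, L_smul, R_smul, R_smul, MM_mul] at h
  rw [h]
  rfl

theorem j27_R (hc : IsChi chi) {t : MG Q} (ht : t ∈ H Q) (x y z : Q) :
    chi ⁅RR y z, cj (L x) t⁆ = - chi ⁅t, L (ld ((x * y) * z) (x * (y * z)))⁆ := by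
  rw [Q1 hc (RR_mem y z) (RR_K2 y z) ht x]
  have h := DD_smul hc ht (R (y * z)) (sameN_of_mem (H_le_N (RR_mem y z)) x) ((mem_K.1 (RR_K2 y z)) x)
  rw [R_smul, R_smul, RR_mul] at h
  have h2 := DD_add hc ht (sameN_assoc x y z) (j27_rel x y z) (sameN_symm (sameN_assoc x y z))
    (rel_symm (j27_rel x y z))
  have h3 : chi ⁅t, L (ld ((x * y) * z) ((x * y) * z))⁆ = 0 := by
    rw [ld_self, L_one, commutatorElement_one_right, chi_one hc]
  rw [h3, h] at h2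
  rw [eq_neg_iff_add_eq_zero, add_comm]
  exact h2

theorem FM (hc : IsChi chi) {t : MG Q} (ht : t ∈ H Q) (x y z : Q) :
    chi ⁅MM x z, cj (L y) t⁆ = chi ⁅LL x y, cj (L z) t⁆ := by
  rw [j27_M hc ht, j27_L hc ht]

theorem FR (hc : IsChi chi) {t : MG Q} (ht : t ∈ H Q) (x y z : Q) :
    chi ⁅RR y z, cj (L x) t⁆ = - chi ⁅LL x y, cj (L z) t⁆ := by
  rw [j27_R hc ht, j27_L hc ht]

/-- the forms with `F = chi ⁅θ, ·⁆` -/
theorem j27_aL (hc : IsChi chi) {θ : MG Q} (h1 : θ ∈ H Q) (h2 : θ ∈ K Q 2) (x y z : Q) :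
    chi ⁅θ, cj (L z) (LL x y)⁆ = aF (fun n => chi ⁅θ, n⁆) x y z := aF_L (F_char hc h1 h2) x y z

theorem j27_aM (hc : IsChi chi) {θ : MG Q} (h1 : θ ∈ H Q) (h2 : θ ∈ K Q 2) (x y z : Q) :
    chi ⁅θ, cj (L y) (MM x z)⁆ = aF (fun n => chi ⁅θ, n⁆) x y z := aF_M (F_char hc h1 h2) x y z

theorem j27_aR (hc : IsChi chi) {θ : MG Q} (h1 : θ ∈ H Q) (h2 : θ ∈ K Q 2) (x y z : Q) :
    chi ⁅θ, cj (L x) (RR y z)⁆ = - aF (fun n => chi ⁅θ, n⁆) x y z := aF_R (F_char hc h1 h2) x y z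

theorem j27_kT (hc : IsChi chi) {θ : MG Q} (h1 : θ ∈ H Q) (h2 : θ ∈ K Q 2) (x u : Q) :
    chi ⁅θ, cj (L x) (T u)⁆ = kF (fun n => chi ⁅θ, n⁆) x u := kF_T (F_char hc h1 h2) x u

theorem j27_LM (hc : IsChi chi) {θ : MG Q} (h1 : θ ∈ H Q) (h2 : θ ∈ K Q 2) (x y z : Q) :
    chi ⁅θ, cj (L z) (LL x y)⁆ = chi ⁅θ, cj (L y) (MM x z)⁆ := by
  rw [j27_aL hc h1 h2, j27_aM hc h1 h2]

theorem j27_LR (hc : IsChi chi) {θ : MG Q} (h1 : θ ∈ H Q) (h2 : θ ∈ K Q 2) (x y z : Q) :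
    chi ⁅θ, cj (L z) (LL x y)⁆ = - chi ⁅θ, cj (L x) (RR y z)⁆ := by
  rw [j27_aL hc h1 h2, j27_aR hc h1 h2, neg_neg]

theorem j27_a1 (hc : IsChi chi) (u v x y z : Q) : PP chi u v x y z = PP chi x y u v z :=
  F_symm hc (LL_mem u v) (LL_K2 u v) (LL_mem x y) (LL_K2 x y) z

theorem j27_a2 (hc : IsChi chi) (u v x y z : Q) : PP chi u v x y z = PP chi x v u z y := by
  unfold PP
  calc chi ⁅LL u v, cj (L z) (LL x y)⁆ = chi ⁅LL u v, cj (L y) (MM x z)⁆ := j27_LM hc (LL_mem _ _) (LL_K2 _ _) x y z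
    _ = chi ⁅MM x z, cj (L y) (LL u v)⁆ := F_symm hc (LL_mem _ _) (LL_K2 _ _) (MM_mem _ _) (MM_K2 _ _) y
    _ = chi ⁅MM x z, cj (L v) (MM u y)⁆ := j27_LM hc (MM_mem _ _) (MM_K2 _ _) u v y
    _ = chi ⁅MM u y, cj (L v) (MM x z)⁆ := F_symm hc (MM_mem _ _) (MM_K2 _ _) (MM_mem _ _) (MM_K2 _ _) v
    _ = chi ⁅MM u y, cj (L z) (LL x v)⁆ := (j27_LM hc (MM_mem _ _) (MM_K2 _ _) x v z).symm
    _ = chi ⁅LL x v, cj (L z) (MM u y)⁆ := F_symm hc (MM_mem _ _) (MM_K2 _ _) (LL_mem _ _) (LL_K2 _ _) z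
    _ = chi ⁅LL x v, cj (L y) (LL u z)⁆ := (j27_LM hc (LL_mem _ _) (LL_K2 _ _) u z y).symm

theorem j27_a3 (hc : IsChi chi) (u v x y z : Q) : PP chi u v x y z = PP chi u y z v x := by
  unfold PP
  calc chi ⁅LL u v, cj (L z) (LL x y)⁆ = - chi ⁅LL u v, cj (L x) (RR y z)⁆ := j27_LR hc (LL_mem _ _) (LL_K2 _ _) x y z
    _ = - chi ⁅RR y z, cj (L x) (LL u v)⁆ := by rw [F_symm hc (LL_mem u v) (LL_K2 _ _) (RR_mem y z) (RR_K2 _ _) x]
    _ = chi ⁅RR y z, cj (L u) (RR v x)⁆ := by rw [j27_LR hc (RR_mem y z) (RR_K2 _ _) u v x, neg_neg]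
    _ = chi ⁅RR v x, cj (L u) (RR y z)⁆ := F_symm hc (RR_mem _ _) (RR_K2 _ _) (RR_mem _ _) (RR_K2 _ _) u
    _ = - chi ⁅RR v x, cj (L z) (LL u y)⁆ := by rw [j27_LR hc (RR_mem v x) (RR_K2 _ _) u y z, neg_neg]
    _ = - chi ⁅LL u y, cj (L z) (RR v x)⁆ := by rw [F_symm hc (RR_mem v x) (RR_K2 _ _) (LL_mem u y) (LL_K2 _ _) z]
    _ = chi ⁅LL u y, cj (L x) (LL z v)⁆ := (j27_LR hc (LL_mem _ _) (LL_K2 _ _) z v x).symm

theorem j27_Pc (hc : IsChi chi) (u v w x y z : Q) : PP chi u v (w * x) y z = PP chi u v (x * w) y z := by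
  unfold PP
  rw [j27_aL hc (LL_mem u v) (LL_K2 u v), j27_aL hc (LL_mem u v) (LL_K2 u v)]
  exact aF_congr (F_char hc (LL_mem u v) (LL_K2 u v)) (sameN_comm w x) (sameN_refl y) (sameN_refl z)

theorem j27_Pp (hc : IsChi chi) (u v w x y z : Q) :
    PP chi u v (w * x) y z + PP chi u v w x (y * z) = PP chi u v w x y + PP chi u v w (x * y) z + PP chi u v x y z := by
  unfold PP
  rw [j27_aL hc (LL_mem u v) (LL_K2 u v), j27_aL hc (LL_mem u v) (LL_K2 u v), j27_aL hc (LL_mem u v) (LL_K2 u v),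
    j27_aL hc (LL_mem u v) (LL_K2 u v), j27_aL hc (LL_mem u v) (LL_K2 u v)]
  exact aF_pent (F_char hc (LL_mem u v) (LL_K2 u v)) w x y z

theorem j27_BL (hc : IsChi chi) (x y z t : Q) : BB chi x y z t = kF (fun n => chi ⁅LL x y, n⁆) z t :=
  j27_kT hc (LL_mem x y) (LL_K2 x y) z t

theorem j27_BM (hc : IsChi chi) (x y z t : Q) : BB chi x y z t = kF (fun n => chi ⁅MM x z, n⁆) y t := by
  unfold BB
  rw [← FM hc (T_mem t) x y z]
  exact j27_kT hc (MM_mem x z) (MM_K2 x z) y t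

theorem j27_BR (hc : IsChi chi) (x y z t : Q) : BB chi x y z t = - kF (fun n => chi ⁅RR y z, n⁆) x t := by
  unfold BB
  rw [← j27_kT hc (RR_mem y z) (RR_K2 y z) x t, FR hc (T_mem t) x y z, neg_neg]

theorem j27_BA (hc : IsChi chi) (x y z t : Q) : BB chi x y z t = chi ⁅T t, L (ld ((x * y) * z) (x * (y * z)))⁆ :=
  j27_L hc (T_mem t) x y z

theorem j27_Xc (hc : IsChi chi) (t w x y z : Q) : BB chi (w * x) y z t = BB chi (x * w) y z t := by
  rw [j27_BR hc, j27_BR hc, kF_congr (F_char hc (RR_mem y z) (RR_K2 y z)) (sameN_comm w x) (sameN_refl t)]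

theorem j27_X1 (hc : IsChi chi) (t x y z : Q) : BB chi x y z t = - BB chi t y z x := by
  rw [j27_BR hc, j27_BR hc, kF_anti (F_char hc (RR_mem y z) (RR_K2 y z)) x t]

theorem j27_X2 (hc : IsChi chi) (t x y z : Q) : BB chi x y z t = - BB chi x t z y := by
  rw [j27_BM hc, j27_BM hc, kF_anti (F_char hc (MM_mem x z) (MM_K2 x z)) y t]

theorem j27_X3 (hc : IsChi chi) (t x y z : Q) : BB chi x y z t = - BB chi x y t z := by
  rw [j27_BL hc, j27_BL hc, kF_anti (F_char hc (LL_mem x y) (LL_K2 x y)) z t]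

theorem j27_X0 (hc : IsChi chi) (t x y : Q) : BB chi x y t t = 0 := by
  rw [j27_BL hc, kF_self (F_char hc (LL_mem x y) (LL_K2 x y))]

theorem j27_Xp (hc : IsChi chi) (t w x y z : Q) :
    BB chi (w * x) y z t + BB chi w x (y * z) t = BB chi w x y t + BB chi w (x * y) z t + BB chi x y z t := by
  simp only [j27_BA hc]
  have ht := T_mem t
  -- first path
  have e1 := DD_add hc ht (sameN_assoc (w * x) y z) (j27_rel (w * x) y z) (sameN_assoc w x (y * z)) (j27_rel w x (y * z))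
  -- second path
  have s1 : sameN (((w * x) * y) * z) ((w * (x * y)) * z) := sameN_smul (R z) (sameN_assoc w x y)
  have r1 : rel 2 (((w * x) * y) * z) ((w * (x * y)) * z) := rel_smul (R z) (j27_rel w x y)
  have s3 : sameN (w * ((x * y) * z)) (w * (x * (y * z))) := sameN_smul (L w) (sameN_assoc x y z)
  have r3 : rel 2 (w * ((x * y) * z)) (w * (x * (y * z))) := rel_smul (L w) (j27_rel x y z)
  have e2 := DD_add hc ht s1 r1 (sameN_assoc w (x * y) z) (j27_rel w (x * y) z)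
  have e3 := DD_add hc ht (sameN_trans s1 (sameN_assoc w (x * y) z)) (rel_trans r1 (j27_rel w (x * y) z)) s3 r3
  have f1 := DD_smul hc ht (R z) (sameN_assoc w x y) (j27_rel w x y)
  have f3 := DD_smul hc ht (L w) (sameN_assoc x y z) (j27_rel x y z)
  rw [R_smul, R_smul] at f1
  rw [L_smul, L_smul] at f3
  rw [e1, ← e3, ← e2, f1, f3]

theorem j27_d (hc : IsChi chi) (u v x y z : Q) :
    BB chi u v (x * y) z = BB chi u v x z + BB chi u v y z - PP chi u v z x y + PP chi u v x z y - PP chi u v x y z := by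
  unfold PP
  rw [j27_aL hc (LL_mem u v) (LL_K2 u v), j27_aL hc (LL_mem u v) (LL_K2 u v), j27_aL hc (LL_mem u v) (LL_K2 u v),
    j27_BL hc, j27_BL hc, j27_BL hc]
  exact kF_hex (F_char hc (LL_mem u v) (LL_K2 u v)) x y z

theorem BB_PP_forms (hc : IsChi chi) : Alt5 (PP chi) ∧ Alt4 (BB chi) := by
  have h := FORM (PP chi) (fun t x y z => BB chi x y z t) (j27_a1 hc) (j27_a2 hc) (j27_a3 hc) (j27_Pc hc) (j27_Pp hc)
    (j27_Xc hc) (j27_X1 hc) (j27_X2 hc) (j27_X3 hc) (j27_X0 hc) (j27_Xp hc) (j27_d hc)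
  refine ⟨h.1, ?_⟩
  obtain ⟨s12, s23, s34, z12, add1⟩ := h.2
  constructor
  · intro a b c d
    exact s23 d a b c
  · intro a b c d
    exact s34 d a b c
  · intro a b c d
    exact j27_X3 hc c a b d
  · intro a c d
    have h1 : BB chi a a c d = - BB chi d a c a := s12 a d a c
    have h2 : BB chi d a c a = - BB chi a d c a := s23 a a d c
    have h3 : BB chi a d c a = 0 := z12 a d c
    rw [h1, h2, h3, neg_zero, neg_zero]
  · intro a b c d e
    have h1 : BB chi (a * b) c d e = - BB chi e c d (a * b) := s12 (a * b) e c d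
    have h2 : BB chi a c d e = - BB chi e c d a := s12 a e c d
    have h3 : BB chi b c d e = - BB chi e c d b := s12 b e c d
    have h4 : BB chi e c d (a * b) = BB chi e c d a + BB chi e c d b := add1 a b e c d
    rw [h1, h2, h3, h4, neg_add]

/-- the second kind of difference function -/
structure IsD2 (chi : MG Q → W) (d : Q → Q → W) : Prop where
  add : ∀ p q r, sameN p q → rel 2 p q → sameN q r → rel 2 q r → d p q + d q r = d p r
  smul : ∀ (g : MG Q) (p q : Q), sameN p q → rel 2 p q →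
    d (g • p) (g • q) = d p q + chi ⁅(L (g • p))⁻¹ * g * L p, L (ld p q)⁆
  one : ∀ κ ∈ K Q 1, κ ∈ N Q → ∀ p : Q, d p (κ • p) = chi (cj (L p) κ)

variable {d : Q → Q → W}

-- J28
theorem j28_rel (x y z : Q) : rel 2 ((x * y) * z) (x * (y * z)) := by
  have h := rel_smul (L (x * y)) ((mem_K.1 (LL_K2 x y)) z)
  rw [L_smul, L_smul, mul_LL] at h
  exact h

theorem j28_L (hc : IsChi chi) {t : MG Q} (ht : t ∈ H Q) (x y z : Q) :
    chi ⁅t, L (ld ((x * y) * z) (x * (y * z)))⁆ = chi ⁅LL x y, cj (L z) t⁆ := by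
  rw [Q1 hc (LL_mem x y) (LL_K2 x y) ht z]
  have h := DD_smul hc ht (L (x * y)) (sameN_of_mem (H_le_N (LL_mem x y)) z) ((mem_K.1 (LL_K2 x y)) z)
  rw [L_smul, L_smul, mul_LL] at h
  rw [h]
  rfl

theorem j28_LR (hc : IsChi chi) {θ : MG Q} (h1 : θ ∈ H Q) (h2 : θ ∈ K Q 2) (x y z : Q) :
    chi ⁅θ, cj (L x) (RR y z)⁆ = - chi ⁅θ, cj (L z) (LL x y)⁆ := by
  have e1 := aF_L (F_char hc h1 h2) x y z
  have e2 := aF_R (F_char hc h1 h2) x y z
  rw [← e1] at e2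
  exact e2

/-! vanishing of the forms -/
theorem j28_p23 {P : Q → Q → Q → Q → Q → W} (h : Alt5 P) (a b d e : Q) : P a b b d e = 0 := by
  rw [h.s12 b a b d e, h.s23 b b a d e, h.z12]; simp

theorem j28_p13 {P : Q → Q → Q → Q → Q → W} (h : Alt5 P) (a b d e : Q) : P a b a d e = 0 := by
  rw [h.s23 a a b d e, h.z12]; simp

theorem j28_p14 {P : Q → Q → Q → Q → Q → W} (h : Alt5 P) (a b c e : Q) : P a b c a e = 0 := by
  rw [h.s34 a b a c e, j28_p13 h]; simp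

theorem j28_p24 {P : Q → Q → Q → Q → Q → W} (h : Alt5 P) (a b c e : Q) : P a b c b e = 0 := by
  rw [h.s34 a b b c e, j28_p23 h]; simp

theorem j28_p34 {P : Q → Q → Q → Q → Q → W} (h : Alt5 P) (a b c e : Q) : P a b c c e = 0 := by
  rw [h.s23 a c b c e, j28_p24 h]; simp

theorem j28_p35 {P : Q → Q → Q → Q → Q → W} (h : Alt5 P) (a b c d : Q) : P a b c d c = 0 := by
  rw [h.s45 a b c c d, j28_p34 h]; simp

theorem j28_p25 {P : Q → Q → Q → Q → Q → W} (h : Alt5 P) (a b c d : Q) : P a b c d b = 0 := by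
  rw [h.s45 a b c b d, j28_p24 h]; simp

theorem j28_p45 {P : Q → Q → Q → Q → Q → W} (h : Alt5 P) (a b c d : Q) : P a b c d d = 0 := by
  rw [h.s34 a b d c d, j28_p35 h]; simp

theorem j28_pa2 {P : Q → Q → Q → Q → Q → W} (h : Alt5 P) (a b b' c d e : Q) :
    P a (b * b') c d e = P a b c d e + P a b' c d e := by
  rw [h.s12 (b * b') a c d e, h.s12 b a c d e, h.s12 b' a c d e, h.add1, neg_add]

theorem j28_pa3 {P : Q → Q → Q → Q → Q → W} (h : Alt5 P) (a b c c' d e : Q) :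
    P a b (c * c') d e = P a b c d e + P a b c' d e := by
  rw [h.s23 a (c * c') b d e, h.s23 a c b d e, h.s23 a c' b d e, j28_pa2 h, neg_add]

theorem j28_pa4 {P : Q → Q → Q → Q → Q → W} (h : Alt5 P) (a b c d d' e : Q) :
    P a b c (d * d') e = P a b c d e + P a b c d' e := by
  rw [h.s34 a b (d * d') c e, h.s34 a b d c e, h.s34 a b d' c e, j28_pa3 h, neg_add]

theorem j28_pa5 {P : Q → Q → Q → Q → Q → W} (h : Alt5 P) (a b c d e e' : Q) :
    P a b c d (e * e') = P a b c d e + P a b c d e' := by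
  rw [h.s45 a b c (e * e') d, h.s45 a b c e d, h.s45 a b c e' d, j28_pa4 h, neg_add]

theorem j28_b13 {X : Q → Q → Q → Q → W} (h : Alt4 X) (a b d : Q) : X a b a d = 0 := by
  rw [h.s23 a a b d, h.z12]; simp

theorem j28_b14 {X : Q → Q → Q → Q → W} (h : Alt4 X) (a b c : Q) : X a b c a = 0 := by
  rw [h.s34 a b a c, j28_b13 h]; simp

theorem j28_b23 {X : Q → Q → Q → Q → W} (h : Alt4 X) (a b d : Q) : X a b b d = 0 := by
  rw [h.s12 b a b d, j28_b13 h]; simp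

theorem j28_b24 {X : Q → Q → Q → Q → W} (h : Alt4 X) (a b c : Q) : X a b c b = 0 := by
  rw [h.s34 a b b c, j28_b23 h]; simp

theorem j28_b34 {X : Q → Q → Q → Q → W} (h : Alt4 X) (a b c : Q) : X a b c c = 0 := by
  rw [h.s23 a c b c, j28_b24 h]; simp

theorem j28_ba4 {X : Q → Q → Q → Q → W} (h : Alt4 X) (a b c d d' : Q) :
    X a b c (d * d') = X a b c d + X a b c d' := by
  have h2 : ∀ a b b' c d, X a (b * b') c d = X a b c d + X a b' c d := by
    intro a b b' c d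
    rw [h.s12 (b * b') a c d, h.s12 b a c d, h.s12 b' a c d, h.add1, neg_add]
  have h3 : ∀ a b c c' d, X a b (c * c') d = X a b c d + X a b c' d := by
    intro a b c c' d
    rw [h.s23 a (c * c') b d, h.s23 a c b d, h.s23 a c' b d, h2, neg_add]
  rw [h.s34 a b (d * d') c, h.s34 a b d c, h.s34 a b d' c, h3, neg_add]

/-- the value on `T a * RR b c * (T e)⁻¹` -/
theorem j28_val (hc : IsChi chi) (x y z a b c e : Q) :
    chi ⁅LL x y, cj (L z) (T a * RR b c * (T e)⁻¹)⁆ = BB chi x y z a - PP chi x y z b c - BB chi x y z e := by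
  have hF := F_char hc (LL_mem x y) (LL_K2 x y)
  have n1 := cj_mem_N (L z) (H_le_N (T_mem a))
  have n2 := cj_mem_N (L z) (H_le_N (RR_mem b c))
  have n3 := cj_mem_N (L z) (H_le_N (T_mem e))
  have e1 : chi ⁅LL x y, cj (L z) (T a) * cj (L z) (RR b c) * (cj (L z) (T e))⁻¹⁆
      = chi ⁅LL x y, cj (L z) (T a) * cj (L z) (RR b c)⁆ + chi ⁅LL x y, (cj (L z) (T e))⁻¹⁆ :=
    hF.map_mul _ ((N Q).mul_mem n1 n2) _ ((N Q).inv_mem n3)
  have e2 : chi ⁅LL x y, cj (L z) (T a) * cj (L z) (RR b c)⁆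
      = chi ⁅LL x y, cj (L z) (T a)⁆ + chi ⁅LL x y, cj (L z) (RR b c)⁆ := hF.map_mul _ n1 _ n2
  have e3 : chi ⁅LL x y, (cj (L z) (T e))⁻¹⁆ = - chi ⁅LL x y, cj (L z) (T e)⁆ := char_inv hF n3
  rw [cj_mul, cj_mul, cj_inv, e1, e2, e3, j28_LR hc (LL_mem x y) (LL_K2 x y) z b c]
  unfold BB PP
  abel

theorem j28_RL (z p : Q) : (L (p * z))⁻¹ * R z * L p = T (p * z) * RR p z * (T p)⁻¹ := by
  rw [mul_assoc, RL_eq]
  group

theorem j28_LLe (x y : Q) : (L (x * y))⁻¹ * L x * L y = LL x y := by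
  unfold LL
  rw [mul_assoc]

theorem A2_L (hc : IsChi chi) (hD : IsD2 chi d) (x y z : Q) : Ad d x y z = d z (LL x y • z) := by
  have hP := (BB_PP_forms hc).1
  have h := hD.smul (L (x * y)) z (LL x y • z) (sameN_of_mem (H_le_N (LL_mem x y)) z) ((mem_K.1 (LL_K2 x y)) z)
  rw [L_smul, L_smul, mul_LL, j28_LLe] at h
  have e := Q1 hc (LL_mem x y) (LL_K2 x y) (LL_mem (x * y) z) z
  have e0 : chi ⁅LL x y, cj (L z) (LL (x * y) z)⁆ = 0 := j28_p45 hP x y (x * y) z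
  unfold dis at e
  rw [← e, e0, add_zero] at h
  exact h

theorem A2_M (hc : IsChi chi) (hD : IsD2 chi d) (x y z : Q) : Ad d x y z = d y (MM x z • y) := by
  obtain ⟨hP, hB⟩ := BB_PP_forms hc
  have h := hD.smul (R z * L x) y (MM x z • y) (sameN_of_mem (H_le_N (MM_mem x z)) y) ((mem_K.1 (MM_K2 x z)) y)
  rw [mul_smul, mul_smul, L_smul, L_smul, R_smul, R_smul, MM_mul] at h
  have eh : (L (x * y * z))⁻¹ * (R z * L x) * L y = T ((x * y) * z) * RR (x * y) z * (T (x * y))⁻¹ * LL x y := by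
    rw [← j28_RL z (x * y), mul_assoc, mul_assoc (R z), LL_eq x y]
    group
  have hm1 : T ((x * y) * z) * RR (x * y) z * (T (x * y))⁻¹ ∈ H Q :=
    (H Q).mul_mem ((H Q).mul_mem (T_mem _) (RR_mem _ _)) ((H Q).inv_mem (T_mem _))
  have hm : T ((x * y) * z) * RR (x * y) z * (T (x * y))⁻¹ * LL x y ∈ H Q := (H Q).mul_mem hm1 (LL_mem _ _)
  have e := Q1 hc (MM_mem x z) (MM_K2 x z) hm y
  rw [FM hc hm x y z] at e
  have hF := F_char hc (LL_mem x y) (LL_K2 x y)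
  have e1 : chi ⁅LL x y, cj (L z) (T ((x * y) * z) * RR (x * y) z * (T (x * y))⁻¹) * cj (L z) (LL x y)⁆
      = chi ⁅LL x y, cj (L z) (T ((x * y) * z) * RR (x * y) z * (T (x * y))⁻¹)⁆ + chi ⁅LL x y, cj (L z) (LL x y)⁆ :=
    hF.map_mul _ (cj_mem_N _ (H_le_N hm1)) _ (cj_mem_N _ (H_le_N (LL_mem x y)))
  have e2 : chi ⁅LL x y, cj (L z) (LL x y)⁆ = 0 := j28_p13 hP x y y z
  have e3 : chi ⁅LL x y, cj (L z) (T ((x * y) * z) * RR (x * y) z * (T (x * y))⁻¹)⁆ = 0 := by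
    rw [j28_val hc, j28_ba4 hB, j28_ba4 hB, j28_b14 hB, j28_b24 hB, j28_b34 hB, j28_p35 hP]
    simp
  rw [cj_mul, e1, e2, e3] at e
  unfold dis at e
  rw [eh, ← e] at h
  unfold Ad
  rw [h]
  simp

theorem A2_R (hc : IsChi chi) (hD : IsD2 chi d) (x y z : Q) : Ad d x y z = - d x (RR y z • x) := by
  obtain ⟨hP, hB⟩ := BB_PP_forms hc
  have h := hD.smul (R (y * z)) x (RR y z • x) (sameN_of_mem (H_le_N (RR_mem y z)) x) ((mem_K.1 (RR_K2 y z)) x)
  rw [R_smul, R_smul, RR_mul, j28_RL] at h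
  have hm : T (x * (y * z)) * RR x (y * z) * (T x)⁻¹ ∈ H Q :=
    (H Q).mul_mem ((H Q).mul_mem (T_mem _) (RR_mem _ _)) ((H Q).inv_mem (T_mem _))
  have e := Q1 hc (RR_mem y z) (RR_K2 y z) hm x
  have e3 : chi ⁅LL x y, cj (L z) (T (x * (y * z)) * RR x (y * z) * (T x)⁻¹)⁆ = 0 := by
    rw [j28_val hc, j28_ba4 hB, j28_ba4 hB, j28_b14 hB, j28_b24 hB, j28_b34 hB, j28_pa5 hP, j28_p35 hP, j28_p25 hP]
    simp
  rw [FR hc hm x y z, e3] at e
  unfold dis at e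
  rw [← e] at h
  have s := sameN_assoc x y z
  have r := j28_rel x y z
  have a1 := hD.add _ _ _ s r (sameN_symm s) (rel_symm r)
  have a2 := hD.add _ _ _ (sameN_refl ((x * y) * z)) (rel_refl 2 _) (sameN_refl ((x * y) * z)) (rel_refl 2 _)
  have a3 : d ((x * y) * z) ((x * y) * z) = 0 := by simpa using a2
  rw [a3, h] at a1
  unfold Ad
  rw [eq_neg_iff_add_eq_zero]
  simpa using a1

theorem A2_pent (hc : IsChi chi) (hD : IsD2 chi d) (w x y z : Q) :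
    Ad d (w * x) y z + Ad d w x (y * z) = Ad d w x y + BB chi w x y z + Ad d w (x * y) z + Ad d x y z := by
  obtain ⟨hP, hB⟩ := BB_PP_forms hc
  unfold Ad
  -- first path
  have e1 := hD.add _ _ _ (sameN_assoc (w * x) y z) (j28_rel (w * x) y z) (sameN_assoc w x (y * z)) (j28_rel w x (y * z))
  -- second path
  have s1 : sameN (((w * x) * y) * z) ((w * (x * y)) * z) := sameN_smul (R z) (sameN_assoc w x y)
  have r1 : rel 2 (((w * x) * y) * z) ((w * (x * y)) * z) := rel_smul (R z) (j28_rel w x y)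
  have s3 : sameN (w * ((x * y) * z)) (w * (x * (y * z))) := sameN_smul (L w) (sameN_assoc x y z)
  have r3 : rel 2 (w * ((x * y) * z)) (w * (x * (y * z))) := rel_smul (L w) (j28_rel x y z)
  have e2 := hD.add _ _ _ s1 r1 (sameN_assoc w (x * y) z) (j28_rel w (x * y) z)
  have e3 := hD.add _ _ _ (sameN_trans s1 (sameN_assoc w (x * y) z)) (rel_trans r1 (j28_rel w (x * y) z)) s3 r3
  have f1 := hD.smul (R z) _ _ (sameN_assoc w x y) (j28_rel w x y)
  have f3 := hD.smul (L w) _ _ (sameN_assoc x y z) (j28_rel x y z)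
  rw [R_smul, R_smul, j28_RL] at f1
  rw [L_smul, L_smul, j28_LLe] at f3
  have hm : T (w * x * y * z) * RR (w * x * y) z * (T (w * x * y))⁻¹ ∈ H Q :=
    (H Q).mul_mem ((H Q).mul_mem (T_mem _) (RR_mem _ _)) ((H Q).inv_mem (T_mem _))
  have g1 : chi ⁅T (w * x * y * z) * RR (w * x * y) z * (T (w * x * y))⁻¹, L (ld (w * x * y) (w * (x * y)))⁆
      = BB chi w x y z := by
    rw [j28_L hc hm, j28_val hc, j28_ba4 hB (a := w) (b := x) (c := y) (d := w * x * y) (d' := z), j28_pa4 hP,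
      j28_pa4 hP, j28_p14 hP, j28_p24 hP, j28_p34 hP]
    abel
  have g3 : chi ⁅LL w (x * y * z), L (ld (x * y * z) (x * (y * z)))⁆ = 0 := by
    rw [j28_L hc (LL_mem _ _)]
    have e : chi ⁅LL x y, cj (L z) (LL w (x * y * z))⁆ = PP chi x y w (x * y * z) z := rfl
    rw [e, j28_pa4 hP, j28_pa4 hP, j28_p14 hP, j28_p24 hP, j28_p45 hP]
    simp
  rw [g1] at f1
  rw [g3, add_zero] at f3
  rw [e1, ← e3, ← e2, f1, f3]
-- J29
/-- step (3) -/
theorem j29_FG (hc : IsChi chi) {t : MG Q} (ht : t ∈ H Q) (ht2 : t ∈ K Q 2)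
    (hadd : ∀ p ∈ H Q, ∀ x y : Q, chi ⁅t, cj (L (x * y)) p⁆ = chi ⁅t, cj (L x) p⁆ + chi ⁅t, cj (L y) p⁆)
    (p : Q) {n : MG Q} (hn : n ∈ N Q) : chi ⁅t, n⁆ = chi ⁅sh t p, n⁆ := by
  have hF : IsChar (fun n => chi ⁅t, n⁆) := F_char hc ht ht2
  have hG : IsChar (fun n => chi ⁅sh t p, n⁆) := F_char hc (sh_mem ht p) (sh_mem_K ht2 p)
  refine char_ext hF hG ?_ hn
  intro φ hφ y
  show chi ⁅t, cj (L y) φ⁆ = chi ⁅sh t p, cj (L y) φ⁆
  have hNt : t ∈ N Q := H_le_N ht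
  have hs : sh t p ∈ H Q := sh_mem ht p
  have hs2 : sh t p ∈ K Q 2 := sh_mem_K ht2 p
  have he2 : dis t p ∈ Zs Q 2 := mem_K_iff_dis.1 ht2 p
  have heN : L (dis t p) ∈ N Q := L_dis_mem hNt p
  have h1e : sameN 1 (dis t p) := L_mem_N_iff.1 heN
  have r1e : rel 2 1 (dis t p) := rel_one_iff.2 he2
  -- `t (p y) = p (e (s y))`
  have key : t • (p * y) = p * (dis t p * (sh t p • y)) := by
    have h1 : L p * (cj (L p) t) = t * L p := by unfold cj; group
    rw [sh_eq] at h1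
    have h2 : (L p * (L (dis t p) * sh t p)) • y = (t * L p) • y := by rw [h1]
    rw [mul_smul, mul_smul, mul_smul] at h2
    rw [L_smul, L_smul, L_smul] at h2
    exact h2.symm
  have eA : chi ⁅φ, L (ld y (dis t p * y))⁆ = chi ⁅φ, L (dis t p)⁆ := by
    have h3 := DD_smul hc hφ (R y) h1e r1e
    rw [R_smul, R_smul, one_mul', ld_one] at h3
    exact h3
  have sy : sameN y (sh t p • y) := sameN_of_mem (H_le_N hs) y
  have ry : rel 2 y (sh t p • y) := mem_K.1 hs2 y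
  have eB : chi ⁅φ, L (ld (dis t p * y) (dis t p * (sh t p • y)))⁆ = chi ⁅φ, L (dis (sh t p) y)⁆ := by
    have h3 := DD_smul hc hφ (L (dis t p)) sy ry
    rw [L_smul, L_smul] at h3
    exact h3
  have s1 : sameN y (dis t p * y) := by
    have h3 := sameN_smul (R y) h1e
    rw [R_smul, R_smul, one_mul'] at h3
    exact h3
  have r1 : rel 2 y (dis t p * y) := by
    have h3 := rel_smul (R y) r1e
    rw [R_smul, R_smul, one_mul'] at h3
    exact h3
  have s2 : sameN (dis t p * y) (dis t p * (sh t p • y)) := by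
    have h3 := sameN_smul (L (dis t p)) sy
    rw [L_smul, L_smul] at h3
    exact h3
  have r2 : rel 2 (dis t p * y) (dis t p * (sh t p • y)) := by
    have h3 := rel_smul (L (dis t p)) ry
    rw [L_smul, L_smul] at h3
    exact h3
  have eC := DD_add hc hφ s1 r1 s2 r2
  have eD : chi ⁅φ, L (dis t (p * y))⁆ = chi ⁅φ, L (ld y (dis t p * (sh t p • y)))⁆ := by
    have h3 := DD_smul hc hφ (L p) (sameN_trans s1 s2) (rel_trans r1 r2)
    rw [L_smul, L_smul] at h3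
    unfold dis at h3 ⊢
    unfold dis at key
    rw [key]
    exact h3
  have q1 := Q1 hc ht ht2 hφ (p * y)
  have q2 := Q1 hc ht ht2 hφ p
  have q4 := Q1 hc hs hs2 hφ y
  have ha := hadd φ hφ p y
  rw [q4, ← eB]
  rw [q1, eD, ← eC, eA, q2] at ha
  exact (add_left_cancel ha).symm

/-- (9.4) -/
theorem A2_theta (hc : IsChi chi) (hD : IsD2 chi d) {t : MG Q} (ht : t ∈ H Q) (ht2 : t ∈ K Q 2)
    (hadd : ∀ p ∈ H Q, ∀ x y : Q, chi ⁅t, cj (L (x * y)) p⁆ = chi ⁅t, cj (L x) p⁆ + chi ⁅t, cj (L y) p⁆)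
    {p q : Q} (h : sameN p q) : d q (t • q) - d p (t • p) = dF (fun n => chi ⁅t, n⁆) p q := by
  obtain ⟨n, hn, rfl⟩ := h
  have hF : IsChar (fun n => chi ⁅t, n⁆) := F_char hc ht ht2
  have hNt : t ∈ N Q := H_le_N ht
  have hs : sh t p ∈ H Q := sh_mem ht p
  have hs2 : sh t p ∈ K Q 2 := sh_mem_K ht2 p
  have he2 : dis t p ∈ Zs Q 2 := mem_K_iff_dis.1 ht2 p
  have hLe2 : L (dis t p) ∈ K Q 2 := L_mem_K_iff.2 he2
  have heN : L (dis t p) ∈ N Q := L_dis_mem hNt p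
  have hκ1 : ⁅t, n⁆ ∈ K Q 1 := comm_K_N ht2 hn
  have hκN : ⁅t, n⁆ ∈ N Q := by
    rw [commutatorElement_def]
    exact (N Q).mul_mem ((N Q).mul_mem ((N Q).mul_mem hNt hn) ((N Q).inv_mem hNt)) ((N Q).inv_mem hn)
  have hmN : cj (L p) n ∈ N Q := cj_mem_N (L p) hn
  -- first part
  have sp : sameN p (t • p) := sameN_of_mem hNt p
  have rp : rel 2 p (t • p) := mem_K.1 ht2 p
  have s1 : sameN (n • p) (n • (t • p)) := sameN_smul n sp
  have r1 : rel 2 (n • p) (n • (t • p)) := rel_smul n rp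
  have s2 : sameN (n • (t • p)) (⁅t, n⁆ • (n • (t • p))) := sameN_of_mem hκN _
  have r2 : rel 2 (n • (t • p)) (⁅t, n⁆ • (n • (t • p))) := mem_K.1 (K_le_succ 1 hκ1) _
  have hA := hD.add _ _ _ s1 r1 s2 r2
  have htn : ⁅t, n⁆ • (n • (t • p)) = t • (n • p) := by
    rw [← mul_smul, ← mul_smul, ← mul_smul]
    congr 1
    rw [commutatorElement_def]; group
  rw [htn] at hA
  have hB := hD.one ⁅t, n⁆ hκ1 hκN (n • (t • p))
  rw [htn] at hB
  -- `chi (cj (L (n t p)) κ) = chi (cj (L p) κ)`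
  have hC : cj (L (n • (t • p))) ⁅t, n⁆ = cj (L p) ⁅t, n⁆ := by
    have h0 : (L ((n * t) • p))⁻¹ * (n * t) * L p ∈ H Q := trans_mem (n * t) p
    rw [mul_smul] at h0
    have hg : n * t ∈ N Q := (N Q).mul_mem hn hNt
    have c1 : ⁅t, n⁆ * (n * t) = (n * t) * ⁅t, n⁆ := K1_comm_N hκ1 hg
    have hk1 : cj (L p) ⁅t, n⁆ ∈ K Q 1 := by
      have h5 := (K_normal (Q := Q) 1).conj_mem _ hκ1 (L p)⁻¹
      rw [inv_inv] at h5
      exact h5
    have c2 := K1_comm_N hk1 (H_le_N h0)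
    generalize ⁅t, n⁆ = κ at c1 c2 ⊢
    generalize L (n • (t • p)) = X at c2 ⊢
    generalize n * t = g at c1 c2 ⊢
    unfold cj at c2 ⊢
    have c1' : g⁻¹ * κ * g = κ := by rw [mul_assoc, c1]; group
    -- c2 : (Lp⁻¹ κ Lp) (X⁻¹ g Lp) = (X⁻¹ g Lp) (Lp⁻¹ κ Lp)
    have c3 : X⁻¹ * g * L p * ((L p)⁻¹ * κ * L p) * (X⁻¹ * g * L p)⁻¹ = (L p)⁻¹ * κ * L p := by
      rw [← c2]; group
    have c4 : X⁻¹ * g * L p * ((L p)⁻¹ * κ * L p) * (X⁻¹ * g * L p)⁻¹ = X⁻¹ * (g * κ * g⁻¹) * X := by group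
    have c5 : g * κ * g⁻¹ = κ := by
      rw [← c1]; group
    rw [c5] at c4
    rw [← c4, c3]
  rw [hC, cj_comm, sh_eq t p] at hB
  have hB2 : chi ⁅L (dis t p) * sh t p, cj (L p) n⁆
      = chi ⁅L (dis t p), cj (L p) n⁆ + chi ⁅sh t p, cj (L p) n⁆ := chi_comm_mul_left hc hLe2 hs2 heN hmN
  rw [hB2] at hB
  -- second part
  have hS := hD.smul n p (t • p) sp rp
  -- the elements `c`, `h''`
  have hcN : L (ld p (n • p)) ∈ N Q := by
    have h5 := L_dis_mem hn p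
    exact h5
  set c := ld p (n • p) with hcdef
  have hpc : p * c = n • p := by rw [hcdef]; exact mul_ld p (n • p)
  set k := (L c)⁻¹ * cj (L p) n with hk
  have hkH : k ∈ H Q := by
    rw [mem_H, hk, mul_smul]
    have h5 : cj (L p) n • (1 : Q) = c := by
      unfold cj
      rw [mul_smul, mul_smul, L_smul, L_inv_smul, mul_one']
    rw [h5, L_inv_smul, ld_self]
  have hm : cj (L p) n = L c * k := by rw [hk]; group
  have hh : (L (n • p))⁻¹ * n * L p = LL p c * k := by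
    unfold LL
    rw [hk, hpc]
    unfold cj
    group
  rw [hh] at hS
  have hLLH : LL p c ∈ H Q := LL_mem p c
  have hLLN : LL p c ∈ N Q := H_le_N hLLH
  have hkN : k ∈ N Q := H_le_N hkH
  have e1 : chi ⁅LL p c * k, L (dis t p)⁆ = - chi ⁅L (dis t p), LL p c * k⁆ :=
    chi_comm_swap hc hLe2 ((N Q).mul_mem hLLN hkN)
  have e2 : chi ⁅L (dis t p), LL p c * k⁆ = chi ⁅L (dis t p), LL p c⁆ + chi ⁅L (dis t p), k⁆ :=
    chi_comm_mul_right hc hLe2 hLLN hkN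
  have e3 : chi ⁅LL p c, L (dis t p)⁆ = - chi ⁅L (dis t p), LL p c⁆ := chi_comm_swap hc hLe2 hLLN
  have e4 : chi ⁅L (dis t p), L c * k⁆ = chi ⁅L (dis t p), L c⁆ + chi ⁅L (dis t p), k⁆ :=
    chi_comm_mul_right hc hLe2 hcN hkN
  have e5 : chi ⁅L (dis t p), L c⁆ = 0 := by
    have h5 : ⁅L (dis t p), L c⁆ ∈ K Q 0 := V_comm he2 hcN
    rw [K_zero, Subgroup.mem_bot] at h5
    rw [h5, chi_one hc]
  have e6 : chi ⁅LL p c, L (dis t p)⁆ = 0 := by
    rw [← Q1 hc ht ht2 hLLH p]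
    have h5 := aF_L hF p c p
    have h6 : aF (fun n => chi ⁅t, n⁆) p c p = aF (fun n => chi ⁅t, n⁆) p 1 p :=
      aF_congr hF (sameN_refl p) (sameN_symm (L_mem_N_iff.1 hcN)) (sameN_refl p)
    have h7 : aF (fun n => chi ⁅t, n⁆) p 1 p = 0 := by
      unfold aF
      rw [mul_one', one_mul']
      exact dF_self hF _
    rw [h6, h7] at h5
    exact h5
  have e7 : chi ⁅sh t p, L c * k⁆ = chi ⁅sh t p, L c⁆ + chi ⁅sh t p, k⁆ :=
    chi_comm_mul_right hc hs2 hcN hkN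
  have e8 : chi ⁅sh t p, k⁆ = 0 := by
    have h5 : ⁅sh t p, k⁆ = 1 := by
      rw [commutatorElement_eq_one_iff_mul_comm]
      exact AbInn.comm _ hs _ hkH
    rw [h5, chi_one hc]
  have e9 : chi ⁅t, L c⁆ = chi ⁅sh t p, L c⁆ := j29_FG hc ht ht2 hadd p hcN
  have hS' : d (n • p) (n • (t • p)) = d p (t • p) + chi ⁅LL p c * k, L (dis t p)⁆ := hS
  show d (n • p) (t • (n • p)) - d p (t • p) = chi ⁅t, L (ld p (n • p))⁆
  rw [← hcdef, e9, ← hA, hB, hS', e1, e2, hm, e4, e7, e5, e8]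
  rw [e6] at e3
  have e10 : chi ⁅L (dis t p), LL p c⁆ = 0 := by
    rw [eq_comm, neg_eq_zero] at e3
    exact e3
  rw [e10]
  abel
-- J30
omit [Cl4 Q] in
/-- additivity on `H` follows from additivity on the generators -/
theorem j30_ind (hc : IsChi chi) {t : MG Q} (ht : t ∈ H Q) (ht2 : t ∈ K Q 2)
    (hT : ∀ f x y : Q, chi ⁅t, cj (L (x * y)) (T f)⁆ = chi ⁅t, cj (L x) (T f)⁆ + chi ⁅t, cj (L y) (T f)⁆)
    (hL : ∀ f g x y : Q, chi ⁅t, cj (L (x * y)) (LL f g)⁆ = chi ⁅t, cj (L x) (LL f g)⁆ + chi ⁅t, cj (L y) (LL f g)⁆)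
    (hR : ∀ f g x y : Q, chi ⁅t, cj (L (x * y)) (RR f g)⁆ = chi ⁅t, cj (L x) (RR f g)⁆ + chi ⁅t, cj (L y) (RR f g)⁆) :
    ∀ p ∈ H Q, ∀ x y : Q, chi ⁅t, cj (L (x * y)) p⁆ = chi ⁅t, cj (L x) p⁆ + chi ⁅t, cj (L y) p⁆ := by
  have hF : IsChar (fun n => chi ⁅t, n⁆) := F_char hc ht ht2
  have hone : ∀ g : MG Q, cj g (1 : MG Q) = 1 := by
    intro g
    unfold cj
    group
  have hmul : ∀ g : MG Q, ∀ a ∈ H Q, ∀ b ∈ H Q, chi ⁅t, cj g (a * b)⁆ = chi ⁅t, cj g a⁆ + chi ⁅t, cj g b⁆ := by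
    intro g a ha b hb
    rw [cj_mul]
    exact hF.map_mul _ (cj_mem_N _ (H_le_N ha)) _ (cj_mem_N _ (H_le_N hb))
  have hinv : ∀ g : MG Q, ∀ a ∈ H Q, chi ⁅t, cj g a⁻¹⁆ = - chi ⁅t, cj g a⁆ := by
    intro g a ha
    rw [cj_inv]
    exact char_inv hF (cj_mem_N _ (H_le_N ha))
  have h1 : chi ⁅t, (1 : MG Q)⁆ = 0 := char_one hF
  let S : Subgroup (MG Q) :=
    { carrier := {p | p ∈ H Q ∧ ∀ x y : Q,
        chi ⁅t, cj (L (x * y)) p⁆ = chi ⁅t, cj (L x) p⁆ + chi ⁅t, cj (L y) p⁆}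
      mul_mem' := by
        intro a b ha hb
        refine ⟨(H Q).mul_mem ha.1 hb.1, ?_⟩
        intro x y
        rw [hmul _ a ha.1 b hb.1, hmul _ a ha.1 b hb.1, hmul _ a ha.1 b hb.1, ha.2 x y, hb.2 x y]
        abel
      one_mem' := by
        refine ⟨(H Q).one_mem, ?_⟩
        intro x y
        rw [hone, hone, hone, h1, add_zero]
      inv_mem' := by
        intro a ha
        refine ⟨(H Q).inv_mem ha.1, ?_⟩
        intro x y
        rw [hinv _ a ha.1, hinv _ a ha.1, hinv _ a ha.1, ha.2 x y, neg_add] }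
  intro p hp
  have hpS : p ∈ S := H_ind S (fun f => ⟨T_mem f, hT f⟩) (fun f g => ⟨LL_mem f g, hL f g⟩)
    (fun f g => ⟨RR_mem f g, hR f g⟩) hp
  exact hpS.2

omit [Cl4 Q] in
/-- `RR` in terms of `LL` -/
theorem j30_RR (hc : IsChi chi) {t : MG Q} (ht : t ∈ H Q) (ht2 : t ∈ K Q 2) (x f g : Q) :
    chi ⁅t, cj (L x) (RR f g)⁆ = - chi ⁅t, cj (L g) (LL x f)⁆ := by
  have hF : IsChar (fun n => chi ⁅t, n⁆) := F_char hc ht ht2
  have h1 := aF_R hF x f g
  have h2 := aF_L hF x f g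
  rw [← h2] at h1
  exact h1

theorem j30_B2 (hc : IsChi chi) (a b b' c e : Q) :
    BB chi a (b * b') c e = BB chi a b c e + BB chi a b' c e := by
  have hB : Alt4 (BB chi) := (BB_PP_forms hc).2
  have hm : ∀ u, BB chi a u c e = - BB chi u a c e := fun u => hB.s12 u a c e
  rw [hm, hm, hm, hB.add1, neg_add]

theorem j30_B3 (hc : IsChi chi) (a b c c' e : Q) :
    BB chi a b (c * c') e = BB chi a b c e + BB chi a b c' e := by
  have hB : Alt4 (BB chi) := (BB_PP_forms hc).2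
  have hm : ∀ u, BB chi a b u e = - BB chi a u b e := fun u => hB.s23 a u b e
  rw [hm, hm, hm, j30_B2 hc, neg_add]

theorem j30_P2 (hc : IsChi chi) (a b b' c d e : Q) :
    PP chi a (b * b') c d e = PP chi a b c d e + PP chi a b' c d e := by
  have hP : Alt5 (PP chi) := (BB_PP_forms hc).1
  have hm : ∀ u, PP chi a u c d e = - PP chi u a c d e := fun u => hP.s12 u a c d e
  rw [hm, hm, hm, hP.add1, neg_add]

theorem j30_P1 (hc : IsChi chi) (a a' b c d e : Q) :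
    PP chi (a * a') b c d e = PP chi a b c d e + PP chi a' b c d e := (BB_PP_forms hc).1.add1 a a' b c d e

theorem j30_P3 (hc : IsChi chi) (a b c c' d e : Q) :
    PP chi a b (c * c') d e = PP chi a b c d e + PP chi a b c' d e := by
  have hP : Alt5 (PP chi) := (BB_PP_forms hc).1
  have hm : ∀ u, PP chi a b u d e = - PP chi a u b d e := fun u => hP.s23 a u b d e
  rw [hm, hm, hm, j30_P2 hc, neg_add]

theorem j30_P4 (hc : IsChi chi) (a b c d d' e : Q) :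
    PP chi a b c (d * d') e = PP chi a b c d e + PP chi a b c d' e := by
  have hP : Alt5 (PP chi) := (BB_PP_forms hc).1
  have hm : ∀ u, PP chi a b c u e = - PP chi a b u c e := fun u => hP.s34 a b u c e
  rw [hm, hm, hm, j30_P3 hc, neg_add]

theorem j30_P5 (hc : IsChi chi) (a b c d e e' : Q) :
    PP chi a b c d (e * e') = PP chi a b c d e + PP chi a b c d e' := by
  have hP : Alt5 (PP chi) := (BB_PP_forms hc).1
  have hm : ∀ u, PP chi a b c d u = - PP chi a b c u d := fun u => hP.s45 a b c u d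
  rw [hm, hm, hm, j30_P4 hc, neg_add]

/-- additivity for `LL` -/
theorem j30_addL (hc : IsChi chi) (x y : Q) : ∀ p ∈ H Q, ∀ a b : Q,
    chi ⁅LL x y, cj (L (a * b)) p⁆ = chi ⁅LL x y, cj (L a) p⁆ + chi ⁅LL x y, cj (L b) p⁆ := by
  refine j30_ind hc (LL_mem x y) (LL_K2 x y) ?_ ?_ ?_
  · intro f a b
    exact j30_B3 hc x y a b f
  · intro f g a b
    exact j30_P5 hc x y f g a b
  · intro f g a b
    rw [j30_RR hc (LL_mem x y) (LL_K2 x y), j30_RR hc (LL_mem x y) (LL_K2 x y), j30_RR hc (LL_mem x y) (LL_K2 x y)]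
    have h := j30_P3 hc x y a b f g
    unfold PP at h
    rw [h, neg_add]

/-- additivity for `MM` -/
theorem j30_addM (hc : IsChi chi) (x z : Q) : ∀ p ∈ H Q, ∀ a b : Q,
    chi ⁅MM x z, cj (L (a * b)) p⁆ = chi ⁅MM x z, cj (L a) p⁆ + chi ⁅MM x z, cj (L b) p⁆ := by
  refine j30_ind hc (MM_mem x z) (MM_K2 x z) ?_ ?_ ?_
  · intro f a b
    rw [FM hc (T_mem f), FM hc (T_mem f), FM hc (T_mem f)]
    exact j30_B2 hc x a b z f
  · intro f g a b
    rw [FM hc (LL_mem f g), FM hc (LL_mem f g), FM hc (LL_mem f g)]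
    exact j30_P2 hc x a b f g z
  · intro f g a b
    rw [FM hc (RR_mem f g), FM hc (RR_mem f g), FM hc (RR_mem f g),
      j30_RR hc (LL_mem _ _) (LL_K2 _ _), j30_RR hc (LL_mem _ _) (LL_K2 _ _), j30_RR hc (LL_mem _ _) (LL_K2 _ _)]
    have h := j30_P2 hc x a b z f g
    unfold PP at h
    rw [h, neg_add]

/-- additivity for `RR` -/
theorem j30_addR (hc : IsChi chi) (y z : Q) : ∀ p ∈ H Q, ∀ a b : Q,
    chi ⁅RR y z, cj (L (a * b)) p⁆ = chi ⁅RR y z, cj (L a) p⁆ + chi ⁅RR y z, cj (L b) p⁆ := by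
  refine j30_ind hc (RR_mem y z) (RR_K2 y z) ?_ ?_ ?_
  · intro f a b
    rw [FR hc (T_mem f), FR hc (T_mem f), FR hc (T_mem f)]
    have h := (BB_PP_forms hc).2.add1 a b y z f
    unfold BB at h
    rw [h, neg_add]
  · intro f g a b
    rw [FR hc (LL_mem f g), FR hc (LL_mem f g), FR hc (LL_mem f g)]
    have h := j30_P1 hc a b y f g z
    unfold PP at h
    rw [h, neg_add]
  · intro f g a b
    rw [FR hc (RR_mem f g), FR hc (RR_mem f g), FR hc (RR_mem f g),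
      j30_RR hc (LL_mem _ _) (LL_K2 _ _), j30_RR hc (LL_mem _ _) (LL_K2 _ _), j30_RR hc (LL_mem _ _) (LL_K2 _ _)]
    have h := j30_P1 hc a b y z f g
    unfold PP at h
    rw [h, neg_add, neg_add]

/-- `kF` for the character `chi ⁅t, ·⁆` -/
theorem j30_kF (hc : IsChi chi) {t : MG Q} (ht : t ∈ H Q) (ht2 : t ∈ K Q 2) (x u : Q) :
    dF (fun n => chi ⁅t, n⁆) (u * x) (x * u) = chi ⁅t, cj (L x) (T u)⁆ := by
  have h := kF_T (F_char hc ht ht2) x u
  exact h.symm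

/-- the values at `k = (yx)\(xy)` -/
theorem j30_k (hc : IsChi chi) (hD : IsD2 chi d) {t : MG Q} (ht : t ∈ H Q) (ht2 : t ∈ K Q 2)
    (hadd : ∀ p ∈ H Q, ∀ x y : Q, chi ⁅t, cj (L (x * y)) p⁆ = chi ⁅t, cj (L x) p⁆ + chi ⁅t, cj (L y) p⁆) (x y : Q) :
    d (ld (y * x) (x * y)) (t • ld (y * x) (x * y)) = chi ⁅t, cj (L x) (T y)⁆ := by
  have hk : L (ld (y * x) (x * y)) ∈ N Q := sameN_iff.1 (sameN_comm y x)
  have h1 : sameN (1 : Q) (ld (y * x) (x * y)) := L_mem_N_iff.1 hk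
  have h := A2_theta hc hD ht ht2 hadd h1
  have ht1 : t • (1 : Q) = 1 := ht
  have h11 : d (1 : Q) 1 = 0 := by
    have h2 := hD.add 1 1 1 (sameN_refl 1) (rel_refl 2 1) (sameN_refl 1) (rel_refl 2 1)
    simpa using h2
  rw [ht1, h11, sub_zero] at h
  rw [h, ← j30_kF hc ht ht2 x y]
  unfold dF
  rw [ld_one]

theorem A2_comm1 (hc : IsChi chi) (hD : IsD2 chi d) (s t y z : Q) :
    Ad d (s * t) y z - Ad d (t * s) y z = BB chi s t y z := by
  have hB : Alt4 (BB chi) := (BB_PP_forms hc).2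
  have h := A2_theta hc hD (RR_mem y z) (RR_K2 y z) (j30_addR hc y z) (sameN_comm t s)
  rw [j30_kF hc (RR_mem y z) (RR_K2 y z) s t, FR hc (T_mem t)] at h
  rw [A2_R hc hD, A2_R hc hD]
  have h2 : chi ⁅LL s y, cj (L z) (T t)⁆ = BB chi s t y z := by
    have e1 := hB.s34 s y t z
    have e2 := hB.s23 s t y z
    have e3 : BB chi s y z t = BB chi s t y z := by
      rw [e1, e2, neg_neg]
    exact e3
  rw [h2] at h
  have h3 : - d (s * t) (RR y z • (s * t)) - - d (t * s) (RR y z • (t * s))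
      = - (d (s * t) (RR y z • (s * t)) - d (t * s) (RR y z • (t * s))) := by abel
  rw [h3, h, neg_neg]

theorem A2_comm2 (hc : IsChi chi) (hD : IsD2 chi d) (x s t z : Q) :
    Ad d x (s * t) z - Ad d x (t * s) z = - BB chi x s t z := by
  have hB : Alt4 (BB chi) := (BB_PP_forms hc).2
  have h := A2_theta hc hD (MM_mem x z) (MM_K2 x z) (j30_addM hc x z) (sameN_comm t s)
  rw [j30_kF hc (MM_mem x z) (MM_K2 x z) s t, FM hc (T_mem t)] at h
  rw [A2_M hc hD, A2_M hc hD, h]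
  exact hB.s34 x s t z

theorem A2_comm3 (hc : IsChi chi) (hD : IsD2 chi d) (x y s t : Q) :
    Ad d x y (s * t) - Ad d x y (t * s) = BB chi x y s t := by
  have h := A2_theta hc hD (LL_mem x y) (LL_K2 x y) (j30_addL hc x y) (sameN_comm t s)
  rw [j30_kF hc (LL_mem x y) (LL_K2 x y) s t] at h
  rw [A2_L hc hD, A2_L hc hD, h]
  rfl

/-- shifts by an element `k = (yx)\(xy)` of a trivial entry -/
theorem A2_k1 (hc : IsChi chi) (hD : IsD2 chi d) (x y t z : Q) :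
    Ad d (ld (y * x) (x * y)) t z = BB chi x y t z := by
  have hB : Alt4 (BB chi) := (BB_PP_forms hc).2
  rw [A2_R hc hD, j30_k hc hD (RR_mem t z) (RR_K2 t z) (j30_addR hc t z) x y, FR hc (T_mem y), neg_neg]
  have e1 := hB.s34 x t y z
  have e2 := hB.s23 x y t z
  have e3 : BB chi x t z y = BB chi x y t z := by
    rw [e1, e2, neg_neg]
  exact e3

theorem A2_k2 (hc : IsChi chi) (hD : IsD2 chi d) (x y t z : Q) :
    Ad d t (ld (y * x) (x * y)) z = - BB chi x y t z := by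
  have hB : Alt4 (BB chi) := (BB_PP_forms hc).2
  rw [A2_M hc hD, j30_k hc hD (MM_mem t z) (MM_K2 t z) (j30_addM hc t z) x y, FM hc (T_mem y)]
  have e0 := hB.s12 x t z y
  have e1 := hB.s34 x t y z
  have e2 := hB.s23 x y t z
  have e3 : BB chi t x z y = - BB chi x y t z := by
    rw [e0, e1, e2, neg_neg]
  exact e3

theorem A2_k3 (hc : IsChi chi) (hD : IsD2 chi d) (x y t z : Q) :
    Ad d t z (ld (y * x) (x * y)) = BB chi x y t z := by
  have hB : Alt4 (BB chi) := (BB_PP_forms hc).2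
  rw [A2_L hc hD, j30_k hc hD (LL_mem t z) (LL_K2 t z) (j30_addL hc t z) x y]
  have e0 := hB.s23 t x z y
  have e1 := hB.s12 x t z y
  have e2 := hB.s34 x t y z
  have e3 := hB.s23 x y t z
  have e4 : BB chi t z x y = BB chi x y t z := by
    rw [e0, e1, e2, e3]
    simp
  exact e4

/-- product rule -/
theorem D2_mul (hc : IsChi chi) (hD : IsD2 chi d) {t p : MG Q} (ht : t ∈ H Q) (ht2 : t ∈ K Q 2) (hp : p ∈ H Q)
    (hp2 : p ∈ K Q 2) (x : Q) :
    d x ((t * p) • x) = d x (t • x) + d x (p • x) + (chi ⁅p, cj (L (x * x)) t⁆ - chi ⁅p, cj (L x) t⁆) := by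
  have hs1 : sameN x (t • x) := sameN_of_mem (H_le_N ht) x
  have hr1 : rel 2 x (t • x) := ht2 x
  have hs2 : sameN x (p • x) := sameN_of_mem (H_le_N hp) x
  have hr2 : rel 2 x (p • x) := hp2 x
  have h1 := hD.add x (t • x) (t • (p • x)) hs1 hr1 (sameN_smul t hs2) (rel_smul t hr2)
  have h2 := hD.smul t x (p • x) hs2 hr2
  have hh : (L (t • x))⁻¹ * t * L x = LL x (dis t x) * sh t x := by
    unfold LL sh cj
    rw [mul_dis]
    group
  have hhH : (L (t • x))⁻¹ * t * L x ∈ H Q := trans_mem t x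
  have h3 : chi ⁅p, cj (L x) ((L (t • x))⁻¹ * t * L x)⁆ = chi ⁅(L (t • x))⁻¹ * t * L x, L (dis p x)⁆ :=
    Q1 hc hp hp2 hhH x
  have hF : IsChar (fun n => chi ⁅p, n⁆) := F_char hc hp hp2
  have h4 : chi ⁅p, cj (L x) (LL x (dis t x) * sh t x)⁆
      = chi ⁅p, cj (L x) (LL x (dis t x))⁆ + chi ⁅p, cj (L x) (sh t x)⁆ := by
    rw [cj_mul]
    exact hF.map_mul _ (cj_mem_N _ (H_le_N (LL_mem _ _))) _ (cj_mem_N _ (H_le_N (sh_mem ht x)))
  have hK1 : LL x (dis t x) ∈ K Q 1 := LLN2 (L_dis_mem (H_le_N ht) x) x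
  have hK1' : cj (L x) (LL x (dis t x)) ∈ K Q 1 := by
    have h := (K_normal (Q := Q) 1).conj_mem _ hK1 (L x)⁻¹
    rw [inv_inv] at h
    exact h
  have h5 : chi ⁅p, cj (L x) (LL x (dis t x))⁆ = 0 := by
    have h6 := K1_comm_N hK1' (H_le_N hp)
    have h7 : ⁅p, cj (L x) (LL x (dis t x))⁆ = 1 := by
      rw [commutatorElement_def, ← h6]
      group
    rw [h7]
    exact chi_one hc
  have h8 := F_sh hc hp hp2 ht ht2 x x
  have h9 : L (ld x (p • x)) = L (dis p x) := rfl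
  rw [mul_smul, ← h1, h2, h9, ← h3, hh, h4, h5, h8]
  abel
end L2

end Pool.Agent.AIM3
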