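import Pool.Agent.AIM3.PL2

set_option autoImplicit false
set_option linter.unusedVariables false
set_option linter.unusedSectionVars false

namespace Pool.Agent.AIM3

open scoped commutatorElement

/-- alternating sum -/
def Alt6 {Q W : Type} [AddCommGroup W] (A : Q → Q → Q → W) (x y z : Q) : W :=
  A x y z - A y x z + A y z x - A z y x + A z x y - A x z y

-- J31
/-- (9.5) -/
theorem ALT {Q : Type} [Mul Q] {W : Type} [AddCommGroup W] (A : Q → Q → Q → W) (B : Q → Q → Q → Q → W) (hB : Alt4 B)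
    (hpent : ∀ w x y z, A (w * x) y z + A w x (y * z) = A w x y + B w x y z + A w (x * y) z + A x y z)
    (h1 : ∀ s t y z, A (s * t) y z - A (t * s) y z = B s t y z)
    (h2 : ∀ x s t z, A x (s * t) z - A x (t * s) z = - B x s t z)
    (h3 : ∀ x y s t, A x y (s * t) - A x y (t * s) = B x y s t) (x y t z : Q) :
    Alt6 A x y (t * z) = Alt6 A x y t + Alt6 A x y z - (B x y t z + B x y t z + B x y t z) := by
  unfold Alt6
  linear_combination (norm := abel) hpent x y t z - hpent x t y z + hpent x t z y - hpent y x t z + hpent y t x z - hpent y t z x + hpent t x y z - hpent t x z y - hpent t y x z + hpent t y z x + hpent t z x y - hpent t z y x - h2 x t y z - h3 x t z y + h1 y x t z + h2 y t x z + h3 y t z x - h1 t x y z + h1 t x z y + h3 t x z y + h1 t y x z - h2 t y x z - h1 t y z x - h3 t y z x + h2 t z x y + h3 t z y x - h2 t z y x + hB.s23 t y z x - hB.s12 y t z x - hB.s12 y t z x + hB.s12 x t z y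 + hB.s12 y t x z + hB.s34 y t x z + hB.s34 y t x z - hB.s34 x t y z - hB.s23 y x t z - hB.s23 y x t z - hB.s23 y x t z + hB.s23 x y t z + hB.s12 x y t z + hB.s12 x y t z + hB.s12 x y t z


section L3
variable {Q : Type} [Lp Q] [AbInn Q] [Cl4 Q]

-- J32
theorem j32_chi {chi : MG Q → AddCircle (1 : ℚ)} (hc : IsChi chi) {κ : MG Q} (hκ : κ ∈ K Q 1) :
    chi κ = chi (L (κ • (1 : Q))) := by
  have hz : L (κ • (1 : Q)) ∈ K Q 1 := L_mem_K_iff.2 (smul_one_mem hκ)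
  have hθ : (L (κ • (1 : Q)))⁻¹ * κ ∈ K Q 1 := (K Q 1).mul_mem ((K Q 1).inv_mem hz) hκ
  have hH : (L (κ • (1 : Q)))⁻¹ * κ ∈ H Q := by
    rw [mem_H, mul_smul, L_inv_smul, ld_self]
  have e : κ = L (κ • (1 : Q)) * ((L (κ • (1 : Q)))⁻¹ * κ) := by group
  calc chi κ = chi (L (κ • (1 : Q)) * ((L (κ • (1 : Q)))⁻¹ * κ)) := by rw [← e]
    _ = chi (L (κ • (1 : Q))) + chi ((L (κ • (1 : Q)))⁻¹ * κ) := hc.map_mul _ hz _ hθ
    _ = chi (L (κ • (1 : Q))) := by rw [hc.map_H _ hH hθ, add_zero]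

theorem j32_LL {e c : Q} (he : e ∈ Zs Q 2) (hcN : L c ∈ N Q) : L (e * c) = L e * L c := by
  have h : LL e c ∈ K Q 0 := V_LL1 (k := 0) he hcN
  rw [K_zero, Subgroup.mem_bot] at h
  rw [LL_eq, h, mul_one]

theorem j32_mem2 {e c : Q} (he : e ∈ Zs Q 2) (hcN : L c ∈ N Q) (hc2 : c ∈ Zs Q 2) :
    e * c ∈ Zs Q 2 := by
  rw [← L_mem_K_iff, j32_LL he hcN]
  exact (K Q 2).mul_mem (L_mem_K_iff.2 he) (L_mem_K_iff.2 hc2)

theorem j32_inv {e : Q} (he : e ∈ Zs Q 2) (heN : L e ∈ N Q) :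
    ∃ c : Q, c ∈ Zs Q 2 ∧ L c ∈ N Q ∧ (L e)⁻¹ = L c := by
  have h1 : (L e)⁻¹ • (1 : Q) ∈ Zs Q 2 :=
    smul_one_mem ((K Q 2).inv_mem (L_mem_K_iff.2 he))
  have h2 : L ((L e)⁻¹ • (1 : Q)) ∈ N Q := L_mem_N_iff.2 ⟨(L e)⁻¹, (N Q).inv_mem heN, rfl⟩
  refine ⟨(L e)⁻¹ • (1 : Q), h1, h2, ?_⟩
  have h3 := j32_LL he h2
  rw [L_inv_smul, mul_ld, L_one] at h3
  rw [L_inv_smul]
  exact inv_eq_of_mul_eq_one_right h3.symm

/-- the group of the `L e * κ` -/
def j32_P (Q : Type) [Lp Q] [AbInn Q] [Cl4 Q] : Subgroup (MG Q) where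
  carrier := {g | ∃ e : Q, ∃ κ ∈ K Q 1, e ∈ Zs Q 2 ∧ L e ∈ N Q ∧ g = L e * κ}
  mul_mem' := by
    rintro a b ⟨e, κ, hκ, he, heN, rfl⟩ ⟨c, l, hl, hc, hcN, rfl⟩
    refine ⟨e * c, κ * l, (K Q 1).mul_mem hκ hl, j32_mem2 he hcN hc, ?_, ?_⟩
    · rw [j32_LL he hcN]
      exact (N Q).mul_mem heN hcN
    · rw [j32_LL he hcN]
      have h := K1_comm_N hκ hcN
      calc L e * κ * (L c * l) = L e * (κ * L c) * l := by group
        _ = L e * (L c * κ) * l := by rw [h]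
        _ = L e * L c * (κ * l) := by group
  one_mem' := by
    refine ⟨1, 1, (K Q 1).one_mem, ?_, ?_, ?_⟩
    · rw [← L_mem_K_iff, L_one]
      exact (K Q 2).one_mem
    · rw [L_one]
      exact (N Q).one_mem
    · rw [L_one, mul_one]
  inv_mem' := by
    rintro a ⟨e, κ, hκ, he, heN, rfl⟩
    obtain ⟨c, hc, hcN, hinv⟩ := j32_inv he heN
    refine ⟨c, κ⁻¹, (K Q 1).inv_mem hκ, hc, hcN, ?_⟩
    have h := K1_comm_N ((K Q 1).inv_mem hκ) hcN
    rw [mul_inv_rev, hinv, h]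

theorem j32_Pcomm {a b : MG Q} (ha : a ∈ j32_P Q) (hb : b ∈ j32_P Q) : a * b = b * a := by
  obtain ⟨e, κ, hκ, he, heN, rfl⟩ := ha
  obtain ⟨c, l, hl, hc, hcN, rfl⟩ := hb
  have h1 : L e * L c = L c * L e := by
    have h : ⁅L e, L c⁆ ∈ K Q 0 := V_comm (k := 0) he hcN
    rw [K_zero, Subgroup.mem_bot] at h
    exact commutatorElement_eq_one_iff_mul_comm.1 h
  have h2 : κ * L c = L c * κ := K1_comm_N hκ hcN
  have h3 : l * L e = L e * l := K1_comm_N hl heN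
  have h4 : κ * l = l * κ := K1_comm hκ hl
  calc L e * κ * (L c * l) = L e * (κ * L c) * l := by group
    _ = L e * (L c * κ) * l := by rw [h2]
    _ = (L e * L c) * (κ * l) := by group
    _ = (L c * L e) * (l * κ) := by rw [h1, h4]
    _ = L c * (L e * l) * κ := by group
    _ = L c * (l * L e) * κ := by rw [h3]
    _ = L c * l * (L e * κ) := by group

theorem j32_ext {chi : MG Q → AddCircle (1 : ℚ)} (hc : IsChi chi) :
    ∃ t : MG Q → AddCircle (1 : ℚ), (∀ a ∈ j32_P Q, ∀ b ∈ j32_P Q, t (a * b) = t a + t b) ∧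
      ∀ a ∈ K Q 1, t a = chi a := by
  classical
  obtain ⟨t, ht1, ht2⟩ := EXT (P := j32_P Q) ((K Q 1).subgroupOf (j32_P Q)) (fun a => chi a)
    (fun a ha b hb => hc.map_mul _ ha _ hb) (fun a b => by
      have h : ⁅a, b⁆ = 1 :=
        commutatorElement_eq_one_iff_mul_comm.2 (Subtype.ext (j32_Pcomm a.2 b.2))
      rw [h]
      exact ⟨Subgroup.one_mem _, chi_one hc⟩)
  refine ⟨fun g => if h : g ∈ j32_P Q then t ⟨g, h⟩ else 0, ?_, ?_⟩
  · intro a ha b hb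
    beta_reduce
    rw [dif_pos ha, dif_pos hb, dif_pos ((j32_P Q).mul_mem ha hb)]
    exact ht1 ⟨a, ha⟩ ⟨b, hb⟩
  · intro a ha
    have haP : a ∈ j32_P Q := by
      refine ⟨1, a, ha, ?_, ?_, ?_⟩
      · rw [← L_mem_K_iff, L_one]
        exact (K Q 2).one_mem
      · rw [L_one]
        exact (N Q).one_mem
      · rw [L_one, one_mul]
    beta_reduce
    rw [dif_pos haP]
    exact ht2 ⟨a, haP⟩ ha

theorem j32_LP {e : Q} (he : e ∈ Zs Q 2) (heN : L e ∈ N Q) : L e ∈ j32_P Q :=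
  ⟨e, 1, (K Q 1).one_mem, he, heN, (mul_one _).symm⟩

theorem j32_KP {a : MG Q} (ha : a ∈ K Q 1) : a ∈ j32_P Q := by
  refine ⟨1, a, ha, ?_, ?_, ?_⟩
  · rw [← L_mem_K_iff, L_one]
    exact (K Q 2).one_mem
  · rw [L_one]
    exact (N Q).one_mem
  · rw [L_one, one_mul]

theorem exists_D2 {chi : MG Q → AddCircle (1 : ℚ)} (hc : IsChi chi) : ∃ d, IsD2 chi d := by
  obtain ⟨t, ht1, ht2⟩ := j32_ext hc
  refine ⟨fun p q => t (L (ld p q)), ?_, ?_, ?_⟩
  · intro p q r h1 h1' h2 h2'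
    have he : ld p q ∈ Zs Q 2 := h1'
    have he' : ld q r ∈ Zs Q 2 := h2'
    have heN : L (ld p q) ∈ N Q := sameN_iff.1 h1
    have heN' : L (ld q r) ∈ N Q := sameN_iff.1 h2
    have h3 := rel_zero_iff.1 (V_assoc1 (k := 0) he heN' p)
    rw [mul_ld, mul_ld] at h3
    have h4 : ld p r = ld p q * ld q r := by
      conv_lhs => rw [← h3, ld_mul]
    show t (L (ld p q)) + t (L (ld q r)) = t (L (ld p r))
    rw [h4, j32_LL he heN', ht1 _ (j32_LP he heN) _ (j32_LP he' heN')]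
  · intro g p q h1 h2
    have he : ld p q ∈ Zs Q 2 := h2
    have heN : L (ld p q) ∈ N Q := sameN_iff.1 h1
    have hu : (L (g • p))⁻¹ * g * L p ∈ H Q := trans_mem g p
    have huN : (L (g • p))⁻¹ * g * L p ∈ N Q := H_le_N hu
    have e1 : ld (g • p) (g • q) = ((L (g • p))⁻¹ * g * L p) • ld p q := by
      rw [mul_smul, mul_smul, L_smul, mul_ld, L_inv_smul]
    show t (L (ld (g • p) (g • q))) = t (L (ld p q)) +
      chi ⁅(L (g • p))⁻¹ * g * L p, L (ld p q)⁆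
    rw [e1]
    generalize (L (g • p))⁻¹ * g * L p = u at *
    generalize ld p q = e at *
    have hz : dis u e ∈ Zs Q 1 := mem_Zs_succ.1 he u hu
    have hzN : L (dis u e) ∈ N Q := L_dis_mem huN e
    have hzK : L (dis u e) ∈ K Q 1 := L_mem_K_iff.2 hz
    have e2 : u • e = e * dis u e := (mul_dis u e).symm
    rw [e2, j32_LL he hzN, ht1 _ (j32_LP he heN) _ (j32_KP hzK), ht2 _ hzK]
    congr 1
    have hκ : ⁅u, L e⁆ ∈ K Q 1 := comm_N_K (k := 1) (L_mem_K_iff.2 he) huN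
    rw [j32_chi hc hκ]
    have hu1 : u⁻¹ • (1 : Q) = 1 := by
      rw [inv_smul_eq_iff]
      exact (mem_H.1 hu).symm
    have e3 : ⁅u, L e⁆ • e = u • e := by
      rw [commutatorElement_def, mul_smul, mul_smul, mul_smul, L_inv_smul, ld_self, hu1, L_smul,
        mul_one']
    have e4 : dis ⁅u, L e⁆ e = dis u e := by
      unfold dis
      rw [e3]
    have e5 : dis ⁅u, L e⁆ (1 : Q) = dis ⁅u, L e⁆ e := by
      have h := rel_zero_iff.1 (K_orbit (k := 0) hκ heN (1 : Q))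
      rwa [L_smul, mul_one'] at h
    have e6 : dis ⁅u, L e⁆ (1 : Q) = ⁅u, L e⁆ • (1 : Q) := by
      unfold dis
      rw [ld_one]
    rw [← e6, e5, e4]
  · intro κ hκ hκN p
    have hz : ld p (κ • p) ∈ Zs Q 1 := hκ p
    have hzK : L (ld p (κ • p)) ∈ K Q 1 := L_mem_K_iff.2 hz
    show t (L (ld p (κ • p))) = chi (cj (L p) κ)
    have hcj : cj (L p) κ ∈ K Q 1 := by
      unfold cj
      have h := (K_normal (Q := Q) 1).conj_mem κ hκ (L p)⁻¹
      rwa [inv_inv] at h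
    have e1 : cj (L p) κ • (1 : Q) = ld p (κ • p) := by
      unfold cj
      rw [mul_smul, mul_smul, L_smul, mul_one', L_inv_smul]
    rw [ht2 _ hzK, j32_chi hc hcj, e1]

variable {W : Type} [AddCommGroup W] {chi : MG Q → W} {d : Q → Q → W}

-- J33
theorem j33_z5 {P : Q → Q → Q → Q → Q → W} (h : Alt5 P) :
    (∀ a c d e, P a a c d e = 0) ∧ (∀ a b d e, P a b a d e = 0) ∧ (∀ a b c e, P a b c a e = 0) ∧
    (∀ a b c d, P a b c d a = 0) ∧ (∀ a b d e, P a b b d e = 0) ∧ (∀ a b c e, P a b c b e = 0) ∧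
    (∀ a b c d, P a b c d b = 0) ∧ (∀ a b c e, P a b c c e = 0) ∧ (∀ a b c d, P a b c d c = 0) ∧
    (∀ a b c d, P a b c d d = 0) := by
  have z12 := h.z12
  have z13 : ∀ a b d e, P a b a d e = 0 := fun a b d e => by rw [h.s23, z12, neg_zero]
  have z14 : ∀ a b c e, P a b c a e = 0 := fun a b c e => by rw [h.s34, z13, neg_zero]
  have z15 : ∀ a b c d, P a b c d a = 0 := fun a b c d => by rw [h.s45, z14, neg_zero]
  have z23 : ∀ a b d e, P a b b d e = 0 := fun a b d e => by rw [h.s12, z13, neg_zero]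
  have z24 : ∀ a b c e, P a b c b e = 0 := fun a b c e => by rw [h.s34, z23, neg_zero]
  have z25 : ∀ a b c d, P a b c d b = 0 := fun a b c d => by rw [h.s45, z24, neg_zero]
  have z34 : ∀ a b c e, P a b c c e = 0 := fun a b c e => by rw [h.s23, z24, neg_zero]
  have z35 : ∀ a b c d, P a b c d c = 0 := fun a b c d => by rw [h.s45, z34, neg_zero]
  have z45 : ∀ a b c d, P a b c d d = 0 := fun a b c d => by rw [h.s34, z35, neg_zero]
  exact ⟨z12, z13, z14, z15, z23, z24, z25, z34, z35, z45⟩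

theorem j33_z4 {X : Q → Q → Q → Q → W} (h : Alt4 X) (x y z : Q) :
    X x y (y * x) z = 0 ∧ X x y z (y * x) = 0 := by
  have h1 : X x y (y * x) z = 0 := by
    rw [h.s23, h.s12, neg_neg, h.add1, h.z12, add_zero, h.s23, h.z12, neg_zero]
  refine ⟨h1, ?_⟩
  rw [h.s34, h1, neg_zero]

theorem j33_LL (hc : IsChi chi) (c e a b w : Q) :
    chi ⁅LL c e, cj (L w) (LL a b)⁆ = PP chi c e a b w ∧
    chi ⁅LL c e, cj (L w) (MM a b)⁆ = PP chi c e a w b ∧
    chi ⁅LL c e, cj (L w) (RR a b)⁆ = - PP chi c e w a b := by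
  have hF := F_char hc (LL_mem c e) (LL_K2 c e)
  refine ⟨rfl, (aF_M hF a w b).trans (aF_L hF a w b).symm, ?_⟩
  exact (aF_R hF w a b).trans (congrArg Neg.neg (aF_L hF w a b).symm)

/-- the elements used -/
def j33_S (x y : Q) : Set (MG Q) := {s | (s ∈ H Q ∧ s ∈ K Q 1) ∨
  ∃ a b : Q, ((a = x ∧ b = y) ∨ (a = y ∧ b = x)) ∧ (s = LL a b ∨ s = MM a b ∨ s = RR a b)}

theorem j33_SHK {x y : Q} {s : MG Q} (hs : s ∈ j33_S x y) : s ∈ H Q ∧ s ∈ K Q 2 := by
  rcases hs with ⟨h1, h2⟩ | ⟨a, b, -, rfl | rfl | rfl⟩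
  · exact ⟨h1, K_le_succ 1 h2⟩
  · exact ⟨LL_mem a b, LL_K2 a b⟩
  · exact ⟨MM_mem a b, MM_K2 a b⟩
  · exact ⟨RR_mem a b, RR_K2 a b⟩

theorem j33_pair (hc : IsChi chi) {x y : Q} {s t : MG Q} (hs : s ∈ j33_S x y) (ht : t ∈ j33_S x y) (w : Q) :
    chi ⁅s, cj (L w) t⁆ = 0 := by
  obtain ⟨hsH, hs2⟩ := j33_SHK hs
  obtain ⟨htH, ht2⟩ := j33_SHK ht
  rcases hs with ⟨h1, h2⟩ | ⟨c, e, hce, hs'⟩
  · have h3 := K1_comm_N h2 (cj_mem_N (L w) (H_le_N htH))
    rw [commutatorElement_eq_one_iff_mul_comm.2 h3, chi_one hc]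
  rcases ht with ⟨h1, h2⟩ | ⟨a, b, hab, ht'⟩
  · have h4 : cj (L w) t ∈ K Q 1 := by
      unfold cj
      have := (K_normal (Q := Q) 1).conj_mem t h2 (L w)⁻¹
      rwa [inv_inv] at this
    have h3 := K1_comm_N h4 (H_le_N hsH)
    rw [commutatorElement_eq_one_iff_mul_comm.2 h3.symm, chi_one hc]
  · obtain ⟨z1, z2, z3, z4, z5, z6, z7, z8, z9, z10⟩ := j33_z5 (BB_PP_forms (Q := Q) hc).1
    rcases hs' with rfl | rfl | rfl <;> rcases ht' with rfl | rfl | rfl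
    · rw [(j33_LL hc c e a b w).1]
      rcases hce with ⟨rfl, rfl⟩ | ⟨rfl, rfl⟩ <;> rcases hab with ⟨rfl, rfl⟩ | ⟨rfl, rfl⟩ <;>
        simp [z1, z2, z3, z4, z5, z6, z7, z8, z9, z10]
    · rw [(j33_LL hc c e a b w).2.1]
      rcases hce with ⟨rfl, rfl⟩ | ⟨rfl, rfl⟩ <;> rcases hab with ⟨rfl, rfl⟩ | ⟨rfl, rfl⟩ <;>
        simp [z1, z2, z3, z4, z5, z6, z7, z8, z9, z10]
    · rw [(j33_LL hc c e a b w).2.2]
      rcases hce with ⟨rfl, rfl⟩ | ⟨rfl, rfl⟩ <;> rcases hab with ⟨rfl, rfl⟩ | ⟨rfl, rfl⟩ <;>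
        simp [z1, z2, z3, z4, z5, z6, z7, z8, z9, z10]
    · rw [FM hc htH, (j33_LL hc c w a b e).1]
      rcases hce with ⟨rfl, rfl⟩ | ⟨rfl, rfl⟩ <;> rcases hab with ⟨rfl, rfl⟩ | ⟨rfl, rfl⟩ <;>
        simp [z1, z2, z3, z4, z5, z6, z7, z8, z9, z10]
    · rw [FM hc htH, (j33_LL hc c w a b e).2.1]
      rcases hce with ⟨rfl, rfl⟩ | ⟨rfl, rfl⟩ <;> rcases hab with ⟨rfl, rfl⟩ | ⟨rfl, rfl⟩ <;>
        simp [z1, z2, z3, z4, z5, z6, z7, z8, z9, z10]
    · rw [FM hc htH, (j33_LL hc c w a b e).2.2]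
      rcases hce with ⟨rfl, rfl⟩ | ⟨rfl, rfl⟩ <;> rcases hab with ⟨rfl, rfl⟩ | ⟨rfl, rfl⟩ <;>
        simp [z1, z2, z3, z4, z5, z6, z7, z8, z9, z10]
    · rw [FR hc htH, (j33_LL hc w c a b e).1]
      rcases hce with ⟨rfl, rfl⟩ | ⟨rfl, rfl⟩ <;> rcases hab with ⟨rfl, rfl⟩ | ⟨rfl, rfl⟩ <;>
        simp [z1, z2, z3, z4, z5, z6, z7, z8, z9, z10]
    · rw [FR hc htH, (j33_LL hc w c a b e).2.1]
      rcases hce with ⟨rfl, rfl⟩ | ⟨rfl, rfl⟩ <;> rcases hab with ⟨rfl, rfl⟩ | ⟨rfl, rfl⟩ <;>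
        simp [z1, z2, z3, z4, z5, z6, z7, z8, z9, z10]
    · rw [FR hc htH, (j33_LL hc w c a b e).2.2]
      rcases hce with ⟨rfl, rfl⟩ | ⟨rfl, rfl⟩ <;> rcases hab with ⟨rfl, rfl⟩ | ⟨rfl, rfl⟩ <;>
        simp [z1, z2, z3, z4, z5, z6, z7, z8, z9, z10]

theorem j33_clHK {x y : Q} {s : MG Q} (hs : s ∈ Subgroup.closure (j33_S x y)) : s ∈ H Q ∧ s ∈ K Q 2 := by
  have : Subgroup.closure (j33_S x y) ≤ H Q ⊓ K Q 2 := by
    rw [Subgroup.closure_le]
    intro s hs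
    exact j33_SHK hs
  exact this hs

theorem j33_cl1 (hc : IsChi chi) {x y : Q} {s t : MG Q} (hs : s ∈ j33_S x y)
    (ht : t ∈ Subgroup.closure (j33_S x y)) (w : Q) : chi ⁅s, cj (L w) t⁆ = 0 := by
  obtain ⟨hsH, hs2⟩ := j33_SHK hs
  have hF := F_char hc hsH hs2
  induction ht using Subgroup.closure_induction with
  | mem t ht => exact j33_pair hc hs ht w
  | one =>
    have : cj (L w) (1 : MG Q) = 1 := by unfold cj; group
    rw [this, commutatorElement_one_right, chi_one hc]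
  | mul a b ha hb h1 h2 =>
    rw [cj_mul]
    have := hF.map_mul _ (cj_mem_N (L w) (H_le_N (j33_clHK ha).1)) _ (cj_mem_N (L w) (H_le_N (j33_clHK hb).1))
    refine this.trans ?_
    show chi ⁅s, cj (L w) a⁆ + chi ⁅s, cj (L w) b⁆ = 0
    rw [h1, h2, add_zero]
  | inv a ha h1 =>
    rw [cj_inv]
    have := char_inv hF (cj_mem_N (L w) (H_le_N (j33_clHK ha).1))
    refine this.trans ?_
    show - chi ⁅s, cj (L w) a⁆ = 0
    rw [h1, neg_zero]

theorem j33_cl2 (hc : IsChi chi) {x y : Q} {s t : MG Q} (hs : s ∈ Subgroup.closure (j33_S x y))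
    (ht : t ∈ Subgroup.closure (j33_S x y)) (w : Q) : chi ⁅s, cj (L w) t⁆ = 0 := by
  obtain ⟨htH, ht2⟩ := j33_clHK ht
  have hn := cj_mem_N (L w) (H_le_N htH)
  induction hs using Subgroup.closure_induction with
  | mem s hs => exact j33_cl1 hc hs ht w
  | one => rw [commutatorElement_one_left, chi_one hc]
  | mul a b ha hb h1 h2 =>
    rw [chi_comm_mul_left hc (j33_clHK ha).2 (j33_clHK hb).2 (H_le_N (j33_clHK ha).1) hn, h1, h2, add_zero]
  | inv a ha h1 =>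
    have h3 := chi_comm_mul_left hc (j33_clHK ha).2 ((K Q 2).inv_mem (j33_clHK ha).2)
      (H_le_N (j33_clHK ha).1) hn
    rw [mul_inv_cancel, commutatorElement_one_left, chi_one hc, h1, zero_add] at h3
    exact h3.symm

theorem j33_mul (hc : IsChi chi) (hD : IsD2 chi d) {x y : Q} {s t : MG Q}
    (hs : s ∈ Subgroup.closure (j33_S x y)) (ht : t ∈ Subgroup.closure (j33_S x y)) (z : Q) :
    d z ((s * t) • z) = d z (s • z) + d z (t • z) := by
  obtain ⟨hsH, hs2⟩ := j33_clHK hs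
  obtain ⟨htH, ht2⟩ := j33_clHK ht
  rw [D2_mul hc hD hsH hs2 htH ht2, j33_cl2 hc ht hs, j33_cl2 hc ht hs, sub_zero, add_zero]

theorem j33_inv (hc : IsChi chi) (hD : IsD2 chi d) {x y : Q} {s : MG Q}
    (hs : s ∈ Subgroup.closure (j33_S x y)) (z : Q) :
    d z (s⁻¹ • z) = - d z (s • z) := by
  have h1 := j33_mul hc hD hs (Subgroup.inv_mem _ hs) z
  have h2 : d z z = 0 := by
    have h3 := hD.add z z z (sameN_refl z) (rel_refl 2 z) (sameN_refl z) (rel_refl 2 z)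
    exact left_eq_add.1 h3.symm
  rw [mul_inv_cancel, one_smul, h2] at h1
  exact eq_neg_of_add_eq_zero_right h1.symm

theorem j33_alg0 {G : Type} [AddCommGroup G] {tx ty txy tp tk r m l r' m' l' r'' m'' l'' : G}
    (h1 : tx + ty = txy + r + m - l) (h2 : ty + tx = tp + r' + m' - l')
    (h3 : tp + tk = txy + r'' + m'' - l'') :
    tk = r' + m' - l' - r - m + l + (r'' + m'' - l'') := by
  have h4 : tp = (ty + tx) - (r' + m' - l') := by rw [h2]; abel
  have h5 : txy = (tx + ty) - (r + m - l) := by rw [h1]; abel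
  have h6 : tk = (tp + tk) - tp := by abel
  rw [h6, h3, h4, h5]; abel

theorem j33_alg {G : Type} [CommGroup G] {tx ty txy tp tk r m l r' m' l' r'' m'' l'' : G}
    (h1 : tx * ty = txy * r * m * l⁻¹) (h2 : ty * tx = tp * r' * m' * l'⁻¹)
    (h3 : tp * tk = txy * r'' * m'' * l''⁻¹) :
    tk = r' * m' * l'⁻¹ * r⁻¹ * m⁻¹ * l * (r'' * m'' * l''⁻¹) := by
  have := j33_alg0 (G := Additive G) (tx := Additive.ofMul tx) (ty := Additive.ofMul ty) (txy := Additive.ofMul txy)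
    (tp := Additive.ofMul tp) (tk := Additive.ofMul tk) (r := Additive.ofMul r) (m := Additive.ofMul m)
    (l := Additive.ofMul l) (r' := Additive.ofMul r') (m' := Additive.ofMul m') (l' := Additive.ofMul l')
    (r'' := Additive.ofMul r'') (m'' := Additive.ofMul m'') (l'' := Additive.ofMul l'')
    (by rw [sub_eq_add_neg]; exact congrArg Additive.ofMul h1)
    (by rw [sub_eq_add_neg]; exact congrArg Additive.ofMul h2)
    (by rw [sub_eq_add_neg]; exact congrArg Additive.ofMul h3)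
  simp only [sub_eq_add_neg] at this
  exact congrArg Additive.toMul this

theorem j33_T (x y : Q) : T (ld (y * x) (x * y)) =
    RR y x * MM y x * (LL y x)⁻¹ * (RR x y)⁻¹ * (MM x y)⁻¹ * LL x y *
      (RR (y * x) (ld (y * x) (x * y)) * MM (y * x) (ld (y * x) (x * y)) *
        (LL (y * x) (ld (y * x) (x * y)))⁻¹) := by
  letI : CommGroup (H Q) := { (inferInstance : Group (H Q)) with
    mul_comm := fun a b => Subtype.ext (AbInn.comm a.1 a.2 b.1 b.2) }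
  have h1 := TT_eq x y
  have h2 := TT_eq y x
  have h3 := TT_eq (y * x) (ld (y * x) (x * y))
  rw [mul_ld] at h3
  have := j33_alg (G := H Q) (tx := ⟨T x, T_mem x⟩) (ty := ⟨T y, T_mem y⟩)
    (txy := ⟨T (x * y), T_mem _⟩) (tp := ⟨T (y * x), T_mem _⟩)
    (tk := ⟨T (ld (y * x) (x * y)), T_mem _⟩) (r := ⟨RR x y, RR_mem x y⟩) (m := ⟨MM x y, MM_mem x y⟩)
    (l := ⟨LL x y, LL_mem x y⟩) (r' := ⟨RR y x, RR_mem y x⟩) (m' := ⟨MM y x, MM_mem y x⟩)
    (l' := ⟨LL y x, LL_mem y x⟩) (r'' := ⟨RR (y * x) (ld (y * x) (x * y)), RR_mem _ _⟩)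
    (m'' := ⟨MM (y * x) (ld (y * x) (x * y)), MM_mem _ _⟩)
    (l'' := ⟨LL (y * x) (ld (y * x) (x * y)), LL_mem _ _⟩)
    (Subtype.ext h1) (Subtype.ext h2) (Subtype.ext h3)
  exact congrArg Subtype.val this

/-- (9.6) -/
theorem TK (hc : IsChi chi) (hD : IsD2 chi d) (x y z : Q) :
    d z (T (ld (y * x) (x * y)) • z) = Alt6 (Ad d) x y z := by
  have hk : L (ld (y * x) (x * y)) ∈ N Q := sameN_iff.1 (sameN_comm y x)
  have hB := (BB_PP_forms (Q := Q) hc).2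
  have m1 : RR y x ∈ Subgroup.closure (j33_S x y) :=
    Subgroup.subset_closure (Or.inr ⟨y, x, Or.inr ⟨rfl, rfl⟩, Or.inr (Or.inr rfl)⟩)
  have m2 : MM y x ∈ Subgroup.closure (j33_S x y) :=
    Subgroup.subset_closure (Or.inr ⟨y, x, Or.inr ⟨rfl, rfl⟩, Or.inr (Or.inl rfl)⟩)
  have m3 : LL y x ∈ Subgroup.closure (j33_S x y) :=
    Subgroup.subset_closure (Or.inr ⟨y, x, Or.inr ⟨rfl, rfl⟩, Or.inl rfl⟩)
  have m4 : RR x y ∈ Subgroup.closure (j33_S x y) :=
    Subgroup.subset_closure (Or.inr ⟨x, y, Or.inl ⟨rfl, rfl⟩, Or.inr (Or.inr rfl)⟩)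
  have m5 : MM x y ∈ Subgroup.closure (j33_S x y) :=
    Subgroup.subset_closure (Or.inr ⟨x, y, Or.inl ⟨rfl, rfl⟩, Or.inr (Or.inl rfl)⟩)
  have m6 : LL x y ∈ Subgroup.closure (j33_S x y) :=
    Subgroup.subset_closure (Or.inr ⟨x, y, Or.inl ⟨rfl, rfl⟩, Or.inl rfl⟩)
  have m7 : RR (y * x) (ld (y * x) (x * y)) ∈ Subgroup.closure (j33_S x y) :=
    Subgroup.subset_closure (Or.inl ⟨RR_mem _ _, RRN2 hk _⟩)
  have m8 : MM (y * x) (ld (y * x) (x * y)) ∈ Subgroup.closure (j33_S x y) :=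
    Subgroup.subset_closure (Or.inl ⟨MM_mem _ _, MMN2 hk _⟩)
  have m9 : LL (y * x) (ld (y * x) (x * y)) ∈ Subgroup.closure (j33_S x y) :=
    Subgroup.subset_closure (Or.inl ⟨LL_mem _ _, LLN2 hk _⟩)
  have i3 := Subgroup.inv_mem _ m3
  have i4 := Subgroup.inv_mem _ m4
  have i5 := Subgroup.inv_mem _ m5
  have i9 := Subgroup.inv_mem _ m9
  have n2 := Subgroup.mul_mem _ m1 m2
  have n3 := Subgroup.mul_mem _ n2 i3
  have n4 := Subgroup.mul_mem _ n3 i4
  have n5 := Subgroup.mul_mem _ n4 i5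
  have n6 := Subgroup.mul_mem _ n5 m6
  have n8 := Subgroup.mul_mem _ m7 m8
  have n9 := Subgroup.mul_mem _ n8 i9
  have hL : ∀ a b : Q, d z (LL a b • z) = Ad d a b z := fun a b => (A2_L hc hD a b z).symm
  have hM : ∀ a b : Q, d z (MM a b • z) = Ad d a z b := fun a b => (A2_M hc hD a z b).symm
  have hR : ∀ a b : Q, d z (RR a b • z) = - Ad d z a b := fun a b => by
    rw [A2_R hc hD z a b, neg_neg]
  rw [j33_T, j33_mul hc hD n6 n9, j33_mul hc hD n5 m6, j33_mul hc hD n4 i5, j33_mul hc hD n3 i4,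
    j33_mul hc hD n2 i3, j33_mul hc hD m1 m2, j33_mul hc hD n8 i9, j33_mul hc hD m7 m8,
    j33_inv hc hD m3, j33_inv hc hD m4, j33_inv hc hD m5, j33_inv hc hD m9]
  simp only [hL, hM, hR]
  rw [A2_k3 hc hD, A2_k3 hc hD, A2_k2 hc hD, (j33_z4 hB x y z).1, (j33_z4 hB x y z).2]
  unfold Alt6
  abel
-- J34
theorem j34_rel (x y z : Q) : rel 2 ((x * y) * z) (x * (y * z)) := by
  have h := rel_smul (L (x * y)) (LL_K2 x y z)
  rw [L_smul, L_smul, mul_LL] at h
  exact h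
theorem j34_dself (hD : IsD2 chi d) (p : Q) : d p p = 0 := by
  have h := hD.add p p p (sameN_refl p) (rel_refl 2 p) (sameN_refl p) (rel_refl 2 p)
  exact left_eq_add.1 h.symm
theorem j34_dsymm (hD : IsD2 chi d) {p q : Q} (h : sameN p q) (h' : rel 2 p q) : d q p = - d p q := by
  have h1 := hD.add p q p h h' (sameN_symm h) (rel_symm h')
  rw [j34_dself hD] at h1
  exact eq_neg_of_add_eq_zero_right h1
theorem j34_LL_eq (x y : Q) : (L (L x • y))⁻¹ * L x * L y = LL x y := by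
  rw [L_smul, LL, mul_assoc]
theorem j34_chiK1 (hc : IsChi chi) {κ n : MG Q} (hκ : κ ∈ K Q 1) (hn : n ∈ N Q) : chi ⁅κ, n⁆ = 0 := by
  have h : ⁅κ, n⁆ = 1 := by
    rw [commutatorElement_def, K1_comm_N hκ hn]
    group
  rw [h, chi_one hc]
/-- shift by `L k` -/
theorem j34_shift (hc : IsChi chi) (hD : IsD2 chi d) {k : Q} (hk : L k ∈ N Q) (t : Q) :
    d (k * t) (t * k) = d t (T k • t) := by
  have hs : sameN t (T k • t) := sameN_of_mem (H_le_N (T_mem k)) t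
  have hr : rel 2 t (T k • t) := TN hk t
  have h := hD.smul (L k) t (T k • t) hs hr
  rw [j34_LL_eq, j34_chiK1 hc (LLN1 hk t) (sameN_iff.1 hs), add_zero, L_smul, L_smul, mul_T] at h
  exact h
theorem j34_aF (hc : IsChi chi) {k : Q} (hk : L k ∈ N Q) (x y z : Q) :
    aF (fun n => chi ⁅T k, n⁆) x y z = 0 := by
  have hF := F_char hc (T_mem k) (TN hk)
  have hF' := F_char hc (LL_mem x y) (LL_K2 x y)
  have h1 := aF_L hF x y z
  have h2 := F_symm hc (T_mem k) (TN hk) (LL_mem x y) (LL_K2 x y) z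
  have h3 := kF_T hF' z k
  have h4 := kF_congr hF' (sameN_refl z) (sameN_symm (L_mem_N_iff.1 hk))
  have h5 : kF (fun n => chi ⁅LL x y, n⁆) z 1 = 0 := by
    unfold kF
    rw [one_mul', mul_one']
    exact dF_self hF' z
  rw [← h1]
  show chi ⁅T k, cj (L z) (LL x y)⁆ = 0
  rw [h2]
  have h6 : chi ⁅LL x y, cj (L z) (T k)⁆ = kF (fun n => chi ⁅LL x y, n⁆) z k := h3
  rw [h6, h4, h5]
theorem j34_h1 (hc : IsChi chi) {k : Q} (hk : L k ∈ N Q) (t z p : Q) :
    chi ⁅T k, cj (L t) (T (p * z) * RR p z * (T p)⁻¹)⁆ = chi ⁅T k, cj (L t) (T z)⁆ := by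
  have hF := F_char hc (T_mem k) (TN hk)
  obtain ⟨F, hFd⟩ : ∃ F : MG Q → W, F = fun n => chi ⁅T k, n⁆ := ⟨_, rfl⟩
  have haF : ∀ x y z, aF F x y z = 0 := fun x y z => by rw [hFd]; exact j34_aF hc hk x y z
  rw [← hFd] at hF
  have e : ∀ n, chi ⁅T k, n⁆ = F n := fun n => by rw [hFd]
  rw [e, e]
  have m1 : cj (L t) (T (p * z)) ∈ N Q := cj_mem_N _ (H_le_N (T_mem _))
  have m2 : cj (L t) (RR p z) ∈ N Q := cj_mem_N _ (H_le_N (RR_mem _ _))
  have m3 : cj (L t) (T p) ∈ N Q := cj_mem_N _ (H_le_N (T_mem _))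
  rw [cj_mul, cj_mul, cj_inv, hF.map_mul _ ((N Q).mul_mem m1 m2) _ ((N Q).inv_mem m3),
    hF.map_mul _ m1 _ m2, char_inv hF m3, kF_T hF, kF_T hF, kF_T hF, aF_R hF, haF]
  have h2 := kF_hex hF p z t
  rw [haF, haF, haF] at h2
  rw [kF_anti hF t (p * z), h2, kF_anti hF p t, kF_anti hF z t]
  abel
/-- (9.7) -/
theorem GK (hc : IsChi chi) (hD : IsD2 chi d) {k : Q} (hk : L k ∈ N Q) (t z : Q) :
    d (t * z) (T k • (t * z)) = d t (T k • t) + d z (T k • z) + chi ⁅T k, cj (L t) (T z)⁆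
      - Ad d k t z + Ad d t k z - Ad d t z k := by
  have hTH := T_mem (Q := Q) k
  have hT2 := TN hk
  have hs : ∀ x : Q, sameN x (T k • x) := fun x => sameN_of_mem (H_le_N hTH) x
  have hr : ∀ x : Q, rel 2 x (T k • x) := fun x => hT2 x
  have hrk : ∀ x : Q, rel 2 (k * x) (x * k) := fun x => by
    have h := rel_smul (L k) (hr x)
    rw [L_smul, L_smul, mul_T] at h
    exact h
  have hsk : ∀ x : Q, sameN (k * x) (x * k) := fun x => sameN_comm k x
  -- the steps of the path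
  have s1 : d (k * (t * z)) ((k * t) * z) = - Ad d k t z :=
    j34_dsymm hD (sameN_assoc k t z) (j34_rel k t z)
  have s2 : d ((k * t) * z) ((t * k) * z) = d t (T k • t) + chi ⁅T k, cj (L t) (T z)⁆ := by
    have h := hD.smul (R z) (k * t) (t * k) (hsk t) (hrk t)
    rw [R_smul, R_smul, j34_shift hc hD hk] at h
    rw [h]
    congr 1
    have e1 : (L (k * t * z))⁻¹ * R z * L (k * t) = T (k * t * z) * RR (k * t) z * (T (k * t))⁻¹ := by
      rw [mul_assoc, RL_eq]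
      group
    have hH : T (k * t * z) * RR (k * t) z * (T (k * t))⁻¹ ∈ H Q :=
      (H Q).mul_mem ((H Q).mul_mem (T_mem _) (RR_mem _ _)) ((H Q).inv_mem (T_mem _))
    rw [e1, ← j34_h1 hc hk t z (k * t), Q1 hc hTH hT2 hH t]
    have h2 := DD_smul hc hH (L k) (hs t) (hr t)
    rw [L_smul, L_smul, mul_T] at h2
    exact h2
  have s3 : d ((t * k) * z) (t * (k * z)) = Ad d t k z := rfl
  have s4 : d (t * (k * z)) (t * (z * k)) = d z (T k • z) := by
    have h := hD.smul (L t) (k * z) (z * k) (hsk z) (hrk z)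
    rw [j34_LL_eq, j34_shift hc hD hk, L_smul, L_smul] at h
    rw [h]
    have h2 := DD_smul hc (LL_mem t (k * z)) (L k) (hs z) (hr z)
    rw [L_smul, L_smul, mul_T] at h2
    have h3 := Q1 hc hTH hT2 (LL_mem t (k * z)) z
    have h4 : chi ⁅T k, cj (L z) (LL t (k * z))⁆ = 0 := by
      have h5 := aF_L (F_char hc hTH hT2) t (k * z) z
      rw [j34_aF hc hk] at h5
      exact h5
    rw [h4] at h3
    rw [h2]
    have h6 : chi ⁅LL t (k * z), L (ld z (T k • z))⁆ = 0 := h3.symm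
    rw [h6, add_zero]
  have s5 : d (t * (z * k)) ((t * z) * k) = - Ad d t z k :=
    j34_dsymm hD (sameN_assoc t z k) (j34_rel t z k)
  have s0 : d (k * (t * z)) ((t * z) * k) = d (t * z) (T k • (t * z)) := j34_shift hc hD hk (t * z)
  -- relations along the path
  have a1 : sameN (k * (t * z)) ((k * t) * z) := sameN_symm (sameN_assoc k t z)
  have b1 : rel 2 (k * (t * z)) ((k * t) * z) := rel_symm (j34_rel k t z)
  have a2 : sameN ((k * t) * z) ((t * k) * z) := by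
    have := sameN_smul (R z) (hsk t)
    rwa [R_smul, R_smul] at this
  have b2 : rel 2 ((k * t) * z) ((t * k) * z) := by
    have := rel_smul (R z) (hrk t)
    rwa [R_smul, R_smul] at this
  have a3 : sameN ((t * k) * z) (t * (k * z)) := sameN_assoc t k z
  have b3 : rel 2 ((t * k) * z) (t * (k * z)) := j34_rel t k z
  have a4 : sameN (t * (k * z)) (t * (z * k)) := by
    have := sameN_smul (L t) (hsk z)
    rwa [L_smul, L_smul] at this
  have b4 : rel 2 (t * (k * z)) (t * (z * k)) := by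
    have := rel_smul (L t) (hrk z)
    rwa [L_smul, L_smul] at this
  have a5 : sameN (t * (z * k)) ((t * z) * k) := sameN_symm (sameN_assoc t z k)
  have b5 : rel 2 (t * (z * k)) ((t * z) * k) := rel_symm (j34_rel t z k)
  have c1 := hD.add _ _ _ a1 b1 a2 b2
  have c2 := hD.add _ _ _ (sameN_trans a1 a2) (rel_trans b1 b2) a3 b3
  have c3 := hD.add _ _ _ (sameN_trans (sameN_trans a1 a2) a3) (rel_trans (rel_trans b1 b2) b3) a4 b4
  have c4 := hD.add _ _ _ (sameN_trans (sameN_trans (sameN_trans a1 a2) a3) a4)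
    (rel_trans (rel_trans (rel_trans b1 b2) b3) b4) a5 b5
  rw [← s0, ← c4, ← c3, ← c2, ← c1, s1, s2, s3, s4, s5]
  abel
theorem fin (hc : IsChi chi) (hD : IsD2 chi d) (x y t z : Q) :
    chi ⁅T (ld (y * x) (x * y)), cj (L t) (T z)⁆ = 0 := by
  obtain ⟨k, hkd⟩ : ∃ k, k = ld (y * x) (x * y) := ⟨_, rfl⟩
  have hk : L k ∈ N Q := by rw [hkd]; exact sameN_iff.1 (sameN_comm y x)
  have hTK : ∀ s, d s (T k • s) = Alt6 (Ad d) x y s := fun s => by rw [hkd]; exact TK hc hD x y s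
  have hA := ALT (Ad d) (BB chi) (BB_PP_forms hc).2 (A2_pent hc hD) (A2_comm1 hc hD) (A2_comm2 hc hD)
    (A2_comm3 hc hD) x y t z
  have hG := GK hc hD hk t z
  have k1 : Ad d k t z = BB chi x y t z := by rw [hkd]; exact A2_k1 hc hD x y t z
  have k2 : Ad d t k z = - BB chi x y t z := by rw [hkd]; exact A2_k2 hc hD x y t z
  have k3 : Ad d t z k = BB chi x y t z := by rw [hkd]; exact A2_k3 hc hD x y t z
  rw [hTK, hTK, hTK, k1, k2, k3, hA] at hG
  rw [← hkd]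
  have : chi ⁅T k, cj (L t) (T z)⁆ = (Alt6 (Ad d) x y t + Alt6 (Ad d) x y z + chi ⁅T k, cj (L t) (T z)⁆
      - BB chi x y t z + - BB chi x y t z - BB chi x y t z) - (Alt6 (Ad d) x y t + Alt6 (Ad d) x y z -
      (BB chi x y t z + BB chi x y t z + BB chi x y t z)) := by abel
  rw [this, ← hG]
  abel
end L3

section L4
variable {Q : Type} [Lp Q] [AbInn Q] [Cl4 Q]

-- J35
/-- a central factor does not change the commutators -/
theorem j35_central {g : MG Q} {a b : Q} (h : rel 1 a b) : ⁅g, L b⁆ = ⁅g, L a⁆ := by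
  have hz : ld a b ∈ Zs Q (0 + 1) := h
  have e1 : a * ld a b = b := mul_ld a b
  have h1 : LL a (ld a b) = 1 := by
    have := LL_mem_K_right hz a
    rw [K_zero] at this
    exact Subgroup.mem_bot.1 this
  have h2 : L b = L a * L (ld a b) := by
    rw [LL_eq, e1, h1, mul_one]
  have h3 : ⁅g, L (ld a b)⁆ = 1 := by
    have := comm_L_mem hz g
    rw [K_zero] at this
    exact Subgroup.mem_bot.1 this
  have h4 : g * L (ld a b) = L (ld a b) * g := by
    rw [commutatorElement_def] at h3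
    have := congrArg (fun t => t * L (ld a b) * g) h3
    simpa [mul_assoc] using this
  rw [h2, commutatorElement_def, commutatorElement_def, mul_inv_rev]
  calc g * (L a * L (ld a b)) * g⁻¹ * ((L (ld a b))⁻¹ * (L a)⁻¹)
      = g * L a * (L (ld a b) * g⁻¹ * (L (ld a b))⁻¹) * (L a)⁻¹ := by group
    _ = g * L a * g⁻¹ * (L a)⁻¹ := by
      have h5 : L (ld a b) * g⁻¹ * (L (ld a b))⁻¹ = g⁻¹ := by
        have h6 : L (ld a b) * g⁻¹ = g⁻¹ * L (ld a b) := by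
          calc L (ld a b) * g⁻¹ = g⁻¹ * (g * L (ld a b)) * g⁻¹ := by group
            _ = g⁻¹ * (L (ld a b) * g) * g⁻¹ := by rw [h4]
            _ = g⁻¹ * L (ld a b) := by group
        rw [h6, mul_assoc, mul_inv_cancel, mul_one]
      rw [h5]

/-- (9.8) -/
theorem partII {chi : MG Q → AddCircle (1 : ℚ)} (hc : IsChi chi) (v u y x : Q) :
    T3 chi (T v) (T u) (T y) x = 0 := by
  obtain ⟨d, hd⟩ := exists_D2 hc
  have hHN : ∀ {g : MG Q}, g ∈ H Q → g ∈ N Q := fun hg => H_le_N hg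
  have hF := T3_char hc (T_mem v) (T_mem u)
  have hfin := fin hc hd x y u v
  have hk : L (ld (y * x) (x * y)) ∈ N Q := sameN_iff.1 (sameN_comm y x)
  have e0 : T3 chi (T v) (T u) (T y) x = chi ⁅T v, ⁅T u, L (ld (y * x) (x * y))⁆⁆ := kF_T hF x y
  rw [e0]
  generalize ld (y * x) (x * y) = k at hk hfin
  have hm2 : ⁅T u, L k⁆ ∈ K Q 2 := comm_NN (hHN (T_mem u)) hk
  have hmN : ⁅T u, L k⁆ ∈ N Q := by
    rw [commutatorElement_def]
    exact (N Q).mul_mem ((N Q).mul_mem ((N Q).mul_mem (hHN (T_mem u)) hk) ((N Q).inv_mem (hHN (T_mem u)))) ((N Q).inv_mem hk)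
  have hmk : ⁅T u, L k⁆ • k = T u • k := by
    rw [commutatorElement_def, mul_smul, mul_smul, mul_smul, L_inv_smul, ld_self]
    have h1 : (T u)⁻¹ • (1 : Q) = 1 := mem_H.1 ((H Q).inv_mem (T_mem u))
    rw [h1, L_smul, mul_one']
  set m : MG Q := ⁅T u, L k⁆ with hm
  -- the decomposition of `m`
  set θ : MG Q := (L (m • (1 : Q)))⁻¹ * m with hθ
  have hmθ : m = L (m • (1 : Q)) * θ := by rw [hθ, mul_inv_cancel_left]
  have hθH : θ ∈ H Q := by
    rw [mem_H, hθ, mul_smul, L_inv_smul, ld_self]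
  have hm1 : m • (1 : Q) ∈ Zs Q 2 := smul_one_mem hm2
  have hLK : L (m • (1 : Q)) ∈ K Q 2 := L_mem_K_iff.2 hm1
  have hθK : θ ∈ K Q 2 := (K Q 2).mul_mem ((K Q 2).inv_mem hLK) hm2
  have hLN : L (m • (1 : Q)) ∈ N Q := by
    have : L (m • (1 : Q)) = m * θ⁻¹ := by rw [hθ]; group
    rw [this]
    exact (N Q).mul_mem hmN ((N Q).inv_mem (hHN hθH))
  have e1 : chi ⁅T v, m⁆ = chi ⁅T v, L (m • (1 : Q))⁆ := by
    have h1 : chi ⁅T v, m⁆ = - chi ⁅m, T v⁆ := chi_comm_swap hc hm2 (hHN (T_mem v))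
    have h2 : chi ⁅m, T v⁆ = chi ⁅L (m • (1 : Q)), T v⁆ + chi ⁅θ, T v⁆ := by
      have := chi_comm_mul_left hc hLK hθK hLN (hHN (T_mem v))
      rw [← hmθ] at this
      exact this
    have h3 : ⁅θ, T v⁆ = 1 := by
      rw [commutatorElement_def, AbInn.comm θ hθH (T v) (T_mem v)]
      group
    have h4 : chi ⁅T v, L (m • (1 : Q))⁆ = - chi ⁅L (m • (1 : Q)), T v⁆ := chi_comm_swap hc hLK (hHN (T_mem v))
    rw [h1, h2, h3, chi_one hc, add_zero, h4]
  have hrel1 : rel 1 (m • (1 : Q)) (ld k (T u • k)) := by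
    have h1 := K_orbit (k := 1) hm2 hk (1 : Q)
    have h2 : dis m (1 : Q) = m • (1 : Q) := by unfold dis; rw [ld_one]
    have h3 : dis m (L k • (1 : Q)) = ld k (T u • k) := by
      unfold dis
      rw [L_smul, mul_one', hmk]
    rw [h2, h3] at h1
    exact h1
  have e2 : chi ⁅T v, m⁆ = chi ⁅T v, L (ld k (T u • k))⁆ := by
    rw [e1, j35_central hrel1]
  have hr2 : rel 2 k (T u • k) := Zs_rel hm1 (rel_succ hrel1)
  have hs2 : sameN k (T u • k) := sameN_of_mem (hHN (T_mem u)) k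
  have e3 : chi ⁅T v, L (ld (u * k) (k * u))⁆ = chi ⁅T v, L (ld k (T u • k))⁆ := by
    have h1 := DD_smul hc (T_mem v) (L u) hs2 hr2
    rw [L_smul, L_smul, mul_T] at h1
    exact h1
  have hr3 : rel 2 (u * k) (k * u) := by
    have h1 := rel_smul (L u) hr2
    rw [L_smul, L_smul, mul_T] at h1
    exact h1
  have hs3 : sameN (u * k) (k * u) := sameN_comm u k
  have e4 : chi ⁅T v, L (ld (u * k) (k * u))⁆ + chi ⁅T v, L (ld (k * u) (u * k))⁆ = 0 := by
    rw [DD_add hc (T_mem v) hs3 hr3 (sameN_symm hs3) (rel_symm hr3), ld_self, L_one, commutatorElement_one_right, chi_one hc]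
  have hTk : T k ∈ K Q 2 := TN hk
  have e5 : chi ⁅T v, L (ld (k * u) (u * k))⁆ = chi ⁅T v, L (dis (T k) u)⁆ := by
    have h1 := DD_smul hc (T_mem v) (L k) (sameN_of_mem (hHN (T_mem k)) u) (mem_K.1 hTk u)
    rw [L_smul, L_smul, mul_T] at h1
    exact h1
  have e6 : chi ⁅T v, L (dis (T k) u)⁆ = 0 := by
    rw [← Q1 hc (T_mem k) hTk (T_mem v) u, hfin]
  rw [e2, ← e3]
  rw [e5, e6, add_zero] at e4
  exact e4

/-- induction over the last slot -/
theorem j35_ind {chi : MG Q → AddCircle (1 : ℚ)} (hc : IsChi chi) {w t : MG Q} (hw : w ∈ H Q) (ht : t ∈ H Q)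
    (hT : ∀ y x : Q, T3 chi w t (T y) x = 0) {p : MG Q} (hp : p ∈ H Q) (x : Q) : T3 chi w t p x = 0 := by
  have h1 : ∀ x : Q, T3 chi w t 1 x = 0 := by
    intro x
    have h := T3_mul3 hc hw ht (H Q).one_mem (H Q).one_mem x
    rw [mul_one] at h
    exact left_eq_add.1 h
  let S : Subgroup (MG Q) :=
    { carrier := {p | p ∈ H Q ∧ ∀ x : Q, T3 chi w t p x = 0}
      mul_mem' := by
        rintro a b ⟨ha, ha2⟩ ⟨hb, hb2⟩
        refine ⟨(H Q).mul_mem ha hb, fun x => ?_⟩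
        rw [T3_mul3 hc hw ht ha hb x, ha2, hb2, add_zero]
      one_mem' := ⟨(H Q).one_mem, h1⟩
      inv_mem' := by
        rintro a ⟨ha, ha2⟩
        refine ⟨(H Q).inv_mem ha, fun x => ?_⟩
        have h := T3_mul3 hc hw ht ha ((H Q).inv_mem ha) x
        rw [mul_inv_cancel, h1, ha2, zero_add] at h
        exact h.symm }
  have key : p ∈ S := H_ind S (fun y => ⟨T_mem y, hT y⟩) (fun a b => ⟨LL_mem a b, fun x => partI hc hw ht a b x⟩)
    (fun a b => ⟨RR_mem a b, fun x => by rw [T3_RR hc hw ht, partI hc hw ht, neg_zero]⟩) hp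
  exact key.2 x

theorem T3_zero {chi : MG Q → AddCircle (1 : ℚ)} (hc : IsChi chi) {w t p : MG Q} (hw : w ∈ H Q) (ht : t ∈ H Q)
    (hp : p ∈ H Q) (x : Q) : T3 chi w t p x = 0 := by
  -- two `T`, any third
  have s1 : ∀ (y u : Q) {w : MG Q}, w ∈ H Q → ∀ x, T3 chi (T y) (T u) w x = 0 := fun y u w hw x =>
    j35_ind hc (T_mem y) (T_mem u) (fun v x => partII hc y u v x) hw x
  -- one `T`
  have s2 : ∀ (y : Q) {w t : MG Q}, w ∈ H Q → t ∈ H Q → ∀ x, T3 chi w (T y) t x = 0 := fun y w t hw ht x =>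
    j35_ind hc hw (T_mem y) (fun u x => by
      rw [T3_symm12 hc hw (T_mem y) (T_mem u), T3_symm23 hc (T_mem y) hw (T_mem u)]
      exact s1 y u hw x) ht x
  exact j35_ind hc hw ht (fun y x => by
    rw [T3_symm23 hc hw ht (T_mem y)]
    exact s2 y hw ht x) hp x

theorem class3 : Zs Q 3 = Set.univ := by
  apply Set.eq_univ_of_forall
  intro x
  rw [show (3 : ℕ) = 2 + 1 by rfl, mem_Zs_succ]
  intro h hh
  have hK : h ∈ K Q 2 := T3_mem hh (fun chi hc w hw p hp x => T3_zero hc hw hp hh x)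
  exact mem_K.1 hK x
end L4

end Pool.Agent.AIM3
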