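import Pool.Agent.AIM3.PL3

set_option autoImplicit false
set_option linter.unusedVariables false
set_option linter.unusedSectionVars false

namespace Pool.Agent.AIM3

open scoped commutatorElement

/-! ## M. Reduction -/
-- J36
/-- congruence modulo the `n`-th term of the upper central series -/
def j36_s (Q : Type) [Lp Q] (n : ℕ) : Setoid Q :=
  ⟨rel n, rel_refl n, fun h => rel_symm h, fun h1 h2 => rel_trans h1 h2⟩

/-- the quotient loop -/
def j36_Q (Q : Type) [Lp Q] (n : ℕ) : Type := Quotient (j36_s Q n)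

section j36
variable {Q : Type} [Lp Q] {n : ℕ}

/-- the quotient map -/
def j36_p (n : ℕ) (x : Q) : j36_Q Q n := Quotient.mk (j36_s Q n) x

theorem j36_p_surj (y : j36_Q Q n) : ∃ x : Q, j36_p n x = y := Quotient.exists_rep y

theorem j36_p_eq {x y : Q} : j36_p n x = j36_p n y ↔ rel n x y :=
  ⟨fun h => Quotient.exact h, fun h => Quotient.sound h⟩

theorem j36_mul {a a' b b' : Q} (h1 : rel n a a') (h2 : rel n b b') : rel n (a * b) (a' * b') := by
  have e1 : rel n (a * b) (a' * b) := by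
    have := rel_smul (R b) h1
    rwa [R_smul, R_smul] at this
  have e2 : rel n (a' * b) (a' * b') := by
    have := rel_smul (L a') h2
    rwa [L_smul, L_smul] at this
  exact rel_trans e1 e2

theorem j36_ld {a a' b b' : Q} (h1 : rel n a a') (h2 : rel n b b') : rel n (ld a b) (ld a' b') := by
  have e1 : rel n (ld a b) (ld a b') := by
    have := rel_smul (L a)⁻¹ h2
    rwa [L_inv_smul, L_inv_smul] at this
  have e2 : rel n (a' * ld a b') b' := by
    have := j36_mul (rel_symm h1) (rel_refl n (ld a b'))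
    rwa [mul_ld a b'] at this
  have e3 : rel n (ld a b') (ld a' b') := by
    have := rel_smul (L a')⁻¹ e2
    rwa [L_inv_smul, L_inv_smul, ld_mul] at this
  exact rel_trans e1 e3

theorem j36_rd {a a' b b' : Q} (h1 : rel n a a') (h2 : rel n b b') : rel n (rd b a) (rd b' a') := by
  have e1 : rel n (rd b a) (rd b' a) := by
    have := rel_smul (R a)⁻¹ h2
    rwa [R_inv_smul, R_inv_smul] at this
  have e2 : rel n (rd b' a * a') b' := by
    have := j36_mul (rel_refl n (rd b' a)) (rel_symm h1)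
    rwa [rd_mul a b'] at this
  have e3 : rel n (rd b' a) (rd b' a') := by
    have := rel_smul (R a')⁻¹ e2
    rwa [R_inv_smul, R_inv_smul, mul_rd] at this
  exact rel_trans e1 e3

instance j36_lp : Lp (j36_Q Q n) where
  mul := Quotient.map₂ (fun a b : Q => a * b) fun _ _ h1 _ _ h2 => j36_mul h1 h2
  one := j36_p n 1
  ld := Quotient.map₂ (fun a b : Q => ld a b) fun _ _ h1 _ _ h2 => j36_ld h1 h2
  rd := Quotient.map₂ (fun b a : Q => rd b a) fun _ _ h2 _ _ h1 => j36_rd h1 h2
  one_mul' := by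
    intro x
    obtain ⟨x, rfl⟩ := j36_p_surj x
    exact congrArg (j36_p n) (one_mul' x)
  mul_one' := by
    intro x
    obtain ⟨x, rfl⟩ := j36_p_surj x
    exact congrArg (j36_p n) (mul_one' x)
  mul_ld := by
    intro a b
    obtain ⟨a, rfl⟩ := j36_p_surj a
    obtain ⟨b, rfl⟩ := j36_p_surj b
    exact congrArg (j36_p n) (mul_ld a b)
  ld_mul := by
    intro a b
    obtain ⟨a, rfl⟩ := j36_p_surj a
    obtain ⟨b, rfl⟩ := j36_p_surj b
    exact congrArg (j36_p n) (ld_mul a b)
  rd_mul := by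
    intro a b
    obtain ⟨a, rfl⟩ := j36_p_surj a
    obtain ⟨b, rfl⟩ := j36_p_surj b
    exact congrArg (j36_p n) (rd_mul a b)
  mul_rd := by
    intro a b
    obtain ⟨a, rfl⟩ := j36_p_surj a
    obtain ⟨b, rfl⟩ := j36_p_surj b
    exact congrArg (j36_p n) (mul_rd a b)

theorem j36_p_mul (x y : Q) : j36_p n (x * y) = j36_p n x * j36_p n y := rfl
theorem j36_p_one : j36_p n (1 : Q) = 1 := rfl
theorem j36_p_ld (x y : Q) : j36_p n (ld x y) = ld (j36_p n x) (j36_p n y) := rfl

/-- `g'` is induced by `g` -/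
def j36_I (n : ℕ) (g : MG Q) (g' : MG (j36_Q Q n)) : Prop :=
  ∀ x : Q, g' • j36_p n x = j36_p n (g • x)

theorem j36_I_L (x : Q) : j36_I n (L x) (L (j36_p n x)) := fun _ => rfl
theorem j36_I_R (x : Q) : j36_I n (R x) (R (j36_p n x)) := fun _ => rfl

theorem j36_I_one : j36_I n (1 : MG Q) 1 := fun x => by rw [one_smul, one_smul]

theorem j36_I_mul {a b : MG Q} {a' b' : MG (j36_Q Q n)} (ha : j36_I n a a') (hb : j36_I n b b') :
    j36_I n (a * b) (a' * b') := fun x => by
  rw [mul_smul, mul_smul, hb x, ha (b • x)]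

theorem j36_I_inv {a : MG Q} {a' : MG (j36_Q Q n)} (ha : j36_I n a a') : j36_I n a⁻¹ a'⁻¹ := fun x => by
  rw [inv_smul_eq_iff, ha (a⁻¹ • x), smul_inv_smul]

theorem j36_I_inj {a : MG Q} {a' b' : MG (j36_Q Q n)} (ha : j36_I n a a') (hb : j36_I n a b') : a' = b' := by
  apply MG_ext
  intro x
  obtain ⟨x, rfl⟩ := j36_p_surj x
  rw [ha x, hb x]

theorem j36_down (g : MG Q) : ∃ g' : MG (j36_Q Q n), j36_I n g g' := by
  let S : Subgroup (MG Q) :=
    { carrier := {g | ∃ g' : MG (j36_Q Q n), j36_I n g g'}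
      mul_mem' := by
        rintro a b ⟨a', ha⟩ ⟨b', hb⟩
        exact ⟨_, j36_I_mul ha hb⟩
      one_mem' := ⟨1, j36_I_one⟩
      inv_mem' := by
        rintro a ⟨a', ha⟩
        exact ⟨_, j36_I_inv ha⟩ }
  exact MG_ind S (fun x => ⟨_, j36_I_L x⟩) (fun x => ⟨_, j36_I_R x⟩) g

theorem j36_H {h : MG Q} {h' : MG (j36_Q Q n)} (hI : j36_I n h h') (hh : h ∈ H Q) :
    h' ∈ H (j36_Q Q n) := by
  rw [mem_H] at hh ⊢
  have := hI 1
  rwa [hh, j36_p_one] at this

theorem j36_I_T (x : Q) : j36_I n (T x) (T (j36_p n x)) := j36_I_mul (j36_I_inv (j36_I_L x)) (j36_I_R x)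
theorem j36_I_LL (x y : Q) : j36_I n (LL x y) (LL (j36_p n x) (j36_p n y)) :=
  j36_I_mul (j36_I_inv (j36_I_L (x * y))) (j36_I_mul (j36_I_L x) (j36_I_L y))
theorem j36_I_RR (x y : Q) : j36_I n (RR x y) (RR (j36_p n x) (j36_p n y)) :=
  j36_I_mul (j36_I_inv (j36_I_R (x * y))) (j36_I_mul (j36_I_R y) (j36_I_R x))

theorem j36_up {h' : MG (j36_Q Q n)} (hh : h' ∈ H (j36_Q Q n)) : ∃ h ∈ H Q, j36_I n h h' := by
  let S : Subgroup (MG (j36_Q Q n)) :=
    { carrier := {h' | ∃ h ∈ H Q, j36_I n h h'}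
      mul_mem' := by
        rintro a' b' ⟨a, ha1, ha⟩ ⟨b, hb1, hb⟩
        exact ⟨_, (H Q).mul_mem ha1 hb1, j36_I_mul ha hb⟩
      one_mem' := ⟨1, (H Q).one_mem, j36_I_one⟩
      inv_mem' := by
        rintro a' ⟨a, ha1, ha⟩
        exact ⟨_, (H Q).inv_mem ha1, j36_I_inv ha⟩ }
  refine H_ind S (fun x => ?_) (fun x y => ?_) (fun x y => ?_) hh
  · obtain ⟨x, rfl⟩ := j36_p_surj x
    exact ⟨_, T_mem x, j36_I_T x⟩
  · obtain ⟨x, rfl⟩ := j36_p_surj x
    obtain ⟨y, rfl⟩ := j36_p_surj y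
    exact ⟨_, LL_mem x y, j36_I_LL x y⟩
  · obtain ⟨x, rfl⟩ := j36_p_surj x
    obtain ⟨y, rfl⟩ := j36_p_surj y
    exact ⟨_, RR_mem x y, j36_I_RR x y⟩

theorem j36_Zs (k : ℕ) : ∀ x : Q, j36_p n x ∈ Zs (j36_Q Q n) k ↔ x ∈ Zs Q (n + k) := by
  induction k with
  | zero =>
    intro x
    have e1 : j36_p n x ∈ Zs (j36_Q Q n) 0 ↔ j36_p n x = j36_p n 1 := Iff.rfl
    rw [e1, j36_p_eq, Nat.add_zero, ← rel_one_iff]
    exact ⟨fun h => rel_symm h, fun h => rel_symm h⟩
  | succ k ih =>
    intro x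
    have e1 : j36_p n x ∈ Zs (j36_Q Q n) (k + 1) ↔ ∀ h' ∈ H (j36_Q Q n),
      ld (j36_p n x) (h' • j36_p n x) ∈ Zs (j36_Q Q n) k := Iff.rfl
    have e2 : x ∈ Zs Q (n + (k + 1)) ↔ ∀ h ∈ H Q, ld x (h • x) ∈ Zs Q (n + k) := Iff.rfl
    rw [e1, e2]
    constructor
    · intro h1 h hh
      obtain ⟨h', hI⟩ := j36_down (n := n) h
      have h2 := h1 h' (j36_H hI hh)
      rw [hI x, ← j36_p_ld] at h2
      exact (ih _).1 h2
    · intro h1 h' hh
      obtain ⟨h, hh2, hI⟩ := j36_up hh
      rw [hI x, ← j36_p_ld]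
      exact (ih _).2 (h1 h hh2)

instance j36_ab [AbInn Q] : AbInn (j36_Q Q n) where
  comm := by
    intro a' ha b' hb
    obtain ⟨a, ha1, ha2⟩ := j36_up ha
    obtain ⟨b, hb1, hb2⟩ := j36_up hb
    have h1 := j36_I_mul ha2 hb2
    have h2 := j36_I_mul hb2 ha2
    rw [AbInn.comm a ha1 b hb1] at h1
    exact j36_I_inj h1 h2

end j36

theorem descend {Q : Type} [Lp Q] [AbInn Q] (n : ℕ) (h : Zs Q (n + 4) = Set.univ) : Zs Q (n + 3) = Set.univ := by
  have h4 : Zs (j36_Q Q n) 4 = Set.univ := by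
    rw [Set.eq_univ_iff_forall]
    intro x
    obtain ⟨x, rfl⟩ := j36_p_surj x
    rw [j36_Zs, h]
    trivial
  have : Cl4 (j36_Q Q n) := ⟨h4⟩
  have h3 : Zs (j36_Q Q n) 3 = Set.univ := class3
  rw [Set.eq_univ_iff_forall]
  intro x
  rw [← j36_Zs, h3]
  trivial

-- J37
theorem j37_mono {Q : Type} [Lp Q] (k : ℕ) (h : Zs Q k = Set.univ) : Zs Q (k + 1) = Set.univ := by
  apply Set.eq_univ_of_forall
  intro a
  have h1 : a ∈ Zs Q k := by rw [h]; trivial
  exact rel_one_iff.1 (rel_succ (rel_one_iff.2 h1))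

theorem j37_desc {Q : Type} [Lp Q] [AbInn Q] (m : ℕ) (h : Zs Q (m + 3) = Set.univ) : Zs Q 3 = Set.univ := by
  induction m with
  | zero => exact h
  | succ m ih => exact ih (descend m h)

theorem class_le_three {Q : Type} [Lp Q] [AbInn Q] (n : ℕ) (h : Zs Q n = Set.univ) : Zs Q 3 = Set.univ := by
  match n, h with
  | 0, h => exact j37_mono 2 (j37_mono 1 (j37_mono 0 h))
  | 1, h => exact j37_mono 2 (j37_mono 1 h)
  | 2, h => exact j37_mono 2 h
  | (m + 3), h => exact j37_desc m h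

theorem j37_LL_smul {Q : Type} [Lp Q] (x y z : Q) : LL x y • z = ld (x * y) (x * (y * z)) := by
  unfold LL
  rw [mul_smul, mul_smul]
  rfl

theorem j37_RR_smul {Q : Type} [Lp Q] (x y z : Q) : RR x y • z = rd ((z * x) * y) (x * y) := by
  unfold RR
  rw [mul_smul, mul_smul]
  rfl

theorem j37_T_inv_smul {Q : Type} [Lp Q] (x z : Q) : (T x)⁻¹ • z = rd (x * z) x := by
  unfold T
  rw [mul_inv_rev, inv_inv, mul_smul]
  rfl

theorem j37_abInn {Q : Type} [Lp Q]
    (hcomm : ∀ f g : Q → Q,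
        ((∃ x y, f = fun z => ld (x * y) (x * (y * z))) ∨
         (∃ x y, f = fun z => rd ((z * x) * y) (x * y)) ∨
         (∃ x, f = fun z => rd (x * z) x)) →
        ((∃ x y, g = fun z => ld (x * y) (x * (y * z))) ∨
         (∃ x y, g = fun z => rd ((z * x) * y) (x * y)) ∨
         (∃ x, g = fun z => rd (x * z) x)) →
        f ∘ g = g ∘ f) : AbInn Q := by
  -- the generators
  let gen : MG Q → Prop := fun g => (∃ x y, g = LL x y) ∨ (∃ x y, g = RR x y) ∨ (∃ x, g = (T x)⁻¹)
  have hform : ∀ g : MG Q, gen g →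
      ((∃ x y, (fun z : Q => g • z) = fun z => ld (x * y) (x * (y * z))) ∨
         (∃ x y, (fun z : Q => g • z) = fun z => rd ((z * x) * y) (x * y)) ∨
         (∃ x, (fun z : Q => g • z) = fun z => rd (x * z) x)) := by
    intro g hg
    rcases hg with ⟨x, y, rfl⟩ | ⟨x, y, rfl⟩ | ⟨x, rfl⟩
    · exact Or.inl ⟨x, y, funext fun z => j37_LL_smul x y z⟩
    · exact Or.inr (Or.inl ⟨x, y, funext fun z => j37_RR_smul x y z⟩)
    · exact Or.inr (Or.inr ⟨x, funext fun z => j37_T_inv_smul x z⟩)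
  have hgen : ∀ g h : MG Q, gen g → gen h → g * h = h * g := by
    intro g h hg hh
    apply MG_ext
    intro x
    rw [mul_smul, mul_smul]
    exact congrFun (hcomm _ _ (hform g hg) (hform h hh)) x
  have key : ∀ c : MG Q, (∀ g, gen g → c * g = g * c) → ∀ h ∈ H Q, c * h = h * c := by
    intro c hc h hh
    have hmem : h ∈ Subgroup.centralizer ({c} : Set (MG Q)) := by
      refine H_ind _ ?_ ?_ ?_ hh
      · intro x
        have h1 : (T x)⁻¹ ∈ Subgroup.centralizer ({c} : Set (MG Q)) := by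
          rw [Subgroup.mem_centralizer_singleton_iff]
          exact (hc _ (Or.inr (Or.inr ⟨x, rfl⟩))).symm
        exact (Subgroup.inv_mem_iff _).1 h1
      · intro x y
        rw [Subgroup.mem_centralizer_singleton_iff]
        exact (hc _ (Or.inl ⟨x, y, rfl⟩)).symm
      · intro x y
        rw [Subgroup.mem_centralizer_singleton_iff]
        exact (hc _ (Or.inr (Or.inl ⟨x, y, rfl⟩))).symm
    rw [Subgroup.mem_centralizer_singleton_iff] at hmem
    exact hmem.symm
  refine ⟨?_⟩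
  intro a ha b hb
  refine key a ?_ b hb
  intro g hg
  exact (key g (fun g' hg' => hgen g g' hg hg') a ha).symm

theorem j37_ex_iff {Q : Type} [Lp Q] (k : ℕ) (u v : Q) :
    (∃ n ∈ Zs Q k, u = v * n) ↔ rel k v u := by
  constructor
  · rintro ⟨n, hn, rfl⟩
    show ld v (v * n) ∈ Zs Q k
    rw [ld_mul]
    exact hn
  · intro h
    exact ⟨ld v u, h, (mul_ld v u).symm⟩

theorem j37_step {Q : Type} [Lp Q] (k : ℕ) (a : Q) :
    a ∈ Zs Q (k + 1) ↔ ∀ x y : Q,
      rel k (a * x) (x * a) ∧ rel k ((a * x) * y) (a * (x * y)) ∧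
      rel k ((x * a) * y) (x * (a * y)) ∧ rel k ((x * y) * a) (x * (y * a)) := by
  constructor
  · intro ha x y
    -- h1 x : a * x ~ x * a
    have h1 : ∀ x : Q, rel k (a * x) (x * a) := by
      intro x
      have h := central ha (L x) (1 : Q)
      rw [L_smul, L_smul, mul_one', mul_one'] at h
      exact rel_symm h
    have h2 : ∀ x y : Q, rel k ((a * x) * y) (a * (x * y)) := by
      intro x y
      have h := central ha (R y) x
      rw [R_smul, R_smul] at h
      exact h
    have h3 : ∀ x y : Q, rel k (x * (a * y)) (a * (x * y)) := by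
      intro x y
      have h := central ha (L x) y
      rw [L_smul, L_smul] at h
      exact h
    refine ⟨h1 x, h2 x y, ?_, ?_⟩
    · -- (x * a) * y ~ (a * x) * y ~ a * (x * y) ~ x * (a * y)
      have e1 : rel k ((x * a) * y) ((a * x) * y) := by
        have h := rel_smul (R y) (rel_symm (h1 x))
        rw [R_smul, R_smul] at h
        exact h
      exact rel_trans e1 (rel_trans (h2 x y) (rel_symm (h3 x y)))
    · -- (x*y)*a ~ a*(x*y) ~ x*(a*y) ~ x*(y*a)
      have e1 : rel k (x * (a * y)) (x * (y * a)) := by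
        have h := rel_smul (L x) (h1 y)
        rw [L_smul, L_smul] at h
        exact h
      exact rel_trans (rel_symm (h1 (x * y))) (rel_trans (rel_symm (h3 x y)) e1)
  · intro h
    rw [mem_Zs_succ]
    intro g hg
    let S : Subgroup (MG Q) :=
      { carrier := {g | rel k a (g • a)}
        mul_mem' := by
          intro p q hp hq
          show rel k a ((p * q) • a)
          rw [mul_smul]
          exact rel_trans hp (rel_smul p hq)
        one_mem' := by
          show rel k a ((1 : MG Q) • a)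
          rw [one_smul]
          exact rel_refl k a
        inv_mem' := by
          intro p hp
          show rel k a (p⁻¹ • a)
          have h := rel_smul p⁻¹ hp
          rw [inv_smul_smul] at h
          exact rel_symm h }
    have hg' : g ∈ S := by
      refine H_ind S ?_ ?_ ?_ hg
      · intro x
        have h1 : (T x)⁻¹ ∈ S := by
          show rel k a ((T x)⁻¹ • a)
          rw [j37_T_inv_smul]
          have h2 := rel_smul (R x)⁻¹ (h x 1).1
          rw [R_inv_smul, R_inv_smul, mul_rd] at h2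
          exact h2
        exact (Subgroup.inv_mem_iff _).1 h1
      · intro x y
        show rel k a (LL x y • a)
        rw [j37_LL_smul]
        have h2 := rel_smul (L (x * y))⁻¹ (h x y).2.2.2
        rw [L_inv_smul, L_inv_smul, ld_mul] at h2
        exact h2
      · intro x y
        show rel k a (RR x y • a)
        rw [j37_RR_smul]
        have h2 := rel_smul (R (x * y))⁻¹ (h x y).2.1
        rw [R_inv_smul, R_inv_smul, mul_rd] at h2
        exact rel_symm h2
    exact hg'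

theorem j37_core {Q : Type} [Lp Q]
    (hcomm : ∀ f g : Q → Q,
        ((∃ x y, f = fun z => ld (x * y) (x * (y * z))) ∨
         (∃ x y, f = fun z => rd ((z * x) * y) (x * y)) ∨
         (∃ x, f = fun z => rd (x * z) x)) →
        ((∃ x y, g = fun z => ld (x * y) (x * (y * z))) ∨
         (∃ x y, g = fun z => rd ((z * x) * y) (x * y)) ∨
         (∃ x, g = fun z => rd (x * z) x)) →
        f ∘ g = g ∘ f)
    (Z : ℕ → Set Q) (hZ0 : Z 0 = {1})
    (hZs : ∀ k, Z (k + 1) = {a | ∀ x y : Q,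
            (∃ n ∈ Z k, x * a = (a * x) * n) ∧
            (∃ n ∈ Z k, a * (x * y) = ((a * x) * y) * n) ∧
            (∃ n ∈ Z k, x * (a * y) = ((x * a) * y) * n) ∧
            (∃ n ∈ Z k, x * (y * a) = ((x * y) * a) * n)})
    (n : ℕ) (hn : Z n = Set.univ) : Z 3 = Set.univ := by
  haveI : AbInn Q := j37_abInn hcomm
  have hZ : ∀ k, Z k = Zs Q k := by
    intro k
    induction k with
    | zero => exact hZ0
    | succ k ih =>
      rw [hZs k, ih]
      ext a
      rw [j37_step]
      constructor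
      · intro h x y
        obtain ⟨h1, h2, h3, h4⟩ := h x y
        exact ⟨(j37_ex_iff k _ _).1 h1, (j37_ex_iff k _ _).1 h2, (j37_ex_iff k _ _).1 h3,
          (j37_ex_iff k _ _).1 h4⟩
      · intro h x y
        obtain ⟨h1, h2, h3, h4⟩ := h x y
        exact ⟨(j37_ex_iff k _ _).2 h1, (j37_ex_iff k _ _).2 h2, (j37_ex_iff k _ _).2 h3,
          (j37_ex_iff k _ _).2 h4⟩
  rw [hZ 3]
  rw [hZ n] at hn
  exact class_le_three n hn

/-- the frozen statement -/
theorem frozen :
    ¬ (∃ (Q : Type) (mul : Q → Q → Q) (e : Q) (ldiv rdiv : Q → Q → Q),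
      (∀ x, mul e x = x ∧ mul x e = x) ∧
      (∀ a b, mul a (ldiv a b) = b ∧ ldiv a (mul a b) = b ∧
              mul (rdiv b a) a = b ∧ rdiv (mul b a) a = b) ∧
      (∀ f g : Q → Q,
        ((∃ x y, f = fun z => ldiv (mul x y) (mul x (mul y z))) ∨
         (∃ x y, f = fun z => rdiv (mul (mul z x) y) (mul x y)) ∨
         (∃ x, f = fun z => rdiv (mul x z) x)) →
        ((∃ x y, g = fun z => ldiv (mul x y) (mul x (mul y z))) ∨
         (∃ x y, g = fun z => rdiv (mul (mul z x) y) (mul x y)) ∨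
         (∃ x, g = fun z => rdiv (mul x z) x)) →
        f ∘ g = g ∘ f) ∧
      ∃ Z : ℕ → Set Q,
        Z 0 = {e} ∧
        (∀ k, Z (k + 1) = {a | ∀ x y,
            (∃ n ∈ Z k, mul x a = mul (mul a x) n) ∧
            (∃ n ∈ Z k, mul a (mul x y) = mul (mul (mul a x) y) n) ∧
            (∃ n ∈ Z k, mul x (mul a y) = mul (mul (mul x a) y) n) ∧
            (∃ n ∈ Z k, mul x (mul y a) = mul (mul (mul x y) a) n)}) ∧
        (∃ n, Z n = Set.univ) ∧
        Z 3 ≠ Set.univ) := by
  rintro ⟨Q, mul, e, ldiv, rdiv, hunit, hdiv, hcomm, Z, hZ0, hZs, ⟨n, hn⟩, h3⟩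
  letI inst : Lp Q :=
    { mul := mul
      one := e
      ld := ldiv
      rd := rdiv
      one_mul' := fun x => (hunit x).1
      mul_one' := fun x => (hunit x).2
      mul_ld := fun a b => (hdiv a b).1
      ld_mul := fun a b => (hdiv a b).2.1
      rd_mul := fun a b => (hdiv a b).2.2.1
      mul_rd := fun a b => (hdiv a b).2.2.2 }
  exact h3 (@j37_core Q inst hcomm Z hZ0 hZs n hn)

end Pool.Agent.AIM3
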